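import Pool.Agent.Work.MP_ab1db7_an.Subharm

/-! # MP_ab1db7_an: the a priori inequality behind the corona theorem -/

set_option autoImplicit false

open MeasureTheory Complex Filter Topology Asymptotics Metric Set
open scoped ComplexConjugate

namespace Pool.Agent.Alling

/-- algebra -/
theorem alg_id {n : ℕ} (φ f f' b c e l l' : Fin n → ℂ) (h1 : ∑ j, φ j * f j = 1)
    (h2 : ∑ j, c j * f j = 0) (h3 : ∑ j, b j * f j + ∑ j, φ j * f' j = 0)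
    (h4 : ∑ j, e j * f j + ∑ j, c j * f' j = 0) :
    ∑ j, (e j * l j + c j * l' j) = ∑ i, ∑ j, ((φ i * e j + b i * c j) * (f i * l j - f j * l i) +
      φ i * c j * (f' i * l j + f i * l' j - f' j * l i - f j * l' i)) := by
  have hs : ∀ x y : Fin n → ℂ, ∑ i, ∑ j, x i * y j = (∑ i, x i) * ∑ j, y j :=
    fun x y => (Finset.sum_mul_sum _ _ _ _).symm
  have hR : ∑ i, ∑ j, ((φ i * e j + b i * c j) * (f i * l j - f j * l i) +
      φ i * c j * (f' i * l j + f i * l' j - f' j * l i - f j * l' i)) =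
      ∑ i, ∑ j, (φ i * f i) * (e j * l j) - ∑ i, ∑ j, (φ i * l i) * (e j * f j) +
      ∑ i, ∑ j, (b i * f i) * (c j * l j) - ∑ i, ∑ j, (b i * l i) * (c j * f j) +
      ∑ i, ∑ j, (φ i * f' i) * (c j * l j) + ∑ i, ∑ j, (φ i * f i) * (c j * l' j) -
      ∑ i, ∑ j, (φ i * l i) * (c j * f' j) - ∑ i, ∑ j, (φ i * l' i) * (c j * f j) := by
    simp only [← Finset.sum_add_distrib, ← Finset.sum_sub_distrib]
    refine Finset.sum_congr rfl fun i _ => Finset.sum_congr rfl fun j _ => ?_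
    ring
  rw [hR]
  simp only [hs, h1, h2, Finset.sum_add_distrib]
  linear_combination (-(∑ j, c j * l j)) * h3 + (∑ j, φ j * l j) * h4

/-- data at a point -/
theorem point_bound {n : ℕ} (f f' l l' : Fin n → ℂ) {S D s0 : ℝ} (hs0 : 0 < s0) (hs1 : s0 ≤ 1)
    (hf : ∀ j, ‖f j‖ ≤ 1) (hS : (S : ℂ) = ∑ j, f j * conj (f j)) (hSs : s0 ≤ S)
    (hD : D = ∑ j, ‖f' j‖ ^ 2) (b c e : Fin n → ℂ) {σ : ℂ}
    (hσ : σ = ∑ j, f' j * conj (f j))
    (hb : ∀ j, b j = conj (f j) * (-((S : ℂ) ^ 2)⁻¹ * σ))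
    (hc : ∀ j, c j = conj (f j) * (-((S : ℂ) ^ 2)⁻¹ * conj σ) + conj (f' j) * ((S : ℂ))⁻¹)
    (he : ∀ j, e j = conj (f j) * (-((S : ℂ) ^ 2)⁻¹ * D + 2 * ((S : ℂ) ^ 3)⁻¹ * (σ * conj σ)) +
      conj (f' j) * (-((S : ℂ) ^ 2)⁻¹ * σ)) :
    ‖∑ j, (e j * l j + c j * l' j)‖ ≤ ((3 * n ^ 2 + 2 * n + 1) / s0 ^ 4) *
      ∑ i, ∑ j, (D * ‖f i * l j - f j * l i‖ +
        Real.sqrt D * ‖f' i * l j + f i * l' j - f' j * l i - f j * l' i‖) := by
  have hS0 : 0 < S := hs0.trans_le hSs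
  have hSne : (S : ℂ) ≠ 0 := by exact_mod_cast hS0.ne'
  have hcσ : conj σ = ∑ j, conj (f' j) * f j := by
    rw [hσ, map_sum]
    refine Finset.sum_congr rfl fun j _ => ?_
    rw [map_mul, Complex.conj_conj]
  have hDc : (D : ℂ) = ∑ j, conj (f' j) * f' j := by
    rw [hD]
    push_cast
    refine Finset.sum_congr rfl fun j _ => ?_
    rw [mul_comm, Complex.mul_conj, Complex.normSq_eq_norm_sq]
    push_cast; rfl
  obtain ⟨φ, hφ⟩ : ∃ φ : Fin n → ℂ, ∀ j, φ j = conj (f j) * ((S : ℂ))⁻¹ := ⟨_, fun _ => rfl⟩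
  have hS' : ∑ j, conj (f j) * f j = S := by
    rw [hS]; exact Finset.sum_congr rfl fun j _ => mul_comm _ _
  have hσ' : ∑ j, conj (f j) * f' j = σ := by
    rw [hσ]; exact Finset.sum_congr rfl fun j _ => mul_comm _ _
  have h1 : ∑ j, φ j * f j = 1 := by
    have : ∑ j, φ j * f j = (∑ j, conj (f j) * f j) * (S : ℂ)⁻¹ := by
      rw [Finset.sum_mul]
      exact Finset.sum_congr rfl fun j _ => by rw [hφ]; ring
    rw [this, hS', mul_inv_cancel₀ hSne]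
  have h2 : ∑ j, c j * f j = 0 := by
    have : ∑ j, c j * f j = (∑ j, conj (f j) * f j) * (-((S : ℂ) ^ 2)⁻¹ * conj σ) +
        (∑ j, conj (f' j) * f j) * (S : ℂ)⁻¹ := by
      rw [Finset.sum_mul, Finset.sum_mul, ← Finset.sum_add_distrib]
      exact Finset.sum_congr rfl fun j _ => by rw [hc]; ring
    rw [this, hS', ← hcσ]
    field_simp
    ring
  have h3 : ∑ j, b j * f j + ∑ j, φ j * f' j = 0 := by
    have t1 : ∑ j, b j * f j = (∑ j, conj (f j) * f j) * (-((S : ℂ) ^ 2)⁻¹ * σ) := by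
      rw [Finset.sum_mul]
      exact Finset.sum_congr rfl fun j _ => by rw [hb]; ring
    have t2 : ∑ j, φ j * f' j = (∑ j, conj (f j) * f' j) * (S : ℂ)⁻¹ := by
      rw [Finset.sum_mul]
      exact Finset.sum_congr rfl fun j _ => by rw [hφ]; ring
    rw [t1, t2, hS', hσ']
    field_simp
    ring
  have h4 : ∑ j, e j * f j + ∑ j, c j * f' j = 0 := by
    have t1 : ∑ j, e j * f j = (∑ j, conj (f j) * f j) *
        (-((S : ℂ) ^ 2)⁻¹ * D + 2 * ((S : ℂ) ^ 3)⁻¹ * (σ * conj σ)) +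
        (∑ j, conj (f' j) * f j) * (-((S : ℂ) ^ 2)⁻¹ * σ) := by
      rw [Finset.sum_mul, Finset.sum_mul, ← Finset.sum_add_distrib]
      exact Finset.sum_congr rfl fun j _ => by rw [he]; ring
    have t2 : ∑ j, c j * f' j = (∑ j, conj (f j) * f' j) * (-((S : ℂ) ^ 2)⁻¹ * conj σ) +
        (∑ j, conj (f' j) * f' j) * (S : ℂ)⁻¹ := by
      rw [Finset.sum_mul, Finset.sum_mul, ← Finset.sum_add_distrib]
      exact Finset.sum_congr rfl fun j _ => by rw [hc]; ring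
    rw [t1, t2, hS', hσ', ← hcσ, ← hDc]
    field_simp
    ring
  rw [alg_id φ f f' b c e l l' h1 h2 h3 h4]
  -- estimates
  obtain ⟨r, hr⟩ : ∃ r, r = Real.sqrt D := ⟨_, rfl⟩
  have hD0 : 0 ≤ D := by rw [hD]; positivity
  have hr0 : 0 ≤ r := by rw [hr]; positivity
  have hr2 : r ^ 2 = D := by rw [hr]; exact Real.sq_sqrt hD0
  have hf' : ∀ j, ‖f' j‖ ≤ r := by
    intro j
    rw [hr]
    refine Real.le_sqrt_of_sq_le ?_
    rw [hD]
    exact Finset.single_le_sum (f := fun j => ‖f' j‖ ^ 2) (fun i _ => by positivity)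
      (Finset.mem_univ j)
  have hn0 : (0 : ℝ) ≤ n := Nat.cast_nonneg n
  have hσn : ‖σ‖ ≤ n * r := by
    rw [hσ]
    refine (norm_sum_le _ _).trans ?_
    calc ∑ j, ‖f' j * conj (f j)‖ ≤ ∑ _j : Fin n, r := by
          refine Finset.sum_le_sum fun j _ => ?_
          rw [norm_mul, RCLike.norm_conj]
          calc ‖f' j‖ * ‖f j‖ ≤ r * 1 := mul_le_mul (hf' j) (hf j) (norm_nonneg _) hr0
            _ = r := mul_one r
      _ = n * r := by simp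
  have hSi : S⁻¹ ≤ s0⁻¹ := inv_anti₀ hs0 hSs
  have hSi0 : 0 ≤ S⁻¹ := by positivity
  have hnS : ∀ k : ℕ, ‖((S : ℂ) ^ k)⁻¹‖ ≤ s0⁻¹ ^ k := by
    intro k
    rw [norm_inv, norm_pow, Complex.norm_real, Real.norm_of_nonneg hS0.le, ← inv_pow]
    exact pow_le_pow_left₀ hSi0 hSi k
  obtain ⟨τ, hτ⟩ : ∃ τ, τ = s0⁻¹ := ⟨_, rfl⟩
  have hτ1 : 1 ≤ τ := by rw [hτ]; exact (one_le_inv₀ hs0).2 hs1
  have hτ0 : 0 ≤ τ := zero_le_one.trans hτ1
  rw [← hτ] at hnS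
  have hp : ∀ {k m : ℕ}, k ≤ m → τ ^ k ≤ τ ^ m := fun h => pow_le_pow_right₀ hτ1 h
  have hφb : ∀ j, ‖φ j‖ ≤ τ := by
    intro j
    rw [hφ, norm_mul, RCLike.norm_conj]
    have := hnS 1
    rw [pow_one, pow_one] at this
    calc ‖f j‖ * ‖(S : ℂ)⁻¹‖ ≤ 1 * τ := mul_le_mul (hf j) this (norm_nonneg _) zero_le_one
      _ = τ := one_mul _
  have hX : ‖-((S : ℂ) ^ 2)⁻¹ * σ‖ ≤ τ ^ 2 * (n * r) := by
    rw [norm_mul, norm_neg]
    exact mul_le_mul (hnS 2) hσn (norm_nonneg _) (by positivity)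
  have hX' : ‖-((S : ℂ) ^ 2)⁻¹ * conj σ‖ ≤ τ ^ 2 * (n * r) := by
    rw [norm_mul, norm_neg, RCLike.norm_conj]
    exact mul_le_mul (hnS 2) hσn (norm_nonneg _) (by positivity)
  have hbb : ∀ j, ‖b j‖ ≤ τ ^ 2 * (n * r) := by
    intro j
    rw [hb, norm_mul, RCLike.norm_conj]
    calc ‖f j‖ * ‖-((S : ℂ) ^ 2)⁻¹ * σ‖ ≤ 1 * (τ ^ 2 * (n * r)) :=
          mul_le_mul (hf j) hX (norm_nonneg _) zero_le_one
      _ = _ := one_mul _
  have hcb : ∀ j, ‖c j‖ ≤ τ ^ 2 * ((n + 1) * r) := by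
    intro j
    rw [hc]
    refine (norm_add_le _ _).trans ?_
    have t1 : ‖conj (f j) * (-((S : ℂ) ^ 2)⁻¹ * conj σ)‖ ≤ τ ^ 2 * (n * r) := by
      rw [norm_mul, RCLike.norm_conj]
      calc ‖f j‖ * ‖-((S : ℂ) ^ 2)⁻¹ * conj σ‖ ≤ 1 * (τ ^ 2 * (n * r)) :=
            mul_le_mul (hf j) hX' (norm_nonneg _) zero_le_one
        _ = _ := one_mul _
    have t2 : ‖conj (f' j) * (S : ℂ)⁻¹‖ ≤ τ ^ 2 * r := by
      rw [norm_mul, RCLike.norm_conj]
      have := hnS 1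
      rw [pow_one] at this
      calc ‖f' j‖ * ‖(S : ℂ)⁻¹‖ ≤ r * τ ^ 1 := mul_le_mul (hf' j) this (norm_nonneg _) hr0
        _ ≤ r * τ ^ 2 := mul_le_mul_of_nonneg_left (hp (by norm_num)) hr0
        _ = _ := mul_comm _ _
    linarith
  have heb : ∀ j, ‖e j‖ ≤ τ ^ 3 * ((2 * n ^ 2 + n + 1) * r ^ 2) := by
    intro j
    rw [he]
    refine (norm_add_le _ _).trans ?_
    have t1 : ‖conj (f j) * (-((S : ℂ) ^ 2)⁻¹ * D + 2 * ((S : ℂ) ^ 3)⁻¹ * (σ * conj σ))‖ ≤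
        τ ^ 3 * ((2 * n ^ 2 + 1) * r ^ 2) := by
      rw [norm_mul, RCLike.norm_conj]
      have t3 : ‖-((S : ℂ) ^ 2)⁻¹ * D‖ ≤ τ ^ 3 * r ^ 2 := by
        rw [norm_mul, norm_neg, Complex.norm_real, Real.norm_of_nonneg hD0, ← hr2]
        exact mul_le_mul_of_nonneg_right ((hnS 2).trans (hp (by norm_num))) (by positivity)
      have t4 : ‖2 * ((S : ℂ) ^ 3)⁻¹ * (σ * conj σ)‖ ≤ 2 * τ ^ 3 * (n * r) ^ 2 := by
        rw [norm_mul, norm_mul, norm_mul, RCLike.norm_conj, Complex.norm_two, ← sq]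
        exact mul_le_mul (mul_le_mul_of_nonneg_left (hnS 3) zero_le_two)
          (pow_le_pow_left₀ (norm_nonneg _) hσn 2) (by positivity) (by positivity)
      calc ‖f j‖ * ‖-((S : ℂ) ^ 2)⁻¹ * D + 2 * ((S : ℂ) ^ 3)⁻¹ * (σ * conj σ)‖
          ≤ 1 * (τ ^ 3 * r ^ 2 + 2 * τ ^ 3 * (n * r) ^ 2) :=
            mul_le_mul (hf j) ((norm_add_le _ _).trans (add_le_add t3 t4)) (norm_nonneg _)
              zero_le_one
        _ = _ := by ring
    have t2 : ‖conj (f' j) * (-((S : ℂ) ^ 2)⁻¹ * σ)‖ ≤ τ ^ 3 * (n * r ^ 2) := by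
      rw [norm_mul, RCLike.norm_conj]
      calc ‖f' j‖ * ‖-((S : ℂ) ^ 2)⁻¹ * σ‖ ≤ r * (τ ^ 2 * (n * r)) :=
            mul_le_mul (hf' j) hX (norm_nonneg _) hr0
        _ = τ ^ 2 * (n * r ^ 2) := by ring
        _ ≤ _ := mul_le_mul_of_nonneg_right (hp (by norm_num)) (by positivity)
    linarith
  have hK : (3 * (n : ℝ) ^ 2 + 2 * n + 1) / s0 ^ 4 = τ ^ 4 * (3 * n ^ 2 + 2 * n + 1) := by
    rw [hτ, inv_pow]; field_simp
  rw [hK]
  refine (norm_sum_le _ _).trans ?_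
  rw [Finset.mul_sum]
  refine Finset.sum_le_sum fun i _ => (norm_sum_le _ _).trans ?_
  rw [Finset.mul_sum]
  refine Finset.sum_le_sum fun j _ => (norm_add_le _ _).trans ?_
  rw [norm_mul, norm_mul, ← hr, mul_add]
  refine add_le_add ?_ ?_
  · rw [← mul_assoc]
    refine mul_le_mul_of_nonneg_right ?_ (norm_nonneg _)
    refine (norm_add_le _ _).trans ?_
    rw [norm_mul, norm_mul]
    calc ‖φ i‖ * ‖e j‖ + ‖b i‖ * ‖c j‖
        ≤ τ * (τ ^ 3 * ((2 * n ^ 2 + n + 1) * r ^ 2)) +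
          (τ ^ 2 * (n * r)) * (τ ^ 2 * ((n + 1) * r)) :=
          add_le_add (mul_le_mul (hφb i) (heb j) (norm_nonneg _) hτ0)
            (mul_le_mul (hbb i) (hcb j) (norm_nonneg _) (by positivity))
      _ = τ ^ 4 * (3 * n ^ 2 + 2 * n + 1) * D := by rw [← hr2]; ring
  · rw [← mul_assoc]
    refine mul_le_mul_of_nonneg_right ?_ (norm_nonneg _)
    rw [norm_mul]
    calc ‖φ i‖ * ‖c j‖ ≤ τ * (τ ^ 2 * ((n + 1) * r)) :=
          mul_le_mul (hφb i) (hcb j) (norm_nonneg _) hτ0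
      _ = τ ^ 3 * ((n + 1) * r) := by ring
      _ ≤ τ ^ 4 * ((3 * n ^ 2 + 2 * n + 1) * r) := by
        refine mul_le_mul (hp (by norm_num)) ?_ (by positivity) (by positivity)
        refine mul_le_mul_of_nonneg_right ?_ hr0
        nlinarith
      _ = _ := by ring

end Pool.Agent.Alling
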