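import Pool.Agent.Work.MP_ab1db7_an.AI

/-! # MP_ab1db7_an: the a priori inequality behind the corona theorem (jets) -/

set_option autoImplicit false

open MeasureTheory Complex Filter Topology Asymptotics Metric Set
open scoped ComplexConjugate

namespace Pool.Agent.Alling

/-- jet of `|m|²` -/
theorem J_normSq {m : ℂ → ℂ} {z : ℂ} (hm : AnalyticAt ℂ m z) :
    J (fun w => ((‖m w‖ ^ 2 : ℝ) : ℂ)) z (‖m z‖ ^ 2 : ℝ) (deriv m z * conj (m z))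
      (m z * conj (deriv m z)) (deriv m z * conj (deriv m z)) := by
  have h1 := J_analytic hm
  have h2 := (h1.mul h1.conj)
  have h3 : ∀ x : ℂ, ((‖x‖ ^ 2 : ℝ) : ℂ) = x * conj x := by
    intro x; rw [Complex.mul_conj, Complex.normSq_eq_norm_sq]
  refine (h2.congr (Eventually.of_forall fun u => (h3 (m u)).symm)).congr' (h3 _).symm ?_ ?_ ?_
  · simp
  · simp
  · simp

/-- jet of `u = √(|m|²+ε²)` -/
theorem J_u {m : ℂ → ℂ} {z : ℂ} (hm : AnalyticAt ℂ m z) {ε : ℝ} (hε : 0 < ε) :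
    ∃ b e : ℂ, J (fun w => ((Real.sqrt (‖m w‖ ^ 2 + ε ^ 2) : ℝ) : ℂ)) z
      (Real.sqrt (‖m z‖ ^ 2 + ε ^ 2) : ℝ) b (conj b) e ∧
      ‖deriv m z‖ ^ 2 / (4 * Real.sqrt (‖m z‖ ^ 2 + ε ^ 2)) ≤ e.re ∧
      2 * ‖b‖ ≤ ‖deriv m z‖ := by
  have ha : 0 < ‖m z‖ ^ 2 + ε ^ 2 := by positivity
  obtain ⟨u, hu⟩ : ∃ u, u = Real.sqrt (‖m z‖ ^ 2 + ε ^ 2) := ⟨_, rfl⟩
  have hu0 : 0 < u := by rw [hu]; exact Real.sqrt_pos.2 ha
  have hu2 : u ^ 2 = ‖m z‖ ^ 2 + ε ^ 2 := by rw [hu]; exact Real.sq_sqrt ha.le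
  have hum : ‖m z‖ ≤ u := by
    rw [hu]; refine Real.le_sqrt_of_sq_le ?_; have := sq_nonneg ε; linarith
  have h1 : J (fun w => ((‖m w‖ ^ 2 + ε ^ 2 : ℝ) : ℂ)) z ((‖m z‖ ^ 2 + ε ^ 2 : ℝ) : ℂ)
      (deriv m z * conj (m z)) (m z * conj (deriv m z)) (deriv m z * conj (deriv m z)) := by
    refine (((J_normSq hm).add (J_const z ((ε ^ 2 : ℝ) : ℂ))).congr
      (Eventually.of_forall fun u => ?_)).congr' ?_ ?_ ?_ ?_
    · push_cast; ring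
    · push_cast; ring
    · ring
    · ring
    · ring
  have h2 := J.rsqrt ha h1
  rw [← hu] at h2 ⊢
  refine ⟨_, _, h2.congr' rfl rfl ?_ rfl, ?_, ?_⟩
  · simp only [map_mul, map_inv₀, Complex.conj_ofReal, Complex.conj_conj, map_ofNat]
    ring
  · have h3 : ((2 * (u : ℂ))⁻¹ * (deriv m z * conj (deriv m z)) -
        (4 * (u : ℂ) ^ 3)⁻¹ * (deriv m z * conj (m z) * (m z * conj (deriv m z)))) =
        (((2 * u)⁻¹ * ‖deriv m z‖ ^ 2 - (4 * u ^ 3)⁻¹ * (‖deriv m z‖ ^ 2 * ‖m z‖ ^ 2) : ℝ) : ℂ) := by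
      have h4 : ∀ x : ℂ, x * conj x = ((‖x‖ ^ 2 : ℝ) : ℂ) := by
        intro x; rw [Complex.mul_conj, Complex.normSq_eq_norm_sq]
      have h5 : deriv m z * conj (m z) * (m z * conj (deriv m z)) =
          (deriv m z * conj (deriv m z)) * (m z * conj (m z)) := by ring
      rw [h5, h4, h4]
      push_cast
      ring
    rw [h3, Complex.ofReal_re]
    have h6 : (2 * u)⁻¹ * ‖deriv m z‖ ^ 2 - (4 * u ^ 3)⁻¹ * (‖deriv m z‖ ^ 2 * ‖m z‖ ^ 2) -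
        ‖deriv m z‖ ^ 2 / (4 * u) = ‖deriv m z‖ ^ 2 * (u ^ 2 - ‖m z‖ ^ 2) / (4 * u ^ 3) := by
      field_simp
      ring
    have h7 : 0 ≤ ‖deriv m z‖ ^ 2 * (u ^ 2 - ‖m z‖ ^ 2) / (4 * u ^ 3) := by
      have : 0 ≤ u ^ 2 - ‖m z‖ ^ 2 := by rw [hu2]; have := sq_nonneg ε; linarith
      positivity
    linarith
  · rw [norm_mul, norm_mul, norm_inv, norm_mul, RCLike.norm_conj, Complex.norm_two,
      Complex.norm_real, Real.norm_of_nonneg hu0.le]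
    have h8 : 2 * ((2 * u)⁻¹ * (‖deriv m z‖ * ‖m z‖)) = ‖deriv m z‖ * (‖m z‖ / u) := by
      field_simp
    rw [h8]
    have h9 : ‖m z‖ / u ≤ 1 := (div_le_one hu0).2 hum
    calc ‖deriv m z‖ * (‖m z‖ / u) ≤ ‖deriv m z‖ * 1 :=
          mul_le_mul_of_nonneg_left h9 (norm_nonneg _)
      _ = _ := mul_one _

/-- jet of `e^S u` -/
theorem J_eu {S u : ℂ → ℝ} {z : ℂ} {S0 u0 D m' : ℝ} {σ b e : ℂ} (hS0 : 0 ≤ S0) (hu0 : 0 < u0)
    (hD : 0 ≤ D) (hm' : 0 ≤ m')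
    (hS : J (fun w => (S w : ℂ)) z S0 σ (conj σ) D)
    (hu : J (fun w => (u w : ℂ)) z u0 b (conj b) e)
    (he : m' ^ 2 / (4 * u0) ≤ e.re) (hb : 2 * ‖b‖ ≤ m') :
    ∃ a' b' c' e' : ℂ, J (fun w => ((Real.exp (S w) * u w : ℝ) : ℂ)) z a' b' c' e' ∧
      D * u0 ≤ e'.re := by
  have h1 := (hS.rexp.mul hu)
  refine ⟨_, _, _, _, h1.congr (Eventually.of_forall fun w => by push_cast; rfl), ?_⟩
  obtain ⟨E, hE⟩ : ∃ E, E = Real.exp S0 := ⟨_, rfl⟩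
  have hE1 : 1 ≤ E := by rw [hE]; exact Real.one_le_exp hS0
  rw [← hE]
  have h2 : ((E : ℂ) * e + (E : ℂ) * ((D : ℂ) + σ * conj σ) * (u0 : ℂ) + (E : ℂ) * σ * conj b +
      (E : ℂ) * conj σ * b) = (E : ℂ) * (e + (((D + ‖σ‖ ^ 2) * u0 : ℝ) : ℂ) +
        (σ * conj b + conj (σ * conj b))) := by
    rw [Complex.mul_conj, Complex.normSq_eq_norm_sq, map_mul, Complex.conj_conj]
    push_cast
    ring
  rw [h2, Complex.re_ofReal_mul, Complex.add_re, Complex.add_re, Complex.ofReal_re,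
    Complex.add_conj, Complex.ofReal_re]
  have h3 : -(‖σ‖ * ‖b‖) ≤ (σ * conj b).re := by
    have := (abs_le.1 (Complex.abs_re_le_norm (σ * conj b))).1
    rwa [norm_mul, RCLike.norm_conj] at this
  have h4 : ‖σ‖ * m' ≤ m' ^ 2 / (4 * u0) + ‖σ‖ ^ 2 * u0 := by
    have h5 : m' ^ 2 / (4 * u0) + ‖σ‖ ^ 2 * u0 - ‖σ‖ * m' =
        (m' - 2 * u0 * ‖σ‖) ^ 2 / (4 * u0) := by
      field_simp
      ring
    have h6 : 0 ≤ (m' - 2 * u0 * ‖σ‖) ^ 2 / (4 * u0) := by positivity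
    linarith
  have h7 : D * u0 ≤ e.re + (D + ‖σ‖ ^ 2) * u0 + 2 * (σ * conj b).re := by
    have h8 : ‖σ‖ * (2 * ‖b‖) ≤ ‖σ‖ * m' := mul_le_mul_of_nonneg_left hb (norm_nonneg _)
    nlinarith
  have h9 : 0 ≤ D * u0 := by positivity
  calc D * u0 ≤ e.re + (D + ‖σ‖ ^ 2) * u0 + 2 * (σ * conj b).re := h7
    _ = 1 * (e.re + (D + ‖σ‖ ^ 2) * u0 + 2 * (σ * conj b).re) := (one_mul _).symm
    _ ≤ E * (e.re + (D + ‖σ‖ ^ 2) * u0 + 2 * (σ * conj b).re) :=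
      mul_le_mul_of_nonneg_right hE1 (h9.trans h7)

end Pool.Agent.Alling
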