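import Pool.Agent.Work.MP_ab1db7_an.AI2

/-! # MP_ab1db7_an: the a priori inequality behind the corona theorem (assembly) -/

set_option autoImplicit false

open MeasureTheory Complex Filter Topology Asymptotics Metric Set
open scoped ComplexConjugate

namespace Pool.Agent.Alling

variable {n : ℕ}

noncomputable def Sf (f : Fin n → ℂ → ℂ) (z : ℂ) : ℝ := ∑ j, ‖f j z‖ ^ 2

noncomputable def Psi (f l : Fin n → ℂ → ℂ) (z : ℂ) : ℂ :=
  ∑ j, conj (f j z) * ((((Sf f z)⁻¹ : ℝ)) : ℂ) * l j z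

noncomputable def mm (f l : Fin n → ℂ → ℂ) (i j : Fin n) (z : ℂ) : ℂ :=
  f i z * l j z - f j z * l i z

noncomputable def uu (f l : Fin n → ℂ → ℂ) (ε : ℝ) (i j : Fin n) (z : ℂ) : ℝ :=
  Real.sqrt (‖mm f l i j z‖ ^ 2 + ε ^ 2)

noncomputable def WW (f l : Fin n → ℂ → ℂ) (K ε : ℝ) (z : ℂ) : ℝ :=
  K * ∑ i, ∑ j, (2 * (Real.exp (Sf f z) * uu f l ε i j z) + uu f l ε i j z)

/-- jets of the comparison function -/
theorem jets_w (f l : Fin n → ℂ → ℂ) {z : ℂ} (hf : ∀ j, AnalyticAt ℂ (f j) z)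
    (hl : ∀ j, AnalyticAt ℂ (l j) z) (hf1 : ∀ j, ‖f j z‖ ≤ 1) {s0 : ℝ} (hs0 : 0 < s0)
    (hs1 : s0 ≤ 1) (hS : s0 ≤ Sf f z) {ε : ℝ} (hε : 0 < ε) {α : ℂ} (hα : ‖α‖ = 1) :
    ∃ a b c e : ℂ, J (fun w => ((WW f l ((3 * n ^ 2 + 2 * n + 1) / s0 ^ 4) ε w -
      (α * Psi f l w).re : ℝ) : ℂ)) z a b c e ∧ 0 ≤ e.re := by
  obtain ⟨K, hK⟩ : ∃ K : ℝ, K = (3 * n ^ 2 + 2 * n + 1) / s0 ^ 4 := ⟨_, rfl⟩
  have hK0 : 0 ≤ K := by rw [hK]; positivity
  rw [← hK]
  -- the jet of `S`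
  obtain ⟨σ, hσ⟩ : ∃ σ : ℂ, σ = ∑ j, deriv (f j) z * conj (f j z) := ⟨_, rfl⟩
  obtain ⟨D, hD⟩ : ∃ D : ℝ, D = ∑ j, ‖deriv (f j) z‖ ^ 2 := ⟨_, rfl⟩
  have hD0 : 0 ≤ D := by rw [hD]; positivity
  have hnsq : ∀ x : ℂ, x * conj x = ((‖x‖ ^ 2 : ℝ) : ℂ) := by
    intro x; rw [Complex.mul_conj, Complex.normSq_eq_norm_sq]
  have hSJ : J (fun w => (Sf f w : ℂ)) z (Sf f z) σ (conj σ) D := by
    have h1 := J.sum (z := z) Finset.univ (F := fun j w => ((‖f j w‖ ^ 2 : ℝ) : ℂ))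
      (fun j _ => J_normSq (hf j))
    refine (h1.congr (Eventually.of_forall fun w => ?_)).congr' ?_ ?_ ?_ ?_
    · simp only [Sf]; push_cast; rfl
    · simp only [Sf]; push_cast; rfl
    · exact hσ.symm
    · rw [hσ, map_sum]
      refine Finset.sum_congr rfl fun j _ => ?_
      rw [map_mul, Complex.conj_conj, mul_comm]
    · rw [hD]
      push_cast
      refine Finset.sum_congr rfl fun j _ => ?_
      rw [hnsq]; push_cast; rfl
  have hSpos : 0 < Sf f z := hs0.trans_le hS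
  have hSi := J.rinv hSpos hSJ
  -- the jet of `Ψ`
  obtain ⟨b, hb⟩ : ∃ b : Fin n → ℂ, ∀ j, b j = conj (f j z) * (-((Sf f z : ℂ) ^ 2)⁻¹ * σ) :=
    ⟨_, fun _ => rfl⟩
  obtain ⟨c, hc⟩ : ∃ c : Fin n → ℂ, ∀ j, c j = conj (f j z) * (-((Sf f z : ℂ) ^ 2)⁻¹ * conj σ) +
      conj (deriv (f j) z) * ((Sf f z : ℂ))⁻¹ := ⟨_, fun _ => rfl⟩
  obtain ⟨e, he⟩ : ∃ e : Fin n → ℂ, ∀ j, e j =
      conj (f j z) * (-((Sf f z : ℂ) ^ 2)⁻¹ * D + 2 * ((Sf f z : ℂ) ^ 3)⁻¹ * (σ * conj σ)) +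
      conj (deriv (f j) z) * (-((Sf f z : ℂ) ^ 2)⁻¹ * σ) := ⟨_, fun _ => rfl⟩
  have hφJ : ∀ j, J (fun w => conj (f j w) * ((((Sf f w)⁻¹ : ℝ)) : ℂ)) z
      (conj (f j z) * ((((Sf f z)⁻¹ : ℝ)) : ℂ)) (b j) (c j) (e j) := by
    intro j
    refine ((J_analytic (hf j)).conj.mul hSi).congr' rfl ?_ ?_ ?_
    · rw [hb, map_zero]; ring
    · rw [hc]; push_cast; ring
    · rw [he, map_zero]; ring
  have hΨJ : J (fun w => Psi f l w) z (Psi f l z)
      (∑ j, (conj (f j z) * ((((Sf f z)⁻¹ : ℝ)) : ℂ) * deriv (l j) z + b j * l j z))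
      (∑ j, c j * l j z) (∑ j, (e j * l j z + c j * deriv (l j) z)) := by
    have h1 := J.sum (z := z) Finset.univ
      (F := fun j w => conj (f j w) * ((((Sf f w)⁻¹ : ℝ)) : ℂ) * l j w)
      (fun j _ => (hφJ j).mul (J_analytic (hl j)))
    refine h1.congr' rfl rfl ?_ ?_
    · exact Finset.sum_congr rfl fun j _ => by ring
    · exact Finset.sum_congr rfl fun j _ => by ring
  -- the bound for `∂∂̄Ψ`
  have hbound := point_bound (fun j => f j z) (fun j => deriv (f j) z) (fun j => l j z)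
    (fun j => deriv (l j) z) hs0 hs1 hf1 (S := Sf f z) (D := D)
    (by simp only [Sf]; push_cast; exact Finset.sum_congr rfl fun j _ => by
          rw [hnsq]; push_cast; rfl)
    hS hD b c e hσ hb hc he
  rw [← hK] at hbound
  -- jets of the `u_{ij}`
  have hma : ∀ i j, AnalyticAt ℂ (mm f l i j) z := fun i j =>
    ((hf i).mul (hl j)).sub ((hf j).mul (hl i))
  have hmd : ∀ i j, deriv (mm f l i j) z = deriv (f i) z * l j z + f i z * deriv (l j) z -
      deriv (f j) z * l i z - f j z * deriv (l i) z := by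
    intro i j
    have h1 := ((hf i).differentiableAt.hasDerivAt.mul (hl j).differentiableAt.hasDerivAt).sub
      ((hf j).differentiableAt.hasDerivAt.mul (hl i).differentiableAt.hasDerivAt)
    have h2 : HasDerivAt (mm f l i j) _ z := h1
    rw [h2.deriv]; ring
  have hu : ∀ i j, ∃ b e : ℂ, J (fun w => (uu f l ε i j w : ℂ)) z (uu f l ε i j z : ℝ) b (conj b) e ∧
      ‖deriv (mm f l i j) z‖ ^ 2 / (4 * uu f l ε i j z) ≤ e.re ∧
      2 * ‖b‖ ≤ ‖deriv (mm f l i j) z‖ := fun i j => J_u (hma i j) hε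
  have hu0 : ∀ i j, 0 < uu f l ε i j z := fun i j => Real.sqrt_pos.2 (by positivity)
  have hmu : ∀ i j, ‖mm f l i j z‖ ≤ uu f l ε i j z := fun i j => by
    refine Real.le_sqrt_of_sq_le ?_; have := sq_nonneg ε; linarith
  have hpair : ∀ i j, ∃ a b c e : ℂ, J (fun w => ((2 * (Real.exp (Sf f w) * uu f l ε i j w) +
      uu f l ε i j w : ℝ) : ℂ)) z a b c e ∧
      D * ‖mm f l i j z‖ + Real.sqrt D * ‖deriv (mm f l i j) z‖ ≤ e.re := by
    intro i j
    obtain ⟨b1, e1, hJ1, hE1, hB1⟩ := hu i j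
    obtain ⟨a2, b2, c2, e2, hJ2, hE2⟩ := J_eu (S := Sf f) (u := uu f l ε i j) hSpos.le (hu0 i j) hD0
      (norm_nonneg (deriv (mm f l i j) z)) hSJ hJ1 hE1 hB1
    refine ⟨_, _, _, _, ((hJ2.smul 2).add hJ1).congr (Eventually.of_forall fun w => ?_), ?_⟩
    · push_cast; ring
    · have h3 : (2 * e2 + e1 : ℂ).re = 2 * e2.re + e1.re := by simp
      rw [h3]
      have h4 : Real.sqrt D * ‖deriv (mm f l i j) z‖ ≤ D * uu f l ε i j z +
          ‖deriv (mm f l i j) z‖ ^ 2 / (4 * uu f l ε i j z) := by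
        obtain ⟨u, hu⟩ : ∃ u, u = uu f l ε i j z := ⟨_, rfl⟩
        obtain ⟨m, hm⟩ : ∃ m, m = ‖deriv (mm f l i j) z‖ := ⟨_, rfl⟩
        obtain ⟨r, hr⟩ : ∃ r, r = Real.sqrt D := ⟨_, rfl⟩
        have hu0' : 0 < u := hu ▸ hu0 i j
        rw [← hu, ← hm, ← hr]
        have hrD : D = r ^ 2 := by rw [hr]; exact (Real.sq_sqrt hD0).symm
        rw [hrD]
        have h5 : r ^ 2 * u + m ^ 2 / (4 * u) - r * m = (2 * u * r - m) ^ 2 / (4 * u) := by
          field_simp
          ring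
        have h6 : 0 ≤ (2 * u * r - m) ^ 2 / (4 * u) := by positivity
        linarith
      have h5 : D * ‖mm f l i j z‖ ≤ D * uu f l ε i j z :=
        mul_le_mul_of_nonneg_left (hmu i j) hD0
      linarith
  choose a3 b3 c3 e3 hJ3 hE3 using hpair
  have hW := (J.sum (z := z) Finset.univ (fun i _ => J.sum (z := z) Finset.univ
    (fun j _ => hJ3 i j))).smul (K : ℂ)
  have hαJ := hΨJ.smul α
  have hfin := hW.add ((hαJ.add hαJ.conj).smul (-(1 / 2)))
  refine ⟨_, _, _, _, hfin.congr (Eventually.of_forall fun w => ?_), ?_⟩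
  · have h2 : (((α * Psi f l w).re : ℝ) : ℂ) = (α * Psi f l w + conj (α * Psi f l w)) / 2 := by
      rw [Complex.add_conj]; push_cast; ring
    dsimp only
    rw [Complex.ofReal_sub, h2]
    simp only [WW]
    push_cast
    ring
  · obtain ⟨E, hE⟩ : ∃ E : ℂ, E = ∑ j, (e j * l j z + c j * deriv (l j) z) := ⟨_, rfl⟩
    rw [← hE] at hbound ⊢
    have h4 : (-(1 / 2) * (α * E + conj (α * E)) : ℂ) = ((-(α * E).re : ℝ) : ℂ) := by
      rw [Complex.add_conj]; push_cast; ring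
    rw [h4, Complex.add_re, Complex.re_ofReal_mul, Complex.ofReal_re]
    have h5 : (α * E).re ≤ ‖E‖ := by
      have := Complex.re_le_norm (α * E)
      rwa [norm_mul, hα, one_mul] at this
    have h6 : ‖E‖ ≤ K * (∑ i, ∑ j, e3 i j).re := by
      refine hbound.trans ?_
      refine mul_le_mul_of_nonneg_left ?_ hK0
      rw [Complex.re_sum]
      refine Finset.sum_le_sum fun i _ => ?_
      rw [Complex.re_sum]
      refine Finset.sum_le_sum fun j _ => ?_
      have := hE3 i j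
      rw [hmd] at this
      exact this
    linarith

theorem analytic_of_dcc {F : ℂ → ℂ} (h : DiffContOnCl ℂ F (ball 0 1)) {z : ℂ}
    (hz : z ∈ ball (0 : ℂ) 1) : AnalyticAt ℂ F z :=
  h.differentiableOn.analyticAt (isOpen_ball.mem_nhds hz)

theorem cont_of_dcc {F : ℂ → ℂ} (h : DiffContOnCl ℂ F (ball 0 1)) :
    ContinuousOn F (closedBall 0 1) := by
  have := h.continuousOn
  rwa [closure_ball (0 : ℂ) one_ne_zero] at this

/-- **a priori inequality** -/
theorem apriori (f l : Fin n → ℂ → ℂ) (hf : ∀ j, DiffContOnCl ℂ (f j) (ball 0 1))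
    (hl : ∀ j, DiffContOnCl ℂ (l j) (ball 0 1)) (hl0 : ∀ j, l j 0 = 0)
    (hf1 : ∀ j, ∀ z ∈ closedBall (0 : ℂ) 1, ‖f j z‖ ≤ 1) {s0 : ℝ} (hs0 : 0 < s0)
    (hs1 : s0 ≤ 1) (hS : ∀ z ∈ closedBall (0 : ℂ) 1, s0 ≤ Sf f z) (κ : C(𝕋, ℂ))
    (k : Fin n → 𝕋 → ℂ)
    (hk : ∀ j t, k j t = f j (fourier 1 t) * κ t + l j (fourier 1 t)) :
    ‖∫ t, κ t ∂μ‖ ≤ (1 / s0 + (3 * n ^ 2 + 2 * n + 1) / s0 ^ 4 * (2 * Real.exp n + 1) * (2 * n)) *
      ∑ j, ∫ t, ‖k j t‖ ∂μ := by
  obtain ⟨K, hK⟩ : ∃ K : ℝ, K = (3 * n ^ 2 + 2 * n + 1) / s0 ^ 4 := ⟨_, rfl⟩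
  have hK0 : 0 ≤ K := by rw [hK]; positivity
  -- continuity
  have cf : ∀ j, ContinuousOn (f j) (closedBall 0 1) := fun j => cont_of_dcc (hf j)
  have cl : ∀ j, ContinuousOn (l j) (closedBall 0 1) := fun j => cont_of_dcc (hl j)
  have cS : ContinuousOn (Sf f) (closedBall 0 1) :=
    continuousOn_finsetSum _ fun j _ => (cf j).norm.pow 2
  have cSi : ContinuousOn (fun z => (((Sf f z)⁻¹ : ℝ) : ℂ)) (closedBall 0 1) :=
    Complex.continuous_ofReal.comp_continuousOn
      (cS.inv₀ fun z hz => (hs0.trans_le (hS z hz)).ne')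
  have cφ : ∀ j, ContinuousOn (fun z => conj (f j z) * (((Sf f z)⁻¹ : ℝ) : ℂ)) (closedBall 0 1) :=
    fun j => (Complex.continuous_conj.comp_continuousOn (cf j)).mul cSi
  have cΨ : ContinuousOn (Psi f l) (closedBall 0 1) :=
    continuousOn_finsetSum _ fun j _ => (cφ j).mul (cl j)
  have cm : ∀ i j, ContinuousOn (mm f l i j) (closedBall 0 1) := fun i j =>
    ((cf i).mul (cl j)).sub ((cf j).mul (cl i))
  have cu : ∀ ε i j, ContinuousOn (uu f l ε i j) (closedBall 0 1) := fun ε i j =>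
    (((cm i j).norm.pow 2).add continuousOn_const).sqrt
  have cW : ∀ ε, ContinuousOn (WW f l K ε) (closedBall 0 1) := fun ε =>
    continuousOn_const.mul (continuousOn_finsetSum _ fun i _ => continuousOn_finsetSum _ fun j _ =>
      (continuousOn_const.mul ((Real.continuous_exp.comp_continuousOn cS).mul (cu ε i j))).add
        (cu ε i j))
  have ck : ∀ j, Continuous (k j) := by
    intro j
    have : k j = fun t => f j (fourier 1 t) * κ t + l j (fourier 1 t) := funext fun t => hk j t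
    rw [this]
    exact ((cont_bdry (cf j)).mul κ.continuous).add (cont_bdry (cl j))
  have cT : ∀ t : 𝕋, (fourier 1 t : ℂ) ∈ closedBall (0 : ℂ) 1 := fun t =>
    sphere_subset_closedBall (circ_mem t)
  -- the total norm
  obtain ⟨N, hN⟩ : ∃ N : ℝ, N = ∑ j, ∫ t, ‖k j t‖ ∂μ := ⟨_, rfl⟩
  rw [← hN, ← hK]
  have hN0 : 0 ≤ N := by
    rw [hN]; exact Finset.sum_nonneg fun j _ => integral_nonneg fun t => norm_nonneg _
  -- on the circle `∑ φ_j k_j = κ + Ψ`
  have hid : ∀ t : 𝕋, ∑ j, conj (f j (fourier 1 t)) * (((Sf f (fourier 1 t))⁻¹ : ℝ) : ℂ) * k j t =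
      κ t + Psi f l (fourier 1 t) := by
    intro t
    have hSt : Sf f (fourier 1 t) ≠ 0 := (hs0.trans_le (hS _ (cT t))).ne'
    have h1 : ∑ j, conj (f j (fourier 1 t)) * (((Sf f (fourier 1 t))⁻¹ : ℝ) : ℂ) *
        f j (fourier 1 t) = 1 := by
      have h2 : ∑ j, conj (f j (fourier 1 t)) * (((Sf f (fourier 1 t))⁻¹ : ℝ) : ℂ) *
        f j (fourier 1 t) = ((Sf f (fourier 1 t) : ℝ) : ℂ) *
          (((Sf f (fourier 1 t))⁻¹ : ℝ) : ℂ) := by
        simp only [Sf]
        push_cast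
        rw [Finset.sum_mul]
        refine Finset.sum_congr rfl fun j _ => ?_
        have h3 : ((‖f j (fourier 1 t)‖ : ℂ)) ^ 2 = f j (fourier 1 t) * conj (f j (fourier 1 t)) := by
          rw [Complex.mul_conj, Complex.normSq_eq_norm_sq]; push_cast; rfl
        rw [h3]
        ring
      rw [h2, ← Complex.ofReal_mul, mul_inv_cancel₀ hSt, Complex.ofReal_one]
    calc ∑ j, conj (f j (fourier 1 t)) * (((Sf f (fourier 1 t))⁻¹ : ℝ) : ℂ) * k j t
        = ∑ j, (conj (f j (fourier 1 t)) * (((Sf f (fourier 1 t))⁻¹ : ℝ) : ℂ) *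
          f j (fourier 1 t) * κ t + conj (f j (fourier 1 t)) *
            (((Sf f (fourier 1 t))⁻¹ : ℝ) : ℂ) * l j (fourier 1 t)) := by
          refine Finset.sum_congr rfl fun j _ => ?_
          rw [hk]; ring
      _ = _ := by
          rw [Finset.sum_add_distrib, ← Finset.sum_mul, h1, one_mul]; rfl
  have hΨ0 : Psi f l 0 = 0 := by
    simp only [Psi, hl0, mul_zero, Finset.sum_const_zero]
  -- bound for `∫ Ψ`
  have hmain : ∀ ε : ℝ, 0 < ε → ‖∫ t : 𝕋, Psi f l (fourier 1 t) ∂μ‖ ≤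
      K * (2 * Real.exp n + 1) * (2 * n * N + n ^ 2 * ε) := by
    intro ε hε
    obtain ⟨α, hα, hαv⟩ : ∃ α : ℂ, ‖α‖ = 1 ∧
        α * (∫ t : 𝕋, Psi f l (fourier 1 t) ∂μ) = ‖∫ t : 𝕋, Psi f l (fourier 1 t) ∂μ‖ := by
      by_cases h0 : (∫ t : 𝕋, Psi f l (fourier 1 t) ∂μ) = 0
      · exact ⟨1, by simp, by rw [h0]; simp⟩
      · refine ⟨(‖∫ t : 𝕋, Psi f l (fourier 1 t) ∂μ‖ : ℂ) / ∫ t : 𝕋, Psi f l (fourier 1 t) ∂μ,
          ?_, ?_⟩
        · rw [norm_div, Complex.norm_real, norm_norm, div_self (norm_ne_zero_iff.2 h0)]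
        · rw [div_mul_cancel₀ _ h0]
    have hsub := sub_mean (w := fun w => WW f l K ε w - (α * Psi f l w).re)
      ((cW ε).sub (Complex.continuous_re.comp_continuousOn (continuousOn_const.mul cΨ)))
      (fun z hz => by
        have := jets_w f l (fun j => analytic_of_dcc (hf j) hz) (fun j => analytic_of_dcc (hl j) hz)
          (fun j => hf1 j z (ball_subset_closedBall hz)) hs0 hs1
          (hS z (ball_subset_closedBall hz)) hε hα
        rw [← hK] at this
        exact this)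
    have hi2 : Integrable (fun t : 𝕋 => (α * Psi f l (fourier 1 t)).re) μ :=
      int_cont (Complex.continuous_re.comp (continuous_const.mul (cont_bdry cΨ)))
    rw [hΨ0, mul_zero, Complex.zero_re, sub_zero,
      integral_sub (int_cont (cont_bdry (cW ε))) hi2] at hsub
    have hW0 : 0 ≤ WW f l K ε 0 := by
      refine mul_nonneg hK0 (Finset.sum_nonneg fun i _ => Finset.sum_nonneg fun j _ => ?_)
      have : 0 ≤ uu f l ε i j 0 := Real.sqrt_nonneg _
      positivity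
    have hre : ∫ t : 𝕋, (α * Psi f l (fourier 1 t)).re ∂μ =
        ‖∫ t : 𝕋, Psi f l (fourier 1 t) ∂μ‖ := by
      have h1 := integral_re (𝕜 := ℂ) (int_cont (continuous_const.mul (cont_bdry cΨ) :
        Continuous fun t : 𝕋 => α * Psi f l (fourier 1 t)))
      have h2 : ∫ t : 𝕋, (α * Psi f l (fourier 1 t)).re ∂μ =
          (∫ t : 𝕋, α * Psi f l (fourier 1 t) ∂μ).re := h1
      rw [h2, integral_const_mul, hαv, Complex.ofReal_re]
    rw [hre] at hsub
    have hle : ∫ t : 𝕋, WW f l K ε (fourier 1 t) ∂μ ≤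
        K * (2 * Real.exp n + 1) * (2 * n * N + n ^ 2 * ε) := by
      have h1 : ∀ t : 𝕋, WW f l K ε (fourier 1 t) ≤ K * (2 * Real.exp n + 1) *
          ∑ i : Fin n, ∑ j : Fin n, ((‖k i t‖ + ‖k j t‖) + ε) := by
        intro t
        simp only [WW]
        rw [mul_assoc]
        refine mul_le_mul_of_nonneg_left ?_ hK0
        rw [Finset.mul_sum]
        refine Finset.sum_le_sum fun i _ => ?_
        rw [Finset.mul_sum]
        refine Finset.sum_le_sum fun j _ => ?_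
        have hm : mm f l i j (fourier 1 t) =
            f i (fourier 1 t) * k j t - f j (fourier 1 t) * k i t := by
          simp only [mm, hk]; ring
        have hmn : ‖mm f l i j (fourier 1 t)‖ ≤ ‖k i t‖ + ‖k j t‖ := by
          rw [hm]
          refine (norm_sub_le _ _).trans ?_
          rw [norm_mul, norm_mul, add_comm ‖k i t‖]
          exact add_le_add (mul_le_of_le_one_left (norm_nonneg _) (hf1 i _ (cT t)))
            (mul_le_of_le_one_left (norm_nonneg _) (hf1 j _ (cT t)))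
        have hu : uu f l ε i j (fourier 1 t) ≤ (‖k i t‖ + ‖k j t‖) + ε := by
          refine Real.sqrt_le_iff.2 ⟨by positivity, ?_⟩
          have h3 : ‖mm f l i j (fourier 1 t)‖ ^ 2 ≤ (‖k i t‖ + ‖k j t‖) ^ 2 :=
            pow_le_pow_left₀ (norm_nonneg _) hmn 2
          have h4 : 0 ≤ (‖k i t‖ + ‖k j t‖) * ε := by positivity
          nlinarith
        have hSn : Real.exp (Sf f (fourier 1 t)) ≤ Real.exp n := by
          refine Real.exp_le_exp.2 ?_
          calc Sf f (fourier 1 t) ≤ ∑ _j : Fin n, (1 : ℝ) := by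
                refine Finset.sum_le_sum fun j _ => ?_
                exact pow_le_one₀ (norm_nonneg _) (hf1 j _ (cT t))
            _ = n := by simp
        have hu0 : 0 ≤ uu f l ε i j (fourier 1 t) := Real.sqrt_nonneg _
        have h5 : Real.exp (Sf f (fourier 1 t)) * uu f l ε i j (fourier 1 t) ≤
            Real.exp n * ((‖k i t‖ + ‖k j t‖) + ε) :=
          mul_le_mul hSn hu hu0 (Real.exp_pos _).le
        linarith
      have h2 : ∫ t : 𝕋, K * (2 * Real.exp n + 1) *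
          ∑ i : Fin n, ∑ j : Fin n, ((‖k i t‖ + ‖k j t‖) + ε) ∂μ =
          K * (2 * Real.exp n + 1) * (2 * n * N + n ^ 2 * ε) := by
        rw [integral_const_mul]
        congr 1
        have cij : ∀ i j : Fin n, Continuous fun t : 𝕋 => ((‖k i t‖ + ‖k j t‖) + ε) := fun i j =>
          ((ck i).norm.add (ck j).norm).add continuous_const
        have ci : ∀ i : Fin n, Continuous fun t : 𝕋 => ∑ j : Fin n, ((‖k i t‖ + ‖k j t‖) + ε) :=
          fun i => continuous_finsetSum _ fun j _ => cij i j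
        rw [integral_finsetSum _ fun i _ => int_cont (ci i)]
        have h3 : ∀ i : Fin n, ∫ t : 𝕋, ∑ j : Fin n, ((‖k i t‖ + ‖k j t‖) + ε) ∂μ =
            n * (∫ t : 𝕋, ‖k i t‖ ∂μ) + N + n * ε := by
          intro i
          rw [integral_finsetSum _ fun j _ => int_cont (cij i j)]
          have h4 : ∀ j : Fin n, ∫ t : 𝕋, ((‖k i t‖ + ‖k j t‖) + ε) ∂μ =
              (∫ t : 𝕋, ‖k i t‖ ∂μ) + (∫ t : 𝕋, ‖k j t‖ ∂μ) + ε := by
            intro j
            have c2 : Continuous fun t : 𝕋 => ‖k i t‖ + ‖k j t‖ := (ck i).norm.add (ck j).norm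
            rw [integral_add (int_cont c2) (int_cont continuous_const),
              integral_add (int_cont (ck i).norm) (int_cont (ck j).norm)]
            simp
          simp only [h4, Finset.sum_add_distrib, Finset.sum_const, Finset.card_univ,
            Fintype.card_fin, nsmul_eq_mul]
          rw [hN]
        rw [Finset.sum_congr rfl fun i _ => h3 i]
        simp only [Finset.sum_add_distrib, ← Finset.mul_sum, Finset.sum_const,
          Finset.card_univ, Fintype.card_fin, nsmul_eq_mul]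
        rw [← hN]
        ring
      rw [← h2]
      refine integral_mono (int_cont (cont_bdry (cW ε))) (int_cont ?_) h1
      exact continuous_const.mul (continuous_finsetSum _ fun i _ => continuous_finsetSum _ fun j _ =>
          ((ck i).norm.add (ck j).norm).add continuous_const)
    linarith
  have hΨle : ‖∫ t : 𝕋, Psi f l (fourier 1 t) ∂μ‖ ≤ K * (2 * Real.exp n + 1) * (2 * n * N) := by
    refine le_of_forall_pos_le_add fun ε hε => ?_
    obtain ⟨η, hη, hηε⟩ : ∃ η : ℝ, 0 < η ∧ K * (2 * Real.exp n + 1) * (n ^ 2 * η) ≤ ε := by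
      obtain ⟨Q, hQ⟩ : ∃ Q : ℝ, Q = K * (2 * Real.exp n + 1) * n ^ 2 := ⟨_, rfl⟩
      have hQ0 : 0 ≤ Q := by rw [hQ]; positivity
      refine ⟨ε / (Q + 1), by positivity, ?_⟩
      have h1 : K * (2 * Real.exp n + 1) * (n ^ 2 * (ε / (Q + 1))) = ε * (Q / (Q + 1)) := by
        rw [hQ]; ring
      rw [h1]
      have h2 : Q / (Q + 1) ≤ 1 := by rw [div_le_one (by positivity)]; linarith
      exact mul_le_of_le_one_right hε.le h2
    have := hmain η hη
    calc ‖∫ t : 𝕋, Psi f l (fourier 1 t) ∂μ‖ ≤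
        K * (2 * Real.exp n + 1) * (2 * n * N + n ^ 2 * η) := this
      _ = K * (2 * Real.exp n + 1) * (2 * n * N) + K * (2 * Real.exp n + 1) * (n ^ 2 * η) := by
        ring
      _ ≤ _ := by linarith
  -- bound for `∫ ∑ φ_j k_j`
  have hφk : ‖∫ t : 𝕋, ∑ j, conj (f j (fourier 1 t)) *
      (((Sf f (fourier 1 t))⁻¹ : ℝ) : ℂ) * k j t ∂μ‖ ≤ 1 / s0 * N := by
    refine (norm_integral_le_integral_norm _).trans ?_
    have h1 : ∫ t : 𝕋, (1 / s0) * ∑ j, ‖k j t‖ ∂μ = 1 / s0 * N := by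
      rw [integral_const_mul, hN, integral_finsetSum _ fun j _ => int_cont (ck j).norm]
    rw [← h1]
    refine integral_mono (int_cont (continuous_finsetSum _ fun j _ =>
      (cont_bdry (cφ j)).mul (ck j)).norm) (int_cont (continuous_const.mul
        (continuous_finsetSum _ fun j _ => (ck j).norm))) fun t => ?_
    dsimp only
    refine (norm_sum_le _ _).trans ?_
    rw [Finset.mul_sum]
    refine Finset.sum_le_sum fun j _ => ?_
    rw [norm_mul]
    refine mul_le_mul_of_nonneg_right ?_ (norm_nonneg _)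
    have hSt : 0 < Sf f (fourier 1 t) := hs0.trans_le (hS _ (cT t))
    rw [norm_mul, RCLike.norm_conj, Complex.norm_real, Real.norm_of_nonneg (by positivity)]
    calc ‖f j (fourier 1 t)‖ * (Sf f (fourier 1 t))⁻¹ ≤ 1 * s0⁻¹ :=
          mul_le_mul (hf1 j _ (cT t)) (inv_anti₀ hs0 (hS _ (cT t))) (by positivity) zero_le_one
      _ = 1 / s0 := by ring
  have hfin : ∫ t, κ t ∂μ = (∫ t : 𝕋, ∑ j, conj (f j (fourier 1 t)) *
      (((Sf f (fourier 1 t))⁻¹ : ℝ) : ℂ) * k j t ∂μ) - ∫ t : 𝕋, Psi f l (fourier 1 t) ∂μ := by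
    have hi1 : Integrable (fun t : 𝕋 => ∑ j, conj (f j (fourier 1 t)) *
      (((Sf f (fourier 1 t))⁻¹ : ℝ) : ℂ) * k j t) μ := int_cont (continuous_finsetSum _ fun j _ =>
      (cont_bdry (cφ j)).mul (ck j))
    rw [← integral_sub hi1 (int_cont (cont_bdry cΨ))]
    refine integral_congr_ae (Eventually.of_forall fun t => ?_)
    dsimp only
    rw [hid]; ring
  rw [hfin]
  refine (norm_sub_le _ _).trans ?_
  calc _ ≤ 1 / s0 * N + K * (2 * Real.exp n + 1) * (2 * n * N) := add_le_add hφk hΨle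
    _ = _ := by ring

end Pool.Agent.Alling
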