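import Pool.Agent.Work.MP_ab1db7_an.Bdry6

/-! # MP_ab1db7_an, block B: boundary values and the algebra `A`

This file collects the parts `Bdry1`–`Bdry6`; the theorem `exists_ultrafilter` of the interface is
provided as `exists_ultrafilter_of_corona`, with the corona theorem as a hypothesis. -/
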