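import Pool.Agent.Work.MP_ab1db7_an.Defs2

/-! # MP_ab1db7_an, block B, part 1: Fourier coefficients of bounded functions -/

set_option autoImplicit false

open MeasureTheory Complex Set Filter Topology Metric

namespace Pool.Agent.Alling

theorem memLp_of_bdd {f : L0} {C : ℝ} (hf : BddBy f C) (p : ENNReal) :
    MemLp (f : 𝕋 → ℂ) p μ :=
  MemLp.of_bound f.aestronglyMeasurable C hf

theorem integrable_of_bdd {f : L0} {C : ℝ} (hf : BddBy f C) : Integrable (f : 𝕋 → ℂ) μ :=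
  memLp_one_iff_integrable.1 (memLp_of_bdd hf 1)

theorem coeff_norm_le {f : 𝕋 → ℂ} {C : ℝ} (hf : ∀ᵐ t ∂μ, ‖f t‖ ≤ C) (n : ℤ) :
    ‖fourierCoeff f n‖ ≤ C := by
  unfold fourierCoeff
  refine (norm_integral_le_of_norm_le_const (C := C) ?_).trans ?_
  · filter_upwards [hf] with t ht
    rw [norm_smul, fourier_apply, Circle.norm_coe, one_mul]; exact ht
  · simp

theorem coeff_add {f g : L0} {C D : ℝ} (hf : BddBy f C) (hg : BddBy g D) (n : ℤ) :
    fourierCoeff ((f + g : L0) : 𝕋 → ℂ) n =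
      fourierCoeff (f : 𝕋 → ℂ) n + fourierCoeff (g : 𝕋 → ℂ) n := by
  rw [fourierCoeff_congr_ae (AEEqFun.coeFn_add f g),
    fourierCoeff.add (integrable_of_bdd hf) (integrable_of_bdd hg)]
  rfl

theorem coeff_smul (f : L0) (c : ℂ) (n : ℤ) :
    fourierCoeff ((c • f : L0) : 𝕋 → ℂ) n = c * fourierCoeff (f : 𝕋 → ℂ) n := by
  rw [fourierCoeff_congr_ae (AEEqFun.coeFn_smul c f), fourierCoeff.const_smul]
  rfl

/-- Parseval: the convolution formula for the Fourier coefficients of a product. -/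
theorem coeff_mul {f g : L0} {C D : ℝ} (hf : BddBy f C) (hg : BddBy g D) (n : ℤ) :
    HasSum (fun k : ℤ => fourierCoeff (f : 𝕋 → ℂ) (n - k) * fourierCoeff (g : 𝕋 → ℂ) k)
      (fourierCoeff ((f * g : L0) : 𝕋 → ℂ) n) := by
  have hg2 : MemLp (g : 𝕋 → ℂ) 2 μ := memLp_of_bdd hg 2
  set u : 𝕋 → ℂ := fun t => (starRingEnd ℂ) (f t) * fourier n t with hu
  have hu2 : MemLp u 2 μ := by
    refine MemLp.of_bound ?_ C ?_
    · exact (Complex.continuous_conj.comp_aestronglyMeasurable f.aestronglyMeasurable).mul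
        (fourier n).continuous.aestronglyMeasurable
    · filter_upwards [hf] with t ht
      rw [hu]
      simp only [norm_mul, RCLike.norm_conj, fourier_apply, Circle.norm_coe, mul_one]
      exact ht
  have key := (fourierBasis (T := (1 : ℝ))).hasSum_inner_mul_inner hu2.toLp hg2.toLp
  have e1 : inner ℂ hu2.toLp hg2.toLp = fourierCoeff ((f * g : L0) : 𝕋 → ℂ) n := by
    rw [L2.inner_def, fourierCoeff]
    apply integral_congr_ae
    filter_upwards [hu2.coeFn_toLp, hg2.coeFn_toLp, AEEqFun.coeFn_mul f g] with t h1 h2 h3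
    rw [h1, h2, h3, hu]
    simp only [RCLike.inner_apply, map_mul, Complex.conj_conj, Pi.mul_apply, smul_eq_mul,
      fourier_neg]
    ring
  have e2 : ∀ k : ℤ, inner ℂ hu2.toLp (fourierBasis (T := (1 : ℝ)) k) =
      fourierCoeff (f : 𝕋 → ℂ) (n - k) := by
    intro k
    rw [L2.inner_def, fourierCoeff]
    apply integral_congr_ae
    have h4 := coeFn_fourierLp (T := (1 : ℝ)) 2 k
    rw [coe_fourierBasis]
    filter_upwards [hu2.coeFn_toLp, h4] with t h1 h2
    rw [h1, h2, hu]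
    simp only [RCLike.inner_apply, map_mul, Complex.conj_conj, smul_eq_mul]
    rw [← fourier_neg, show -(n - k) = k + -n by ring, fourier_add]
    ring
  have e3 : ∀ k : ℤ, inner ℂ (fourierBasis (T := (1 : ℝ)) k) hg2.toLp =
      fourierCoeff (g : 𝕋 → ℂ) k := by
    intro k
    rw [← HilbertBasis.repr_apply_apply, fourierBasis_repr]
    rw [fourierCoeff_congr_ae hg2.coeFn_toLp]
  simp only [e1, e2, e3] at key
  exact key

/-- a bounded function all of whose Fourier coefficients vanish is zero -/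
theorem eq_zero_of_coeff {f : L0} {C : ℝ} (hf : BddBy f C)
    (h : ∀ n : ℤ, fourierCoeff (f : 𝕋 → ℂ) n = 0) : f = 0 := by
  have hf2 : MemLp (f : 𝕋 → ℂ) 2 μ := memLp_of_bdd hf 2
  have h1 : (fourierBasis (T := (1 : ℝ))).repr hf2.toLp = 0 := by
    ext n
    rw [fourierBasis_repr, fourierCoeff_congr_ae hf2.coeFn_toLp, h n]
    rfl
  have h2 : hf2.toLp = 0 := by
    simpa using h1
  have h3 : (f : 𝕋 → ℂ) =ᵐ[μ] 0 := by
    have h4 := hf2.coeFn_toLp
    rw [h2] at h4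
    exact h4.symm.trans (Lp.coeFn_zero ℂ 2 μ)
  apply AEEqFun.ext
  exact h3.trans (AEEqFun.coeFn_zero (α := 𝕋) (μ := μ) (β := ℂ)).symm

theorem coeff_toAEEqFun (g : C(𝕋, ℂ)) :
    fourierCoeff (ContinuousMap.toAEEqFun μ g : 𝕋 → ℂ) = fourierCoeff (g : 𝕋 → ℂ) :=
  fourierCoeff_congr_ae (ContinuousMap.coeFn_toAEEqFun μ g)

theorem one_eq : (1 : L0) = ContinuousMap.toAEEqFun μ (fourier 0) := by
  apply AEEqFun.ext
  filter_upwards [AEEqFun.coeFn_one (α := 𝕋) (μ := μ) (β := ℂ),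
    ContinuousMap.coeFn_toAEEqFun μ (fourier (T := (1 : ℝ)) 0)] with t h1 h2
  rw [h1, h2, fourier_zero]; rfl

theorem coeff_fourier (m n : ℤ) :
    fourierCoeff (ContinuousMap.toAEEqFun μ (fourier m) : 𝕋 → ℂ) n = if n = m then 1 else 0 := by
  rw [coeff_toAEEqFun, fourierCoeff_fourier, Pi.single_apply]

theorem coeff_algebraMap (c : ℂ) (n : ℤ) :
    fourierCoeff (algebraMap ℂ L0 c : 𝕋 → ℂ) n = if n = 0 then c else 0 := by
  rw [Algebra.algebraMap_eq_smul_one, coeff_smul, one_eq, coeff_fourier]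
  split_ifs <;> simp

theorem toAEEqFun_mul (g h : C(𝕋, ℂ)) :
    ContinuousMap.toAEEqFun μ g * ContinuousMap.toAEEqFun μ h =
      ContinuousMap.toAEEqFun μ (g * h) := by
  apply AEEqFun.ext
  filter_upwards [AEEqFun.coeFn_mul (ContinuousMap.toAEEqFun μ g) (ContinuousMap.toAEEqFun μ h),
    ContinuousMap.coeFn_toAEEqFun μ g, ContinuousMap.coeFn_toAEEqFun μ h,
    ContinuousMap.coeFn_toAEEqFun μ (g * h)] with t h1 h2 h3 h4
  rw [h1, h4]
  simp [h2, h3]

/-- `H^∞` is closed under multiplication -/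
theorem Hinf_mul {f g : L0} (hf : f ∈ HinfSet) (hg : g ∈ HinfSet) : f * g ∈ HinfSet := by
  obtain ⟨⟨C, hC⟩, h1⟩ := hf
  obtain ⟨⟨D, hD⟩, h2⟩ := hg
  refine ⟨⟨max C 0 * D, (hC.mono (le_max_left _ _)).mul hD (le_max_right _ _)⟩, ?_⟩
  intro n hn
  have h3 := coeff_mul hC hD n
  have h4 : (fun k : ℤ => fourierCoeff (f : 𝕋 → ℂ) (n - k) * fourierCoeff (g : 𝕋 → ℂ) k) =
      fun _ => 0 := by
    funext k
    by_cases hk : k < 0
    · rw [h2 k hk, mul_zero]
    · rw [h1 (n - k) (by omega), zero_mul]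
  rw [h4] at h3
  exact h3.unique hasSum_zero

theorem Hinf_add {f g : L0} (hf : f ∈ HinfSet) (hg : g ∈ HinfSet) : f + g ∈ HinfSet := by
  obtain ⟨⟨C, hC⟩, h1⟩ := hf
  obtain ⟨⟨D, hD⟩, h2⟩ := hg
  refine ⟨⟨C + D, hC.add hD⟩, ?_⟩
  intro n hn
  rw [coeff_add hC hD, h1 n hn, h2 n hn, add_zero]

theorem Hinf_algebraMap (c : ℂ) : algebraMap ℂ L0 c ∈ HinfSet := by
  refine ⟨⟨‖c‖, bddBy_algebraMap c⟩, ?_⟩
  intro n hn
  rw [coeff_algebraMap, if_neg hn.ne]

/-- `H^∞` as a subalgebra -/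
noncomputable def Hsub : Subalgebra ℂ L0 where
  carrier := HinfSet
  mul_mem' := Hinf_mul
  add_mem' := Hinf_add
  algebraMap_mem' := Hinf_algebraMap

theorem mem_Hsub {f : L0} : f ∈ Hsub ↔ f ∈ HinfSet := Iff.rfl

/-- `H^∞` is a subalgebra of `L⁰` -/
theorem exists_Hinf : ∃ H : Subalgebra ℂ L0, (H : Set L0) = HinfSet := ⟨Hsub, rfl⟩

theorem bddBy_zero {ε : ℝ} (hε : 0 ≤ ε) : BddBy (0 : L0) ε := by
  refine bddBy_congr_coe (AEEqFun.coeFn_zero) (Eventually.of_forall fun t => ?_)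
  simpa using hε

theorem genAlg_le_A {f : L0} (hf : f ∈ genAlg) : f ∈ A := by
  intro ε hε
  refine ⟨f, hf, ?_⟩
  rw [sub_self]; exact bddBy_zero hε.le

theorem mem_A_of_Hinf {f : L0} (hf : f ∈ HinfSet) : f ∈ A :=
  genAlg_le_A (Algebra.subset_adjoin (Or.inl hf))

theorem mem_A_of_cont (g : C(𝕋, ℂ)) : ContinuousMap.toAEEqFun μ g ∈ A :=
  genAlg_le_A (Algebra.subset_adjoin (Or.inr ⟨g, rfl⟩))

theorem bddBy_fourier (n : ℤ) : BddBy (ContinuousMap.toAEEqFun μ (fourier n)) 1 := by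
  have := bddBy_toAEEqFun (fourier (T := (1 : ℝ)) n)
  rwa [fourier_norm] at this

theorem fourier_mem {n : ℤ} (hn : 0 ≤ n) : ContinuousMap.toAEEqFun μ (fourier n) ∈ HinfSet := by
  refine ⟨⟨1, bddBy_fourier n⟩, ?_⟩
  intro m hm
  rw [coeff_fourier, if_neg (by omega)]

theorem zz_mem : zz ∈ HinfSet := fourier_mem zero_le_one

theorem fourier_mul (m n : ℤ) : ContinuousMap.toAEEqFun μ (fourier m) *
    ContinuousMap.toAEEqFun μ (fourier n) = ContinuousMap.toAEEqFun μ (fourier (m + n)) := by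
  rw [toAEEqFun_mul]
  congr 1
  ext t
  rw [ContinuousMap.mul_apply, ← fourier_add]

theorem zz_mul_zzb : zz * zzb = 1 := by
  unfold zz zzb
  rw [fourier_mul, one_eq]; rfl

theorem zzb_mem : zzb ∈ A := mem_A_of_cont _

theorem zzb_pow (n : ℕ) : zzb ^ n = ContinuousMap.toAEEqFun μ (fourier (-(n : ℤ))) := by
  induction n with
  | zero => rw [pow_zero, one_eq]; rfl
  | succ n ih =>
    rw [pow_succ, ih]
    unfold zzb
    rw [fourier_mul]
    congr 2
    push_cast; ring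

theorem zz_pow (n : ℕ) : zz ^ n = ContinuousMap.toAEEqFun μ (fourier (n : ℤ)) := by
  induction n with
  | zero => rw [pow_zero, one_eq]; rfl
  | succ n ih =>
    rw [pow_succ, ih]
    unfold zz
    rw [fourier_mul]
    congr 2

end Pool.Agent.Alling
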