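import Pool.Agent.Work.MP_ab1db7_an.Bdry1

/-! # MP_ab1db7_an, block B, part 2: analytic extension to the disc -/

set_option autoImplicit false

open MeasureTheory Complex Set Filter Topology Metric

namespace Pool.Agent.Alling

theorem summable_ext {a : ℕ → ℂ} {C : ℝ} (ha : ∀ n, ‖a n‖ ≤ C) {z : ℂ}
    (hz : z ∈ ball (0 : ℂ) 1) : Summable fun n : ℕ => ‖a n * z ^ n‖ := by
  have hz' : ‖z‖ < 1 := by simpa using hz
  refine Summable.of_nonneg_of_le (fun n => norm_nonneg _) (fun n => ?_)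
    ((summable_geometric_of_lt_one (norm_nonneg z) hz').mul_left C)
  rw [norm_mul, norm_pow]
  exact mul_le_mul_of_nonneg_right (ha n) (by positivity)

theorem summable_coeff {f : L0} {C : ℝ} (hf : BddBy f C) {z : ℂ} (hz : z ∈ ball (0 : ℂ) 1) :
    Summable fun n : ℕ => ‖fourierCoeff (f : 𝕋 → ℂ) n * z ^ n‖ :=
  summable_ext (fun n => coeff_norm_le hf n) hz

theorem ext_hasSum {f : L0} {C : ℝ} (hf : BddBy f C) {z : ℂ} (hz : z ∈ ball (0 : ℂ) 1) :
    HasSum (fun n : ℕ => fourierCoeff (f : 𝕋 → ℂ) n * z ^ n) (ext f z) :=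
  (summable_coeff hf hz).of_norm.hasSum

theorem ext_add {f g : L0} (hf : f ∈ HinfSet) (hg : g ∈ HinfSet) {z : ℂ} (hz : z ∈ ball (0 : ℂ) 1) :
    ext (f + g) z = ext f z + ext g z := by
  obtain ⟨⟨C, hC⟩, h1⟩ := hf
  obtain ⟨⟨D, hD⟩, h2⟩ := hg
  have h3 := (ext_hasSum hC hz).add (ext_hasSum hD hz)
  have h4 := ext_hasSum (hC.add hD) hz
  refine h4.unique ?_
  convert h3 using 2 with n
  rw [coeff_add hC hD]; ring

theorem ext_smul {f : L0} (hf : f ∈ HinfSet) (c : ℂ) {z : ℂ} (hz : z ∈ ball (0 : ℂ) 1) :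
    ext (c • f) z = c * ext f z := by
  unfold ext
  rw [← tsum_mul_left]
  congr 1
  funext n
  rw [coeff_smul]; ring

theorem coeff_mul_nat {f g : L0} (hf : f ∈ HinfSet) (hg : g ∈ HinfSet) (n : ℕ) :
    fourierCoeff ((f * g : L0) : 𝕋 → ℂ) n = ∑ ij ∈ Finset.HasAntidiagonal.antidiagonal n,
      fourierCoeff (f : 𝕋 → ℂ) ij.1 * fourierCoeff (g : 𝕋 → ℂ) ij.2 := by
  obtain ⟨⟨C, hC⟩, h1⟩ := hf
  obtain ⟨⟨D, hD⟩, h2⟩ := hg
  have h3 := coeff_mul hD hC n
  rw [mul_comm g f] at h3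
  have h4 : HasSum (fun k : ℤ => fourierCoeff (g : 𝕋 → ℂ) ((n : ℤ) - k) *
      fourierCoeff (f : 𝕋 → ℂ) k)
      (∑ k ∈ (Finset.range (n + 1)).map Nat.castEmbedding, fourierCoeff (g : 𝕋 → ℂ) ((n : ℤ) - k) *
        fourierCoeff (f : 𝕋 → ℂ) k) := by
    apply hasSum_sum_of_ne_finset_zero
    intro k hk
    by_cases hk0 : k < 0
    · rw [h1 k hk0, mul_zero]
    · by_cases hkn : (n : ℤ) - k < 0
      · rw [h2 _ hkn, zero_mul]
      · exfalso
        apply hk
        rw [Finset.mem_map]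
        refine ⟨k.toNat, ?_, ?_⟩
        · rw [Finset.mem_range]; omega
        · simp only [Nat.castEmbedding_apply]; omega
  rw [h3.unique h4, Finset.sum_map]
  rw [Finset.Nat.sum_antidiagonal_eq_sum_range_succ (fun i j : ℕ =>
    fourierCoeff (f : 𝕋 → ℂ) i * fourierCoeff (g : 𝕋 → ℂ) j) n]
  apply Finset.sum_congr rfl
  intro k hk
  rw [Finset.mem_range] at hk
  rw [Nat.castEmbedding_apply, mul_comm]
  congr 2
  omega

theorem ext_mul {f g : L0} (hf : f ∈ HinfSet) (hg : g ∈ HinfSet) {z : ℂ} (hz : z ∈ ball (0 : ℂ) 1) :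
    ext (f * g) z = ext f z * ext g z := by
  have hfg := coeff_mul_nat hf hg
  obtain ⟨⟨C, hC⟩, h1⟩ := hf
  obtain ⟨⟨D, hD⟩, h2⟩ := hg
  unfold ext
  rw [tsum_mul_tsum_eq_tsum_sum_antidiagonal_of_summable_norm (summable_coeff hC hz)
    (summable_coeff hD hz)]
  congr 1
  funext n
  rw [hfg n, Finset.sum_mul]
  apply Finset.sum_congr rfl
  intro ij hij
  rw [Finset.HasAntidiagonal.mem_antidiagonal] at hij
  rw [← hij, pow_add]; ring

theorem ext_algebraMap (c : ℂ) {z : ℂ} (hz : z ∈ ball (0 : ℂ) 1) :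
    ext (algebraMap ℂ L0 c) z = c := by
  refine (ext_hasSum (bddBy_algebraMap c) hz).unique ?_
  have h := hasSum_ite_eq (0 : ℕ) (c : ℂ)
  convert h using 2 with n
  rw [coeff_algebraMap]
  by_cases hn : n = 0
  · subst hn; simp
  · rw [if_neg (by exact_mod_cast hn), if_neg hn, zero_mul]

theorem ext_one {z : ℂ} (hz : z ∈ ball (0 : ℂ) 1) : ext 1 z = 1 := by
  have := ext_algebraMap 1 hz
  rwa [map_one] at this

theorem ext_zz {z : ℂ} (hz : z ∈ ball (0 : ℂ) 1) : ext zz z = z := by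
  obtain ⟨⟨C, hC⟩, -⟩ := zz_mem
  refine (ext_hasSum hC hz).unique ?_
  have h := hasSum_ite_eq (1 : ℕ) (z : ℂ)
  convert h using 2 with n
  unfold zz
  rw [coeff_fourier]
  by_cases hn : n = 1
  · subst hn; simp
  · rw [if_neg (by exact_mod_cast hn), if_neg hn, zero_mul]

theorem Hinf_pow {f : L0} (hf : f ∈ HinfSet) (n : ℕ) : f ^ n ∈ HinfSet := 
  Subalgebra.pow_mem Hsub (show f ∈ Hsub from hf) n

theorem Hinf_sub {f g : L0} (hf : f ∈ HinfSet) (hg : g ∈ HinfSet) : f - g ∈ HinfSet :=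
  Subalgebra.sub_mem Hsub (show f ∈ Hsub from hf) (show g ∈ Hsub from hg)

theorem Hinf_smul {f : L0} (hf : f ∈ HinfSet) (c : ℂ) : c • f ∈ HinfSet :=
  Subalgebra.smul_mem Hsub (show f ∈ Hsub from hf) c

theorem ext_pow {f : L0} (hf : f ∈ HinfSet) (n : ℕ) {z : ℂ} (hz : z ∈ ball (0 : ℂ) 1) :
    ext (f ^ n) z = ext f z ^ n := by
  induction n with
  | zero => rw [pow_zero, pow_zero, ext_one hz]
  | succ n ih => rw [pow_succ, ext_mul (Hinf_pow hf n) hf hz, ih, pow_succ]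

theorem bddBy_nonneg {f : L0} {C : ℝ} (hC : BddBy f C) : 0 ≤ C := by
  obtain ⟨t, ht⟩ := Filter.Eventually.exists hC
  exact (norm_nonneg _).trans ht

theorem bddBy_pow {f : L0} {C : ℝ} (hC : BddBy f C) (n : ℕ) : BddBy (f ^ n) (C ^ n) := by
  induction n with
  | zero =>
    rw [pow_zero, pow_zero]
    have := bddBy_algebraMap 1
    rwa [map_one, norm_one] at this
  | succ n ih =>
    rw [pow_succ, pow_succ]
    exact ih.mul hC (pow_nonneg (bddBy_nonneg hC) n)

theorem le_of_pow_le {a C K : ℝ} (ha : 0 ≤ a) (hC : 0 ≤ C) (h : ∀ n : ℕ, a ^ n ≤ K * C ^ n) :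
    a ≤ C := by
  by_contra hlt
  push Not at hlt
  have ha0 : 0 < a := lt_of_le_of_lt hC hlt
  have h1 : Tendsto (fun n : ℕ => K * (C / a) ^ n) atTop (𝓝 (K * 0)) :=
    (tendsto_pow_atTop_nhds_zero_of_lt_one (by positivity) ((div_lt_one ha0).2 hlt)).const_mul K
  have h2 : (1 : ℝ) ≤ K * 0 := by
    refine ge_of_tendsto h1 (Eventually.of_forall fun n => ?_)
    rw [div_pow, mul_div_assoc', le_div_iff₀ (by positivity), one_mul]
    exact h n
  norm_num at h2

theorem ext_norm_crude {f : L0} {C : ℝ} (hC : BddBy f C) {z : ℂ} (hz : z ∈ ball (0 : ℂ) 1) :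
    ‖ext f z‖ ≤ (1 - ‖z‖)⁻¹ * C := by
  have hz' : ‖z‖ < 1 := by simpa using hz
  have h1 := tsum_geometric_of_lt_one (norm_nonneg z) hz'
  have h2 := (summable_geometric_of_lt_one (norm_nonneg z) hz').mul_left C
  unfold ext
  refine (norm_tsum_le_tsum_norm (summable_coeff hC hz)).trans ?_
  calc ∑' n : ℕ, ‖fourierCoeff (f : 𝕋 → ℂ) n * z ^ n‖ ≤ ∑' n : ℕ, C * ‖z‖ ^ n := by
        refine (summable_coeff hC hz).tsum_le_tsum (fun n => ?_) h2
        rw [norm_mul, norm_pow]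
        exact mul_le_mul_of_nonneg_right (coeff_norm_le hC n) (by positivity)
    _ = (1 - ‖z‖)⁻¹ * C := by rw [tsum_mul_left, h1, mul_comm]

theorem ext_holBdd {f : L0} (hf : f ∈ HinfSet) {C : ℝ} (hC : BddBy f C) : HolBdd (ext f) C := by
  constructor
  · intro z hz
    have hz' : ‖z‖ < 1 := by simpa using hz
    obtain ⟨r, h1, h2⟩ := exists_between hz'
    have hr0 : 0 < r := lt_of_le_of_lt (norm_nonneg z) h1
    have h3 : DifferentiableOn ℂ (fun w : ℂ => ∑' n : ℕ, fourierCoeff (f : 𝕋 → ℂ) n * w ^ n)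
        (ball 0 r) := by
      refine differentiableOn_tsum_of_summable_norm (u := fun n : ℕ => C * r ^ n)
        ((summable_geometric_of_lt_one hr0.le h2).mul_left C) (fun n => ?_) isOpen_ball ?_
      · exact ((differentiable_id.pow n).const_mul _).differentiableOn
      · intro n w hw
        have hw' : ‖w‖ < r := by simpa using hw
        rw [norm_mul, norm_pow]
        exact mul_le_mul (coeff_norm_le hC n) (pow_le_pow_left₀ (norm_nonneg w) hw'.le n)
          (by positivity) (bddBy_nonneg hC)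
    have h4 : z ∈ ball (0 : ℂ) r := by simpa using h1
    exact ((h3 z h4).differentiableAt (isOpen_ball.mem_nhds h4)).differentiableWithinAt
  · intro z hz
    refine le_of_pow_le (K := (1 - ‖z‖)⁻¹) (norm_nonneg _) (bddBy_nonneg hC) fun n => ?_
    rw [← norm_pow, ← ext_pow hf n hz]
    exact ext_norm_crude (bddBy_pow hC n) hz

/-- Fourier coefficients of an absolutely convergent power series on the circle -/
theorem coeff_series {b : ℕ → ℂ} (hb : Summable fun n => ‖b n‖) {g : C(𝕋, ℂ)}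
    (hg : ∀ t, HasSum (fun n : ℕ => b n * fourier (n : ℤ) t) (g t)) (m : ℤ) :
    fourierCoeff (g : 𝕋 → ℂ) m = if 0 ≤ m then b m.toNat else 0 := by
  have h1 : Summable (fun n : ℕ => b n • (fourier (n : ℤ) : C(𝕋, ℂ))) := by
    refine Summable.of_norm ?_
    simpa only [norm_smul, fourier_norm, mul_one] using hb
  have h2 := h1.hasSum
  have h3 : (∑' n : ℕ, b n • (fourier (n : ℤ) : C(𝕋, ℂ))) = g := by
    ext t
    have h4 := (ContinuousMap.evalCLM ℂ t).hasSum h2
    refine h4.unique ?_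
    exact hg t
  rw [h3] at h2
  have h5 := ((innerSL ℂ ((fourierBasis (T := (1 : ℝ))) m)).comp
    (ContinuousMap.toLp (E := ℂ) 2 μ ℂ)).hasSum h2
  have h6 : ∀ u : C(𝕋, ℂ), ((innerSL ℂ ((fourierBasis (T := (1 : ℝ))) m)).comp
    (ContinuousMap.toLp (E := ℂ) 2 μ ℂ)) u = fourierCoeff (u : 𝕋 → ℂ) m := by
    intro u
    rw [ContinuousLinearMap.comp_apply, innerSL_apply_apply, ← HilbertBasis.repr_apply_apply,
      fourierBasis_repr, fourierCoeff_toLp]
  rw [h6] at h5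
  refine h5.unique ?_
  have h7 : (fun n : ℕ => ((innerSL ℂ ((fourierBasis (T := (1 : ℝ))) m)).comp
    (ContinuousMap.toLp (E := ℂ) 2 μ ℂ)) (b n • (fourier (n : ℤ) : C(𝕋, ℂ)))) =
      fun n : ℕ => if m = (n : ℤ) then b n else 0 := by
    funext n
    rw [map_smul, h6, fourierCoeff_fourier, Pi.single_apply, smul_eq_mul]
    split_ifs <;> simp
  rw [h7]
  by_cases hm : 0 ≤ m
  · rw [if_pos hm]
    have h9 : (fun n : ℕ => if m = (n : ℤ) then b n else 0) =
        fun n : ℕ => if n = m.toNat then b m.toNat else 0 := by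
      funext n
      by_cases hn : n = m.toNat
      · subst hn; rw [if_pos (by omega), if_pos rfl]
      · rw [if_neg (by omega), if_neg hn]
    rw [h9]
    exact hasSum_ite_eq m.toNat (b m.toNat)
  · rw [if_neg hm]
    have h9 : (fun n : ℕ => if m = (n : ℤ) then b n else 0) = fun _ : ℕ => 0 := by
      funext n
      rw [if_neg (by omega)]
    rw [h9]
    exact hasSum_zero

/-- coefficients of `t ↦ F(r e^{2πit})` for a power series -/
theorem coeff_circle {a : ℕ → ℂ} {F : ℂ → ℂ}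
    (hF : ∀ z ∈ ball (0 : ℂ) 1, HasSum (fun n : ℕ => a n * z ^ n) (F z)) {r : ℝ} (hr0 : 0 ≤ r)
    (hr : r < 1) : ∃ g : C(𝕋, ℂ), (∀ t, g t = F (r * fourier 1 t)) ∧
      ∀ m : ℤ, fourierCoeff (g : 𝕋 → ℂ) m = if 0 ≤ m then a m.toNat * r ^ m.toNat else 0 := by
  have hball : ∀ t : 𝕋, (r : ℂ) * fourier 1 t ∈ ball (0 : ℂ) 1 := by
    intro t
    rw [mem_ball_zero_iff, norm_mul, fourier_apply, Circle.norm_coe, mul_one, Complex.norm_real,
      Real.norm_of_nonneg hr0]
    exact hr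
  have hsum : Summable fun n : ℕ => ‖a n * (r : ℂ) ^ n‖ := by
    have h1 : (r : ℂ) ∈ ball (0 : ℂ) 1 := by
      rw [mem_ball_zero_iff, Complex.norm_real, Real.norm_of_nonneg hr0]; exact hr
    exact (hF _ h1).summable.norm
  have h1 : Summable (fun n : ℕ => (a n * (r : ℂ) ^ n) • (fourier (n : ℤ) : C(𝕋, ℂ))) := by
    refine Summable.of_norm ?_
    simpa only [norm_smul, fourier_norm, mul_one] using hsum
  have h2 := h1.hasSum
  set g : C(𝕋, ℂ) := ∑' n : ℕ, (a n * (r : ℂ) ^ n) • (fourier (n : ℤ) : C(𝕋, ℂ)) with hg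
  have h3 : ∀ t, HasSum (fun n : ℕ => a n * (r : ℂ) ^ n * fourier (n : ℤ) t) (g t) := by
    intro t
    exact (ContinuousMap.evalCLM ℂ t).hasSum h2
  refine ⟨g, fun t => ?_, fun m => ?_⟩
  · refine (h3 t).unique ?_
    have h4 := hF _ (hball t)
    have h5 : (fun n : ℕ => a n * ((r : ℂ) * fourier 1 t) ^ n) =
        fun n : ℕ => a n * (r : ℂ) ^ n * fourier (n : ℤ) t := by
      funext n
      rw [mul_pow, ← mul_assoc]
      congr 1
      rw [fourier_apply, fourier_apply, one_zsmul, natCast_zsmul, AddCircle.toCircle_nsmul,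
        Circle.coe_pow]
    rwa [h5] at h4
  · exact coeff_series hsum h3 m

/-- uniqueness -/
theorem ext_inj {f : L0} (hf : f ∈ HinfSet) (h : ∀ z ∈ ball (0 : ℂ) 1, ext f z = 0) : f = 0 := by
  obtain ⟨⟨C, hC⟩, h1⟩ := hf
  refine eq_zero_of_coeff hC fun n => ?_
  by_cases hn : n < 0
  · exact h1 n hn
  · push Not at hn
    obtain ⟨g, hg1, hg2⟩ := coeff_circle (a := fun n : ℕ => fourierCoeff (f : 𝕋 → ℂ) n)
      (F := ext f) (fun z hz => ext_hasSum hC hz) (r := 1 / 2) (by norm_num) (by norm_num)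
    have h3 : g = 0 := by
      ext t
      rw [hg1]
      refine h _ ?_
      rw [mem_ball_zero_iff, norm_mul, fourier_apply, Circle.norm_coe, mul_one]
      norm_num
    have h4 := hg2 n
    rw [if_pos hn, h3] at h4
    have h5 : fourierCoeff ((0 : C(𝕋, ℂ)) : 𝕋 → ℂ) n = 0 := by
      unfold fourierCoeff; simp
    rw [h5] at h4
    have h6 : ((n.toNat : ℕ) : ℤ) = n := Int.toNat_of_nonneg hn
    have h7 := mul_eq_zero.1 h4.symm
    rcases h7 with h7 | h7
    · simpa only [h6] using h7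
    · exfalso
      have := pow_ne_zero n.toNat (show ((1 / 2 : ℝ) : ℂ) ≠ 0 by norm_num)
      exact this h7

theorem ext_inj' {f g : L0} (hf : f ∈ HinfSet) (hg : g ∈ HinfSet)
    (h : ∀ z ∈ ball (0 : ℂ) 1, ext f z = ext g z) : f = g := by
  have h1 : f - g = 0 := by
    refine ext_inj (Hinf_sub hf hg) fun z hz => ?_
    have h2 : f - g = f + (-1 : ℂ) • g := by rw [neg_one_smul, sub_eq_add_neg]
    rw [h2, ext_add hf (Hinf_smul hg _) hz, ext_smul hg _ hz, h z hz]; ring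
  exact sub_eq_zero.1 h1

end Pool.Agent.Alling
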