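import Pool.Agent.Work.MP_ab1db7_an.Bdry2

/-! # MP_ab1db7_an, block B, part 3: existence of boundary functions -/

set_option autoImplicit false

open MeasureTheory Complex Set Filter Topology Metric

namespace Pool.Agent.Alling

theorem hasSum_L2 (u : Lp ℂ 2 μ) :
    HasSum (fun i : ℤ => ‖(fourierBasis (T := (1 : ℝ))).repr u i‖ ^ 2) (‖u‖ ^ 2) := by
  have H₁ : HasSum (fun i => ‖(fourierBasis (T := (1 : ℝ))).repr u i‖ ^ 2)
      (‖(fourierBasis (T := (1 : ℝ))).repr u‖ ^ 2) := by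
    apply_mod_cast lp.hasSum_norm ?_ (fourierBasis.repr u)
    simp
  have H₂ : ‖(fourierBasis (T := (1 : ℝ))).repr u‖ ^ 2 = ‖u‖ ^ 2 := by simp
  rwa [H₂] at H₁

theorem taylor_coeff {F : ℂ → ℂ} (hF : DifferentiableOn ℂ F (ball 0 1)) :
    ∃ a : ℕ → ℂ, ∀ z ∈ ball (0 : ℂ) 1, HasSum (fun n : ℕ => a n * z ^ n) (F z) := by
  refine ⟨fun n => ((n.factorial : ℂ))⁻¹ * iteratedDeriv n F 0, fun z hz => ?_⟩
  have h := Complex.hasSum_taylorSeries_on_ball hF hz
  have h2 : (fun n : ℕ => ((n.factorial : ℂ))⁻¹ • (z - 0) ^ n • iteratedDeriv n F 0) =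
      fun n : ℕ => ((n.factorial : ℂ))⁻¹ * iteratedDeriv n F 0 * z ^ n := by
    funext n
    rw [sub_zero, smul_eq_mul, smul_eq_mul]; ring
  rwa [h2] at h

theorem toLp_norm_le (g : C(𝕋, ℂ)) {C : ℝ} (hC : 0 ≤ C) (h : ∀ t, ‖g t‖ ≤ C) :
    ‖ContinuousMap.toLp (E := ℂ) 2 μ ℂ g‖ ≤ C := by
  have h1 := Lp.norm_le_of_ae_bound (f := ContinuousMap.toLp (E := ℂ) 2 μ ℂ g) (C := C) hC ?_
  · have h2 : measureUnivNNReal μ = 1 := by simp [measureUnivNNReal]
    simpa [h2] using h1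
  · filter_upwards [ContinuousMap.coeFn_toLp (p := 2) (𝕜 := ℂ) μ g] with t ht
    rw [ht]; exact h t

theorem sum_sq_le {F : ℂ → ℂ} {C : ℝ} (hF : HolBdd F C) {a : ℕ → ℂ}
    (ha : ∀ z ∈ ball (0 : ℂ) 1, HasSum (fun n : ℕ => a n * z ^ n) (F z)) (N : ℕ) :
    ∑ n ∈ Finset.range N, ‖a n‖ ^ 2 ≤ C ^ 2 := by
  have hC : 0 ≤ C := (norm_nonneg _).trans (hF.bdd 0 (by simp))
  have key : ∀ r : ℝ, 0 ≤ r → r < 1 →
      ∑ n ∈ Finset.range N, ‖a n * (r : ℂ) ^ n‖ ^ 2 ≤ C ^ 2 := by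
    intro r hr0 hr
    obtain ⟨g, hg1, hg2⟩ := coeff_circle ha hr0 hr
    have h1 := hasSum_L2 (ContinuousMap.toLp (E := ℂ) 2 μ ℂ g)
    have h2 : ∀ i : ℤ, (fourierBasis (T := (1 : ℝ))).repr (ContinuousMap.toLp (E := ℂ) 2 μ ℂ g) i =
        fourierCoeff (g : 𝕋 → ℂ) i := by
      intro i
      rw [fourierBasis_repr, fourierCoeff_toLp]
    have h3 : ‖ContinuousMap.toLp (E := ℂ) 2 μ ℂ g‖ ^ 2 ≤ C ^ 2 := by
      refine pow_le_pow_left₀ (norm_nonneg _) (toLp_norm_le g hC fun t => ?_) 2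
      rw [hg1]
      apply hF.bdd
      rw [mem_ball_zero_iff, norm_mul, fourier_apply, Circle.norm_coe, mul_one, Complex.norm_real,
        Real.norm_of_nonneg hr0]
      exact hr
    refine le_trans ?_ h3
    have h4 := sum_le_hasSum ((Finset.range N).map Nat.castEmbedding) (fun i _ => by positivity) h1
    refine le_trans (le_of_eq ?_) h4
    rw [Finset.sum_map]
    apply Finset.sum_congr rfl
    intro n _
    rw [h2, hg2, Nat.castEmbedding_apply, if_pos (by omega), Int.toNat_natCast]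
  have h1 : Tendsto (fun r : ℝ => ∑ n ∈ Finset.range N, ‖a n * (r : ℂ) ^ n‖ ^ 2) (𝓝[<] 1)
      (𝓝 (∑ n ∈ Finset.range N, ‖a n * ((1 : ℝ) : ℂ) ^ n‖ ^ 2)) := by
    refine tendsto_nhdsWithin_of_tendsto_nhds (Continuous.tendsto ?_ 1)
    fun_prop
  have h2 : ∑ n ∈ Finset.range N, ‖a n * ((1 : ℝ) : ℂ) ^ n‖ ^ 2 ≤ C ^ 2 := by
    refine le_of_tendsto h1 ?_
    have h3 : Ioo (0 : ℝ) 1 ∈ 𝓝[<] (1 : ℝ) := Ioo_mem_nhdsLT one_pos
    filter_upwards [h3] with r hr
    exact key r hr.1.le hr.2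
  simpa using h2

theorem exists_bdry {F : ℂ → ℂ} {C : ℝ} (hF : HolBdd F C) :
    ∃ f ∈ HinfSet, BddBy f C ∧ ∀ z ∈ ball (0 : ℂ) 1, ext f z = F z := by
  have hC : 0 ≤ C := (norm_nonneg _).trans (hF.bdd 0 (by simp))
  obtain ⟨a, ha⟩ := taylor_coeff hF.diff
  have hsq := sum_sq_le hF ha
  have hsum : Summable fun n : ℕ => ‖a n‖ ^ 2 :=
    summable_of_sum_range_le (fun n => by positivity) hsq
  -- coefficients on ℤ
  set b : ℤ → ℂ := fun m => if 0 ≤ m then a m.toNat else 0 with hb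
  have hbsum : Summable fun m : ℤ => ‖b m‖ ^ 2 := by
    refine Summable.of_nat_of_neg_add_one ?_ ?_
    · simpa [hb] using hsum
    · have : (fun n : ℕ => ‖b (-((n : ℤ) + 1))‖ ^ 2) = fun _ => 0 := by
        funext n
        rw [hb]
        simp only
        rw [if_neg (by omega)]; simp
      rw [this]; exact summable_zero
  have hbmem : Memℓp b 2 := by
    refine memℓp_gen ?_
    simpa using hbsum
  set f0 : Lp ℂ 2 μ := (fourierBasis (T := (1 : ℝ))).repr.symm ⟨b, hbmem⟩ with hf0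
  have hf0c : ∀ i : ℤ, (fourierBasis (T := (1 : ℝ))).repr f0 i = b i := by
    intro i
    rw [hf0, LinearIsometryEquiv.apply_symm_apply]
  -- radii
  set r : ℕ → ℝ := fun k => 1 - 1 / ((k : ℝ) + 1) with hr
  have hr0 : ∀ k, 0 ≤ r k := by
    intro k
    rw [hr]
    simp only
    rw [sub_nonneg, div_le_one (by positivity)]
    linarith [show (0 : ℝ) ≤ k from Nat.cast_nonneg k]
  have hr1 : ∀ k, r k < 1 := by
    intro k
    rw [hr]
    simp only
    have : (0 : ℝ) < 1 / ((k : ℝ) + 1) := by positivity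
    linarith
  have hrlim : Tendsto r atTop (𝓝 1) := by
    have := (tendsto_one_div_add_atTop_nhds_zero_nat (𝕜 := ℝ)).const_sub 1
    rw [sub_zero] at this
    exact this
  choose g hg1 hg2 using fun k => coeff_circle ha (hr0 k) (hr1 k)
  set G : ℕ → Lp ℂ 2 μ := fun k => ContinuousMap.toLp (E := ℂ) 2 μ ℂ (g k) with hG
  have hGc : ∀ (k : ℕ) (i : ℤ), (fourierBasis (T := (1 : ℝ))).repr (G k) i =
      b i * (r k : ℂ) ^ i.toNat := by
    intro k i
    rw [hG]
    simp only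
    rw [fourierBasis_repr, fourierCoeff_toLp, hg2, hb]
    simp only
    split_ifs <;> simp
  have hlim : Tendsto G atTop (𝓝 f0) := by
    rw [tendsto_iff_norm_sub_tendsto_zero]
    have h1 : ∀ k, ‖G k - f0‖ ^ 2 = ∑' i : ℤ, ‖b i * ((r k : ℂ) ^ i.toNat - 1)‖ ^ 2 := by
      intro k
      rw [← (hasSum_L2 (G k - f0)).tsum_eq]
      congr 1
      funext i
      rw [map_sub]
      change ‖(fourierBasis (T := (1 : ℝ))).repr (G k) i - (fourierBasis (T := (1 : ℝ))).repr f0 i‖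
        ^ 2 = _
      rw [hGc, hf0c]
      congr 2
      ring
    have h2 : Tendsto (fun k => ∑' i : ℤ, ‖b i * ((r k : ℂ) ^ i.toNat - 1)‖ ^ 2) atTop
        (𝓝 (∑' i : ℤ, (0 : ℝ))) := by
      refine tendsto_tsum_of_dominated_convergence (bound := fun i => ‖b i‖ ^ 2) hbsum ?_ ?_
      · intro i
        have h3 : Tendsto (fun k => ‖b i * ((r k : ℂ) ^ i.toNat - 1)‖ ^ 2) atTop
            (𝓝 (‖b i * (((1 : ℝ) : ℂ) ^ i.toNat - 1)‖ ^ 2)) := by
          have h4 : Continuous fun x : ℝ => ‖b i * ((x : ℂ) ^ i.toNat - 1)‖ ^ 2 := by fun_prop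
          exact (h4.tendsto 1).comp hrlim
        simpa using h3
      · refine Eventually.of_forall fun k i => ?_
        have h5 : ‖(r k : ℂ) ^ i.toNat - 1‖ ≤ 1 := by
          rw [← Complex.ofReal_pow, ← Complex.ofReal_one, ← Complex.ofReal_sub, Complex.norm_real,
            Real.norm_eq_abs, abs_le]
          have h6 := pow_nonneg (hr0 k) i.toNat
          have h7 := pow_le_one₀ (hr0 k) (hr1 k).le (n := i.toNat)
          constructor <;> linarith
        have h8 : ‖b i * ((r k : ℂ) ^ i.toNat - 1)‖ ≤ ‖b i‖ := by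
          rw [norm_mul]
          exact mul_le_of_le_one_right (norm_nonneg _) h5
        rw [Real.norm_of_nonneg (by positivity)]
        exact pow_le_pow_left₀ (norm_nonneg _) h8 2
    rw [tsum_zero] at h2
    have h3 : Tendsto (fun k => ‖G k - f0‖ ^ 2) atTop (𝓝 0) := by
      simpa only [h1] using h2
    have h4 := h3.sqrt
    simpa [Real.sqrt_sq (norm_nonneg _)] using h4
  -- almost everywhere bound
  have hae : ∀ᵐ t ∂μ, ‖f0 t‖ ≤ C := by
    obtain ⟨φ, -, hφ⟩ := (tendstoInMeasure_of_tendsto_Lp hlim).exists_seq_tendsto_ae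
    have h1 : ∀ᵐ t ∂μ, ∀ k, ‖G k t‖ ≤ C := by
      rw [ae_all_iff]
      intro k
      filter_upwards [ContinuousMap.coeFn_toLp (p := 2) (𝕜 := ℂ) μ (g k)] with t ht
      rw [hG]
      simp only
      rw [ht, hg1]
      apply hF.bdd
      rw [mem_ball_zero_iff, norm_mul, fourier_apply, Circle.norm_coe, mul_one, Complex.norm_real,
        Real.norm_of_nonneg (hr0 k)]
      exact hr1 k
    filter_upwards [hφ, h1] with t ht1 ht2
    exact le_of_tendsto ht1.norm (Eventually.of_forall fun k => ht2 (φ k))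
  set f : L0 := (f0 : 𝕋 →ₘ[μ] ℂ) with hf
  have hfC : BddBy f C := hae
  have hfc : ∀ i : ℤ, fourierCoeff (f : 𝕋 → ℂ) i = b i := by
    intro i
    rw [← hf0c i, fourierBasis_repr]
  refine ⟨f, ⟨⟨C, hfC⟩, fun n hn => ?_⟩, hfC, fun z hz => ?_⟩
  · rw [hfc, hb]
    simp only
    rw [if_neg (by omega)]
  · refine (ext_hasSum hfC hz).unique ?_
    have h1 := ha z hz
    have h2 : (fun n : ℕ => fourierCoeff (f : 𝕋 → ℂ) n * z ^ n) = fun n : ℕ => a n * z ^ n := by
      funext n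
      rw [hfc, hb]
      simp only
      rw [if_pos (by omega), Int.toNat_natCast]
    rwa [h2]

end Pool.Agent.Alling
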