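import Pool.Agent.Work.MP_ab1db7_an.Bdry3

/-! # MP_ab1db7_an, block B, part 4: density of `⋃ z̄^n H^∞` -/

set_option autoImplicit false

open MeasureTheory Complex Set Filter Topology Metric

namespace Pool.Agent.Alling

/-- functions approximable by `z̄^n h` -/
def AppSet : Set L0 :=
  {f | ∀ ε : ℝ, 0 < ε → ∃ (n : ℕ) (h : L0), h ∈ HinfSet ∧ BddBy (f - zzb ^ n * h) ε}

theorem zz_pow_mul_zzb_pow (n : ℕ) : zz ^ n * zzb ^ n = 1 := by
  rw [← mul_pow, zz_mul_zzb, one_pow]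

theorem bddBy_zzb : BddBy zzb 1 := bddBy_fourier _

theorem bddBy_zz : BddBy zz 1 := bddBy_fourier _

theorem bddBy_zzb_pow (n : ℕ) : BddBy (zzb ^ n) 1 := by
  simpa using bddBy_pow bddBy_zzb n

theorem bddBy_zz_pow (n : ℕ) : BddBy (zz ^ n) 1 := by
  simpa using bddBy_pow bddBy_zz n

theorem bddBy_zzb_mul {h : L0} {C : ℝ} (hh : BddBy h C) (n : ℕ) : BddBy (zzb ^ n * h) C := by
  simpa using (bddBy_zzb_pow n).mul hh zero_le_one

theorem bddBy_of_zzb_mul {h : L0} {C : ℝ} {n : ℕ} (hh : BddBy (zzb ^ n * h) C) : BddBy h C := by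
  have h1 := (bddBy_zz_pow n).mul hh zero_le_one
  rwa [← mul_assoc, zz_pow_mul_zzb_pow, one_mul, one_mul] at h1

theorem AppSet_bdd {f : L0} (hf : f ∈ AppSet) : ∃ C, 0 ≤ C ∧ BddBy f C := by
  obtain ⟨n, h, hh, h1⟩ := hf 1 one_pos
  obtain ⟨C, hC⟩ := hh.1
  have h2 := h1.add (bddBy_zzb_mul hC n)
  rw [sub_add_cancel] at h2
  exact ⟨1 + C, by linarith [bddBy_nonneg hC], h2⟩

theorem AppSet_add {f g : L0} (hf : f ∈ AppSet) (hg : g ∈ AppSet) : f + g ∈ AppSet := by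
  intro ε hε
  obtain ⟨n, h, hh, h1⟩ := hf (ε / 2) (by positivity)
  obtain ⟨m, k, hk, h2⟩ := hg (ε / 2) (by positivity)
  refine ⟨n + m, zz ^ m * h + zz ^ n * k, Hinf_add (Hinf_mul (Hinf_pow zz_mem m) hh)
    (Hinf_mul (Hinf_pow zz_mem n) hk), ?_⟩
  have h3 : f + g - zzb ^ (n + m) * (zz ^ m * h + zz ^ n * k) =
      (f - (zz ^ m * zzb ^ m) * (zzb ^ n * h)) + (g - (zz ^ n * zzb ^ n) * (zzb ^ m * k)) := by
    rw [pow_add]; ring
  rw [h3, zz_pow_mul_zzb_pow, zz_pow_mul_zzb_pow, one_mul, one_mul]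
  exact (h1.add h2).mono (by linarith)

theorem AppSet_mul {f g : L0} (hf : f ∈ AppSet) (hg : g ∈ AppSet) : f * g ∈ AppSet := by
  intro ε hε
  obtain ⟨C, hC, hfC⟩ := AppSet_bdd hf
  obtain ⟨D, hD, hgD⟩ := AppSet_bdd hg
  obtain ⟨η, hη, hη1⟩ : ∃ η : ℝ, 0 < η ∧ C * η + η * (D + 1) ≤ ε ∧ η ≤ 1 := by
    refine ⟨min 1 (ε / (C + (D + 1))), lt_min one_pos (by positivity), ?_, min_le_left _ _⟩
    have h1 : min 1 (ε / (C + (D + 1))) * (C + (D + 1)) ≤ ε := by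
      rw [← le_div_iff₀ (by positivity)]; exact min_le_right _ _
    linarith
  obtain ⟨n, h, hh, h1⟩ := hf η hη
  obtain ⟨m, k, hk, h2⟩ := hg η hη
  refine ⟨n + m, h * k, Hinf_mul hh hk, ?_⟩
  have hg'D : BddBy (zzb ^ m * k) (D + 1) := by
    have := hgD.sub h2
    rw [sub_sub_cancel] at this
    exact this.mono (by linarith [hη1.2])
  have h3 : f * g - zzb ^ (n + m) * (h * k) =
      f * (g - zzb ^ m * k) + (f - zzb ^ n * h) * (zzb ^ m * k) := by
    rw [pow_add]; ring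
  rw [h3]
  exact ((hfC.mul h2 hC).add (h1.mul hg'D hη.le)).mono hη1.1

theorem AppSet_of_Hinf {f : L0} (hf : f ∈ HinfSet) : f ∈ AppSet := by
  intro ε hε
  refine ⟨0, f, hf, ?_⟩
  rw [pow_zero, one_mul, sub_self]; exact bddBy_zero hε.le

theorem AppSet_closed {f : L0} (hf : ∀ ε : ℝ, 0 < ε → ∃ g ∈ AppSet, BddBy (f - g) ε) :
    f ∈ AppSet := by
  intro ε hε
  obtain ⟨g, hg, h1⟩ := hf (ε / 2) (by positivity)
  obtain ⟨n, h, hh, h2⟩ := hg (ε / 2) (by positivity)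
  refine ⟨n, h, hh, ?_⟩
  have h3 : f - zzb ^ n * h = (f - g) + (g - zzb ^ n * h) := by ring
  rw [h3]
  exact (h1.add h2).mono (by linarith)

theorem toAEEqFun_add (g h : C(𝕋, ℂ)) :
    ContinuousMap.toAEEqFun μ (g + h) =
      ContinuousMap.toAEEqFun μ g + ContinuousMap.toAEEqFun μ h := by
  apply AEEqFun.ext
  filter_upwards [AEEqFun.coeFn_add (ContinuousMap.toAEEqFun μ g) (ContinuousMap.toAEEqFun μ h),
    ContinuousMap.coeFn_toAEEqFun μ g, ContinuousMap.coeFn_toAEEqFun μ h,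
    ContinuousMap.coeFn_toAEEqFun μ (g + h)] with t h1 h2 h3 h4
  rw [h1, h4]
  simp [h2, h3]

theorem toAEEqFun_smul (c : ℂ) (g : C(𝕋, ℂ)) :
    ContinuousMap.toAEEqFun μ (c • g) = c • ContinuousMap.toAEEqFun μ g := by
  apply AEEqFun.ext
  filter_upwards [AEEqFun.coeFn_smul c (ContinuousMap.toAEEqFun μ g),
    ContinuousMap.coeFn_toAEEqFun μ g, ContinuousMap.coeFn_toAEEqFun μ (c • g)] with t h1 h2 h3
  rw [h1, h3]
  simp [h2]

theorem toAEEqFun_zero : ContinuousMap.toAEEqFun μ (0 : C(𝕋, ℂ)) = 0 := by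
  have h := toAEEqFun_add 0 0
  rw [add_zero] at h
  exact left_eq_add.1 h

theorem toAEEqFun_sub (g h : C(𝕋, ℂ)) :
    ContinuousMap.toAEEqFun μ (g - h) =
      ContinuousMap.toAEEqFun μ g - ContinuousMap.toAEEqFun μ h := by
  apply AEEqFun.ext
  filter_upwards [AEEqFun.coeFn_sub (ContinuousMap.toAEEqFun μ g) (ContinuousMap.toAEEqFun μ h),
    ContinuousMap.coeFn_toAEEqFun μ g, ContinuousMap.coeFn_toAEEqFun μ h,
    ContinuousMap.coeFn_toAEEqFun μ (g - h)] with t h1 h2 h3 h4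
  rw [h1, h4]
  simp [h2, h3]

theorem AppSet_fourier (n : ℤ) : ContinuousMap.toAEEqFun μ (fourier n) ∈ AppSet := by
  by_cases hn : 0 ≤ n
  · exact AppSet_of_Hinf (fourier_mem hn)
  · intro ε hε
    refine ⟨(-n).toNat, 1, ?_, ?_⟩
    · have := Hinf_algebraMap 1
      rwa [map_one] at this
    · rw [mul_one, zzb_pow]
      have h1 : (-(((-n).toNat : ℕ) : ℤ)) = n := by omega
      rw [h1, sub_self]; exact bddBy_zero hε.le

theorem AppSet_algebraMap (c : ℂ) : algebraMap ℂ L0 c ∈ AppSet :=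
  AppSet_of_Hinf (Hinf_algebraMap c)

theorem AppSet_cont (g : C(𝕋, ℂ)) : ContinuousMap.toAEEqFun μ g ∈ AppSet := by
  apply AppSet_closed
  intro ε hε
  have h1 : g ∈ (Submodule.span ℂ (range <| @fourier 1)).topologicalClosure := by
    rw [span_fourier_closure_eq_top]; trivial
  rw [← SetLike.mem_coe, Submodule.topologicalClosure_coe, Metric.mem_closure_iff] at h1
  obtain ⟨p, hp, h2⟩ := h1 ε hε
  refine ⟨ContinuousMap.toAEEqFun μ p, ?_, ?_⟩
  · refine Submodule.span_induction (p := fun p _ => ContinuousMap.toAEEqFun μ p ∈ AppSet)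
      ?_ ?_ ?_ ?_ hp
    · rintro _ ⟨n, rfl⟩
      exact AppSet_fourier n
    · rw [toAEEqFun_zero]
      exact AppSet_of_Hinf (Subalgebra.zero_mem Hsub)
    · intro x y _ _ hx hy
      rw [toAEEqFun_add]; exact AppSet_add hx hy
    · intro c x _ hx
      rw [toAEEqFun_smul, Algebra.smul_def]
      exact AppSet_mul (AppSet_algebraMap c) hx
  · rw [← toAEEqFun_sub]
    refine (bddBy_toAEEqFun _).mono ?_
    rw [← dist_eq_norm]; exact h2.le

/-- density of `⋃ z̄^n H^∞` in `A` -/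
theorem approx {f : L0} (hf : f ∈ A) {ε : ℝ} (hε : 0 < ε) :
    ∃ (n : ℕ) (h : L0), h ∈ HinfSet ∧ BddBy (f - zzb ^ n * h) ε := by
  have h1 : ∀ g ∈ genAlg, g ∈ AppSet := by
    intro g hg
    refine Algebra.adjoin_induction (p := fun f _ => f ∈ AppSet) ?_ ?_ ?_ ?_ hg
    · rintro f (hf | ⟨g, rfl⟩)
      · exact AppSet_of_Hinf hf
      · exact AppSet_cont g
    · exact AppSet_algebraMap
    · intro x y _ _ hx hy
      exact AppSet_add hx hy
    · intro x y _ _ hx hy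
      exact AppSet_mul hx hy
  have h2 : f ∈ AppSet := by
    apply AppSet_closed
    intro ε hε
    obtain ⟨g, hg, h3⟩ := hf ε hε
    exact ⟨g, h1 g hg, h3⟩
  exact h2 ε hε

end Pool.Agent.Alling
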