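import Pool.Agent.Work.MP_ab1db7_an.Bdry4

/-! # MP_ab1db7_an, block B, part 5: characters of `A` -/

set_option autoImplicit false

open MeasureTheory Complex Set Filter Topology Metric

namespace Pool.Agent.Alling

theorem A_closed {f : L0} (hf : ∀ ε : ℝ, 0 < ε → ∃ g ∈ A, BddBy (f - g) ε) : f ∈ A := by
  intro ε hε
  obtain ⟨g, hg, h1⟩ := hf (ε / 2) (by positivity)
  obtain ⟨k, hk, h2⟩ := hg (ε / 2) (by positivity)
  refine ⟨k, hk, ?_⟩
  have h3 : f - k = (f - g) + (g - k) := by ring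
  rw [h3]
  exact (h1.add h2).mono (by linarith)

/-- Neumann series -/
theorem inv_mem {g : L0} (hg : g ∈ A) {q : ℝ} (hq : BddBy g q) (hq1 : q < 1) :
    ∃ u ∈ A, (1 - g) * u = 1 := by
  have hmeas : Measurable fun z : ℂ => (1 - z)⁻¹ := by fun_prop
  set u : L0 := AEEqFun.compMeasurable (fun z : ℂ => (1 - z)⁻¹) hmeas g with hu
  have hu1 : (u : 𝕋 → ℂ) =ᵐ[μ] fun t => (1 - g t)⁻¹ :=
    AEEqFun.coeFn_compMeasurable _ hmeas g
  have h1 : (1 - g) * u = 1 := by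
    apply AEEqFun.ext
    filter_upwards [hu1, hq, AEEqFun.coeFn_mul (1 - g) u, AEEqFun.coeFn_sub (1 : L0) g,
      AEEqFun.coeFn_one (α := 𝕋) (μ := μ) (β := ℂ)] with t h1 h2 h3 h4 h5
    rw [h3, Pi.mul_apply, h4, h1, Pi.sub_apply, h5]
    simp only [Pi.one_apply]
    apply mul_inv_cancel₀
    intro h6
    have h7 : g t = 1 := (sub_eq_zero.1 h6).symm
    rw [h7, norm_one] at h2
    linarith
  have hu2 : BddBy u (1 - q)⁻¹ := by
    unfold BddBy at *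
    filter_upwards [hu1, hq] with t h1 h2
    rw [h1, norm_inv]
    apply inv_anti₀ (by linarith)
    have h3 := norm_sub_norm_le (1 : ℂ) (g t)
    rw [norm_one] at h3
    linarith
  have hq0 : 0 ≤ q := bddBy_nonneg hq
  refine ⟨u, ?_, h1⟩
  apply A_closed
  intro ε hε
  have hlim : Tendsto (fun n : ℕ => (1 - q)⁻¹ * q ^ n) atTop (𝓝 ((1 - q)⁻¹ * 0)) :=
    (tendsto_pow_atTop_nhds_zero_of_lt_one hq0 hq1).const_mul _
  rw [mul_zero] at hlim
  obtain ⟨n, hn⟩ := (hlim.eventually (ge_mem_nhds hε)).exists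
  refine ⟨∑ i ∈ Finset.range n, g ^ i, Subalgebra.sum_mem A fun i _ => Subalgebra.pow_mem A hg i, ?_⟩
  have h2 : u - ∑ i ∈ Finset.range n, g ^ i = u * g ^ n := by
    have h3 := mul_neg_geom_sum g n
    calc u - ∑ i ∈ Finset.range n, g ^ i
        = u - ((1 - g) * u) * ∑ i ∈ Finset.range n, g ^ i := by rw [h1, one_mul]
      _ = u - u * ((1 - g) * ∑ i ∈ Finset.range n, g ^ i) := by ring
      _ = u * g ^ n := by rw [h3]; ring
  rw [h2]
  exact (hu2.mul (bddBy_pow hq n) (bddBy_nonneg hu2)).mono hn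

theorem bddBy_smul {f : L0} {C : ℝ} (hf : BddBy f C) (c : ℂ) : BddBy (c • f) (‖c‖ * C) := by
  rw [Algebra.smul_def]
  exact (bddBy_algebraMap c).mul hf (norm_nonneg c)

/-- characters are contractive -/
theorem char_le (φ : M) (f : A) {C : ℝ} (hC : BddBy (f : L0) C) : ‖φ f‖ ≤ C := by
  by_contra hlt
  push Not at hlt
  have hC0 := bddBy_nonneg hC
  have hpos : 0 < ‖φ f‖ := lt_of_le_of_lt hC0 hlt
  have hne : φ f ≠ 0 := norm_pos_iff.1 hpos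
  set g : A := (φ f)⁻¹ • f with hg
  have hgq : BddBy (g : L0) (C / ‖φ f‖) := by
    have h1 := bddBy_smul hC (φ f)⁻¹
    rw [norm_inv] at h1
    rw [hg, div_eq_inv_mul]
    exact h1
  obtain ⟨u, hu, h1⟩ := inv_mem g.2 hgq ((div_lt_one hpos).2 hlt)
  have h2 : (1 - g) * (⟨u, hu⟩ : A) = 1 := by
    apply Subtype.ext
    exact h1
  have h3 := congrArg φ h2
  rw [map_mul, map_sub, map_one, hg, map_smul, smul_eq_mul, inv_mul_cancel₀ hne, sub_self,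
    zero_mul] at h3
  exact zero_ne_one h3

/-- the coordinate functions as elements of `A` -/
noncomputable def zA : A := ⟨zz, mem_A_of_Hinf zz_mem⟩
noncomputable def zbA : A := ⟨zzb, zzb_mem⟩

theorem zA_mul_zbA : zA * zbA = 1 := Subtype.ext zz_mul_zzb

theorem char_zz_mul (φ : M) : φ zA * φ zbA = 1 := by
  rw [← map_mul, zA_mul_zbA, map_one]

theorem char_zz_norm (φ : M) : ‖φ zA‖ = 1 := by
  have h1 : ‖φ zA‖ ≤ 1 := char_le φ zA bddBy_zz
  have h2 : ‖φ zbA‖ ≤ 1 := char_le φ zbA bddBy_zzb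
  have h3 : ‖φ zA‖ * ‖φ zbA‖ = 1 := by rw [← norm_mul, char_zz_mul, norm_one]
  refine le_antisymm h1 ?_
  rw [← h3]
  exact mul_le_of_le_one_right (norm_nonneg _) h2

theorem char_zzb (φ : M) : φ zbA = (starRingEnd ℂ) (φ zA) := by
  have h1 := char_zz_mul φ
  have h2 : (starRingEnd ℂ) (φ zA) * φ zA = 1 := by
    rw [mul_comm, Complex.mul_conj, Complex.normSq_eq_norm_sq, char_zz_norm]; simp
  calc φ zbA = ((starRingEnd ℂ) (φ zA) * φ zA) * φ zbA := by rw [h2, one_mul]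
    _ = (starRingEnd ℂ) (φ zA) * (φ zA * φ zbA) := by ring
    _ = _ := by rw [h1, mul_one]

/-- approximation of the value of a character -/
theorem char_approx (f : A) {ε : ℝ} (hε : 0 < ε) : ∃ (n : ℕ) (h : L0) (hh : h ∈ HinfSet),
    ∀ φ : M, ‖φ f - (starRingEnd ℂ) (φ zA) ^ n * φ ⟨h, mem_A_of_Hinf hh⟩‖ ≤ ε := by
  obtain ⟨n, h, hh, h1⟩ := approx f.2 hε
  refine ⟨n, h, hh, fun φ => ?_⟩
  have h2 : (starRingEnd ℂ) (φ zA) ^ n * φ ⟨h, mem_A_of_Hinf hh⟩ =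
      φ (zbA ^ n * ⟨h, mem_A_of_Hinf hh⟩) := by
    rw [map_mul, map_pow, char_zzb]
  rw [h2, ← map_sub]
  exact char_le φ _ h1

/-- two characters which agree on `H^∞` are equal -/
theorem char_ext {φ ψ : M}
    (h : ∀ (f : L0) (hf : f ∈ HinfSet), φ ⟨f, mem_A_of_Hinf hf⟩ = ψ ⟨f, mem_A_of_Hinf hf⟩) :
    φ = ψ := by
  apply AlgHom.ext
  intro f
  apply eq_of_forall_dist_le
  intro ε hε
  obtain ⟨n, k, hk, h1⟩ := char_approx f (ε := ε / 2) (by positivity)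
  have h2 := h1 φ
  have h3 := h1 ψ
  have h4 : φ zA = ψ zA := h zz zz_mem
  rw [h4, h k hk] at h2
  rw [dist_eq_norm]
  calc ‖φ f - ψ f‖ = ‖(φ f - (starRingEnd ℂ) (ψ zA) ^ n * ψ ⟨k, mem_A_of_Hinf hk⟩) -
        (ψ f - (starRingEnd ℂ) (ψ zA) ^ n * ψ ⟨k, mem_A_of_Hinf hk⟩)‖ := by ring_nf
    _ ≤ ε / 2 + ε / 2 := (norm_sub_le _ _).trans (add_le_add h2 h3)
    _ = ε := by ring

theorem nhds_single (φ : M) (a : A) {ε : ℝ} (hε : 0 < ε) :
    ∃ (s : Finset L0) (hs : ∀ f ∈ s, f ∈ HinfSet) (δ : ℝ), 0 < δ ∧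
      ∀ ψ : M, (∀ (f : L0) (hf : f ∈ s), ‖ψ ⟨f, mem_A_of_Hinf (hs f hf)⟩ -
        φ ⟨f, mem_A_of_Hinf (hs f hf)⟩‖ < δ) → ‖ψ a - φ a‖ < ε := by
  classical
  obtain ⟨n, h, hh, h1⟩ := char_approx a (ε := ε / 4) (by positivity)
  have hcont : Continuous fun p : ℂ × ℂ => (starRingEnd ℂ) p.1 ^ n * p.2 := by
    have := Complex.continuous_conj
    fun_prop
  obtain ⟨δ, hδ, h2⟩ := Metric.continuous_iff.1 hcont
    (φ zA, φ ⟨h, mem_A_of_Hinf hh⟩) (ε / 4) (by positivity)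
  refine ⟨{zz, h}, ?_, δ, hδ, ?_⟩
  · intro f hf
    rw [Finset.mem_insert, Finset.mem_singleton] at hf
    rcases hf with rfl | rfl
    · exact zz_mem
    · exact hh
  · intro ψ hψ
    have h3 := hψ zz (by simp)
    have h4 := hψ h (by simp)
    have h5 := h2 (ψ zA, ψ ⟨h, mem_A_of_Hinf hh⟩) (by
      rw [Prod.dist_eq, max_lt_iff, dist_eq_norm, dist_eq_norm]
      exact ⟨h3, h4⟩)
    rw [dist_eq_norm] at h5
    have h6 := h1 φ
    have h7 := h1 ψ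
    simp only at h5
    calc ‖ψ a - φ a‖ = ‖(ψ a - (starRingEnd ℂ) (ψ zA) ^ n * ψ ⟨h, mem_A_of_Hinf hh⟩) +
          ((starRingEnd ℂ) (ψ zA) ^ n * ψ ⟨h, mem_A_of_Hinf hh⟩ -
            (starRingEnd ℂ) (φ zA) ^ n * φ ⟨h, mem_A_of_Hinf hh⟩) -
          (φ a - (starRingEnd ℂ) (φ zA) ^ n * φ ⟨h, mem_A_of_Hinf hh⟩)‖ := by ring_nf
      _ ≤ (ε / 4 + ε / 4) + ε / 4 := by
          refine (norm_sub_le _ _).trans (add_le_add ((norm_add_le _ _).trans ?_) h6)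
          exact add_le_add h7 h5.le
      _ < ε := by linarith

theorem nhds_finset (φ : M) (I : Finset A) (e : A → ℝ) (he : ∀ a ∈ I, 0 < e a) :
    ∃ (s : Finset L0) (hs : ∀ f ∈ s, f ∈ HinfSet) (δ : ℝ), 0 < δ ∧
      ∀ ψ : M, (∀ (f : L0) (hf : f ∈ s), ‖ψ ⟨f, mem_A_of_Hinf (hs f hf)⟩ -
        φ ⟨f, mem_A_of_Hinf (hs f hf)⟩‖ < δ) → ∀ a ∈ I, ‖ψ a - φ a‖ < e a := by
  classical
  induction I using Finset.induction_on with
  | empty =>
    refine ⟨∅, by simp, 1, one_pos, ?_⟩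
    intro ψ _ a ha
    simp at ha
  | insert a I haI ih =>
    obtain ⟨s, hs, δ, hδ, h1⟩ := ih (fun b hb => he b (Finset.mem_insert_of_mem hb))
    obtain ⟨s', hs', δ', hδ', h2⟩ := nhds_single φ a (he a (Finset.mem_insert_self a I))
    refine ⟨s ∪ s', ?_, min δ δ', lt_min hδ hδ', ?_⟩
    · intro f hf
      rcases Finset.mem_union.1 hf with hf | hf
      · exact hs f hf
      · exact hs' f hf
    · intro ψ hψ b hb
      rcases Finset.mem_insert.1 hb with rfl | hb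
      · exact h2 ψ fun f hf =>
          (hψ f (Finset.mem_union_right _ hf)).trans_le (min_le_right _ _)
      · exact h1 ψ (fun f hf =>
          (hψ f (Finset.mem_union_left _ hf)).trans_le (min_le_left _ _)) b hb

/-- the Gelfand topology is generated by `H^∞` -/
theorem nhds_basis (φ : M) (U : Set M) (hU : IsOpen U) (hφ : φ ∈ U) :
    ∃ (s : Finset L0) (hs : ∀ f ∈ s, f ∈ HinfSet) (ε : ℝ), 0 < ε ∧
      ∀ ψ : M, (∀ (f : L0) (hf : f ∈ s), ‖ψ ⟨f, mem_A_of_Hinf (hs f hf)⟩ -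
        φ ⟨f, mem_A_of_Hinf (hs f hf)⟩‖ < ε) → ψ ∈ U := by
  obtain ⟨V, hV, rfl⟩ := isOpen_induced_iff.1 hU
  obtain ⟨I, u, h1, h2⟩ := isOpen_pi_iff.1 hV _ hφ
  have h3 : ∀ a : A, ∃ e : ℝ, a ∈ I → 0 < e ∧ ball (φ a) e ⊆ u a := by
    intro a
    by_cases ha : a ∈ I
    · obtain ⟨e, he, h4⟩ := Metric.isOpen_iff.1 (h1 a ha).1 _ (h1 a ha).2
      exact ⟨e, fun _ => ⟨he, h4⟩⟩
    · exact ⟨0, fun h => absurd h ha⟩
  choose e he using h3
  obtain ⟨s, hs, δ, hδ, h4⟩ := nhds_finset φ I e (fun a ha => (he a ha).1)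
  refine ⟨s, hs, δ, hδ, fun ψ hψ => ?_⟩
  apply h2
  intro a ha
  apply (he a ha).2
  rw [mem_ball, dist_eq_norm]
  exact h4 ψ hψ a ha

end Pool.Agent.Alling
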