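import Pool.Agent.Work.MP_ab1db7_an.Bdry5

/-! # MP_ab1db7_an, block B, part 6: extension of characters, density of the disc -/

set_option autoImplicit false

open MeasureTheory Complex Set Filter Topology Metric

namespace Pool.Agent.Alling

section charext

variable {ψ : L0 → ℂ} (h1 : ψ 1 = 1)
    (hadd : ∀ f ∈ HinfSet, ∀ g ∈ HinfSet, ψ (f + g) = ψ f + ψ g)
    (hmul : ∀ f ∈ HinfSet, ∀ g ∈ HinfSet, ψ (f * g) = ψ f * ψ g)
    (hsc : ∀ c : ℂ, ∀ f ∈ HinfSet, ψ (c • f) = c * ψ f)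
    (hb : ∀ f ∈ HinfSet, ∀ C : ℝ, BddBy f C → ‖ψ f‖ ≤ C)
    (hz : ‖ψ zz‖ = 1)

theorem one_mem_Hinf : (1 : L0) ∈ HinfSet := by
  have := Hinf_algebraMap 1
  rwa [map_one] at this

include h1 hmul in
theorem psi_pow {f : L0} (hf : f ∈ HinfSet) (n : ℕ) : ψ (f ^ n) = ψ f ^ n := by
  induction n with
  | zero => rw [pow_zero, pow_zero, h1]
  | succ n ih => rw [pow_succ, hmul _ (Hinf_pow hf n) _ hf, ih, pow_succ]

include h1 hadd hmul hsc hb hz in
theorem psi_key {h k : L0} (hh : h ∈ HinfSet) (hk : k ∈ HinfSet) {n m : ℕ} {C : ℝ}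
    (hC : BddBy (zzb ^ n * h - zzb ^ m * k) C) :
    ‖(ψ zz)⁻¹ ^ n * ψ h - (ψ zz)⁻¹ ^ m * ψ k‖ ≤ C := by
  have hne : ψ zz ≠ 0 := norm_pos_iff.1 (by rw [hz]; exact one_pos)
  have h2 : BddBy (zz ^ m * h - zz ^ n * k) C := by
    have h3 := (bddBy_zz_pow (n + m)).mul hC zero_le_one
    have h4 : zz ^ (n + m) * (zzb ^ n * h - zzb ^ m * k) =
        (zz ^ n * zzb ^ n) * (zz ^ m * h) - (zz ^ m * zzb ^ m) * (zz ^ n * k) := by
      rw [pow_add]; ring
    rw [h4, zz_pow_mul_zzb_pow, zz_pow_mul_zzb_pow, one_mul, one_mul, one_mul] at h3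
    exact h3
  have hm1 := Hinf_mul (Hinf_pow zz_mem m) hh
  have hm2 := Hinf_mul (Hinf_pow zz_mem n) hk
  have h5 := hb _ (Hinf_sub hm1 hm2) C h2
  have h6 : zz ^ m * h - zz ^ n * k = zz ^ m * h + (-1 : ℂ) • (zz ^ n * k) := by
    rw [neg_one_smul, sub_eq_add_neg]
  rw [h6, hadd _ hm1 _ (Hinf_smul hm2 _), hsc _ _ hm2, hmul _ (Hinf_pow zz_mem m) _ hh,
    hmul _ (Hinf_pow zz_mem n) _ hk, psi_pow h1 hmul zz_mem, psi_pow h1 hmul zz_mem] at h5
  have h7 : (ψ zz)⁻¹ ^ n * ψ h - (ψ zz)⁻¹ ^ m * ψ k =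
      (ψ zz)⁻¹ ^ (n + m) * (ψ zz ^ m * ψ h + -1 * (ψ zz ^ n * ψ k)) := by
    rw [pow_add]
    have h8 : (ψ zz)⁻¹ ^ n * ψ zz ^ n = 1 := by rw [← mul_pow, inv_mul_cancel₀ hne, one_pow]
    have h9 : (ψ zz)⁻¹ ^ m * ψ zz ^ m = 1 := by rw [← mul_pow, inv_mul_cancel₀ hne, one_pow]
    calc (ψ zz)⁻¹ ^ n * ψ h - (ψ zz)⁻¹ ^ m * ψ k
        = (ψ zz)⁻¹ ^ n * (((ψ zz)⁻¹ ^ m * ψ zz ^ m) * ψ h) -
          (ψ zz)⁻¹ ^ m * (((ψ zz)⁻¹ ^ n * ψ zz ^ n) * ψ k) := by rw [h8, h9, one_mul, one_mul]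
      _ = _ := by ring
  rw [h7, norm_mul, norm_pow, norm_inv, hz, inv_one, one_pow, one_mul]
  exact h5

include h1 hadd hmul hsc hb hz in
theorem exists_val {f : L0} (hf : f ∈ A) : ∃ c : ℂ, ∀ (n : ℕ) (h : L0) (C : ℝ), h ∈ HinfSet →
    BddBy (f - zzb ^ n * h) C → ‖c - (ψ zz)⁻¹ ^ n * ψ h‖ ≤ C := by
  choose n h hh happ using fun i : ℕ =>
    approx hf (ε := 1 / ((i : ℝ) + 1)) (by positivity)
  set v : ℕ → ℂ := fun i => (ψ zz)⁻¹ ^ n i * ψ (h i) with hv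
  have hkey : ∀ (i : ℕ) (m : ℕ) (k : L0) (C : ℝ), k ∈ HinfSet → BddBy (f - zzb ^ m * k) C →
      ‖v i - (ψ zz)⁻¹ ^ m * ψ k‖ ≤ 1 / ((i : ℝ) + 1) + C := by
    intro i m k C hk hC
    refine psi_key h1 hadd hmul hsc hb hz (hh i) hk ?_
    have h2 := hC.sub (happ i)
    have h3 : f - zzb ^ m * k - (f - zzb ^ n i * h i) = zzb ^ n i * h i - zzb ^ m * k := by ring
    rw [h3] at h2
    exact h2.mono (by linarith)
  have hlim0 : Tendsto (fun i : ℕ => 1 / ((i : ℝ) + 1)) atTop (𝓝 0) :=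
    tendsto_one_div_add_atTop_nhds_zero_nat
  have hcau : CauchySeq v := by
    refine cauchySeq_of_le_tendsto_0 (fun i : ℕ => 1 / ((i : ℝ) + 1) + 1 / ((i : ℝ) + 1)) ?_ ?_
    · intro i j N hi hj
      rw [dist_eq_norm]
      refine (hkey i (n j) (h j) _ (hh j) (happ j)).trans ?_
      have hi' : (N : ℝ) ≤ i := by exact_mod_cast hi
      have hj' : (N : ℝ) ≤ j := by exact_mod_cast hj
      refine add_le_add ?_ ?_
      · exact one_div_le_one_div_of_le (by positivity) (by linarith)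
      · exact one_div_le_one_div_of_le (by positivity) (by linarith)
    · simpa using hlim0.add hlim0
  obtain ⟨c, hc⟩ := cauchySeq_tendsto_of_complete hcau
  refine ⟨c, fun m k C hk hC => ?_⟩
  have h4 : Tendsto (fun i => ‖v i - (ψ zz)⁻¹ ^ m * ψ k‖) atTop
      (𝓝 ‖c - (ψ zz)⁻¹ ^ m * ψ k‖) := (hc.sub_const _).norm
  have h5 : Tendsto (fun i : ℕ => 1 / ((i : ℝ) + 1) + C) atTop (𝓝 (0 + C)) :=
    hlim0.add_const C
  rw [zero_add] at h5
  exact le_of_tendsto_of_tendsto' h4 h5 fun i => hkey i m k C hk hC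

end charext

/-- extension of characters from `H^∞` to `A` -/
theorem exists_char (ψ : L0 → ℂ) (h1 : ψ 1 = 1)
    (hadd : ∀ f ∈ HinfSet, ∀ g ∈ HinfSet, ψ (f + g) = ψ f + ψ g)
    (hmul : ∀ f ∈ HinfSet, ∀ g ∈ HinfSet, ψ (f * g) = ψ f * ψ g)
    (hsc : ∀ c : ℂ, ∀ f ∈ HinfSet, ψ (c • f) = c * ψ f)
    (hb : ∀ f ∈ HinfSet, ∀ C : ℝ, BddBy f C → ‖ψ f‖ ≤ C)
    (hz : ‖ψ zz‖ = 1) :
    ∃ φ : M, ∀ (f : L0) (hf : f ∈ HinfSet), φ ⟨f, mem_A_of_Hinf hf⟩ = ψ f := by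
  have hne : ψ zz ≠ 0 := norm_pos_iff.1 (by rw [hz]; exact one_pos)
  set w : ℂ := (ψ zz)⁻¹ with hw
  have hwz : w * ψ zz = 1 := inv_mul_cancel₀ hne
  have hwn : ∀ n : ℕ, w ^ n * ψ zz ^ n = 1 := fun n => by rw [← mul_pow, hwz, one_pow]
  have hw1 : ∀ n : ℕ, ‖w ^ n‖ = 1 := fun n => by rw [norm_pow, hw, norm_inv, hz, inv_one, one_pow]
  choose c hc using fun f : A => exists_val h1 hadd hmul hsc hb hz f.2
  have hcH : ∀ (f : L0) (hf : f ∈ HinfSet), c ⟨f, mem_A_of_Hinf hf⟩ = ψ f := by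
    intro f hf
    have h2 := hc ⟨f, mem_A_of_Hinf hf⟩ 0 f 0 hf (by
      rw [pow_zero, one_mul, sub_self]; exact bddBy_zero le_rfl)
    rw [pow_zero, one_mul] at h2
    exact sub_eq_zero.1 (norm_le_zero_iff.1 h2)
  have hcadd : ∀ f g : A, c (f + g) = c f + c g := by
    intro f g
    apply eq_of_forall_dist_le
    intro ε hε
    obtain ⟨n, h, hh, h2⟩ := approx f.2 (ε := ε / 4) (by positivity)
    obtain ⟨m, k, hk, h3⟩ := approx g.2 (ε := ε / 4) (by positivity)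
    have hm1 := Hinf_mul (Hinf_pow zz_mem m) hh
    have hm2 := Hinf_mul (Hinf_pow zz_mem n) hk
    have h4 := hc (f + g) (n + m) (zz ^ m * h + zz ^ n * k) (ε / 4 + ε / 4) (Hinf_add hm1 hm2) (by
      have h3' : ((f + g : A) : L0) - zzb ^ (n + m) * (zz ^ m * h + zz ^ n * k) =
          ((f : L0) - (zz ^ m * zzb ^ m) * (zzb ^ n * h)) +
            ((g : L0) - (zz ^ n * zzb ^ n) * (zzb ^ m * k)) := by
        rw [pow_add, Subalgebra.coe_add]; ring
      rw [h3', zz_pow_mul_zzb_pow, zz_pow_mul_zzb_pow, one_mul, one_mul]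
      exact h2.add h3)
    rw [hadd _ hm1 _ hm2, hmul _ (Hinf_pow zz_mem m) _ hh, hmul _ (Hinf_pow zz_mem n) _ hk,
      psi_pow h1 hmul zz_mem, psi_pow h1 hmul zz_mem] at h4
    have h5 : w ^ (n + m) * (ψ zz ^ m * ψ h + ψ zz ^ n * ψ k) = w ^ n * ψ h + w ^ m * ψ k := by
      calc w ^ (n + m) * (ψ zz ^ m * ψ h + ψ zz ^ n * ψ k)
          = (w ^ m * ψ zz ^ m) * (w ^ n * ψ h) + (w ^ n * ψ zz ^ n) * (w ^ m * ψ k) := by
            rw [pow_add]; ring
        _ = _ := by rw [hwn, hwn, one_mul, one_mul]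
    rw [h5] at h4
    have h6 := hc f n h _ hh h2
    have h7 := hc g m k _ hk h3
    rw [dist_eq_norm]
    calc ‖c (f + g) - (c f + c g)‖ = ‖(c (f + g) - (w ^ n * ψ h + w ^ m * ψ k)) -
          ((c f - w ^ n * ψ h) + (c g - w ^ m * ψ k))‖ := by ring_nf
      _ ≤ (ε / 4 + ε / 4) + (ε / 4 + ε / 4) :=
          (norm_sub_le _ _).trans (add_le_add h4 ((norm_add_le _ _).trans (add_le_add h6 h7)))
      _ = ε := by ring
  have hcmul : ∀ f g : A, c (f * g) = c f * c g := by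
    intro f g
    apply eq_of_forall_dist_le
    intro ε hε
    obtain ⟨C, hC, hfC⟩ := bdd_of_mem_ASet f.2
    obtain ⟨D, hD, hgD⟩ := bdd_of_mem_ASet g.2
    set K : ℝ := C + (D + 1) + (‖c f‖ + 1) + ‖c g‖ with hK
    have hKpos : 0 < K := by positivity
    obtain ⟨η, hη, hη1, hη2⟩ : ∃ η : ℝ, 0 < η ∧ K * η ≤ ε ∧ η ≤ 1 := by
      refine ⟨min 1 (ε / K), lt_min one_pos (by positivity), ?_, min_le_left _ _⟩
      rw [mul_comm, ← le_div_iff₀ hKpos]; exact min_le_right _ _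
    obtain ⟨n, h, hh, h2⟩ := approx f.2 hη
    obtain ⟨m, k, hk, h3⟩ := approx g.2 hη
    have hg'D : BddBy (zzb ^ m * k) (D + 1) := by
      have := hgD.sub h3
      rw [sub_sub_cancel] at this
      exact this.mono (by linarith)
    have h4 := hc (f * g) (n + m) (h * k) (C * η + η * (D + 1)) (Hinf_mul hh hk) (by
      have h3' : ((f * g : A) : L0) - zzb ^ (n + m) * (h * k) =
          (f : L0) * ((g : L0) - zzb ^ m * k) + ((f : L0) - zzb ^ n * h) * (zzb ^ m * k) := by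
        rw [pow_add, Subalgebra.coe_mul]; ring
      rw [h3']
      exact (hfC.mul h3 hC).add (h2.mul hg'D hη.le))
    rw [hmul _ hh _ hk] at h4
    have h6 := hc f n h _ hh h2
    have h7 := hc g m k _ hk h3
    rw [← hw] at h4 h6 h7
    have h8 : ‖w ^ n * ψ h‖ ≤ ‖c f‖ + 1 := by
      have h9 := norm_sub_norm_le (w ^ n * ψ h) (c f)
      rw [norm_sub_rev] at h9
      linarith
    rw [dist_eq_norm]
    calc ‖c (f * g) - c f * c g‖ = ‖(c (f * g) - w ^ (n + m) * (ψ h * ψ k)) -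
          ((c f - w ^ n * ψ h) * c g + (w ^ n * ψ h) * (c g - w ^ m * ψ k))‖ := by
            rw [pow_add]; ring_nf
      _ ≤ (C * η + η * (D + 1)) + (η * ‖c g‖ + (‖c f‖ + 1) * η) := by
          refine (norm_sub_le _ _).trans (add_le_add h4 ((norm_add_le _ _).trans ?_))
          rw [norm_mul, norm_mul (w ^ n * ψ h)]
          exact add_le_add (mul_le_mul_of_nonneg_right h6 (norm_nonneg _))
            (mul_le_mul h8 h7 (norm_nonneg _) (by positivity))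
      _ = K * η := by rw [hK]; ring
      _ ≤ ε := hη1
  have hcalg : ∀ z : ℂ, c (algebraMap ℂ A z) = z := by
    intro z
    have h2 : (algebraMap ℂ A z) = ⟨algebraMap ℂ L0 z, mem_A_of_Hinf (Hinf_algebraMap z)⟩ := rfl
    rw [h2, hcH _ (Hinf_algebraMap z), Algebra.algebraMap_eq_smul_one, hsc _ _ one_mem_Hinf, h1,
      mul_one]
  have hc1 : c 1 = 1 := by
    have := hcalg 1
    rwa [map_one] at this
  have hc0 : c 0 = 0 := by
    have := hcalg 0
    rwa [map_zero] at this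
  let Φ : M :=
    { toFun := c
      map_one' := hc1
      map_mul' := hcmul
      map_zero' := hc0
      map_add' := hcadd
      commutes' := hcalg }
  exact ⟨Φ, hcH⟩

/-- the corona theorem, as a hypothesis -/
def CoronaStatement : Prop :=
  ∀ {n : ℕ} (f : Fin n → ℂ → ℂ), (∀ j, HolBdd (f j) 1) → ∀ {δ : ℝ}, 0 < δ →
    (∀ z ∈ ball (0 : ℂ) 1, δ ≤ ∑ j, ‖f j z‖) →
    ∃ (g : Fin n → ℂ → ℂ) (C : ℝ), (∀ j, HolBdd (g j) C) ∧
      ∀ z ∈ ball (0 : ℂ) 1, ∑ j, f j z * g j z = 1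

theorem ext_sum {ι : Type*} (s : Finset ι) (f : ι → L0) (hf : ∀ i ∈ s, f i ∈ HinfSet) {z : ℂ}
    (hz : z ∈ ball (0 : ℂ) 1) : ext (∑ i ∈ s, f i) z = ∑ i ∈ s, ext (f i) z := by
  classical
  induction s using Finset.induction_on with
  | empty =>
    rw [Finset.sum_empty, Finset.sum_empty]
    have := ext_algebraMap 0 hz
    rwa [map_zero] at this
  | insert a s ha ih =>
    rw [Finset.sum_insert ha, Finset.sum_insert ha, ext_add (hf a (Finset.mem_insert_self a s)) ?_ hz,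
      ih fun i hi => hf i (Finset.mem_insert_of_mem hi)]
    exact Subalgebra.sum_mem Hsub fun i hi => hf i (Finset.mem_insert_of_mem hi)

/-- a finite set of `H^∞` functions: the values of a character are approximated on the disc -/
theorem fip (hcor : CoronaStatement) (φ : M) {n : ℕ} (f : Fin n → L0) (hf : ∀ j, f j ∈ HinfSet)
    {ε : ℝ} (hε : 0 < ε) :
    ∃ z ∈ ball (0 : ℂ) 1, ∀ j, ‖ext (f j) z - φ ⟨f j, mem_A_of_Hinf (hf j)⟩‖ < ε := by
  by_contra hcon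
  push Not at hcon
  choose C hC using fun j => (hf j).1
  set c : Fin n → ℂ := fun j => φ ⟨f j, mem_A_of_Hinf (hf j)⟩ with hc
  -- bound
  obtain ⟨K, hK0, hK⟩ : ∃ K : ℝ, 0 < K ∧ ∀ j, C j + ‖c j‖ ≤ K := by
    refine ⟨1 + ∑ j, (C j + ‖c j‖), ?_, ?_⟩
    · have : 0 ≤ ∑ j, (C j + ‖c j‖) :=
        Finset.sum_nonneg fun j _ => add_nonneg (bddBy_nonneg (hC j)) (norm_nonneg _)
      linarith
    · intro j
      have := Finset.single_le_sum (f := fun j => C j + ‖c j‖)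
        (fun j _ => add_nonneg (bddBy_nonneg (hC j)) (norm_nonneg _)) (Finset.mem_univ j)
      linarith
  set F : Fin n → L0 := fun j => ((K : ℂ)⁻¹) • (f j - algebraMap ℂ L0 (c j)) with hF
  have hKC : ‖(K : ℂ)⁻¹‖ = K⁻¹ := by
    rw [norm_inv, Complex.norm_real, Real.norm_of_nonneg hK0.le]
  have hFH : ∀ j, F j ∈ HinfSet := fun j => Hinf_smul (Hinf_sub (hf j) (Hinf_algebraMap _)) _
  have hFb : ∀ j, BddBy (F j) 1 := by
    intro j
    have h1 := bddBy_smul ((hC j).sub (bddBy_algebraMap (c j))) ((K : ℂ)⁻¹)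
    rw [hKC] at h1
    refine h1.mono ?_
    rw [← div_eq_inv_mul]
    exact (div_le_one hK0).2 (hK j)
  have hFe : ∀ j, ∀ z ∈ ball (0 : ℂ) 1, ext (F j) z = (K : ℂ)⁻¹ * (ext (f j) z - c j) := by
    intro j z hz
    have h2 : f j - algebraMap ℂ L0 (c j) = f j + (-1 : ℂ) • algebraMap ℂ L0 (c j) := by
      rw [neg_one_smul, sub_eq_add_neg]
    rw [hF]
    simp only
    rw [ext_smul (Hinf_sub (hf j) (Hinf_algebraMap _)) _ hz, h2,
      ext_add (hf j) (Hinf_smul (Hinf_algebraMap _) _) hz, ext_smul (Hinf_algebraMap _) _ hz,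
      ext_algebraMap _ hz]
    ring
  obtain ⟨g, D, hg, hsum⟩ := hcor (fun j => ext (F j)) (fun j => ext_holBdd (hFH j) (hFb j))
    (δ := K⁻¹ * ε) (by positivity) (by
      intro z hz
      obtain ⟨j, hj⟩ := hcon z hz
      refine le_trans ?_ (Finset.single_le_sum (f := fun j => ‖ext (F j) z‖)
        (fun j _ => norm_nonneg _) (Finset.mem_univ j))
      rw [hFe j z hz, norm_mul, hKC]
      exact mul_le_mul_of_nonneg_left hj (by positivity))
  choose k hk1 hk2 hk3 using fun j => exists_bdry (hg j)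
  have hone : ∑ j, F j * k j = 1 := by
    refine ext_inj' (Subalgebra.sum_mem Hsub fun j _ => Hinf_mul (hFH j) (hk1 j)) one_mem_Hinf ?_
    intro z hz
    rw [ext_sum _ _ (fun j _ => Hinf_mul (hFH j) (hk1 j)) hz, ext_one hz, ← hsum z hz]
    apply Finset.sum_congr rfl
    intro j _
    rw [ext_mul (hFH j) (hk1 j) hz, hk3 j z hz]
  have hFφ : ∀ j, φ ⟨F j, mem_A_of_Hinf (hFH j)⟩ = 0 := by
    intro j
    have h3 : (⟨F j, mem_A_of_Hinf (hFH j)⟩ : A) =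
        ((K : ℂ)⁻¹) • (⟨f j, mem_A_of_Hinf (hf j)⟩ - algebraMap ℂ A (c j)) := rfl
    rw [h3, map_smul, map_sub, AlgHom.commutes]
    simp [hc]
  have h4 : (∑ j, (⟨F j, mem_A_of_Hinf (hFH j)⟩ : A) * ⟨k j, mem_A_of_Hinf (hk1 j)⟩) = 1 := by
    apply Subtype.ext
    rw [AddSubmonoidClass.coe_finsetSum]
    exact hone
  have h5 := congrArg φ h4
  rw [map_sum, map_one] at h5
  have h6 : ∑ j, φ ((⟨F j, mem_A_of_Hinf (hFH j)⟩ : A) * ⟨k j, mem_A_of_Hinf (hk1 j)⟩) = 0 := by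
    apply Finset.sum_eq_zero
    intro j _
    rw [map_mul, hFφ, zero_mul]
  rw [h6] at h5
  exact zero_ne_one h5

/-- density of the disc: every character is an ultrafilter limit of point evaluations -/
theorem exists_ultrafilter_of_corona (hcor : CoronaStatement) (φ : M) :
    ∃ U : Ultrafilter ℂ, ball (0 : ℂ) 1 ∈ U ∧
      ∀ (f : L0) (hf : f ∈ HinfSet),
        Tendsto (ext f) U (𝓝 (φ ⟨f, mem_A_of_Hinf hf⟩)) := by
  classical
  set E : ℂ → ({f : L0 // f ∈ HinfSet} → ℂ) := fun z f => ext f.1 z with hE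
  set Φ : {f : L0 // f ∈ HinfSet} → ℂ := fun f => φ ⟨f.1, mem_A_of_Hinf f.2⟩ with hΦ
  have h1 : Φ ∈ closure (E '' ball 0 1) := by
    rw [_root_.mem_closure_iff]
    intro o ho hΦo
    obtain ⟨I, u, h1, h2⟩ := isOpen_pi_iff.1 ho _ hΦo
    obtain ⟨ε, hε, h3⟩ : ∃ ε : ℝ, 0 < ε ∧ ∀ a ∈ I, ball (Φ a) ε ⊆ u a := by
      clear h2
      induction I using Finset.induction_on with
      | empty => exact ⟨1, one_pos, by simp⟩
      | insert a I haI ih =>
        obtain ⟨ε, hε, h3⟩ := ih fun b hb => h1 b (Finset.mem_insert_of_mem hb)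
        obtain ⟨e, he, h4⟩ := Metric.isOpen_iff.1 (h1 a (Finset.mem_insert_self a I)).1 _
          (h1 a (Finset.mem_insert_self a I)).2
        refine ⟨min ε e, lt_min hε he, ?_⟩
        intro b hb
        rcases Finset.mem_insert.1 hb with rfl | hb
        · exact (ball_subset_ball (min_le_right _ _)).trans h4
        · exact (ball_subset_ball (min_le_left _ _)).trans (h3 b hb)
    obtain ⟨z, hz, h4⟩ := fip hcor φ (fun j : Fin I.card => ((I.equivFin.symm j : I) :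
      {f : L0 // f ∈ HinfSet}).1) (fun j => (I.equivFin.symm j : I).1.2) hε
    refine ⟨E z, h2 ?_, ⟨z, hz, rfl⟩⟩
    intro a ha
    apply h3 a ha
    rw [mem_ball, dist_eq_norm]
    have h5 := h4 (I.equivFin ⟨a, ha⟩)
    simp only [Equiv.symm_apply_apply] at h5
    exact h5
  obtain ⟨u, hu1, hu2⟩ := mem_closure_iff_ultrafilter.1 h1
  have h3 : ∀ x : ({f : L0 // f ∈ HinfSet} → ℂ), ∃ z : ℂ, x ∈ E '' ball 0 1 →
      z ∈ ball (0 : ℂ) 1 ∧ E z = x := by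
    intro x
    by_cases hx : x ∈ E '' ball 0 1
    · obtain ⟨z, hz, h4⟩ := hx
      exact ⟨z, fun _ => ⟨hz, h4⟩⟩
    · exact ⟨0, fun h => absurd h hx⟩
  choose σ hσ using h3
  refine ⟨u.map σ, ?_, ?_⟩
  · rw [Ultrafilter.mem_map]
    exact Filter.mem_of_superset hu1 fun x hx => (hσ x hx).1
  · intro f hf
    rw [Ultrafilter.coe_map, tendsto_map'_iff]
    have h5 : Tendsto (fun x : ({f : L0 // f ∈ HinfSet} → ℂ) => x ⟨f, hf⟩) u (𝓝 (Φ ⟨f, hf⟩)) :=
      ((continuous_apply (⟨f, hf⟩ : {f : L0 // f ∈ HinfSet})).tendsto Φ).mono_left hu2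
    refine h5.congr' ?_
    filter_upwards [hu1] with x hx
    have h6 := congrFun (hσ x hx).2 ⟨f, hf⟩
    exact h6.symm

end Pool.Agent.Alling
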