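import Pool.Agent.Work.MP_ab1db7_an.Power

/-! # MP_ab1db7_an: hyperbolic translations and Blaschke products -/

set_option autoImplicit false

open MeasureTheory Complex Filter Topology Metric Set
open scoped ComplexConjugate

namespace Pool.Agent.Alling

theorem four_zpow_pos (k : ℤ) : (0 : ℝ) < 4 ^ k := zpow_pos (by norm_num) k

theorem tt_abs (k : ℤ) : |tt k| < 1 := by
  have h := four_zpow_pos k
  rw [tt, abs_div, abs_of_pos (by linarith : (0 : ℝ) < 4 ^ k + 1), div_lt_one (by linarith), abs_lt]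
  constructor <;> linarith

theorem tau_den {k : ℤ} {z : ℂ} (hz : z ∈ ball (0 : ℂ) 1) : 1 + (tt k : ℂ) * z ≠ 0 := by
  intro h
  have h1 : (tt k : ℂ) * z = -1 := by linear_combination h
  have h2 : ‖(tt k : ℂ) * z‖ < 1 := by
    have h3 : ‖z‖ < 1 := by simpa using hz
    rw [norm_mul, Complex.norm_real, Real.norm_eq_abs]
    calc |tt k| * ‖z‖ ≤ 1 * ‖z‖ := mul_le_mul_of_nonneg_right (tt_abs k).le (norm_nonneg _)
      _ < 1 := by rwa [one_mul]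
  rw [h1] at h2
  simp at h2

/-- the Cayley coordinate -/
noncomputable def cay (z : ℂ) : ℂ := (1 + z) / (1 - z)

theorem one_sub_ne {z : ℂ} (hz : z ∈ ball (0 : ℂ) 1) : 1 - z ≠ 0 := by
  intro h
  have : z = 1 := by linear_combination -h
  rw [this] at hz
  simp at hz

theorem cay_re {z : ℂ} (hz : z ∈ ball (0 : ℂ) 1) : 0 < (cay z).re := by
  have h1 := one_sub_ne hz
  have h2 : ‖z‖ < 1 := by simpa using hz
  have h3 : (cay z).re = (1 - ‖z‖ ^ 2) / ‖1 - z‖ ^ 2 := by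
    rw [cay, Complex.div_re, ← Complex.normSq_eq_norm_sq, ← Complex.normSq_eq_norm_sq,
      Complex.normSq_apply z]
    simp only [add_re, one_re, sub_re, add_im, one_im, sub_im, zero_add, zero_sub]
    ring
  rw [h3]
  have h4 : 0 < ‖1 - z‖ := norm_pos_iff.2 h1
  have h5 : ‖z‖ ^ 2 < 1 := pow_lt_one₀ (norm_nonneg _) h2 (by norm_num)
  have h6 : 0 < 1 - ‖z‖ ^ 2 := by linarith
  positivity

theorem cay_add_ne {w : ℂ} (hw : 0 < w.re) : w + 1 ≠ 0 := by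
  intro h
  have := congrArg Complex.re h
  simp at this
  linarith

/-- `τ_k z = (4^k ζ - 1)/(4^k ζ + 1)`, `ζ = cay z` -/
theorem tau_cay (k : ℤ) {z : ℂ} (hz : z ∈ ball (0 : ℂ) 1) :
    tau k z = (((4 : ℝ) ^ k : ℝ) * cay z - 1) / (((4 : ℝ) ^ k : ℝ) * cay z + 1) := by
  obtain ⟨a, ha⟩ : ∃ a : ℝ, a = 4 ^ k := ⟨_, rfl⟩
  have ha0 : 0 < a := ha ▸ four_zpow_pos k
  have h1 := one_sub_ne hz
  have h2 := tau_den (k := k) hz
  have h3 : (a : ℂ) + 1 ≠ 0 := by exact_mod_cast (by linarith : a + 1 ≠ 0)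
  have h4 : (a : ℂ) * cay z + 1 ≠ 0 := cay_add_ne (by
    rw [Complex.re_ofReal_mul]; exact mul_pos ha0 (cay_re hz))
  rw [← ha, tau]
  have h5 : (tt k : ℂ) = (a - 1) / (a + 1) := by rw [tt, ← ha]; push_cast; rfl
  rw [div_eq_div_iff h2 h4, h5, cay]
  field_simp
  ring

theorem dl_cay (k : ℤ) {z : ℂ} (hz : z ∈ ball (0 : ℂ) 1) :
    dl k z = 4 * ((4 : ℝ) ^ (-k) * (cay z).re) / ‖((4 : ℝ) ^ (-k) : ℝ) * cay z + 1‖ ^ 2 := by
  obtain ⟨a, ha⟩ : ∃ a : ℝ, a = 4 ^ (-k) := ⟨_, rfl⟩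
  have ha0 : 0 < a := ha ▸ four_zpow_pos (-k)
  have h4 : (a : ℂ) * cay z + 1 ≠ 0 := cay_add_ne (by
    rw [Complex.re_ofReal_mul]; exact mul_pos ha0 (cay_re hz))
  rw [dl, tau_cay _ hz, ← ha, norm_div, div_pow]
  have h5 : 0 < ‖(a : ℂ) * cay z + 1‖ ^ 2 := by
    have := norm_pos_iff.2 h4
    positivity
  rw [eq_div_iff h5.ne', sub_mul, div_mul_cancel₀ _ h5.ne', one_mul,
    ← Complex.normSq_eq_norm_sq, ← Complex.normSq_eq_norm_sq, Complex.normSq_apply,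
    Complex.normSq_apply]
  simp only [add_re, sub_re, add_im, sub_im, one_re, one_im, Complex.re_ofReal_mul,
    Complex.im_ofReal_mul]
  ring

theorem dl_le_one (k : ℤ) (z : ℂ) : dl k z ≤ 1 := by
  rw [dl]; have := sq_nonneg ‖tau (-k) z‖; linarith

theorem dl_pos (k : ℤ) {z : ℂ} (hz : z ∈ ball (0 : ℂ) 1) : 0 < dl k z := by
  rw [dl_cay k hz]
  have ha0 := four_zpow_pos (-k)
  have h1 := cay_re hz
  have h4 : ((4 ^ (-k) : ℝ) : ℂ) * cay z + 1 ≠ 0 := cay_add_ne (by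
    rw [Complex.re_ofReal_mul]; exact mul_pos ha0 h1)
  have h5 := norm_pos_iff.2 h4
  positivity

theorem tau_mem (k : ℤ) {z : ℂ} (hz : z ∈ ball (0 : ℂ) 1) : tau k z ∈ ball (0 : ℂ) 1 := by
  have h := dl_pos (-k) hz
  rw [dl, neg_neg] at h
  rw [mem_ball_zero_iff]
  by_contra h1
  push Not at h1
  nlinarith

theorem tau_zero (z : ℂ) : tau 0 z = z := by
  simp [tau, tt]

theorem cay_tau (k : ℤ) {z : ℂ} (hz : z ∈ ball (0 : ℂ) 1) :
    cay (tau k z) = ((4 : ℝ) ^ k : ℝ) * cay z := by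
  obtain ⟨w, hw⟩ : ∃ w : ℂ, w = ((4 : ℝ) ^ k : ℝ) * cay z := ⟨_, rfl⟩
  have hwre : 0 < w.re := by
    rw [hw, Complex.re_ofReal_mul]; exact mul_pos (four_zpow_pos k) (cay_re hz)
  rw [cay, tau_cay k hz, ← hw]
  have h4 := cay_add_ne hwre
  have h5 : 1 - (w - 1) / (w + 1) ≠ 0 := by
    have : 1 - (w - 1) / (w + 1) = 2 / (w + 1) := by field_simp; ring
    rw [this]
    exact div_ne_zero two_ne_zero h4
  rw [div_eq_iff h5]
  field_simp
  ring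

theorem tau_tau (j k : ℤ) {z : ℂ} (hz : z ∈ ball (0 : ℂ) 1) : tau j (tau k z) = tau (j + k) z := by
  rw [tau_cay j (tau_mem k hz), tau_cay (j + k) hz, cay_tau k hz]
  have : (((4 : ℝ) ^ (j + k) : ℝ) : ℂ) = ((4 : ℝ) ^ j : ℝ) * ((4 : ℝ) ^ k : ℝ) := by
    rw [← Complex.ofReal_mul, ← zpow_add₀ (by norm_num : (4 : ℝ) ≠ 0)]
  rw [this, mul_assoc]

theorem tau_diff (k : ℤ) : DifferentiableOn ℂ (tau k) (ball 0 1) := by
  unfold tau
  exact DifferentiableOn.div (by fun_prop) (by fun_prop) fun z hz => tau_den hz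

theorem dl_tau (j k : ℤ) {z : ℂ} (hz : z ∈ ball (0 : ℂ) 1) : dl j (tau k z) = dl (j - k) z := by
  rw [dl, dl, tau_tau _ _ hz]
  congr 4
  ring

/-- basic estimates -/
theorem dl_est (k : ℤ) {z : ℂ} (hz : z ∈ ball (0 : ℂ) 1) :
    dl k z ≤ 4 * ((4 : ℝ) ^ (-k) * ‖cay z‖) ∧ dl k z ≤ 4 * ((4 : ℝ) ^ (-k) * ‖cay z‖)⁻¹ ∧
      dl k z ≤ 2 * ((cay z).re / ‖cay z‖) := by
  obtain ⟨a, ha⟩ : ∃ a : ℝ, a = 4 ^ (-k) := ⟨_, rfl⟩
  have ha0 : 0 < a := ha ▸ four_zpow_pos (-k)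
  have hre := cay_re hz
  have hn : 0 < ‖cay z‖ := norm_pos_iff.2 (by intro h; rw [h] at hre; simp at hre)
  have hle : (cay z).re ≤ ‖cay z‖ := Complex.re_le_norm _
  rw [dl_cay k hz, ← ha]
  obtain ⟨ρ, hρ⟩ : ∃ ρ, ρ = ‖cay z‖ := ⟨_, rfl⟩
  obtain ⟨x, hx⟩ : ∃ x, x = (cay z).re := ⟨_, rfl⟩
  have hsq : ‖(a : ℂ) * cay z + 1‖ ^ 2 = (a * ρ) ^ 2 + 2 * (a * x) + 1 := by
    rw [← Complex.normSq_eq_norm_sq, Complex.normSq_apply, mul_pow, hρ, hx,
      ← Complex.normSq_eq_norm_sq, Complex.normSq_apply]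
    simp only [add_re, add_im, one_re, one_im, Complex.re_ofReal_mul, Complex.im_ofReal_mul]
    ring
  rw [hsq, ← hρ, ← hx]
  rw [← hρ] at hn hle
  rw [← hx] at hre hle
  have hD : 0 < (a * ρ) ^ 2 + 2 * (a * x) + 1 := by positivity
  refine ⟨?_, ?_, ?_⟩
  · rw [div_le_iff₀ hD]
    have h1 : a * x ≤ a * ρ := mul_le_mul_of_nonneg_left hle ha0.le
    have h2 : 0 ≤ (a * ρ) ^ 2 + 2 * (a * x) := by positivity
    have h3 : 0 ≤ a * ρ := by positivity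
    nlinarith [mul_nonneg h3 h2]
  · rw [← div_eq_mul_inv, div_le_div_iff₀ hD (by positivity)]
    have h1 : a * x ≤ a * ρ := mul_le_mul_of_nonneg_left hle ha0.le
    have h3 : 0 ≤ a * ρ := by positivity
    have h4 : 0 ≤ a * x := by positivity
    nlinarith [mul_le_mul_of_nonneg_right h1 h3]
  · rw [← mul_div_assoc, div_le_div_iff₀ hD hn]
    have h1 : 0 ≤ (a * ρ - 1) ^ 2 := sq_nonneg _
    have h4 : 0 ≤ a * x := by positivity
    nlinarith [mul_nonneg hre.le h1, mul_nonneg hre.le h4]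

theorem zpow_neg_natAbs {n : ℤ} (hn : 0 ≤ n) : (4 : ℝ) ^ (-n) = (4 : ℝ)⁻¹ ^ n.natAbs := by
  rw [zpow_neg, ← inv_zpow, ← zpow_natCast, Int.natAbs_of_nonneg hn]

theorem dl_bound {z : ℂ} (hz : z ∈ ball (0 : ℂ) 1) :
    ∃ κ : ℤ, ∀ k : ℤ, dl k z ≤ 16 * (4 : ℝ)⁻¹ ^ (k - κ).natAbs := by
  have hre := cay_re hz
  have hn : 0 < ‖cay z‖ := norm_pos_iff.2 (by intro h; rw [h] at hre; simp at hre)
  obtain ⟨κ, hκ1, hκ2⟩ := exists_mem_Ico_zpow hn (by norm_num : (1 : ℝ) < 4)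
  refine ⟨κ, fun k => ?_⟩
  obtain ⟨h1, h2, -⟩ := dl_est k hz
  rcases le_total κ k with h | h
  · refine h1.trans ?_
    rw [← zpow_neg_natAbs (sub_nonneg.2 h)]
    have h3 : (4 : ℝ) ^ (-k) * ‖cay z‖ ≤ (4 : ℝ) ^ (-k) * 4 ^ (κ + 1) :=
      mul_le_mul_of_nonneg_left hκ2.le (four_zpow_pos _).le
    rw [← zpow_add₀ (by norm_num : (4 : ℝ) ≠ 0)] at h3
    have h4 : (4 : ℝ) ^ (-k + (κ + 1)) = 4 ^ (-(k - κ)) * 4 := by
      rw [← zpow_add_one₀ (by norm_num : (4 : ℝ) ≠ 0)]; congr 1; ring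
    rw [h4] at h3
    linarith
  · refine h2.trans ?_
    have h5 : (k - κ).natAbs = (κ - k).natAbs := by omega
    rw [h5, ← zpow_neg_natAbs (sub_nonneg.2 h)]
    have h3 : (4 : ℝ) ^ (-k) * 4 ^ κ ≤ (4 : ℝ) ^ (-k) * ‖cay z‖ :=
      mul_le_mul_of_nonneg_left hκ1 (four_zpow_pos _).le
    have h4 : ((4 : ℝ) ^ (-k) * ‖cay z‖)⁻¹ ≤ ((4 : ℝ) ^ (-k) * 4 ^ κ)⁻¹ :=
      inv_anti₀ (by positivity) h3
    rw [← zpow_add₀ (by norm_num : (4 : ℝ) ≠ 0), ← zpow_neg] at h4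
    have h6 : -(-k + κ) = -(κ - k) := by ring
    rw [h6] at h4
    have h7 := four_zpow_pos (-(κ - k))
    linarith

/-- decay of `δ_k(z)` -/
theorem dl_decay {r : ℝ} (hr : r < 1) : ∃ C : ℝ, 0 < C ∧ ∀ (k : ℤ) (z : ℂ), ‖z‖ ≤ r →
    dl k z ≤ C * (4 : ℝ)⁻¹ ^ k.natAbs := by
  obtain ⟨s, hs0, hs1, hrs⟩ : ∃ s : ℝ, 0 ≤ s ∧ s < 1 ∧ r ≤ s :=
    ⟨max r 0, le_max_right _ _, max_lt hr one_pos, le_max_left _ _⟩
  have hs' : 0 < 1 - s := by linarith
  refine ⟨4 * (2 / (1 - s)), by positivity, fun k z hz => ?_⟩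
  have hzs : ‖z‖ ≤ s := hz.trans hrs
  have hzb : z ∈ ball (0 : ℂ) 1 := by rw [mem_ball_zero_iff]; linarith
  have hre := cay_re hzb
  have hn : 0 < ‖cay z‖ := norm_pos_iff.2 (by intro h; rw [h] at hre; simp at hre)
  have h1 : 1 - s ≤ ‖1 - z‖ := by
    have := norm_sub_norm_le (1 : ℂ) z
    rw [norm_one] at this; linarith
  have h1' : ‖1 - z‖ ≤ 2 := by
    have := norm_sub_le (1 : ℂ) z
    rw [norm_one] at this; linarith
  have h2 : 1 - s ≤ ‖1 + z‖ := by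
    have := norm_sub_norm_le (1 : ℂ) (-z)
    rw [norm_one, norm_neg, sub_neg_eq_add] at this; linarith
  have h2' : ‖1 + z‖ ≤ 2 := by
    have := norm_add_le (1 : ℂ) z
    rw [norm_one] at this; linarith
  have hup : ‖cay z‖ ≤ 2 / (1 - s) := by
    rw [cay, norm_div]
    exact div_le_div₀ (by norm_num) h2' hs' h1
  have hlow : (‖cay z‖)⁻¹ ≤ 2 / (1 - s) := by
    rw [cay, norm_div, inv_div]
    exact div_le_div₀ (by norm_num) h1' hs' h2
  obtain ⟨e1, e2, -⟩ := dl_est k hzb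
  rcases le_total 0 k with h | h
  · rw [zpow_neg_natAbs h] at e1
    refine e1.trans ?_
    have h3 : (4 : ℝ)⁻¹ ^ k.natAbs * ‖cay z‖ ≤ (4 : ℝ)⁻¹ ^ k.natAbs * (2 / (1 - s)) :=
      mul_le_mul_of_nonneg_left hup (by positivity)
    linarith
  · have h4 : k.natAbs = (-k).natAbs := by omega
    have h5 := zpow_neg_natAbs (neg_nonneg.2 h)
    rw [neg_neg] at h5
    rw [mul_inv, ← zpow_neg, neg_neg, h5, ← h4] at e2
    refine e2.trans ?_
    have h3 : (4 : ℝ)⁻¹ ^ k.natAbs * (‖cay z‖)⁻¹ ≤ (4 : ℝ)⁻¹ ^ k.natAbs * (2 / (1 - s)) :=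
      mul_le_mul_of_nonneg_left hlow (by positivity)
    linarith

/-- a point far from all the `t_k` -/
theorem exists_far : ∃ z ∈ ball (0 : ℂ) 1, ∀ k : ℤ, dl k z ≤ 1 / 4 := by
  have hz : ((9 / 10 : ℝ) : ℂ) * I ∈ ball (0 : ℂ) 1 := by
    rw [mem_ball_zero_iff, norm_mul, Complex.norm_I, Complex.norm_real]
    norm_num
  refine ⟨((9 / 10 : ℝ) : ℂ) * I, hz, fun k => ?_⟩
  obtain ⟨-, -, h⟩ := dl_est k hz
  refine h.trans ?_
  have h1 : cay (((9 / 10 : ℝ) : ℂ) * I) = ((19 / 181 : ℝ) : ℂ) + ((180 / 181 : ℝ) : ℂ) * I := by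
    rw [cay, div_eq_iff (one_sub_ne hz)]
    have hI : I ^ 2 = -1 := Complex.I_sq
    push_cast
    linear_combination (162 / 181 : ℂ) * hI
  have h2 : (cay (((9 / 10 : ℝ) : ℂ) * I)).re = 19 / 181 := by
    rw [h1]; simp
  have h3 : ‖cay (((9 / 10 : ℝ) : ℂ) * I)‖ = 1 := by
    rw [h1, Complex.norm_add_mul_I]
    norm_num
  rw [h2, h3]
  norm_num

theorem le_four_zpow (k : ℤ) : (k : ℝ) ≤ 4 ^ k := by
  rcases le_total 0 k with h | h
  · obtain ⟨n, rfl⟩ := Int.eq_ofNat_of_zero_le h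
    rw [zpow_natCast]
    have := one_add_mul_le_pow (a := (3 : ℝ)) (by norm_num) n
    have h1 : (1 : ℝ) + 3 = 4 := by norm_num
    rw [h1] at this
    push_cast
    have h2 : (0 : ℝ) ≤ n := Nat.cast_nonneg n
    linarith
  · have h1 : (k : ℝ) ≤ 0 := by exact_mod_cast h
    exact h1.trans (four_zpow_pos k).le

/-- `τ_k(z) → ±1` -/
theorem tau_lim {z : ℂ} (hz : z ∈ ball (0 : ℂ) 1) :
    Tendsto (fun k : ℤ => tau k z) atTop (𝓝 1) ∧
      Tendsto (fun k : ℤ => tau k z) atBot (𝓝 (-1)) := by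
  have hre := cay_re hz
  have hT : Tendsto (fun k : ℤ => (4 : ℝ) ^ k) atTop atTop :=
    tendsto_atTop_mono le_four_zpow tendsto_intCast_atTop_atTop
  have hB : Tendsto (fun k : ℤ => (4 : ℝ) ^ k) atBot (𝓝 0) := by
    have h1 : Tendsto (fun k : ℤ => ((4 : ℝ) ^ (-k))⁻¹) atBot (𝓝 0) :=
      tendsto_inv_atTop_zero.comp (hT.comp tendsto_neg_atBot_atTop)
    refine h1.congr fun k => ?_
    rw [zpow_neg, inv_inv]
  constructor
  · rw [tendsto_iff_norm_sub_tendsto_zero]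
    have h1 : Tendsto (fun k : ℤ => 2 * ((4 : ℝ) ^ k * (cay z).re)⁻¹) atTop (𝓝 (2 * 0)) :=
      (tendsto_inv_atTop_zero.comp (hT.atTop_mul_const hre)).const_mul 2
    rw [mul_zero] at h1
    refine squeeze_zero (fun k => norm_nonneg _) (fun k => ?_) h1
    obtain ⟨a, ha⟩ : ∃ a : ℝ, a = 4 ^ k := ⟨_, rfl⟩
    have ha0 : 0 < a := ha ▸ four_zpow_pos k
    have hp : 0 < a * (cay z).re := mul_pos ha0 hre
    have h4 : (a : ℂ) * cay z + 1 ≠ 0 := cay_add_ne (by rw [Complex.re_ofReal_mul]; exact hp)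
    rw [tau_cay k hz, ← ha]
    have h5 : ((a : ℂ) * cay z - 1) / (a * cay z + 1) - 1 = -(2 / (a * cay z + 1)) := by
      field_simp
      ring
    rw [h5, norm_neg, norm_div, Complex.norm_two, div_eq_mul_inv]
    refine mul_le_mul_of_nonneg_left (inv_anti₀ hp ?_) zero_le_two
    have h6 := Complex.re_le_norm ((a : ℂ) * cay z + 1)
    rw [add_re, Complex.re_ofReal_mul, one_re] at h6
    linarith
  · rw [tendsto_iff_norm_sub_tendsto_zero]
    have h1 : Tendsto (fun k : ℤ => 2 * ((4 : ℝ) ^ k * ‖cay z‖)) atBot (𝓝 (2 * (0 * ‖cay z‖))) :=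
      (hB.mul_const _).const_mul 2
    rw [zero_mul, mul_zero] at h1
    refine squeeze_zero (fun k => norm_nonneg _) (fun k => ?_) h1
    obtain ⟨a, ha⟩ : ∃ a : ℝ, a = 4 ^ k := ⟨_, rfl⟩
    have ha0 : 0 < a := ha ▸ four_zpow_pos k
    have hp : 0 < a * (cay z).re := mul_pos ha0 hre
    have h4 : (a : ℂ) * cay z + 1 ≠ 0 := cay_add_ne (by rw [Complex.re_ofReal_mul]; exact hp)
    rw [tau_cay k hz, ← ha]
    have h5 : ((a : ℂ) * cay z - 1) / (a * cay z + 1) - -1 = 2 * (a * cay z) / (a * cay z + 1) := by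
      field_simp
      ring
    rw [h5, norm_div, norm_mul, norm_mul, Complex.norm_two, Complex.norm_real,
      Real.norm_of_nonneg ha0.le]
    refine div_le_self (by positivity) ?_
    have h6 := Complex.re_le_norm ((a : ℂ) * cay z + 1)
    rw [add_re, Complex.re_ofReal_mul, one_re] at h6
    linarith

/-- finite Blaschke products -/
noncomputable def PF (m : ℤ → ℕ) (N : ℕ) (z : ℂ) : ℂ :=
  ∏ k ∈ Finset.Icc (-(N : ℤ)) N, tau (-k) z ^ m k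

theorem tau_norm_le (k : ℤ) {z : ℂ} (hz : z ∈ ball (0 : ℂ) 1) : ‖tau k z‖ ≤ 1 := by
  have := tau_mem k hz
  rw [mem_ball_zero_iff] at this
  exact this.le

theorem PF_holBdd (m : ℤ → ℕ) (N : ℕ) : HolBdd (PF m N) 1 := by
  constructor
  · unfold PF
    exact DifferentiableOn.fun_finsetProd fun k _ => (tau_diff (-k)).pow _
  · intro z hz
    rw [PF, norm_prod]
    refine Finset.prod_le_one (fun k _ => norm_nonneg _) fun k _ => ?_
    rw [norm_pow]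
    exact pow_le_one₀ (norm_nonneg _) (tau_norm_le _ hz)

theorem PF_le (m : ℤ → ℕ) (k : ℤ) {z : ℂ} (hz : z ∈ ball (0 : ℂ) 1) {N : ℕ} (hN : k.natAbs ≤ N) :
    ‖PF m N (tau k z)‖ ≤ ‖z‖ ^ m k := by
  have hk : k ∈ Finset.Icc (-(N : ℤ)) N := by
    rw [Finset.mem_Icc]; omega
  rw [PF, norm_prod, ← Finset.mul_prod_erase _ _ hk, norm_pow, tau_tau _ _ hz,
    show -k + k = 0 by ring, tau_zero]
  refine mul_le_of_le_one_right (by positivity) ?_
  refine Finset.prod_le_one (fun k _ => norm_nonneg _) fun j _ => ?_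
  rw [norm_pow]
  exact pow_le_one₀ (norm_nonneg _) (tau_norm_le _ (tau_mem k hz))

theorem tau_sq (k : ℤ) (z : ℂ) : ‖tau (-k) z‖ ^ 2 = 1 - dl k z := by rw [dl]; ring

theorem summable_geo : Summable fun k : ℤ => (2 : ℝ)⁻¹ ^ k.natAbs := by
  refine Summable.of_nat_of_neg ?_ ?_
  · simpa using summable_geometric_of_lt_one (r := (2 : ℝ)⁻¹) (by norm_num) (by norm_num)
  · simpa using summable_geometric_of_lt_one (r := (2 : ℝ)⁻¹) (by norm_num) (by norm_num)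

theorem sum_shift_le (s : Finset ℤ) (κ : ℤ) :
    ∑ k ∈ s, (2 : ℝ)⁻¹ ^ (k - κ).natAbs ≤ ∑' k : ℤ, (2 : ℝ)⁻¹ ^ k.natAbs := by
  have h1 : ∑ k ∈ s, (2 : ℝ)⁻¹ ^ (k - κ).natAbs =
      ∑ j ∈ s.map (Equiv.subRight κ).toEmbedding, (2 : ℝ)⁻¹ ^ j.natAbs := by
    rw [Finset.sum_map]; rfl
  rw [h1]
  exact summable_geo.sum_le_tsum _ fun j _ => by positivity

theorem exp_le_one_sub {x : ℝ} (h0 : 0 ≤ x) (h1 : x ≤ 1 / 2) : Real.exp (-(2 * x)) ≤ 1 - x := by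
  have h2 : 0 < 1 - x := by linarith
  rw [← Real.le_log_iff_exp_le h2]
  have h3 := Real.one_sub_inv_le_log_of_pos h2
  refine le_trans ?_ h3
  have h4 : (1 - x)⁻¹ ≤ 1 + 2 * x := by
    rw [inv_le_iff_one_le_mul₀ h2]
    nlinarith
  linarith

theorem prod_one_sub_ge {ι : Type*} (s : Finset ι) (x : ι → ℝ) (h0 : ∀ i ∈ s, 0 ≤ x i)
    (h1 : ∀ i ∈ s, x i ≤ 1) : 1 - ∑ i ∈ s, x i ≤ ∏ i ∈ s, (1 - x i) := by
  classical
  induction s using Finset.induction_on with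
  | empty => simp
  | insert a s ha ih =>
    rw [Finset.sum_insert ha, Finset.prod_insert ha]
    have h2 := ih (fun i hi => h0 i (Finset.mem_insert_of_mem hi))
      (fun i hi => h1 i (Finset.mem_insert_of_mem hi))
    have h3 := h0 a (Finset.mem_insert_self _ _)
    have h4 := h1 a (Finset.mem_insert_self _ _)
    have h5 : ∏ i ∈ s, (1 - x i) ≤ 1 := Finset.prod_le_one
      (fun i hi => by linarith [h1 i (Finset.mem_insert_of_mem hi)])
      (fun i hi => by linarith [h0 i (Finset.mem_insert_of_mem hi)])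
    have h6 : 0 ≤ ∏ i ∈ s, (1 - x i) := Finset.prod_nonneg
      (fun i hi => by linarith [h1 i (Finset.mem_insert_of_mem hi)])
    nlinarith

/-- lower bound -/
theorem PF_ge (m : ℤ → ℕ) (N : ℕ) {z : ℂ} (hz : z ∈ ball (0 : ℂ) 1)
    (h : ∀ k, m k = 0 ∨ ((m k : ℝ) + 1) ^ 2 * dl k z ≤ 1) :
    Real.exp (-(4 * ∑' k : ℤ, (2 : ℝ)⁻¹ ^ k.natAbs)) ≤ ‖PF m N z‖ := by
  obtain ⟨κ, hκ⟩ := dl_bound hz
  have key : ∀ k, Real.exp (-(2 * (4 * (2 : ℝ)⁻¹ ^ (k - κ).natAbs))) ≤ (‖tau (-k) z ^ m k‖) ^ 2 := by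
    intro k
    have hd0 := (dl_pos k hz).le
    have hg : 0 ≤ (2 : ℝ)⁻¹ ^ (k - κ).natAbs := by positivity
    rcases h k with h0 | h1
    · rw [h0, pow_zero, norm_one, one_pow]
      exact Real.exp_le_one_iff.2 (by linarith)
    · rcases Nat.eq_zero_or_pos (m k) with h0 | hpos
      · rw [h0, pow_zero, norm_one, one_pow]
        exact Real.exp_le_one_iff.2 (by linarith)
      have hm1 : (1 : ℝ) ≤ m k := by exact_mod_cast hpos
      have hd4 : dl k z ≤ 1 / 4 := by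
        have h2 : (4 : ℝ) ≤ ((m k : ℝ) + 1) ^ 2 := by nlinarith
        nlinarith
      have h3 : (‖tau (-k) z ^ m k‖) ^ 2 = (1 - dl k z) ^ m k := by
        rw [norm_pow, ← tau_sq, ← pow_mul, ← pow_mul, mul_comm]
      rw [h3]
      have h4 := exp_le_one_sub hd0 (by linarith : dl k z ≤ 1 / 2)
      have h5 : Real.exp (-(2 * dl k z)) ^ m k ≤ (1 - dl k z) ^ m k :=
        pow_le_pow_left₀ (Real.exp_pos _).le h4 _
      refine le_trans ?_ h5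
      rw [← Real.exp_nat_mul]
      refine Real.exp_le_exp.2 ?_
      -- `m δ ≤ √δ ≤ 4 · 2^{-|k-κ|}`
      have h6 : (m k : ℝ) * dl k z ≤ Real.sqrt (dl k z) := by
        refine Real.le_sqrt_of_sq_le ?_
        have h7 : (m k : ℝ) ^ 2 * dl k z ≤ 1 := by nlinarith
        calc ((m k : ℝ) * dl k z) ^ 2 = ((m k : ℝ) ^ 2 * dl k z) * dl k z := by ring
          _ ≤ 1 * dl k z := mul_le_mul_of_nonneg_right h7 hd0
          _ = dl k z := one_mul _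
      have h8 : Real.sqrt (dl k z) ≤ 4 * (2 : ℝ)⁻¹ ^ (k - κ).natAbs := by
        refine Real.sqrt_le_iff.2 ⟨by positivity, (hκ k).trans (le_of_eq ?_)⟩
        rw [mul_pow, ← pow_mul, mul_comm _ 2, pow_mul]
        norm_num
      nlinarith
  have hsq : Real.exp (-(2 * (4 * ∑' k : ℤ, (2 : ℝ)⁻¹ ^ k.natAbs))) ≤ ‖PF m N z‖ ^ 2 := by
    rw [PF, norm_prod, ← Finset.prod_pow]
    calc Real.exp (-(2 * (4 * ∑' k : ℤ, (2 : ℝ)⁻¹ ^ k.natAbs)))
        ≤ Real.exp (∑ k ∈ Finset.Icc (-(N : ℤ)) N, (-(2 * (4 * (2 : ℝ)⁻¹ ^ (k - κ).natAbs)))) := by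
          refine Real.exp_le_exp.2 ?_
          rw [Finset.sum_neg_distrib, ← Finset.mul_sum, ← Finset.mul_sum]
          have := sum_shift_le (Finset.Icc (-(N : ℤ)) N) κ
          linarith
      _ = ∏ k ∈ Finset.Icc (-(N : ℤ)) N, Real.exp (-(2 * (4 * (2 : ℝ)⁻¹ ^ (k - κ).natAbs))) :=
          Real.exp_sum _ _
      _ ≤ _ := Finset.prod_le_prod (fun k _ => (Real.exp_pos _).le) fun k _ => key k
  have h9 : Real.exp (-(2 * (4 * ∑' k : ℤ, (2 : ℝ)⁻¹ ^ k.natAbs))) =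
      Real.exp (-(4 * ∑' k : ℤ, (2 : ℝ)⁻¹ ^ k.natAbs)) ^ 2 := by
    rw [← Real.exp_nat_mul]; congr 1; push_cast; ring
  rw [h9] at hsq
  exact le_of_pow_le_pow_left₀ two_ne_zero (norm_nonneg _) hsq

theorem summable_dl {z : ℂ} (hz : z ∈ ball (0 : ℂ) 1) : Summable fun k : ℤ => dl k z := by
  obtain ⟨C, hC, h⟩ := dl_decay (r := ‖z‖) (by simpa using hz)
  refine Summable.of_nonneg_of_le (fun k => (dl_pos k hz).le) (fun k => ?_) (summable_geo.mul_left C)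
  refine (h k z le_rfl).trans (mul_le_mul_of_nonneg_left ?_ hC.le)
  exact pow_le_pow_left₀ (by norm_num) (by norm_num) _

/-- the Blaschke products `F_m` -/
theorem exists_blaschke : ∃ (c : ℝ) (F : (ℤ → ℕ) → ℂ → ℂ), 0 < c ∧
    (∀ m : ℤ → ℕ, (∀ k, m k ≤ k.natAbs + 1) → HolBdd (F m) 1) ∧
    (∀ m : ℤ → ℕ, (∀ k, m k ≤ k.natAbs + 1) → ∀ (k : ℤ) (z : ℂ), z ∈ ball (0 : ℂ) 1 →
      ‖F m (tau k z)‖ ≤ ‖z‖ ^ m k) ∧
    (∀ m : ℤ → ℕ, (∀ k, m k ≤ k.natAbs + 1) → ∀ z ∈ ball (0 : ℂ) 1,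
      (∀ k, m k = 0 ∨ ((m k : ℝ) + 1) ^ 2 * dl k z ≤ 1) → c ≤ ‖F m z‖) ∧
    (∀ z ∈ ball (0 : ℂ) 1, ∀ ε : ℝ, 0 < ε → ∃ J : ℕ, ∀ (m : ℤ → ℕ) (k : ℤ), (∀ j, m j ≤ 1) →
      (∀ j, m j = 1 → (J : ℤ) ≤ |j - k|) → 1 - ε ≤ ‖F m (tau k z)‖) := by
  obtain ⟨U, hU⟩ : ∃ U : Ultrafilter ℕ, (U : Filter ℕ) ≤ atTop := ⟨Ultrafilter.of atTop,
    Ultrafilter.of_le _⟩
  choose F hF hlim using fun m : ℤ → ℕ => ultra U (F := fun N => PF m N) (fun N => PF_holBdd m N)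
  refine ⟨Real.exp (-(4 * ∑' k : ℤ, (2 : ℝ)⁻¹ ^ k.natAbs)), F, Real.exp_pos _,
    fun m _ => hF m, fun m _ k z hz => ?_, fun m _ z hz h => ?_, fun z hz ε hε => ?_⟩
  · refine le_of_tendsto (hlim m (tau k z) (tau_mem k hz)).norm (hU ?_)
    filter_upwards [eventually_ge_atTop k.natAbs] with N hN
    exact PF_le m k hz hN
  · exact ge_of_tendsto (hlim m z hz).norm (Eventually.of_forall fun N => PF_ge m N hz h)
  · obtain ⟨s, hs⟩ := summable_iff_vanishing_norm.1 (summable_dl hz) ε hε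
    obtain ⟨J, hJ⟩ : ∃ J : ℕ, ∀ i ∈ s, i.natAbs < J := by
      refine ⟨s.sup Int.natAbs + 1, fun i hi => Nat.lt_succ_of_le (Finset.le_sup (f := Int.natAbs) hi)⟩
    refine ⟨J, fun m k hm1 hmJ => ?_⟩
    refine ge_of_tendsto (hlim m (tau k z) (tau_mem k hz)).norm (Eventually.of_forall fun N => ?_)
    have hP1 : ‖PF m N (tau k z)‖ ≤ 1 := (PF_holBdd m N).bdd _ (tau_mem k hz)
    obtain ⟨T, hT⟩ : ∃ T : Finset ℤ, T = (Finset.Icc (-(N : ℤ)) N).filter fun j => m j = 1 :=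
      ⟨_, rfl⟩
    have hsq : 1 - ε ≤ ‖PF m N (tau k z)‖ ^ 2 := by
      have h1 : ‖PF m N (tau k z)‖ ^ 2 = ∏ j ∈ T, (1 - dl (j - k) z) := by
        rw [PF, norm_prod, ← Finset.prod_pow, hT, Finset.prod_filter]
        refine Finset.prod_congr rfl fun j _ => ?_
        split_ifs with h
        · rw [h, pow_one, tau_sq, dl_tau _ _ hz]
        · have h0 : m j = 0 := by have := hm1 j; omega
          rw [h0]; simp
      rw [h1]
      refine le_trans ?_ (prod_one_sub_ge T _ (fun j _ => (dl_pos _ hz).le)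
        fun j _ => dl_le_one _ _)
      have h2 : ∑ j ∈ T, dl (j - k) z = ∑ i ∈ T.map (Equiv.subRight k).toEmbedding, dl i z := by
        rw [Finset.sum_map]; rfl
      have h3 : Disjoint (T.map (Equiv.subRight k).toEmbedding) s := by
        rw [Finset.disjoint_left]
        intro i hi his
        obtain ⟨j, hj, rfl⟩ := Finset.mem_map.1 hi
        rw [hT, Finset.mem_filter] at hj
        have h4 := hmJ j hj.2
        have h5 := hJ _ his
        have h6 : ((Equiv.subRight k).toEmbedding j) = j - k := rfl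
        rw [h6] at h5
        have h10 : (((j - k).natAbs : ℕ) : ℤ) < J := by exact_mod_cast h5
        rw [Int.natCast_natAbs] at h10
        exact absurd h4 (not_le.2 h10)
      have h7 := hs _ h3
      rw [Real.norm_eq_abs] at h7
      have h8 := (abs_lt.1 h7).2
      rw [h2]
      linarith
    have h9 : ‖PF m N (tau k z)‖ ^ 2 ≤ ‖PF m N (tau k z)‖ := by
      rw [sq]; exact mul_le_of_le_one_left (norm_nonneg _) hP1
    exact hsq.trans h9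

end Pool.Agent.Alling
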