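import Pool.Agent.Work.MP_ab1db7_an.Defs2

/-! # MP_ab1db7_an, block D: a closed shift-invariant topologically transitive set of nonprincipal
ultrafilters on `ℤ` without a dense orbit -/

set_option autoImplicit false

open Set Filter Topology

namespace Pool.Agent.Alling

namespace Comb

/-- labels: a length `m` and a finite set, coding the cylinder `{s | s ∩ [0,m) = F ∩ [0,m)}` -/
abbrev Lab : Type := ℕ × Finset ℕ

/-- the universal labelling of `ℤ` -/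
noncomputable def lab (k : ℤ) : Lab :=
  ((Encodable.decode (α := List Lab) (Nat.unpair (Nat.log 2 k.toNat)).1).getD []).getD
    (k.toNat - 2 ^ (Nat.log 2 k.toNat)) (0, ∅)

theorem lab_univ (L : List Lab) (K : ℤ) :
    ∃ k : ℤ, K ≤ k ∧ ∀ i : ℕ, i < L.length → lab (k + i) = L.getD i (0, ∅) := by
  obtain ⟨M, hM1, hM2⟩ : ∃ M : ℕ, K.toNat ≤ M ∧ L.length ≤ M :=
    ⟨max K.toNat L.length, le_max_left _ _, le_max_right _ _⟩
  set n := Nat.pair (Encodable.encode L) M with hn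
  have hMn : M ≤ n := Nat.right_le_pair _ _
  have hn2 : n < 2 ^ n := Nat.lt_two_pow_self
  refine ⟨((2 ^ n : ℕ) : ℤ), ?_, ?_⟩
  · have h1 : K ≤ (K.toNat : ℤ) := Int.self_le_toNat K
    have h2 : (K.toNat : ℤ) ≤ ((2 ^ n : ℕ) : ℤ) := by exact_mod_cast (hM1.trans hMn).trans hn2.le
    exact h1.trans h2
  · intro i hi
    have h1 : (((2 ^ n : ℕ) : ℤ) + (i : ℤ)).toNat = 2 ^ n + i := by
      have : (((2 ^ n : ℕ) : ℤ) + (i : ℤ)) = ((2 ^ n + i : ℕ) : ℤ) := by push_cast; ring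
      rw [this, Int.toNat_natCast]
    have h2 : Nat.log 2 (2 ^ n + i) = n := by
      apply Nat.log_eq_of_pow_le_of_lt_pow (by omega)
      have : i < 2 ^ n := by omega
      rw [pow_succ]
      omega
    unfold lab
    rw [h1, h2, hn, Nat.unpair_pair, Encodable.encodek]
    simp

/-- the sets `A_s` -/
def AA (s : Set ℕ) : Set ℤ := {k | ∀ i < (lab k).1, i ∈ s ↔ i ∈ (lab k).2}

/-- patterns: finite partial maps from `ℤ` to `Set ℕ` -/
def Pat (P : Set (ℤ × Set ℕ)) : Prop :=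
  P.Finite ∧ ∀ j s s', (j, s) ∈ P → (j, s') ∈ P → s = s'

theorem comb_key (P : Set (ℤ × Set ℕ)) (hP : Pat P) (T : Set (ℤ × Set ℕ × Set ℕ))
    (hT : T.Finite) (hT2 : ∀ t ∈ T, t.2.1 ≠ t.2.2) (K : ℤ) :
    ∃ k : ℤ, K ≤ k ∧ (∀ p ∈ P, k + p.1 ∈ AA p.2) ∧
      ∀ t ∈ T, ¬ (k + t.1 ∈ AA t.2.1 ∧ k + t.1 ∈ AA t.2.2) := by
  classical
  -- separation level
  have hsep : ∃ m : ℕ, ∀ t ∈ T, ∃ i < m, ¬ (i ∈ t.2.1 ↔ i ∈ t.2.2) := by
    have h : ∀ t : ℤ × Set ℕ × Set ℕ, ∃ i : ℕ, t ∈ T → ¬ (i ∈ t.2.1 ↔ i ∈ t.2.2) := by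
      intro t
      by_cases ht : t ∈ T
      · have := hT2 t ht
        by_contra hcon
        push Not at hcon
        apply this
        ext i
        exact (hcon i).2
      · exact ⟨0, fun h => absurd h ht⟩
    choose g hg using h
    refine ⟨(hT.toFinset.sup g) + 1, fun t ht => ⟨g t, ?_, hg t ht⟩⟩
    exact Nat.lt_succ_of_le (Finset.le_sup (f := g) (hT.mem_toFinset.2 ht))
  obtain ⟨m, hm⟩ := hsep
  -- window size
  have hwin : ∃ N : ℕ, (∀ p ∈ P, p.1.natAbs ≤ N) ∧ ∀ t ∈ T, t.1.natAbs ≤ N := by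
    refine ⟨max (hP.1.toFinset.sup fun p => p.1.natAbs) (hT.toFinset.sup fun t => t.1.natAbs), ?_, ?_⟩
    · intro p hp
      exact (Finset.le_sup (f := fun p : ℤ × Set ℕ => p.1.natAbs) (hP.1.mem_toFinset.2 hp)).trans
        (le_max_left _ _)
    · intro t ht
      exact (Finset.le_sup (f := fun t : ℤ × Set ℕ × Set ℕ => t.1.natAbs)
        (hT.mem_toFinset.2 ht)).trans (le_max_right _ _)
  obtain ⟨N, hN1, hN2⟩ := hwin
  let u : ℤ → Lab := fun j => (m, (Finset.range m).filter fun i => ∃ s, (j, s) ∈ P ∧ i ∈ s)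
  let L : List Lab := (List.range (2 * N + 1)).map fun i : ℕ => u ((i : ℤ) - N)
  have hLlen : L.length = 2 * N + 1 := by simp [L]
  have hL : ∀ i, i < 2 * N + 1 → L.getD i (0, ∅) = u ((i : ℤ) - N) := by
    intro i hi
    rw [List.getD_eq_getElem _ _ (by rw [hLlen]; exact hi)]
    simp [L]
  obtain ⟨k0, hk0, hk1⟩ := lab_univ L K
  have hlab : ∀ j : ℤ, j.natAbs ≤ N → lab (k0 + N + j) = u j := by
    intro j hj
    have h1 := hk1 (j + N).toNat (by rw [hLlen]; omega)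
    rw [hL _ (by omega)] at h1
    have h2 : (((j + N).toNat : ℕ) : ℤ) = j + N := by omega
    rw [h2] at h1
    have h3 : k0 + (j + N) = k0 + N + j := by ring
    have h4 : j + (N : ℤ) - N = j := by ring
    rw [h3, h4] at h1
    exact h1
  refine ⟨k0 + N, by omega, ?_, ?_⟩
  · rintro ⟨j, s⟩ hp
    intro i hi
    rw [hlab j (hN1 _ hp)] at hi ⊢
    simp only [u, Finset.mem_filter, Finset.mem_range] at hi ⊢
    constructor
    · intro h; exact ⟨hi, s, hp, h⟩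
    · rintro ⟨-, s', hs', h⟩
      rw [hP.2 j s s' hp hs']; exact h
  · rintro ⟨j, s, s'⟩ ht ⟨h1, h2⟩
    obtain ⟨i, hi, hne⟩ := hm _ ht
    apply hne
    have e1 := h1 i (by rw [hlab j (hN2 _ ht)]; exact hi)
    have e2 := h2 i (by rw [hlab j (hN2 _ ht)]; exact hi)
    exact e1.trans e2.symm

/-- the clopen set of a pattern -/
def cl (P : Set (ℤ × Set ℕ)) : Set (Ultrafilter ℤ) :=
  {q | ∀ p ∈ P, {k : ℤ | k + p.1 ∈ AA p.2} ∈ q}

theorem isClosed_cl (P : Set (ℤ × Set ℕ)) : IsClosed (cl P) := by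
  have : cl P = ⋂ p ∈ P, {q : Ultrafilter ℤ | {k : ℤ | k + p.1 ∈ AA p.2} ∈ q} := by
    ext q; simp [cl]
  rw [this]
  exact isClosed_biInter fun p _ => ultrafilter_isClosed_basic _

theorem mem_shift {n : ℤ} {q : Ultrafilter ℤ} {B : Set ℤ} :
    B ∈ shift n q ↔ {k : ℤ | k + n ∈ B} ∈ q := Iff.rfl

theorem shift_shift (m n : ℤ) (q : Ultrafilter ℤ) : shift m (shift n q) = shift (n + m) q := by
  ext B
  rw [mem_shift, mem_shift, mem_shift]
  have : {k : ℤ | k + n ∈ {k : ℤ | k + m ∈ B}} = {k : ℤ | k + (n + m) ∈ B} := by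
    ext k; simp [add_assoc]
  rw [this]

theorem shift_zero (q : Ultrafilter ℤ) : shift 0 q = q := by
  ext B; rw [mem_shift]; simp

/-- conditions on the closed set -/
structure Good (E : Set (Ultrafilter ℤ)) : Prop where
  closed : IsClosed E
  nonpr : ∀ q ∈ E, ∀ n : ℤ, ({n} : Set ℤ) ∉ q
  inv : ∀ q ∈ E, ∀ n : ℤ, shift n q ∈ E
  thin : ∀ q ∈ E, ∀ (j : ℤ) (s s' : Set ℕ), s ≠ s' →
    ¬ ({k : ℤ | k + j ∈ AA s} ∈ q ∧ {k : ℤ | k + j ∈ AA s'} ∈ q)
  meets : ∀ P, Pat P → (E ∩ cl P).Nonempty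

/-- the largest candidate -/
def CC : Set (Ultrafilter ℤ) :=
  {q | (∀ n : ℤ, ({n} : Set ℤ) ∉ q) ∧ ∀ (j : ℤ) (s s' : Set ℕ), s ≠ s' →
    ¬ ({k : ℤ | k + j ∈ AA s} ∈ q ∧ {k : ℤ | k + j ∈ AA s'} ∈ q)}

theorem good_CC : Good CC := by
  classical
  refine ⟨?_, fun q hq => hq.1, ?_, fun q hq => hq.2, ?_⟩
  · have : CC = (⋂ n : ℤ, {q : Ultrafilter ℤ | ({n} : Set ℤ) ∈ q}ᶜ) ∩
        ⋂ (j : ℤ) (s : Set ℕ) (s' : Set ℕ) (_ : s ≠ s'),
          {q : Ultrafilter ℤ | ({k : ℤ | k + j ∈ AA s} ∩ {k : ℤ | k + j ∈ AA s'}) ∈ q}ᶜ := by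
      ext q
      simp only [CC, mem_ofPred_eq, mem_inter_iff, mem_iInter, mem_compl_iff]
      constructor
      · rintro ⟨h1, h2⟩
        exact ⟨h1, fun j s s' hs h => h2 j s s' hs
          ⟨mem_of_superset h inter_subset_left, mem_of_superset h inter_subset_right⟩⟩
      · rintro ⟨h1, h2⟩
        exact ⟨h1, fun j s s' hs h => h2 j s s' hs (inter_mem h.1 h.2)⟩
    rw [this]
    refine IsClosed.inter (isClosed_iInter fun n => (ultrafilter_isOpen_basic _).isClosed_compl) ?_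
    exact isClosed_iInter fun j => isClosed_iInter fun s => isClosed_iInter fun s' =>
      isClosed_iInter fun _ => (ultrafilter_isOpen_basic _).isClosed_compl
  · rintro q ⟨h1, h2⟩ n
    refine ⟨fun m hm => h1 (m - n) ?_, ?_⟩
    · rw [mem_shift] at hm
      refine mem_of_superset hm ?_
      intro k hk
      simp only [mem_ofPred_eq, mem_singleton_iff] at hk ⊢
      omega
    · rintro j s s' hs ⟨h3, h4⟩
      refine h2 (n + j) s s' hs ⟨?_, ?_⟩
      · rw [mem_shift] at h3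
        refine mem_of_superset h3 ?_
        intro k hk
        simp only [mem_ofPred_eq] at hk ⊢
        rwa [← add_assoc]
      · rw [mem_shift] at h4
        refine mem_of_superset h4 ?_
        intro k hk
        simp only [mem_ofPred_eq] at hk ⊢
        rwa [← add_assoc]
  · intro P hP
    -- finite intersection property
    let F : Set (Set ℤ) :=
      (range fun K : ℤ => {k : ℤ | K ≤ k}) ∪
      ((fun p : ℤ × Set ℕ => {k : ℤ | k + p.1 ∈ AA p.2}) '' P) ∪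
      {B | ∃ t : ℤ × Set ℕ × Set ℕ, t.2.1 ≠ t.2.2 ∧
        B = {k : ℤ | ¬ (k + t.1 ∈ AA t.2.1 ∧ k + t.1 ∈ AA t.2.2)}}
    have hfip : ∀ G : Set (Set ℤ), G ⊆ F → G.Finite → (⋂₀ G).Nonempty := by
      intro G hGF hG
      -- bound K and the set of triples
      have hK : ∃ K0 : ℤ, ∀ K : ℤ, {k : ℤ | K ≤ k} ∈ G → K ≤ K0 := by
        have hfin : {K : ℤ | {k : ℤ | K ≤ k} ∈ G}.Finite := by
          refine Finite.preimage (f := fun K : ℤ => {k : ℤ | K ≤ k}) ?_ hG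
          intro a _ b _ hab
          simp only at hab
          have h1 : a ∈ {k : ℤ | b ≤ k} := by rw [← hab]; exact le_refl a
          have h2 : b ∈ {k : ℤ | a ≤ k} := by rw [hab]; exact le_refl b
          exact le_antisymm h2 h1
        obtain ⟨K0, hK0⟩ := hfin.bddAbove
        exact ⟨K0, fun K hK => hK0 hK⟩
      obtain ⟨K0, hK0⟩ := hK
      have hT : ∃ T : Set (ℤ × Set ℕ × Set ℕ), T.Finite ∧ (∀ t ∈ T, t.2.1 ≠ t.2.2) ∧
          ∀ B ∈ G, (∃ t : ℤ × Set ℕ × Set ℕ, t.2.1 ≠ t.2.2 ∧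
            B = {k : ℤ | ¬ (k + t.1 ∈ AA t.2.1 ∧ k + t.1 ∈ AA t.2.2)}) →
            ∃ t ∈ T, B = {k : ℤ | ¬ (k + t.1 ∈ AA t.2.1 ∧ k + t.1 ∈ AA t.2.2)} := by
        have hch : ∀ B : Set ℤ, ∃ t : ℤ × Set ℕ × Set ℕ,
            (∃ t : ℤ × Set ℕ × Set ℕ, t.2.1 ≠ t.2.2 ∧
              B = {k : ℤ | ¬ (k + t.1 ∈ AA t.2.1 ∧ k + t.1 ∈ AA t.2.2)}) →
            t.2.1 ≠ t.2.2 ∧ B = {k : ℤ | ¬ (k + t.1 ∈ AA t.2.1 ∧ k + t.1 ∈ AA t.2.2)} := by
          intro B
          by_cases h : ∃ t : ℤ × Set ℕ × Set ℕ, t.2.1 ≠ t.2.2 ∧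
              B = {k : ℤ | ¬ (k + t.1 ∈ AA t.2.1 ∧ k + t.1 ∈ AA t.2.2)}
          · obtain ⟨t, ht⟩ := h; exact ⟨t, fun _ => ht⟩
          · exact ⟨(0, ∅, ∅), fun h' => absurd h' h⟩
        choose g hg using hch
        refine ⟨(g '' G) ∩ {t | t.2.1 ≠ t.2.2}, (hG.image g).inter_of_left _, fun t ht => ht.2, ?_⟩
        intro B hB h
        exact ⟨g B, ⟨mem_image_of_mem g hB, (hg B h).1⟩, (hg B h).2⟩
      obtain ⟨T, hTf, hT2, hTB⟩ := hT
      obtain ⟨k, hk1, hk2, hk3⟩ := comb_key P hP T hTf hT2 K0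
      refine ⟨k, ?_⟩
      intro B hB
      rcases hGF hB with (⟨K, rfl⟩ | ⟨p, hp, rfl⟩) | h
      · exact (hK0 K hB).trans hk1
      · exact hk2 p hp
      · obtain ⟨t, ht, rfl⟩ := hTB B hB h
        exact hk3 t ht
    have hne : (Filter.generate F).NeBot := by
      rw [Filter.generate_neBot_iff]
      intro G hG1 hG2
      exact hfip G hG1 hG2
    obtain ⟨q, hq⟩ := Ultrafilter.exists_le (Filter.generate F)
    have hqF : ∀ B ∈ F, B ∈ q := fun B hB => hq (Filter.mem_generate_of_mem hB)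
    refine ⟨q, ⟨?_, ?_⟩, ?_⟩
    · intro n hn
      have h1 : {k : ℤ | n + 1 ≤ k} ∈ q := hqF _ (Or.inl (Or.inl ⟨n + 1, rfl⟩))
      have h2 := inter_mem hn h1
      have h3 : ({n} ∩ {k : ℤ | n + 1 ≤ k} : Set ℤ) = ∅ := by
        ext k
        simp only [mem_inter_iff, mem_singleton_iff, mem_ofPred_eq, mem_empty_iff_false, iff_false]
        omega
      rw [h3] at h2
      exact q.empty_notMem h2
    · rintro j s s' hs ⟨h1, h2⟩
      have h3 : {k : ℤ | ¬ (k + j ∈ AA s ∧ k + j ∈ AA s')} ∈ q :=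
        hqF _ (Or.inr ⟨(j, s, s'), hs, rfl⟩)
      have h4 := inter_mem (inter_mem h1 h2) h3
      have h5 : ({k : ℤ | k + j ∈ AA s} ∩ {k : ℤ | k + j ∈ AA s'} ∩
          {k : ℤ | ¬ (k + j ∈ AA s ∧ k + j ∈ AA s')} : Set ℤ) = ∅ := by
        ext k
        simp only [mem_inter_iff, mem_ofPred_eq, mem_empty_iff_false, iff_false]
        tauto
      rw [h5] at h4
      exact q.empty_notMem h4
    · intro p hp
      exact hqF _ (Or.inl (Or.inr ⟨p, hp, rfl⟩))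

theorem exists_min : ∃ E, Minimal Good E := by
  have h := zorn_superset {E : Set (Ultrafilter ℤ) | Good E} ?_
  · exact h
  · intro c hc hch
    rcases c.eq_empty_or_nonempty with rfl | hne
    · exact ⟨CC, good_CC, by simp⟩
    · refine ⟨⋂₀ c, ⟨?_, ?_, ?_, ?_, ?_⟩, fun s hs => sInter_subset_of_mem hs⟩
      · exact isClosed_sInter fun s hs => (hc hs).closed
      · intro q hq n
        obtain ⟨s, hs⟩ := hne
        exact (hc hs).nonpr q (hq s hs) n
      · intro q hq n s hs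
        exact (hc hs).inv q (hq s hs) n
      · intro q hq
        obtain ⟨s, hs⟩ := hne
        exact (hc hs).thin q (hq s hs)
      · intro P hP
        have : Nonempty c := hne.to_subtype
        have h1 : (⋂ s : c, ((s : Set (Ultrafilter ℤ)) ∩ cl P)).Nonempty := by
          apply IsCompact.nonempty_iInter_of_directed_nonempty_isCompact_isClosed
          · rintro ⟨s, hs⟩ ⟨t, ht⟩
            rcases hch.total hs ht with h | h
            · exact ⟨⟨s, hs⟩, subset_rfl, inter_subset_inter_left _ h⟩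
            · exact ⟨⟨t, ht⟩, inter_subset_inter_left _ h, subset_rfl⟩
          · rintro ⟨s, hs⟩
            exact (hc hs).meets P hP
          · rintro ⟨s, hs⟩
            exact ((hc hs).closed.inter (isClosed_cl P)).isCompact
          · rintro ⟨s, hs⟩
            exact (hc hs).closed.inter (isClosed_cl P)
        obtain ⟨q, hq⟩ := h1
        simp only [mem_iInter] at hq
        refine ⟨q, fun s hs => (hq ⟨s, hs⟩).1, ?_⟩
        obtain ⟨s, hs⟩ := hne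
        exact (hq ⟨s, hs⟩).2

/-- a set met by a minimal `E` contains, up to shifts, a whole pattern piece of `E` -/
theorem pattern_of_meets {E : Set (Ultrafilter ℤ)} (hE : Minimal Good E) {B : Set ℤ}
    (hB : ∃ q ∈ E, B ∈ q) : ∃ P, Pat P ∧ ∀ q ∈ E ∩ cl P, ∃ n : ℤ, B ∈ shift n q := by
  by_contra hcon
  push Not at hcon
  let E' : Set (Ultrafilter ℤ) := E ∩ ⋂ n : ℤ, {q : Ultrafilter ℤ | B ∈ shift n q}ᶜ
  have hgood : Good E' := by
    refine ⟨?_, fun q hq => hE.prop.nonpr q hq.1, ?_, fun q hq => hE.prop.thin q hq.1, ?_⟩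
    · refine hE.prop.closed.inter (isClosed_iInter fun n => ?_)
      have : {q : Ultrafilter ℤ | B ∈ shift n q} = {q : Ultrafilter ℤ | {k : ℤ | k + n ∈ B} ∈ q} := rfl
      rw [this]
      exact (ultrafilter_isOpen_basic _).isClosed_compl
    · rintro q ⟨h1, h2⟩ n
      refine ⟨hE.prop.inv q h1 n, ?_⟩
      simp only [mem_iInter, mem_compl_iff, mem_ofPred_eq] at h2 ⊢
      intro m
      rw [shift_shift]
      exact h2 _
    · intro P hP
      obtain ⟨q, hq, hq2⟩ := hcon P hP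
      refine ⟨q, ⟨hq.1, ?_⟩, hq.2⟩
      simp only [mem_iInter, mem_compl_iff, mem_ofPred_eq]
      exact hq2
  have hsub : E ⊆ E' := hE.le_of_le hgood inter_subset_left
  obtain ⟨q, hq, hqB⟩ := hB
  have := (hsub hq).2
  simp only [mem_iInter, mem_compl_iff, mem_ofPred_eq] at this
  apply this 0
  rw [shift_zero]
  exact hqB

theorem transitive {E : Set (Ultrafilter ℤ)} (hE : Minimal Good E) {B C : Set ℤ}
    (hB : ∃ q ∈ E, B ∈ q) (hC : ∃ q ∈ E, C ∈ q) :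
    ∃ q ∈ E, ∃ n : ℤ, B ∈ q ∧ C ∈ shift n q := by
  classical
  obtain ⟨P, hP, hPB⟩ := pattern_of_meets hE hB
  obtain ⟨Q, hQ, hQC⟩ := pattern_of_meets hE hC
  -- choose n with dom (Q + n) disjoint from dom P
  obtain ⟨n, hn⟩ : ∃ n : ℤ, ∀ p ∈ P, ∀ q ∈ Q, p.1 ≠ q.1 + n := by
    have hfin : (image2 (fun (p q : ℤ × Set ℕ) => p.1 - q.1) P Q).Finite := hP.1.image2 _ hQ.1
    obtain ⟨b, hb⟩ := hfin.bddAbove
    refine ⟨b + 1, fun p hp q hq h => ?_⟩
    have h1 : p.1 - q.1 ≤ b := hb (mem_image2_of_mem hp hq)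
    omega
  let R : Set (ℤ × Set ℕ) := P ∪ (fun p : ℤ × Set ℕ => (p.1 + n, p.2)) '' Q
  have hR : Pat R := by
    refine ⟨hP.1.union (hQ.1.image _), ?_⟩
    rintro j s s' (h1 | ⟨⟨a, b⟩, h1, h1'⟩) (h2 | ⟨⟨a', b'⟩, h2, h2'⟩)
    · exact hP.2 j s s' h1 h2
    · simp only [Prod.mk.injEq] at h2'
      exact absurd h2'.1.symm (hn _ h1 _ h2)
    · simp only [Prod.mk.injEq] at h1'
      exact absurd h1'.1.symm (hn _ h2 _ h1)
    · simp only [Prod.mk.injEq] at h1' h2'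
      obtain ⟨rfl, rfl⟩ := h1'
      obtain ⟨h3, rfl⟩ := h2'
      have : a' = a := by omega
      subst this
      exact hQ.2 a' b b' h1 h2
  obtain ⟨q, hq, hqR⟩ := hE.prop.meets R hR
  obtain ⟨m, hm⟩ := hPB q ⟨hq, fun p hp => hqR p (Or.inl hp)⟩
  obtain ⟨m', hm'⟩ := hQC (shift n q) ⟨hE.prop.inv q hq n, fun p hp => by
    have := hqR (p.1 + n, p.2) (Or.inr ⟨p, hp, rfl⟩)
    rw [mem_shift]
    refine mem_of_superset this ?_
    intro k hk
    simp only [mem_ofPred_eq] at hk ⊢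
    have e : k + n + p.1 = k + (p.1 + n) := by ring
    rw [e]; exact hk⟩
  refine ⟨shift m q, hE.prop.inv q hq m, n + m' - m, hm, ?_⟩
  rw [shift_shift]
  rw [shift_shift] at hm'
  have e : m + (n + m' - m) = n + m' := by ring
  rw [e]; exact hm'

theorem noDense {E : Set (Ultrafilter ℤ)} (hE : Good E) (p : Ultrafilter ℤ) (hp : p ∈ E) :
    ∃ B : Set ℤ, (∃ q ∈ E, B ∈ q) ∧ ∀ n : ℤ, B ∉ shift n p := by
  by_contra hcon
  push Not at hcon
  have h : ∀ s : Set ℕ, ∃ n : ℤ, AA s ∈ shift n p := by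
    intro s
    apply hcon
    obtain ⟨q, hq, hq2⟩ := hE.meets {((0 : ℤ), s)} ⟨finite_singleton _, by
      intro j s1 s2 h1 h2
      simp only [mem_singleton_iff, Prod.mk.injEq] at h1 h2
      rw [h1.2, h2.2]⟩
    refine ⟨q, hq, ?_⟩
    have := hq2 (0, s) rfl
    simpa using this
  choose g hg using h
  have hinj : Function.Injective g := by
    intro s s' hss
    by_contra hne
    have h1 := hg s
    have h2 := hg s'
    rw [← hss] at h2
    rw [mem_shift] at h1 h2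
    exact hE.thin p hp (g s) s s' hne ⟨h1, h2⟩
  exact Function.cantor_injective (fun s => Encodable.encode (g s))
    (Encodable.encode_injective.comp hinj)

end Comb

/-- **Block D.** -/
theorem exists_E0 : ∃ E0 : Set (Ultrafilter ℤ), IsClosed E0 ∧ E0.Nonempty ∧
    (∀ q ∈ E0, ∀ n : ℤ, ({n} : Set ℤ) ∉ q) ∧
    (∀ q ∈ E0, ∀ n : ℤ, shift n q ∈ E0) ∧
    (∀ B C : Set ℤ, (∃ q ∈ E0, B ∈ q) → (∃ q ∈ E0, C ∈ q) →
      ∃ q ∈ E0, ∃ n : ℤ, B ∈ q ∧ C ∈ shift n q) ∧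
    (∀ p ∈ E0, ∃ B : Set ℤ, (∃ q ∈ E0, B ∈ q) ∧ ∀ n : ℤ, B ∉ shift n p) := by
  obtain ⟨E, hE⟩ := Comb.exists_min
  refine ⟨E, hE.prop.closed, ?_, hE.prop.nonpr, hE.prop.inv, fun B C hB hC =>
    Comb.transitive hE hB hC, fun p hp => Comb.noDense hE.prop p hp⟩
  obtain ⟨q, hq, -⟩ := hE.prop.meets ∅ ⟨finite_empty, by simp⟩
  exact ⟨q, hq⟩

end Pool.Agent.Alling
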