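import Pool.Agent.Work.MP_ab1db7_an.Func

/-! # MP_ab1db7_an: the corona theorem -/

set_option autoImplicit false

open MeasureTheory Complex Filter Topology Asymptotics Metric Set
open scoped ComplexConjugate

namespace Pool.Agent.Alling

/-- the corona theorem for functions continuous up to the boundary, with a uniform constant -/
theorem corona_dcc {n : ℕ} (f : Fin n → ℂ → ℂ) (hf : ∀ j, DiffContOnCl ℂ (f j) (ball 0 1))
    (hf1 : ∀ j, ∀ z ∈ closedBall (0 : ℂ) 1, ‖f j z‖ ≤ 1) {s0 : ℝ} (hs0 : 0 < s0)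
    (hs1 : s0 ≤ 1) (hS : ∀ z ∈ closedBall (0 : ℂ) 1, s0 ≤ Sf f z) :
    ∃ g : Fin n → ℂ → ℂ, (∀ j, HolBdd (g j) ((1 / s0 +
      (3 * n ^ 2 + 2 * n + 1) / s0 ^ 4 * (2 * Real.exp n + 1) * (2 * n)) * n)) ∧
      ∀ z ∈ ball (0 : ℂ) 1, ∑ j, f j z * g j z = 1 := by
  obtain ⟨C, hC⟩ : ∃ C : ℝ, C = (1 / s0 +
      (3 * n ^ 2 + 2 * n + 1) / s0 ^ 4 * (2 * Real.exp n + 1) * (2 * n)) := ⟨_, rfl⟩
  have hC0 : 0 ≤ C := by rw [hC]; positivity
  rw [← hC]
  obtain ⟨fb, hfb⟩ : ∃ fb : Fin n → C(𝕋, ℂ), ∀ j t, fb j t = f j (fourier 1 t) :=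
    ⟨fun j => bd (f j) (cont_of_dcc (hf j)), fun j t => rfl⟩
  -- the maps
  obtain ⟨Θ, hΘ⟩ : ∃ Θ : (C(𝕋, ℂ) × (Fin n → LL)) →ₗ[ℂ] (Fin n → Lp ℂ 1 μ), ∀ x j,
      Θ x j = toL1 (fb j * x.1 + rr (x.2 j)) := by
    refine ⟨LinearMap.pi fun j => (toL1 : C(𝕋, ℂ) →ₗ[ℂ] Lp ℂ 1 μ) ∘ₗ
      ((LinearMap.mulLeft ℂ (fb j)) ∘ₗ LinearMap.fst ℂ _ _ +
        rr ∘ₗ (LinearMap.proj j) ∘ₗ LinearMap.snd ℂ _ _), fun x j => ?_⟩
    simp
  obtain ⟨lam, hlam⟩ : ∃ lam : (C(𝕋, ℂ) × (Fin n → LL)) →ₗ[ℂ] ℂ, ∀ x, lam x = intL x.1 :=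
    ⟨(intL : C(𝕋, ℂ) →ₗ[ℂ] ℂ) ∘ₗ LinearMap.fst ℂ _ _, fun x => rfl⟩
  have hest : ∀ x, ‖lam x‖ ≤ (C * n) * ‖Θ x‖ := by
    intro x
    have h1 := apriori f (fun j => (x.2 j).1) hf (fun j => (x.2 j).2.1) (fun j => (x.2 j).2.2)
      hf1 hs0 hs1 hS x.1 (fun j t => (fb j * x.1 + rr (x.2 j)) t) (fun j t => by
        rw [ContinuousMap.add_apply, ContinuousMap.mul_apply, hfb]; rfl)
    rw [hlam, intL_apply]
    rw [← hC] at h1
    refine h1.trans ?_
    rw [mul_assoc]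
    refine mul_le_mul_of_nonneg_left ?_ hC0
    calc ∑ j, ∫ t, ‖(fb j * x.1 + rr (x.2 j)) t‖ ∂μ = ∑ j, ‖Θ x j‖ := by
          refine Finset.sum_congr rfl fun j _ => ?_
          rw [hΘ, norm_toL1]
      _ ≤ ∑ _j : Fin n, ‖Θ x‖ := Finset.sum_le_sum fun j _ => norm_le_pi_norm (Θ x) j
      _ = n * ‖Θ x‖ := by simp
  obtain ⟨Λ, hΛ, hΛn⟩ := exists_functional Θ lam (by positivity) hest
  -- the solutions
  obtain ⟨T, hT⟩ : ∃ T : Fin n → (C(𝕋, ℂ) →L[ℂ] ℂ), ∀ j κ, T j κ = Λ (Pi.single j (toL1 κ)) :=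
    ⟨fun j => Λ ∘L (ContinuousLinearMap.single ℂ (fun _ : Fin n => Lp ℂ 1 μ) j) ∘L toL1,
      fun j κ => rfl⟩
  have hTn : ∀ j κ, ‖T j κ‖ ≤ (C * n) * ‖toL1 κ‖ := by
    intro j κ
    rw [hT]
    calc ‖Λ (Pi.single j (toL1 κ))‖ ≤ ‖Λ‖ * ‖(Pi.single j (toL1 κ) : Fin n → Lp ℂ 1 μ)‖ :=
          Λ.le_opNorm _
      _ ≤ (C * n) * ‖toL1 κ‖ := by
          refine mul_le_mul hΛn ?_ (norm_nonneg _) (by positivity)
          rw [Pi.norm_single]
  have hTL : ∀ j (F : LL), T j (rr F) = 0 := by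
    intro j F
    have h1 : (Pi.single j (toL1 (rr F)) : Fin n → Lp ℂ 1 μ) =
        Θ (0, Pi.single j F) := by
      funext i
      rw [hΘ]
      by_cases hij : i = j
      · subst hij; simp
      · simp [hij]
    rw [hT, h1, hΛ, hlam]
    simp
  obtain ⟨G, hG⟩ : ∃ G : Fin n → ℂ → ℂ, ∀ j z, G j z = T j (KK z) := ⟨_, fun _ _ => rfl⟩
  have hGP : ∀ j z (hz : z ∈ ball (0 : ℂ) 1), G j z = T j (PP z hz) := by
    intro j z hz
    rw [PP, map_add, hTL, add_zero, hG]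
  have hGS : ∀ j z, z ∈ ball (0 : ℂ) 1 →
      HasSum (fun m : ℕ => T j (fourier (-(m : ℤ))) * z ^ m) (G j z) := by
    intro j z hz
    have h1 := (T j).hasSum (KK_sum hz)
    rw [hG]
    have h2 : (fun m : ℕ => T j (fourier (-(m : ℤ))) * z ^ m) =
        fun b : ℕ => T j (z ^ b • (fourier (-(b : ℤ)) : C(𝕋, ℂ))) := by
      funext m
      rw [map_smul, smul_eq_mul, mul_comm]
    rw [h2]
    exact h1
  refine ⟨G, fun j => ⟨?_, fun z hz => ?_⟩, fun z hz => ?_⟩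
  · have hc : ∀ m : ℕ, ‖T j (fourier (-(m : ℤ)))‖ ≤ C * n := by
      intro m
      refine (hTn j _).trans ?_
      rw [norm_toL1]
      simp only [norm_fourier]
      simp
    refine (holo_of_coef hc).1.congr fun z hz => ?_
    exact (hGS j z hz).tsum_eq.symm
  · rw [hGP j z hz]
    have := hTn j (PP z hz)
    rwa [norm_PP hz, mul_one] at this
  · -- `∑ f_j(z) G_j(z) = Λ (f_j(z) P_z) = ∫ P_z = 1`
    have hz1 : ‖z‖ < 1 := by simpa using hz
    have hnhds : closedBall (0 : ℂ) 1 ∈ 𝓝 z :=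
      mem_of_superset (isOpen_ball.mem_nhds hz) ball_subset_closedBall
    obtain ⟨l, hl⟩ : ∃ l : Fin n → LL, ∀ j ζ, (l j).1 ζ =
        ζ * dslope (f j) z ζ + (f j ζ - f j z) * Lz z ζ := by
      refine ⟨fun j => ⟨fun ζ => ζ * dslope (f j) z ζ + (f j ζ - f j z) * Lz z ζ, ?_, ?_⟩,
        fun _ _ => rfl⟩
      · have h1 : DiffContOnCl ℂ (dslope (f j) z) (ball 0 1) := by
          refine ⟨(Complex.differentiableOn_dslope (isOpen_ball.mem_nhds hz)).2
            (hf j).differentiableOn, ?_⟩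
          rw [closure_ball (0 : ℂ) one_ne_zero]
          exact (continuousOn_dslope hnhds).2 ⟨cont_of_dcc (hf j),
            (hf j).differentiableOn.differentiableAt (isOpen_ball.mem_nhds hz)⟩
        have hid : DiffContOnCl ℂ (fun ζ : ℂ => ζ) (ball 0 1) :=
          ⟨differentiableOn_id, continuousOn_id⟩
        exact ((hid.smul h1)).add (((hf j).sub_const (f j z)).smul (Lz_mem hz).1)
      · simp [Lz]
    have hx := hΛ (PP z hz, fun j => -(l j))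
    have hΘx : Θ (PP z hz, fun j => -(l j)) = ∑ j, f j z • (Pi.single j (toL1 (PP z hz)) :
        Fin n → Lp ℂ 1 μ) := by
      funext i
      rw [hΘ, Finset.sum_apply, Finset.sum_eq_single i]
      · rw [Pi.smul_apply, Pi.single_eq_same, ← map_smul]
        congr 1
        ext t
        have hne : (fourier 1 t : ℂ) - z ≠ 0 := by
          intro h
          have h2 : ‖(fourier 1 t : ℂ)‖ = ‖z‖ := by rw [sub_eq_zero.1 h]
          rw [norm_fourier] at h2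
          linarith
        have h3 : (fb i * PP z hz + rr (-(l i))) t = fb i t * PP z hz t - (l i).1 (fourier 1 t) := by
          rw [ContinuousMap.add_apply, ContinuousMap.mul_apply, map_neg, ContinuousMap.neg_apply,
            sub_eq_add_neg]
          rfl
        have h4 : dslope (f i) z (fourier 1 t) =
            (f i (fourier 1 t) - f i z) * ((fourier 1 t : ℂ) - z)⁻¹ := by
          rw [dslope_of_ne _ (sub_ne_zero.1 hne), slope_def_field, div_eq_mul_inv]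
        have h5 : KK z t = (fourier 1 t : ℂ) * ((fourier 1 t : ℂ) - z)⁻¹ := by
          rw [KK_apply hz]
          have h6 := conj_mul_self t
          have h7 : (1 - z * conj (fourier 1 t : ℂ)) = ((fourier 1 t : ℂ) - z) *
              conj (fourier 1 t : ℂ) := by linear_combination -h6
          have h8 : conj (fourier 1 t : ℂ) ≠ 0 := by
            intro h9; rw [h9, zero_mul] at h6; exact zero_ne_one h6
          rw [h7, mul_inv]
          have h9 : (conj (fourier 1 t : ℂ))⁻¹ = fourier 1 t := inv_eq_of_mul_eq_one_right h6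
          rw [h9, mul_comm]
        rw [h3, hl, h4, hfb, ContinuousMap.smul_apply, PP_apply, h5, smul_eq_mul]
        ring
      · intro j _ hji
        rw [Pi.smul_apply, Pi.single_eq_of_ne hji.symm, smul_zero]
      · intro h; exact absurd (Finset.mem_univ i) h
    rw [hΘx, hlam, intL_apply, int_PP hz, map_sum] at hx
    rw [← hx]
    refine Finset.sum_congr rfl fun j _ => ?_
    rw [map_smul, hGP j z hz, hT, smul_eq_mul]

/-- **The corona theorem** -/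
theorem corona {n : ℕ} (f : Fin n → ℂ → ℂ) (hf : ∀ j, HolBdd (f j) 1) {δ : ℝ} (hδ : 0 < δ)
    (hl : ∀ z ∈ ball (0 : ℂ) 1, δ ≤ ∑ j, ‖f j z‖) :
    ∃ (g : Fin n → ℂ → ℂ) (C : ℝ), (∀ j, HolBdd (g j) C) ∧
      ∀ z ∈ ball (0 : ℂ) 1, ∑ j, f j z * g j z = 1 := by
  obtain ⟨s0, hs⟩ : ∃ s0 : ℝ, s0 = δ ^ 2 / ((n : ℝ) ^ 2 + 1) := ⟨_, rfl⟩
  have hs0 : 0 < s0 := by rw [hs]; positivity
  have hδn : δ ≤ n := by
    refine (hl 0 (mem_ball_self one_pos)).trans ?_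
    calc ∑ j, ‖f j 0‖ ≤ ∑ _j : Fin n, (1 : ℝ) :=
          Finset.sum_le_sum fun j _ => (hf j).bdd 0 (mem_ball_self one_pos)
      _ = n := by simp
  have hs1 : s0 ≤ 1 := by
    rw [hs, div_le_one (by positivity)]
    have : δ ^ 2 ≤ (n : ℝ) ^ 2 := pow_le_pow_left₀ hδ.le hδn 2
    linarith
  have hn1 : (n : ℝ) ≤ (n : ℝ) ^ 2 + 1 := by nlinarith [sq_nonneg ((n : ℝ) - 1)]
  have hSball : ∀ z ∈ ball (0 : ℂ) 1, s0 ≤ Sf f z := by
    intro z hz
    have h1 : δ ^ 2 ≤ (∑ j, ‖f j z‖) ^ 2 := pow_le_pow_left₀ hδ.le (hl z hz) 2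
    have h2 : (∑ j, ‖f j z‖) ^ 2 ≤ n * Sf f z := by
      have := sq_sum_le_card_mul_sum_sq (s := (Finset.univ : Finset (Fin n)))
        (f := fun j => ‖f j z‖)
      rw [Finset.card_univ, Fintype.card_fin] at this
      exact this
    have h3 : 0 ≤ Sf f z := Finset.sum_nonneg fun j _ => by positivity
    rw [hs, div_le_iff₀ (by positivity)]
    calc δ ^ 2 ≤ n * Sf f z := h1.trans h2
      _ ≤ ((n : ℝ) ^ 2 + 1) * Sf f z := mul_le_mul_of_nonneg_right hn1 h3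
      _ = _ := mul_comm _ _
  obtain ⟨r, hr⟩ : ∃ r : ℕ → ℝ, ∀ k, r k = 1 - 1 / ((k : ℝ) + 1) := ⟨_, fun _ => rfl⟩
  have hr0 : ∀ k, 0 ≤ r k := by
    intro k
    rw [hr, sub_nonneg, div_le_one (by positivity)]
    have := Nat.cast_nonneg (α := ℝ) k
    linarith
  have hr1 : ∀ k, r k < 1 := by
    intro k
    rw [hr]
    have : 0 < 1 / ((k : ℝ) + 1) := by positivity
    linarith
  have hrl : Tendsto r atTop (𝓝 1) := by
    have h1 : Tendsto (fun k : ℕ => 1 - 1 / ((k : ℝ) + 1)) atTop (𝓝 (1 - 0)) :=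
      tendsto_const_nhds.sub tendsto_one_div_add_atTop_nhds_zero_nat
    rw [sub_zero] at h1
    exact h1.congr fun k => (hr k).symm
  have hmaps : ∀ k, ∀ z ∈ closedBall (0 : ℂ) 1, (r k : ℂ) * z ∈ ball (0 : ℂ) 1 := by
    intro k z hz
    have h1 : ‖z‖ ≤ 1 := by simpa using hz
    rw [mem_ball_zero_iff, norm_mul, Complex.norm_real, Real.norm_of_nonneg (hr0 k)]
    calc r k * ‖z‖ ≤ r k * 1 := mul_le_mul_of_nonneg_left h1 (hr0 k)
      _ < 1 := by rw [mul_one]; exact hr1 k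
  have hdil : ∀ k : ℕ, ∃ g : Fin n → ℂ → ℂ, (∀ j, HolBdd (g j) ((1 / s0 +
      (3 * n ^ 2 + 2 * n + 1) / s0 ^ 4 * (2 * Real.exp n + 1) * (2 * n)) * n)) ∧
      ∀ z ∈ ball (0 : ℂ) 1, ∑ j, f j ((r k : ℂ) * z) * g j z = 1 := by
    intro k
    refine corona_dcc (fun j z => f j ((r k : ℂ) * z)) (fun j => ?_) (fun j z hz => ?_) hs0 hs1
      (fun z hz => hSball _ (hmaps k z hz))
    · refine DifferentiableOn.diffContOnCl ?_
      rw [closure_ball (0 : ℂ) one_ne_zero]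
      exact (hf j).diff.comp (by fun_prop) (hmaps k)
    · exact (hf j).bdd _ (hmaps k z hz)
  choose g hg hsum using hdil
  obtain ⟨U, hU⟩ : ∃ U : Ultrafilter ℕ, (U : Filter ℕ) ≤ atTop := ⟨Ultrafilter.of atTop,
    Ultrafilter.of_le _⟩
  choose G hG hGl using fun j => ultra U (F := fun k => g k j) (fun k => hg k j)
  refine ⟨G, _, hG, fun z hz => ?_⟩
  have h1 : Tendsto (fun k : ℕ => ∑ j, f j ((r k : ℂ) * z) * g k j z) U
      (𝓝 (∑ j, f j z * G j z)) := by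
    refine tendsto_finsetSum _ fun j _ => Tendsto.mul ?_ (hGl j z hz)
    have h2 : Tendsto (fun k : ℕ => (r k : ℂ) * z) U (𝓝 z) := by
      have h3 : Tendsto (fun k : ℕ => (r k : ℂ) * z) atTop (𝓝 (((1 : ℝ) : ℂ) * z)) :=
        ((Complex.continuous_ofReal.tendsto 1).comp hrl).mul tendsto_const_nhds
      rw [Complex.ofReal_one, one_mul] at h3
      exact h3.mono_left hU
    exact (((hf j).diff.differentiableAt (isOpen_ball.mem_nhds hz)).continuousAt.tendsto).comp h2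
  have h2 : (fun k : ℕ => ∑ j, f j ((r k : ℂ) * z) * g k j z) = fun _ => 1 :=
    funext fun k => hsum k z hz
  rw [h2] at h1
  exact tendsto_nhds_unique h1 tendsto_const_nhds

end Pool.Agent.Alling
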