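import Mathlib

/-!
# MP_ab1db7_an: the algebra `H^∞ + C` and its character space

The unit circle `∂𝔻` is parametrised by `𝕋 = ℝ/ℤ`, `t ↦ e^{2πit}`, with its normalised Lebesgue
measure `μ`. `L⁰` is the algebra of a.e. classes of measurable functions on the circle; `L^∞` is the
set of essentially bounded classes.
-/

set_option autoImplicit false

open MeasureTheory Complex Set Filter Topology Metric

namespace Pool.Agent.Alling

/-- the circle -/
abbrev 𝕋 : Type := UnitAddCircle

/-- normalised Lebesgue measure on the circle -/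
noncomputable abbrev μ : Measure 𝕋 := AddCircle.haarAddCircle

/-- classes of a.e. equal measurable functions on the circle -/
abbrev L0 : Type := 𝕋 →ₘ[μ] ℂ

/-- pointwise a.e. operations make `L⁰` a commutative ring -/
noncomputable instance instCommRingL0 : CommRing L0 :=
  { (inferInstance : AddCommGroup L0), (inferInstance : CommMonoid L0) with
    left_distrib := fun f g h => by
      apply AEEqFun.ext
      filter_upwards [AEEqFun.coeFn_mul f (g + h), AEEqFun.coeFn_add g h,
        AEEqFun.coeFn_add (f * g) (f * h), AEEqFun.coeFn_mul f g, AEEqFun.coeFn_mul f h]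
        with t h1 h2 h3 h4 h5
      rw [h1, h3]
      simp only [Pi.mul_apply, Pi.add_apply, h2, h4, h5, mul_add]
    right_distrib := fun f g h => by
      apply AEEqFun.ext
      filter_upwards [AEEqFun.coeFn_mul (f + g) h, AEEqFun.coeFn_add f g,
        AEEqFun.coeFn_add (f * h) (g * h), AEEqFun.coeFn_mul f h, AEEqFun.coeFn_mul g h]
        with t h1 h2 h3 h4 h5
      rw [h1, h3]
      simp only [Pi.mul_apply, Pi.add_apply, h2, h4, h5, add_mul]
    zero_mul := fun f => by
      apply AEEqFun.ext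
      filter_upwards [AEEqFun.coeFn_mul 0 f, AEEqFun.coeFn_zero (α := 𝕋) (μ := μ) (β := ℂ)]
        with t h1 h2
      rw [h1, h2]; simp [h2]
    mul_zero := fun f => by
      apply AEEqFun.ext
      filter_upwards [AEEqFun.coeFn_mul f 0, AEEqFun.coeFn_zero (α := 𝕋) (μ := μ) (β := ℂ)]
        with t h1 h2
      rw [h1, h2]; simp [h2] }

/-- `L⁰` is a commutative `ℂ`-algebra -/
noncomputable instance instAlgebraL0 : Algebra ℂ L0 :=
  Algebra.ofModule
    (fun c f g => by
      apply AEEqFun.ext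
      filter_upwards [AEEqFun.coeFn_mul (c • f) g, AEEqFun.coeFn_smul c f,
        AEEqFun.coeFn_smul c (f * g), AEEqFun.coeFn_mul f g] with t h1 h2 h3 h4
      rw [h1, h3]
      simp only [Pi.mul_apply, Pi.smul_apply, h2, h4, smul_mul_assoc])
    (fun c f g => by
      apply AEEqFun.ext
      filter_upwards [AEEqFun.coeFn_mul f (c • g), AEEqFun.coeFn_smul c g,
        AEEqFun.coeFn_smul c (f * g), AEEqFun.coeFn_mul f g] with t h1 h2 h3 h4
      rw [h1, h3]
      simp only [Pi.mul_apply, Pi.smul_apply, h2, h4, mul_smul_comm])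

/-- `‖f‖_∞ ≤ C` -/
def BddBy (f : L0) (C : ℝ) : Prop := ∀ᵐ t ∂μ, ‖f t‖ ≤ C

/-- `H^∞` as a set of boundary functions: essentially bounded functions on the circle whose
Fourier coefficients of negative index vanish. -/
def HinfSet : Set L0 := {f | (∃ C, BddBy f C) ∧ ∀ n : ℤ, n < 0 → fourierCoeff (f : 𝕋 → ℂ) n = 0}

/-- classes of continuous functions on the circle -/
def ContSet : Set L0 := {f | ∃ g : C(𝕋, ℂ), f = ContinuousMap.toAEEqFun μ g}

/-- the (unital) algebra generated by `H^∞` and `C` -/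
noncomputable def genAlg : Subalgebra ℂ L0 := Algebra.adjoin ℂ (HinfSet ∪ ContSet)

/-- **The algebra `A = H^∞ + C`**: the closure in `L^∞` (in the norm `‖·‖_∞`) of the algebra
generated by `H^∞` and `C`. -/
def ASet : Set L0 := {f | ∀ ε : ℝ, 0 < ε → ∃ g ∈ genAlg, BddBy (f - g) ε}

theorem bddBy_congr_coe {f : L0} {g : 𝕋 → ℂ} {C : ℝ} (h : (f : 𝕋 → ℂ) =ᵐ[μ] g)
    (hg : ∀ᵐ t ∂μ, ‖g t‖ ≤ C) : BddBy f C := by
  filter_upwards [h, hg] with t h1 h2
  rw [h1]; exact h2

theorem BddBy.add {f g : L0} {C D : ℝ} (hf : BddBy f C) (hg : BddBy g D) :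
    BddBy (f + g) (C + D) := by
  unfold BddBy at *
  filter_upwards [hf, hg, AEEqFun.coeFn_add f g] with t h1 h2 h3
  rw [h3]
  exact (norm_add_le _ _).trans (add_le_add h1 h2)

theorem BddBy.neg {f : L0} {C : ℝ} (hf : BddBy f C) : BddBy (-f) C := by
  unfold BddBy at *
  filter_upwards [hf, AEEqFun.coeFn_neg f] with t h1 h3
  rw [h3]
  simpa using h1

theorem BddBy.sub {f g : L0} {C D : ℝ} (hf : BddBy f C) (hg : BddBy g D) :
    BddBy (f - g) (C + D) := by
  rw [sub_eq_add_neg]; exact hf.add hg.neg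

theorem BddBy.mul {f g : L0} {C D : ℝ} (hf : BddBy f C) (hg : BddBy g D) (hC : 0 ≤ C) :
    BddBy (f * g) (C * D) := by
  unfold BddBy at *
  filter_upwards [hf, hg, AEEqFun.coeFn_mul f g] with t h1 h2 h3
  rw [h3]
  simp only [Pi.mul_apply, norm_mul]
  exact mul_le_mul h1 h2 (norm_nonneg _) hC

theorem BddBy.mono {f : L0} {C D : ℝ} (hf : BddBy f C) (h : C ≤ D) : BddBy f D := by
  unfold BddBy at *
  filter_upwards [hf] with t ht
  exact ht.trans h

theorem bddBy_toAEEqFun (g : C(𝕋, ℂ)) : BddBy (ContinuousMap.toAEEqFun μ g) ‖g‖ := by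
  refine bddBy_congr_coe (ContinuousMap.coeFn_toAEEqFun μ g) (Eventually.of_forall fun t => ?_)
  exact g.norm_coe_le_norm t

theorem bddBy_algebraMap (c : ℂ) : BddBy (algebraMap ℂ L0 c) ‖c‖ := by
  have h : algebraMap ℂ L0 c = ContinuousMap.toAEEqFun μ (ContinuousMap.const 𝕋 c) := by
    apply AEEqFun.ext
    have h1 := ContinuousMap.coeFn_toAEEqFun μ (ContinuousMap.const 𝕋 c)
    have h2 : (algebraMap ℂ L0 c : 𝕋 → ℂ) =ᵐ[μ] fun _ => c := by
      rw [Algebra.algebraMap_eq_smul_one]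
      filter_upwards [AEEqFun.coeFn_smul c (1 : L0), AEEqFun.coeFn_one (α := 𝕋) (μ := μ) (β := ℂ)]
        with t h3 h4
      rw [h3]
      simp [h4]
    filter_upwards [h1, h2] with t h3 h4
    rw [h3, h4]; rfl
  rw [h]
  refine (bddBy_toAEEqFun _).mono ?_
  exact (ContinuousMap.norm_le _ (norm_nonneg c)).2 fun t => le_rfl

/-- the elements of the generated algebra are essentially bounded -/
theorem bdd_of_mem_genAlg {f : L0} (hf : f ∈ genAlg) : ∃ C, 0 ≤ C ∧ BddBy f C := by
  refine Algebra.adjoin_induction (p := fun f _ => ∃ C, 0 ≤ C ∧ BddBy f C) ?_ ?_ ?_ ?_ hf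
  · rintro f (hf | ⟨g, rfl⟩)
    · obtain ⟨C, hC⟩ := hf.1
      exact ⟨max C 0, le_max_right _ _, hC.mono (le_max_left _ _)⟩
    · exact ⟨‖g‖, norm_nonneg _, bddBy_toAEEqFun g⟩
  · exact fun c => ⟨‖c‖, norm_nonneg _, bddBy_algebraMap c⟩
  · rintro f g - - ⟨C, hC, h1⟩ ⟨D, hD, h2⟩
    exact ⟨C + D, add_nonneg hC hD, h1.add h2⟩
  · rintro f g - - ⟨C, hC, h1⟩ ⟨D, hD, h2⟩
    exact ⟨C * D, mul_nonneg hC hD, h1.mul h2 hC⟩

theorem bdd_of_mem_ASet {f : L0} (hf : f ∈ ASet) : ∃ C, 0 ≤ C ∧ BddBy f C := by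
  obtain ⟨g, hg, h1⟩ := hf 1 one_pos
  obtain ⟨C, hC, h2⟩ := bdd_of_mem_genAlg hg
  refine ⟨1 + C, by positivity, ?_⟩
  have := h1.add h2
  rwa [sub_add_cancel] at this

/-- The algebra `A = H^∞ + C`. -/
noncomputable def A : Subalgebra ℂ L0 where
  carrier := ASet
  mul_mem' := by
    intro f g hf hg ε hε
    obtain ⟨C, hC, hfC⟩ := bdd_of_mem_ASet hf
    obtain ⟨D, hD, hgD⟩ := bdd_of_mem_ASet hg
    obtain ⟨η, hη, hη1⟩ : ∃ η : ℝ, 0 < η ∧ C * η + η * (D + 1) ≤ ε ∧ η ≤ 1 := by
      refine ⟨min 1 (ε / (C + (D + 1))), lt_min one_pos (by positivity), ?_, min_le_left _ _⟩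
      have h1 : min 1 (ε / (C + (D + 1))) * (C + (D + 1)) ≤ ε := by
        rw [← le_div_iff₀ (by positivity)]; exact min_le_right _ _
      linarith
    obtain ⟨f', hf', h1⟩ := hf η hη
    obtain ⟨g', hg', h2⟩ := hg η hη
    refine ⟨f' * g', mul_mem hf' hg', ?_⟩
    have hg'D : BddBy g' (D + 1) := by
      have := hgD.sub h2
      rw [sub_sub_cancel] at this
      exact this.mono (by linarith [hη1.2])
    have h3 : f * g - f' * g' = f * (g - g') + (f - f') * g' := by ring
    rw [h3]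
    exact ((hfC.mul h2 hC).add (h1.mul hg'D hη.le)).mono hη1.1
  add_mem' := by
    intro f g hf hg ε hε
    obtain ⟨f', hf', h1⟩ := hf (ε / 2) (by positivity)
    obtain ⟨g', hg', h2⟩ := hg (ε / 2) (by positivity)
    refine ⟨f' + g', add_mem hf' hg', ?_⟩
    have h3 : f + g - (f' + g') = (f - f') + (g - g') := by ring
    rw [h3]
    exact (h1.add h2).mono (by linarith)
  algebraMap_mem' := by
    intro c ε hε
    refine ⟨algebraMap ℂ L0 c, Subalgebra.algebraMap_mem _ c, ?_⟩
    rw [sub_self]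
    refine bddBy_congr_coe (AEEqFun.coeFn_zero) (Eventually.of_forall fun t => ?_)
    simpa using hε.le

/-- The character space `M(A)` of `A = H^∞ + C` (nonzero multiplicative functionals). -/
abbrev M : Type := A →ₐ[ℂ] ℂ

/-- the Gelfand topology: pointwise convergence on `A` -/
noncomputable instance gelfandTopology : TopologicalSpace M :=
  TopologicalSpace.induced (fun (φ : M) (f : A) => φ f) inferInstance

/-- the kernel `I_A(E)` -/
def kernelOf (E : Set M) : Set A := {f | ∀ φ ∈ E, φ f = 0}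

/-- the hull `Z_A(J)` -/
def hull (J : Set A) : Set M := {φ | ∀ f ∈ J, φ f = 0}

/-- `E` is hull-kernel closed -/
def HullKernelClosed (E : Set M) : Prop := E = hull (kernelOf E)

/-- `E` is a `t`-analytic set for `A`: an `f ∈ A` which vanishes on a nonempty relatively open
subset of `E` vanishes on `E`. -/
def TAnalytic (E : Set M) : Prop :=
  ∀ (f : A) (U : Set M), IsOpen U → (U ∩ E).Nonempty → (∀ φ ∈ U ∩ E, φ f = 0) → ∀ φ ∈ E, φ f = 0

/-- the pseudohyperbolic distance on `M(A)` -/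
noncomputable def rho (x m : M) : ℝ :=
  sSup {s | ∃ f : A, BddBy (f : L0) 1 ∧ m f = 0 ∧ s = ‖x f‖}

/-- the Gleason part of `m` -/
def part (m : M) : Set M := {x | rho x m < 1}

end Pool.Agent.Alling
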