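import Pool.Agent.Work.MP_ab1db7_an.Defs

/-! # MP_ab1db7_an: auxiliary definitions used in the proof -/

set_option autoImplicit false

open MeasureTheory Complex Set Filter Topology Metric

namespace Pool.Agent.Alling

/-- bounded analytic functions on the disc, `‖F‖ ≤ C` -/
structure HolBdd (F : ℂ → ℂ) (C : ℝ) : Prop where
  diff : DifferentiableOn ℂ F (ball 0 1)
  bdd : ∀ z ∈ ball (0 : ℂ) 1, ‖F z‖ ≤ C

/-- analytic extension to the disc of a boundary function -/
noncomputable def ext (f : L0) (z : ℂ) : ℂ := ∑' n : ℕ, fourierCoeff (f : 𝕋 → ℂ) n * z ^ n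

/-- the coordinate function `z = e^{2πit}` -/
noncomputable def zz : L0 := ContinuousMap.toAEEqFun μ (fourier 1)

/-- its inverse -/
noncomputable def zzb : L0 := ContinuousMap.toAEEqFun μ (fourier (-1))

/-- `t_k = (4^k-1)/(4^k+1)`, `k ∈ ℤ` -/
noncomputable def tt (k : ℤ) : ℝ := ((4 : ℝ) ^ k - 1) / ((4 : ℝ) ^ k + 1)

/-- the hyperbolic translation `τ_k(z) = (z + t_k)/(1 + t_k z)` of the disc -/
noncomputable def tau (k : ℤ) (z : ℂ) : ℂ := (z + tt k) / (1 + tt k * z)

/-- `δ_k(z) = 1 - |b_k(z)|²`, `b_k = τ_{-k}` the Blaschke factor with zero `t_k = τ_k 0` -/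
noncomputable def dl (k : ℤ) (z : ℂ) : ℝ := 1 - ‖tau (-k) z‖ ^ 2

/-- shift of an ultrafilter on `ℤ` -/
def shift (n : ℤ) (q : Ultrafilter ℤ) : Ultrafilter ℤ := q.map (· + n)

end Pool.Agent.Alling
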