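import Pool.Agent.Work.MP_ab1db7_an.Defs2

/-! # MP_ab1db7_an: power series of bounded analytic functions, ultrafilter limits -/

set_option autoImplicit false

open MeasureTheory Complex Filter Topology Asymptotics Metric Set

namespace Pool.Agent.Alling

theorem coef {F : ℂ → ℂ} {C : ℝ} (hF : HolBdd F C) :
    ∃ a : ℕ → ℂ, (∀ m, ‖a m‖ ≤ C) ∧ ∀ z ∈ ball (0 : ℂ) 1, HasSum (fun m => a m * z ^ m) (F z) := by
  refine ⟨fun m => (m.factorial : ℂ)⁻¹ * iteratedDeriv m F 0, fun m => ?_, fun z hz => ?_⟩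
  · have hC0 : 0 ≤ C := (norm_nonneg _).trans (hF.bdd 0 (mem_ball_self one_pos))
    have h1 : ∀ R : ℝ, R ∈ Ioo (0 : ℝ) 1 → ‖(m.factorial : ℂ)⁻¹ * iteratedDeriv m F 0‖ ≤ C / R ^ m := by
      intro R hR
      have hsub : closedBall (0 : ℂ) R ⊆ ball 0 1 := closedBall_subset_ball hR.2
      have h2 := Complex.norm_iteratedDeriv_le_of_forall_mem_sphere_norm_le (c := 0) (f := F)
        (C := C) m hR.1
        ((hF.diff.mono (by rw [closure_ball _ hR.1.ne']; exact hsub)).diffContOnCl)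
        (fun z hz => hF.bdd z (hsub (sphere_subset_closedBall hz)))
      rw [norm_mul, norm_inv, Complex.norm_natCast]
      have h3 : (0 : ℝ) < m.factorial := by exact_mod_cast Nat.factorial_pos m
      rw [inv_mul_le_iff₀ h3]
      calc _ ≤ _ := h2
        _ = _ := by ring
    have h4 : Tendsto (fun R : ℝ => C / R ^ m) (𝓝[<] 1) (𝓝 (C / 1 ^ m)) := by
      have : Tendsto (fun R : ℝ => C / R ^ m) (𝓝 1) (𝓝 (C / 1 ^ m)) :=
        tendsto_const_nhds.div ((continuous_pow m).tendsto 1) (by simp)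
      exact this.mono_left nhdsWithin_le_nhds
    rw [one_pow, div_one] at h4
    exact ge_of_tendsto h4 (by
      filter_upwards [Ioo_mem_nhdsLT (show (0 : ℝ) < 1 from one_pos)] with R hR using h1 R hR)
  · have h1 := Complex.hasSum_taylorSeries_on_ball (c := 0) (r := 1) (f := F)
      (by simpa using hF.diff) (z := z) (by simpa using hz)
    have h2 : (fun m : ℕ => (m.factorial : ℂ)⁻¹ * iteratedDeriv m F 0 * z ^ m) =
        fun n : ℕ => (n.factorial : ℂ)⁻¹ • (z - 0) ^ n • iteratedDeriv n F 0 := by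
      funext m
      simp only [sub_zero, smul_eq_mul]
      ring
    rw [h2]
    exact h1

theorem holo_of_coef {a : ℕ → ℂ} {C : ℝ} (ha : ∀ m, ‖a m‖ ≤ C) :
    DifferentiableOn ℂ (fun z => ∑' m, a m * z ^ m) (ball 0 1) ∧
      ∀ z ∈ ball (0 : ℂ) 1, HasSum (fun m => a m * z ^ m) (∑' m, a m * z ^ m) := by
  have hC0 : 0 ≤ C := (norm_nonneg _).trans (ha 0)
  have hb : ∀ (r : ℝ) (m : ℕ) (z : ℂ), ‖z‖ ≤ r → ‖a m * z ^ m‖ ≤ C * r ^ m := by
    intro r m z hz
    rw [norm_mul, norm_pow]
    exact mul_le_mul (ha m) (pow_le_pow_left₀ (norm_nonneg _) hz m) (by positivity) hC0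
  have hs : ∀ r : ℝ, 0 ≤ r → r < 1 → Summable fun m : ℕ => C * r ^ m := fun r h0 h1 =>
    (summable_geometric_of_lt_one h0 h1).mul_left C
  constructor
  · intro z hz
    have hz1 : ‖z‖ < 1 := by simpa using hz
    obtain ⟨r, hr1, hr2⟩ := exists_between hz1
    have hr0 : 0 ≤ r := (norm_nonneg _).trans hr1.le
    have h1 := differentiableOn_tsum_of_summable_norm (F := fun m z => a m * z ^ m)
      (U := ball (0 : ℂ) r) (hs r hr0 hr2) (fun m => by fun_prop) isOpen_ball
      (fun m w hw => hb r m w (by simpa using (mem_ball.1 hw).le))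
    exact ((h1 z (by simpa using hr1)).differentiableAt
      (isOpen_ball.mem_nhds (by simpa using hr1))).differentiableWithinAt
  · intro z hz
    have hz1 : ‖z‖ < 1 := by simpa using hz
    exact (Summable.of_norm_bounded (hs ‖z‖ (norm_nonneg _) hz1) fun m => hb _ m z le_rfl).hasSum

/-- limits along ultrafilters of uniformly bounded families of analytic functions -/
theorem ultra {ι : Type*} (U : Ultrafilter ι) {F : ι → ℂ → ℂ} {C : ℝ} (hF : ∀ i, HolBdd (F i) C) :
    ∃ G : ℂ → ℂ, HolBdd G C ∧ ∀ z ∈ ball (0 : ℂ) 1, Tendsto (fun i => F i z) U (𝓝 (G z)) := by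
  choose a ha hs using fun i => coef (hF i)
  have hlim : ∀ m, ∃ b ∈ closedBall (0 : ℂ) C, Tendsto (fun i => a i m) U (𝓝 b) := by
    intro m
    have h1 : (Filter.map (fun i => a i m) (U : Filter ι)) ≤ 𝓟 (closedBall (0 : ℂ) C) := by
      rw [le_principal_iff, mem_map]
      exact Filter.univ_mem' fun i => by simpa using ha i m
    obtain ⟨b, hb, h2⟩ := (isCompact_closedBall (0 : ℂ) C).ultrafilter_le_nhds
      (U.map fun i => a i m) h1
    exact ⟨b, hb, h2⟩
  choose b hb hbl using hlim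
  have hbC : ∀ m, ‖b m‖ ≤ C := fun m => by simpa using hb m
  obtain ⟨hd, hsum⟩ := holo_of_coef hbC
  have hC0 : 0 ≤ C := (norm_nonneg _).trans (hbC 0)
  have hT : ∀ z ∈ ball (0 : ℂ) 1, Tendsto (fun i => F i z) U (𝓝 (∑' m, b m * z ^ m)) := by
    intro z hz
    have hz1 : ‖z‖ < 1 := by simpa using hz
    have h1 : ∀ i, F i z = ∑' m, a i m * z ^ m := fun i => (hs i z hz).tsum_eq.symm
    simp only [h1]
    refine tendsto_tsum_of_dominated_convergence (bound := fun m => C * ‖z‖ ^ m)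
      ((summable_geometric_of_lt_one (norm_nonneg _) hz1).mul_left C) ?_ ?_
    · exact fun m => (hbl m).mul tendsto_const_nhds
    · refine Eventually.of_forall fun i m => ?_
      rw [norm_mul, norm_pow]
      exact mul_le_mul_of_nonneg_right (ha i m) (by positivity)
  refine ⟨_, ⟨hd, fun z hz => ?_⟩, hT⟩
  exact le_of_tendsto (hT z hz).norm (Eventually.of_forall fun i => (hF i).bdd z hz)

end Pool.Agent.Alling
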