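import Pool.Agent.Work.MP_ab1db7_an.AI3
import Pool.Agent.Work.MP_ab1db7_an.Power

/-! # MP_ab1db7_an: duality step of the corona theorem -/

set_option autoImplicit false

open MeasureTheory Complex Filter Topology Asymptotics Metric Set
open scoped ComplexConjugate

namespace Pool.Agent.Alling

theorem exists_functional {X E : Type*} [AddCommGroup X] [Module ℂ X] [NormedAddCommGroup E]
    [NormedSpace ℂ E] (Θ : X →ₗ[ℂ] E) (lam : X →ₗ[ℂ] ℂ) {C : ℝ} (hC : 0 ≤ C)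
    (h : ∀ x, ‖lam x‖ ≤ C * ‖Θ x‖) :
    ∃ Λ : E →L[ℂ] ℂ, (∀ x, Λ (Θ x) = lam x) ∧ ‖Λ‖ ≤ C := by
  have hker : LinearMap.ker Θ ≤ LinearMap.ker lam := by
    intro x hx
    rw [LinearMap.mem_ker] at hx ⊢
    have := h x
    rw [hx, norm_zero, mul_zero] at this
    exact norm_le_zero_iff.1 this
  obtain ⟨g0, hg0⟩ : ∃ g0 : LinearMap.range Θ →ₗ[ℂ] ℂ, ∀ x, g0 ⟨Θ x, LinearMap.mem_range_self Θ x⟩ =
      lam x := by
    refine ⟨((LinearMap.ker Θ).liftQ lam hker) ∘ₗ (Θ.quotKerEquivRange.symm : _ →ₗ[ℂ] _),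
      fun x => ?_⟩
    simp only [LinearMap.comp_apply, LinearEquiv.coe_coe]
    rw [LinearMap.quotKerEquivRange_symm_apply_image Θ x (LinearMap.mem_range_self Θ x)]
    simp
  have hb : ∀ y : LinearMap.range Θ, ‖g0 y‖ ≤ C * ‖y‖ := by
    rintro ⟨y, x, rfl⟩
    rw [hg0]
    exact h x
  obtain ⟨Λ, hΛ, hn⟩ := exists_extension_norm_eq (LinearMap.range Θ) (g0.mkContinuous C hb)
  refine ⟨Λ, fun x => ?_, ?_⟩
  · have := hΛ ⟨Θ x, LinearMap.mem_range_self Θ x⟩
    rw [LinearMap.mkContinuous_apply, hg0] at this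
    exact this
  · rw [hn]; exact LinearMap.mkContinuous_norm_le _ hC _

/-- analytic in the disc, continuous up to the boundary, zero at `0` -/
def LL : Submodule ℂ (ℂ → ℂ) where
  carrier := {F | DiffContOnCl ℂ F (ball 0 1) ∧ F 0 = 0}
  add_mem' := by
    rintro F G ⟨h1, h2⟩ ⟨h3, h4⟩
    exact ⟨h1.add h3, by simp [h2, h4]⟩
  zero_mem' := ⟨diffContOnCl_const, rfl⟩
  smul_mem' := by
    rintro c F ⟨h1, h2⟩
    exact ⟨h1.const_smul c, by simp [h2]⟩

/-- restriction to the circle -/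
noncomputable def bd (F : ℂ → ℂ) (h : ContinuousOn F (closedBall 0 1)) : C(𝕋, ℂ) :=
  ⟨fun t => F (fourier 1 t), cont_bdry h⟩

/-- restriction to the circle, linear map -/
noncomputable def rr : LL →ₗ[ℂ] C(𝕋, ℂ) where
  toFun F := bd F.1 (cont_of_dcc F.2.1)
  map_add' F G := by ext t; rfl
  map_smul' c F := by ext t; rfl

/-- integral -/
noncomputable def intL : C(𝕋, ℂ) →L[ℂ] ℂ :=
  LinearMap.mkContinuous
    { toFun := fun κ => ∫ t, κ t ∂μ
      map_add' := fun κ₁ κ₂ => by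
        simp only [ContinuousMap.add_apply]
        exact integral_add (int_cont κ₁.continuous) (int_cont κ₂.continuous)
      map_smul' := fun c κ => by
        simp only [ContinuousMap.smul_apply, RingHom.id_apply]
        exact integral_smul c _ } 1 (fun κ => by
        rw [one_mul]
        refine (norm_integral_le_of_norm_le_const (C := ‖κ‖)
          (Eventually.of_forall fun t => κ.norm_coe_le_norm t)).trans ?_
        simp)

theorem intL_apply (κ : C(𝕋, ℂ)) : intL κ = ∫ t, κ t ∂μ := rfl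

/-- inclusion in `L¹` -/
noncomputable abbrev toL1 : C(𝕋, ℂ) →L[ℂ] Lp ℂ 1 μ := ContinuousMap.toLp 1 μ ℂ

theorem norm_toL1 (κ : C(𝕋, ℂ)) : ‖toL1 κ‖ = ∫ t, ‖κ t‖ ∂μ := by
  rw [L1.norm_eq_integral_norm]
  refine integral_congr_ae ?_
  filter_upwards [ContinuousMap.coeFn_toLp (p := 1) (𝕜 := ℂ) μ κ] with t ht
  rw [ht]

/-- the Cauchy kernel -/
noncomputable def KK (z : ℂ) : C(𝕋, ℂ) := ∑' m : ℕ, z ^ m • (fourier (-(m : ℤ)) : C(𝕋, ℂ))

theorem KK_sum {z : ℂ} (hz : z ∈ ball (0 : ℂ) 1) :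
    HasSum (fun m : ℕ => z ^ m • (fourier (-(m : ℤ)) : C(𝕋, ℂ))) (KK z) := by
  have hz1 : ‖z‖ < 1 := by simpa using hz
  refine (Summable.of_norm_bounded (summable_geometric_of_lt_one (norm_nonneg _) hz1)
    fun m => ?_).hasSum
  rw [norm_smul, fourier_norm, mul_one, norm_pow]

theorem fourier_neg_pow (m : ℕ) (t : 𝕋) : (fourier (-(m : ℤ)) t : ℂ) = conj (fourier 1 t) ^ m := by
  rw [fourier_neg, ← fourier_one_pow, map_pow]

theorem KK_apply {z : ℂ} (hz : z ∈ ball (0 : ℂ) 1) (t : 𝕋) :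
    KK z t = (1 - z * conj (fourier 1 t))⁻¹ := by
  have hz1 : ‖z‖ < 1 := by simpa using hz
  have h1 := (ContinuousMap.evalCLM ℂ t).hasSum (KK_sum hz)
  have h2 : HasSum (fun m : ℕ => (z * conj (fourier 1 t)) ^ m) (1 - z * conj (fourier 1 t))⁻¹ := by
    refine hasSum_geometric_of_norm_lt_one ?_
    rw [norm_mul, RCLike.norm_conj, norm_fourier, mul_one]; exact hz1
  refine h1.unique ?_
  have h3 : (fun m : ℕ => (z * conj (fourier 1 t)) ^ m) = (fun b : ℕ =>
      (ContinuousMap.evalCLM ℂ t) (z ^ b • (fourier (-(b : ℤ)) : C(𝕋, ℂ)))) := by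
    funext m
    rw [ContinuousMap.evalCLM_apply, ContinuousMap.smul_apply, fourier_neg_pow, smul_eq_mul,
      mul_pow]
  rw [← h3]
  exact h2

theorem int_KK {z : ℂ} (hz : z ∈ ball (0 : ℂ) 1) : ∫ t, KK z t ∂μ = 1 := by
  rw [← intL_apply]
  have h1 := intL.hasSum (KK_sum hz)
  refine h1.unique ?_
  have h2 : ∀ m : ℕ, intL (z ^ m • (fourier (-(m : ℤ)) : C(𝕋, ℂ))) = if m = 0 then 1 else 0 := by
    intro m
    rw [map_smul, intL_apply, int_fourier]
    by_cases hm : m = 0 <;> simp [hm]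
  simp only [h2]
  exact hasSum_ite_eq 0 1

/-- the analytic part of the Poisson kernel -/
noncomputable def Lz (z ζ : ℂ) : ℂ := conj z * ζ / (1 - conj z * ζ)

theorem den_ne {z ζ : ℂ} (hz : z ∈ ball (0 : ℂ) 1) (hζ : ζ ∈ closedBall (0 : ℂ) 1) :
    1 - conj z * ζ ≠ 0 := by
  intro h
  have h1 : conj z * ζ = 1 := by linear_combination -h
  have h2 : ‖conj z * ζ‖ < 1 := by
    rw [norm_mul, RCLike.norm_conj]
    have h3 : ‖z‖ < 1 := by simpa using hz
    have h4 : ‖ζ‖ ≤ 1 := by simpa using hζ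
    calc ‖z‖ * ‖ζ‖ ≤ ‖z‖ * 1 := mul_le_mul_of_nonneg_left h4 (norm_nonneg _)
      _ < 1 := by rwa [mul_one]
  rw [h1, norm_one] at h2
  exact lt_irrefl _ h2

theorem Lz_mem {z : ℂ} (hz : z ∈ ball (0 : ℂ) 1) : Lz z ∈ LL := by
  refine ⟨DifferentiableOn.diffContOnCl ?_, by simp [Lz]⟩
  rw [closure_ball (0 : ℂ) one_ne_zero]
  exact DifferentiableOn.div (by fun_prop) (by fun_prop) fun ζ hζ => den_ne hz hζ

theorem conj_mul_self (t : 𝕋) : conj (fourier 1 t : ℂ) * fourier 1 t = 1 := by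
  rw [mul_comm, Complex.mul_conj, Complex.normSq_eq_norm_sq, norm_fourier]
  simp

theorem Lz_circ {z : ℂ} (hz : z ∈ ball (0 : ℂ) 1) (t : 𝕋) :
    Lz z (fourier 1 t) = conj (KK z t) - 1 := by
  have h1 : 1 - conj z * fourier 1 t ≠ 0 := den_ne hz (sphere_subset_closedBall (circ_mem t))
  rw [KK_apply hz, map_inv₀, map_sub, map_mul, Complex.conj_conj, map_one, Lz]
  field_simp
  ring

/-- the Poisson kernel -/
noncomputable def PP (z : ℂ) (hz : z ∈ ball (0 : ℂ) 1) : C(𝕋, ℂ) := KK z + rr ⟨Lz z, Lz_mem hz⟩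

theorem PP_apply {z : ℂ} (hz : z ∈ ball (0 : ℂ) 1) (t : 𝕋) :
    PP z hz t = KK z t + Lz z (fourier 1 t) := rfl

theorem PP_eq {z : ℂ} (hz : z ∈ ball (0 : ℂ) 1) (t : 𝕋) : ∃ r : ℝ, 0 ≤ r ∧ PP z hz t = r := by
  refine ⟨(1 - ‖z‖ ^ 2) / ‖1 - z * conj (fourier 1 t)‖ ^ 2, ?_, ?_⟩
  · have h3 : ‖z‖ < 1 := by simpa using hz
    have : ‖z‖ ^ 2 ≤ 1 := pow_le_one₀ (norm_nonneg _) h3.le
    have : 0 ≤ 1 - ‖z‖ ^ 2 := by linarith
    positivity
  · rw [PP_apply, Lz_circ hz, KK_apply hz]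
    obtain ⟨w, hw⟩ : ∃ w : ℂ, w = z * conj (fourier 1 t) := ⟨_, rfl⟩
    have hwn : ‖w‖ = ‖z‖ := by rw [hw, norm_mul, RCLike.norm_conj, norm_fourier, mul_one]
    have h1 : 1 - w ≠ 0 := by
      have h2 := den_ne hz (sphere_subset_closedBall (circ_mem t))
      intro h3
      apply h2
      have h4 := congrArg conj h3
      rw [hw, map_sub, map_mul, Complex.conj_conj, map_one, map_zero] at h4
      exact h4
    have h1' : 1 - conj w ≠ 0 := by
      intro h3
      apply h1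
      have h4 := congrArg conj h3
      rw [map_sub, Complex.conj_conj, map_one, map_zero] at h4
      exact h4
    rw [← hw, ← hwn]
    have h5 : ((‖1 - w‖ ^ 2 : ℝ) : ℂ) = (1 - w) * (1 - conj w) := by
      have : (1 - conj w) = conj (1 - w) := by rw [map_sub, map_one]
      rw [this, Complex.mul_conj, Complex.normSq_eq_norm_sq]
    have h6 : ((‖w‖ ^ 2 : ℝ) : ℂ) = w * conj w := by
      rw [Complex.mul_conj, Complex.normSq_eq_norm_sq]
    rw [Complex.ofReal_div, Complex.ofReal_sub, Complex.ofReal_one, h5, h6, map_inv₀, map_sub,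
      map_one]
    field_simp
    ring

theorem int_PP {z : ℂ} (hz : z ∈ ball (0 : ℂ) 1) : ∫ t, PP z hz t ∂μ = 1 := by
  have h1 : ∀ t, PP z hz t = KK z t + (conj (KK z t) - 1) := fun t => by
    rw [PP_apply, Lz_circ hz]
  simp only [h1]
  have c1 : Continuous fun t => conj (KK z t) := Complex.continuous_conj.comp (KK z).continuous
  have c2 : Continuous fun t => conj (KK z t) - 1 := c1.sub continuous_const
  rw [integral_add (int_cont (KK z).continuous) (int_cont c2),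
    integral_sub (int_cont c1) (int_cont continuous_const), integral_conj, int_KK hz]
  simp

theorem norm_PP {z : ℂ} (hz : z ∈ ball (0 : ℂ) 1) : ‖toL1 (PP z hz)‖ = 1 := by
  rw [norm_toL1]
  have h1 : ∀ t, ‖PP z hz t‖ = (PP z hz t).re := by
    intro t
    obtain ⟨r, hr, h⟩ := PP_eq hz t
    rw [h, Complex.norm_real, Real.norm_of_nonneg hr, Complex.ofReal_re]
  simp only [h1]
  have h2 : ∫ t, (PP z hz t).re ∂μ = (∫ t, PP z hz t ∂μ).re :=
    integral_re (𝕜 := ℂ) (int_cont (PP z hz).continuous)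
  rw [h2, int_PP hz, Complex.one_re]

end Pool.Agent.Alling
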