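import Mathlib

/-!
# Second order jets of functions of one complex variable

`J F z a b c e`: near `z`, `F (z+t) = a + b t + c t̄ + d t² + e t t̄ + g t̄² + o(|t|²)`, so that
`b = ∂F`, `c = ∂̄F`, `e = ∂∂̄F`.
-/

set_option autoImplicit false

open Complex Filter Topology Asymptotics Metric Set
open scoped ComplexConjugate

namespace Pool.Agent.Alling

/-- second order jet -/
def J (F : ℂ → ℂ) (z a b c e : ℂ) : Prop :=
  ∃ d g : ℂ, (fun t : ℂ => F (z + t) - (a + (b * t + c * conj t) +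
    (d * t ^ 2 + e * (t * conj t) + g * (conj t) ^ 2))) =o[𝓝 0] fun t : ℂ => ‖t‖ ^ 2

theorem lin_O (b c : ℂ) : (fun t : ℂ => b * t + c * conj t) =O[𝓝 0] fun t : ℂ => ‖t‖ := by
  refine IsBigO.of_bound (‖b‖ + ‖c‖) (Eventually.of_forall fun t => ?_)
  rw [norm_norm]
  calc ‖b * t + c * conj t‖ ≤ ‖b * t‖ + ‖c * conj t‖ := norm_add_le _ _
    _ = (‖b‖ + ‖c‖) * ‖t‖ := by rw [norm_mul, norm_mul, RCLike.norm_conj]; ring

theorem quad_O (d e g : ℂ) : (fun t : ℂ => d * t ^ 2 + e * (t * conj t) + g * (conj t) ^ 2)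
    =O[𝓝 0] fun t : ℂ => ‖t‖ ^ 2 := by
  refine IsBigO.of_bound (‖d‖ + ‖e‖ + ‖g‖) (Eventually.of_forall fun t => ?_)
  rw [norm_pow, norm_norm]
  calc ‖d * t ^ 2 + e * (t * conj t) + g * (conj t) ^ 2‖
      ≤ ‖d * t ^ 2‖ + ‖e * (t * conj t)‖ + ‖g * (conj t) ^ 2‖ := norm_add₃_le
    _ = (‖d‖ + ‖e‖ + ‖g‖) * ‖t‖ ^ 2 := by
      simp only [norm_mul, norm_pow, RCLike.norm_conj]; ring

theorem norm_to0 : Tendsto (fun t : ℂ => ‖t‖) (𝓝 0) (𝓝 0) := by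
  have := (continuous_norm (E := ℂ)).tendsto 0
  simpa using this

theorem norm_o1 : (fun t : ℂ => ‖t‖) =o[𝓝 0] fun _ : ℂ => (1 : ℝ) :=
  (isLittleO_one_iff ℝ).2 norm_to0

theorem cube_o {R : ℂ → ℂ} (h : R =O[𝓝 0] fun t : ℂ => ‖t‖ ^ 3) :
    R =o[𝓝 0] fun t : ℂ => ‖t‖ ^ 2 := by
  refine h.trans_isLittleO ?_
  have h1 : (fun t : ℂ => ‖t‖ ^ 2 * ‖t‖) =o[𝓝 0] fun t : ℂ => ‖t‖ ^ 2 * 1 :=
    (isBigO_refl _ _).mul_isLittleO norm_o1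
  simpa [pow_succ] using h1

theorem J.congr {F G : ℂ → ℂ} {z a b c e : ℂ} (h : J F z a b c e) (hG : F =ᶠ[𝓝 z] G) :
    J G z a b c e := by
  obtain ⟨d, g, h⟩ := h
  refine ⟨d, g, h.congr' ?_ EventuallyEq.rfl⟩
  have h1 : Tendsto (fun t : ℂ => z + t) (𝓝 0) (𝓝 z) := by
    have : Tendsto (fun t : ℂ => z + t) (𝓝 0) (𝓝 (z + 0)) := tendsto_const_nhds.add tendsto_id
    simpa using this
  filter_upwards [h1.eventually hG] with t ht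
  rw [ht]

theorem J.congr' {F : ℂ → ℂ} {z a b c e a' b' c' e' : ℂ} (h : J F z a b c e) (ha : a = a')
    (hb : b = b') (hc : c = c') (he : e = e') : J F z a' b' c' e' := by
  subst ha hb hc he; exact h

theorem J_const (z k : ℂ) : J (fun _ => k) z k 0 0 0 := ⟨0, 0, by simp⟩

theorem J.add {F G : ℂ → ℂ} {z a b c e a' b' c' e' : ℂ} (hF : J F z a b c e)
    (hG : J G z a' b' c' e') :
    J (fun w => F w + G w) z (a + a') (b + b') (c + c') (e + e') := by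
  obtain ⟨d, g, h1⟩ := hF
  obtain ⟨d', g', h2⟩ := hG
  refine ⟨d + d', g + g', (h1.add h2).congr_left fun t => ?_⟩
  ring

theorem J.conj {F : ℂ → ℂ} {z a b c e : ℂ} (hF : J F z a b c e) :
    J (fun w => conj (F w)) z (conj a) (conj c) (conj b) (conj e) := by
  obtain ⟨d, g, h1⟩ := hF
  refine ⟨conj g, conj d, ?_⟩
  rw [← isLittleO_norm_left] at h1 ⊢
  refine h1.congr_left fun t => ?_
  rw [← RCLike.norm_conj]
  congr 1
  simp only [map_sub, map_add, map_mul, map_pow, Complex.conj_conj]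
  ring

theorem J.mul {F G : ℂ → ℂ} {z a b c e a' b' c' e' : ℂ} (hF : J F z a b c e)
    (hG : J G z a' b' c' e') :
    J (fun w => F w * G w) z (a * a') (a * b' + b * a') (a * c' + c * a')
      (a * e' + e * a' + b * c' + c * b') := by
  obtain ⟨d, g, h1⟩ := hF
  obtain ⟨d', g', h2⟩ := hG
  refine ⟨a * d' + d * a' + b * b', a * g' + g * a' + c * c', ?_⟩
  obtain ⟨R, hR⟩ : ∃ R : ℂ → ℂ, R = fun t : ℂ => F (z + t) - (a + (b * t + c * conj t) +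
    (d * t ^ 2 + e * (t * conj t) + g * (conj t) ^ 2)) := ⟨_, rfl⟩
  obtain ⟨R', hR'⟩ : ∃ R' : ℂ → ℂ, R' = fun t : ℂ => G (z + t) - (a' + (b' * t + c' * conj t) +
    (d' * t ^ 2 + e' * (t * conj t) + g' * (conj t) ^ 2)) := ⟨_, rfl⟩
  rw [← hR] at h1
  rw [← hR'] at h2
  obtain ⟨L, hL⟩ : ∃ L : ℂ → ℂ, L = fun t : ℂ => b * t + c * conj t := ⟨_, rfl⟩
  obtain ⟨L', hL'⟩ : ∃ L' : ℂ → ℂ, L' = fun t : ℂ => b' * t + c' * conj t := ⟨_, rfl⟩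
  obtain ⟨Q, hQ⟩ : ∃ Q : ℂ → ℂ, Q = fun t : ℂ =>
    d * t ^ 2 + e * (t * conj t) + g * (conj t) ^ 2 := ⟨_, rfl⟩
  obtain ⟨Q', hQ'⟩ : ∃ Q' : ℂ → ℂ, Q' = fun t : ℂ =>
    d' * t ^ 2 + e' * (t * conj t) + g' * (conj t) ^ 2 := ⟨_, rfl⟩
  have hLO : L =O[𝓝 0] fun t : ℂ => ‖t‖ := by rw [hL]; exact lin_O b c
  have hLO' : L' =O[𝓝 0] fun t : ℂ => ‖t‖ := by rw [hL']; exact lin_O b' c'
  have hQO : Q =O[𝓝 0] fun t : ℂ => ‖t‖ ^ 2 := by rw [hQ]; exact quad_O d e g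
  have hQO' : Q' =O[𝓝 0] fun t : ℂ => ‖t‖ ^ 2 := by rw [hQ']; exact quad_O d' e' g'
  have hL1 : L =o[𝓝 0] fun _ : ℂ => (1 : ℝ) := hLO.trans_isLittleO norm_o1
  have hL1' : L' =o[𝓝 0] fun _ : ℂ => (1 : ℝ) := hLO'.trans_isLittleO norm_o1
  have hsq : (fun t : ℂ => ‖t‖ ^ 2) =o[𝓝 0] fun _ : ℂ => (1 : ℝ) := by
    refine (isLittleO_one_iff ℝ).2 ?_
    simpa using norm_to0.pow 2
  have hQ1 : Q =o[𝓝 0] fun _ : ℂ => (1 : ℝ) := hQO.trans_isLittleO hsq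
  have hR1 : R =o[𝓝 0] fun _ : ℂ => (1 : ℝ) := h1.trans hsq
  have hP : (fun t => a + L t + Q t) =O[𝓝 0] fun _ : ℂ => (1 : ℝ) :=
    ((isBigO_const_const a one_ne_zero _).add hL1.isBigO).add hQ1.isBigO
  have hQ1' : Q' =o[𝓝 0] fun _ : ℂ => (1 : ℝ) := hQO'.trans_isLittleO hsq
  have hP' : (fun t => a' + L' t + Q' t) =O[𝓝 0] fun _ : ℂ => (1 : ℝ) :=
    ((isBigO_const_const a' one_ne_zero _).add hL1'.isBigO).add hQ1'.isBigO
  have t1 : (fun t => L t * Q' t) =o[𝓝 0] fun t : ℂ => ‖t‖ ^ 2 := by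
    simpa using hL1.mul_isBigO hQO'
  have t2 : (fun t => Q t * L' t) =o[𝓝 0] fun t : ℂ => ‖t‖ ^ 2 := by
    simpa using hQO.mul_isLittleO hL1'
  have t3 : (fun t => Q t * Q' t) =o[𝓝 0] fun t : ℂ => ‖t‖ ^ 2 := by
    simpa using hQ1.mul_isBigO hQO'
  have t4 : (fun t => (a + L t + Q t) * R' t) =o[𝓝 0] fun t : ℂ => ‖t‖ ^ 2 := by
    simpa using hP.mul_isLittleO h2
  have t5 : (fun t => R t * (a' + L' t + Q' t)) =o[𝓝 0] fun t : ℂ => ‖t‖ ^ 2 := by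
    simpa using h1.mul_isBigO hP'
  have t6 : (fun t => R t * R' t) =o[𝓝 0] fun t : ℂ => ‖t‖ ^ 2 := by
    simpa using hR1.mul h2
  refine (((((t1.add t2).add t3).add t4).add t5).add t6).congr_left fun t => ?_
  rw [hR, hR', hL, hL', hQ, hQ']
  ring

end Pool.Agent.Alling
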