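import Pool.Agent.Work.MP_ab1db7_an.Jet

/-! # MP_ab1db7_an: more about second order jets -/

set_option autoImplicit false

open Complex Filter Topology Asymptotics Metric Set
open scoped ComplexConjugate

namespace Pool.Agent.Alling

theorem J.value {F : ℂ → ℂ} {z a b c e : ℂ} (h : J F z a b c e) : F z = a := by
  obtain ⟨d, g, h⟩ := h
  have h2 : (F (z + 0) - (a + (b * 0 + c * conj 0) +
    (d * 0 ^ 2 + e * (0 * conj 0) + g * (conj 0) ^ 2))) = 0 := by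
    have h3 := (isLittleO_iff.1 h one_pos).self_of_nhds
    simpa using h3
  simp only [add_zero, mul_zero, map_zero, ne_eq, OfNat.ofNat_ne_zero, not_false_eq_true,
    zero_pow] at h2
  exact sub_eq_zero.1 h2

theorem J_analytic {F : ℂ → ℂ} {z : ℂ} (hF : AnalyticAt ℂ F z) :
    J F z (F z) (deriv F z) 0 0 := by
  obtain ⟨p, hp⟩ := hF
  have h := hp.isBigO_sub_partialSum_pow 3
  refine ⟨p.coeff 2, 0, ?_⟩
  have h0 : p.coeff 0 = F z := by
    have := hp.coeff_zero (1 : Fin 0 → ℂ)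
    rw [← this]
    rfl
  have h1 : p.coeff 1 = deriv F z := hp.deriv.symm
  have h2 := cube_o (by simpa using h)
  refine h2.congr_left fun t => ?_
  rw [FormalMultilinearSeries.partialSum]
  simp only [FormalMultilinearSeries.apply_eq_pow_smul_coeff, Finset.sum_range_succ,
    Finset.sum_range_zero, smul_eq_mul, h0, h1]
  ring

theorem J.of_sub {F G : ℂ → ℂ} {z a b c e : ℂ} (h : J F z a b c e)
    (hG : (fun t : ℂ => G (z + t) - F (z + t)) =o[𝓝 0] fun t : ℂ => ‖t‖ ^ 2) :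
    J G z a b c e := by
  obtain ⟨d, g, h⟩ := h
  refine ⟨d, g, (h.add hG).congr_left fun t => ?_⟩
  ring

theorem J.tendsto {F : ℂ → ℂ} {z a b c e : ℂ} (h : J F z a b c e) :
    (fun t : ℂ => F (z + t) - a) =O[𝓝 0] fun t : ℂ => ‖t‖ := by
  obtain ⟨d, g, h⟩ := h
  have hsq : (fun t : ℂ => ‖t‖ ^ 2) =O[𝓝 0] fun t : ℂ => ‖t‖ := by
    have : (fun t : ℂ => ‖t‖ * ‖t‖) =O[𝓝 0] fun t : ℂ => ‖t‖ * 1 :=
      (isBigO_refl _ _).mul norm_o1.isBigO
    simpa [sq] using this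
  have h1 := (h.isBigO.trans hsq).add ((lin_O b c).add ((quad_O d e g).trans hsq))
  refine h1.congr_left fun t => ?_
  ring

theorem J.comp_real {φ : ℂ → ℝ} {G : ℝ → ℝ} {z : ℂ} {a p q : ℝ} {b c e : ℂ}
    (hφ : J (fun w => (φ w : ℂ)) z a b c e)
    (hG : (fun s : ℝ => G (a + s) - (G a + p * s + q * s ^ 2)) =o[𝓝 0] fun s : ℝ => s ^ 2) :
    J (fun w => ((G (φ w) : ℝ) : ℂ)) z (G a : ℝ) (p * b) (p * c) (p * e + 2 * q * (b * c)) := by
  have h1 : J (fun w => (φ w : ℂ) + (-a : ℂ)) z 0 b c e :=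
    (hφ.add (J_const z (-a : ℂ))).congr' (by ring) (by ring) (by ring) (by ring)
  have h2 : J (fun w => ((G a : ℝ) : ℂ) + ((p : ℂ) * ((φ w : ℂ) + (-a : ℂ)) +
      (q : ℂ) * (((φ w : ℂ) + (-a : ℂ)) * ((φ w : ℂ) + (-a : ℂ))))) z (G a : ℝ) (p * b) (p * c)
      (p * e + 2 * q * (b * c)) :=
    ((J_const z ((G a : ℝ) : ℂ)).add (((J_const z (p : ℂ)).mul h1).add
      ((J_const z (q : ℂ)).mul (h1.mul h1)))).congr' (by ring) (by ring) (by ring) (by ring)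
  refine h2.of_sub ?_
  have h3 : (fun t : ℂ => φ (z + t) - a) =O[𝓝 0] fun t : ℂ => ‖t‖ := by
    rw [← isBigO_norm_left]
    have := hφ.tendsto
    rw [← isBigO_norm_left] at this
    refine this.congr_left fun t => ?_
    rw [← Complex.ofReal_sub, Complex.norm_real]
  have h4 : Tendsto (fun t : ℂ => φ (z + t) - a) (𝓝 0) (𝓝 0) := h3.trans_tendsto norm_to0
  have h6 : ((fun s : ℝ => s ^ 2) ∘ fun t : ℂ => φ (z + t) - a) =O[𝓝 0]
      fun t : ℂ => ‖t‖ ^ 2 := h3.pow 2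
  have h5 := (hG.comp_tendsto h4).trans_isBigO h6
  rw [← isLittleO_norm_left] at h5 ⊢
  refine h5.congr_left fun t => ?_
  simp only [Function.comp]
  rw [← Complex.norm_real]
  congr 1
  push_cast
  rw [show a + (φ (z + t) - a) = φ (z + t) by ring]
  ring

theorem o_of_bound {R : ℝ → ℝ} {K : ℝ} (h : ∀ᶠ s in 𝓝 (0 : ℝ), |R s| ≤ K * |s| ^ 3) :
    R =o[𝓝 0] fun s : ℝ => s ^ 2 := by
  have h1 : R =O[𝓝 0] fun s : ℝ => s ^ 3 := by
    refine IsBigO.of_bound K ?_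
    filter_upwards [h] with s hs
    simpa [abs_pow] using hs
  refine h1.trans_isLittleO ?_
  have h2 : (fun s : ℝ => s ^ 2 * s) =o[𝓝 0] fun s : ℝ => s ^ 2 * 1 :=
    (isBigO_refl _ _).mul_isLittleO ((isLittleO_one_iff ℝ).2 tendsto_id)
  simpa [pow_succ] using h2

theorem exp_exp2 (a : ℝ) : (fun s : ℝ => Real.exp (a + s) -
    (Real.exp a + Real.exp a * s + Real.exp a / 2 * s ^ 2)) =o[𝓝 0] fun s : ℝ => s ^ 2 := by
  refine o_of_bound (K := Real.exp a * (4 / (6 * 3))) ?_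
  have h1 : ∀ᶠ s in 𝓝 (0 : ℝ), |s| ≤ 1 := by
    have : Metric.closedBall (0 : ℝ) 1 ∈ 𝓝 (0 : ℝ) := Metric.closedBall_mem_nhds _ one_pos
    filter_upwards [this] with s hs
    simpa using hs
  filter_upwards [h1] with s hs
  have h2 := Real.exp_bound hs (n := 3) (by norm_num)
  have h3 : Real.exp (a + s) - (Real.exp a + Real.exp a * s + Real.exp a / 2 * s ^ 2) =
      Real.exp a * (Real.exp s - ∑ m ∈ Finset.range 3, s ^ m / m.factorial) := by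
    rw [Real.exp_add]
    simp only [Finset.sum_range_succ, Finset.sum_range_zero, Nat.factorial]
    push_cast
    ring
  rw [h3, abs_mul, abs_of_pos (Real.exp_pos a)]
  calc Real.exp a * |Real.exp s - ∑ m ∈ Finset.range 3, s ^ m / m.factorial|
      ≤ Real.exp a * (|s| ^ 3 * ((3 : ℕ).succ / ((3 : ℕ).factorial * (3 : ℕ)))) := by gcongr
    _ = _ := by simp only [Nat.factorial]; push_cast; ring

theorem inv_exp2 {a : ℝ} (ha : 0 < a) : (fun s : ℝ => (a + s)⁻¹ -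
    (a⁻¹ + (-(a ^ 2)⁻¹) * s + (a ^ 3)⁻¹ * s ^ 2)) =o[𝓝 0] fun s : ℝ => s ^ 2 := by
  refine o_of_bound (K := 2 / a ^ 4) ?_
  have h1 : ∀ᶠ s in 𝓝 (0 : ℝ), |s| ≤ a / 2 := by
    have : Metric.closedBall (0 : ℝ) (a / 2) ∈ 𝓝 (0 : ℝ) :=
      Metric.closedBall_mem_nhds _ (by positivity)
    filter_upwards [this] with s hs
    simpa using hs
  filter_upwards [h1] with s hs
  have h0 : a / 2 ≤ a + s := by have := (abs_le.1 hs).1; linarith
  have hpos : 0 < a + s := by linarith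
  have h3 : (a + s)⁻¹ - (a⁻¹ + (-(a ^ 2)⁻¹) * s + (a ^ 3)⁻¹ * s ^ 2) =
      -(s ^ 3 / (a ^ 3 * (a + s))) := by
    field_simp
    ring
  rw [h3, abs_neg, abs_div, abs_pow, abs_of_pos (by positivity : 0 < a ^ 3 * (a + s)),
    div_le_iff₀ (by positivity)]
  have h4 : 2 / a ^ 4 * |s| ^ 3 * (a ^ 3 * (a + s)) = |s| ^ 3 * (2 * (a + s) / a) := by
    field_simp
  rw [h4]
  have h5 : 1 ≤ 2 * (a + s) / a := by rw [le_div_iff₀ ha]; linarith
  have h6 : 0 ≤ |s| ^ 3 := by positivity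
  nlinarith

theorem sqrt_exp2 {a : ℝ} (ha : 0 < a) : (fun s : ℝ => Real.sqrt (a + s) -
    (Real.sqrt a + (2 * Real.sqrt a)⁻¹ * s + (-(8 * Real.sqrt a ^ 3)⁻¹) * s ^ 2)) =o[𝓝 0]
      fun s : ℝ => s ^ 2 := by
  obtain ⟨x, hx⟩ : ∃ x, x = Real.sqrt a := ⟨_, rfl⟩
  have hx0 : 0 < x := by rw [hx]; exact Real.sqrt_pos.2 ha
  have hxa : x ^ 2 = a := by rw [hx]; exact Real.sq_sqrt ha.le
  refine o_of_bound (K := 1 / (2 * x ^ 5) + 1 / (8 * x ^ 7)) ?_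
  have h1 : ∀ᶠ s in 𝓝 (0 : ℝ), |s| ≤ min 1 (a / 2) := by
    have : Metric.closedBall (0 : ℝ) (min 1 (a / 2)) ∈ 𝓝 (0 : ℝ) :=
      Metric.closedBall_mem_nhds _ (by positivity)
    filter_upwards [this] with s hs
    simpa using hs
  filter_upwards [h1] with s hs
  have hs1 : |s| ≤ 1 := hs.trans (min_le_left _ _)
  have hs2 : |s| ≤ a / 2 := hs.trans (min_le_right _ _)
  have hpos : 0 < a + s := by have := (abs_le.1 hs2).1; linarith
  obtain ⟨y, hy⟩ : ∃ y, y = Real.sqrt (a + s) := ⟨_, rfl⟩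
  have hy0 : 0 < y := by rw [hy]; exact Real.sqrt_pos.2 hpos
  have hya : y ^ 2 = a + s := by rw [hy]; exact Real.sq_sqrt hpos.le
  obtain ⟨h, hh⟩ : ∃ h, h = y - x := ⟨_, rfl⟩
  have hys : y = x + h := by rw [hh]; ring
  have hs' : s = h * (2 * x + h) := by
    have : s = y ^ 2 - x ^ 2 := by rw [hya, hxa]; ring
    rw [this, hys]; ring
  have hhs : |h| ≤ |s| / x := by
    rw [le_div_iff₀ hx0, hs', abs_mul]
    have : x ≤ |2 * x + h| := by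
      have h1 : 2 * x + h = x + y := by rw [hys]; ring
      rw [h1, abs_of_pos (by positivity)]; linarith
    exact mul_le_mul_of_nonneg_left this (abs_nonneg _)
  rw [← hx, ← hy]
  have h3 : y - (x + (2 * x)⁻¹ * s + (-(8 * x ^ 3)⁻¹) * s ^ 2) =
      h ^ 3 / (2 * x ^ 2) + h ^ 4 / (8 * x ^ 3) := by
    rw [hys, hs']
    field_simp
    ring
  rw [h3]
  have h4 : |h| ^ 3 ≤ |s| ^ 3 / x ^ 3 := by
    rw [← div_pow]; exact pow_le_pow_left₀ (abs_nonneg _) hhs 3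
  have h5 : |h| ^ 4 ≤ |s| ^ 3 / x ^ 4 := by
    calc |h| ^ 4 ≤ (|s| / x) ^ 4 := pow_le_pow_left₀ (abs_nonneg _) hhs 4
      _ = |s| ^ 4 / x ^ 4 := div_pow _ _ _
      _ ≤ |s| ^ 3 / x ^ 4 := by
        have h6 : |s| ^ 4 ≤ |s| ^ 3 := pow_le_pow_of_le_one (abs_nonneg _) hs1 (by norm_num)
        exact div_le_div_of_nonneg_right h6 (by positivity)
  calc |h ^ 3 / (2 * x ^ 2) + h ^ 4 / (8 * x ^ 3)|
      ≤ |h ^ 3 / (2 * x ^ 2)| + |h ^ 4 / (8 * x ^ 3)| := abs_add_le _ _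
    _ = |h| ^ 3 / (2 * x ^ 2) + |h| ^ 4 / (8 * x ^ 3) := by
      rw [abs_div, abs_div, abs_pow, abs_pow, abs_of_pos (by positivity : 0 < 2 * x ^ 2),
        abs_of_pos (by positivity : 0 < 8 * x ^ 3)]
    _ ≤ (|s| ^ 3 / x ^ 3) / (2 * x ^ 2) + (|s| ^ 3 / x ^ 4) / (8 * x ^ 3) := by gcongr
    _ = _ := by field_simp

theorem J.rexp {φ : ℂ → ℝ} {z : ℂ} {a : ℝ} {b c e : ℂ}
    (hφ : J (fun w => (φ w : ℂ)) z a b c e) :
    J (fun w => ((Real.exp (φ w) : ℝ) : ℂ)) z (Real.exp a : ℝ) ((Real.exp a : ℝ) * b)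
      ((Real.exp a : ℝ) * c) ((Real.exp a : ℝ) * (e + b * c)) := by
  refine (hφ.comp_real (exp_exp2 a)).congr' rfl rfl rfl ?_
  push_cast
  ring

theorem J.rinv {φ : ℂ → ℝ} {z : ℂ} {a : ℝ} {b c e : ℂ} (ha : 0 < a)
    (hφ : J (fun w => (φ w : ℂ)) z a b c e) :
    J (fun w => (((φ w)⁻¹ : ℝ) : ℂ)) z (a⁻¹ : ℝ) (-((a : ℂ) ^ 2)⁻¹ * b)
      (-((a : ℂ) ^ 2)⁻¹ * c) (-((a : ℂ) ^ 2)⁻¹ * e + 2 * ((a : ℂ) ^ 3)⁻¹ * (b * c)) := by
  refine (hφ.comp_real (G := fun x => x⁻¹) (inv_exp2 ha)).congr' rfl ?_ ?_ ?_ <;> push_cast <;> ring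

theorem J.rsqrt {φ : ℂ → ℝ} {z : ℂ} {a : ℝ} {b c e : ℂ} (ha : 0 < a)
    (hφ : J (fun w => (φ w : ℂ)) z a b c e) :
    J (fun w => ((Real.sqrt (φ w) : ℝ) : ℂ)) z (Real.sqrt a : ℝ)
      ((2 * (Real.sqrt a : ℂ))⁻¹ * b) ((2 * (Real.sqrt a : ℂ))⁻¹ * c)
      ((2 * (Real.sqrt a : ℂ))⁻¹ * e - (4 * (Real.sqrt a : ℂ) ^ 3)⁻¹ * (b * c)) := by
  refine (hφ.comp_real (sqrt_exp2 ha)).congr' rfl ?_ ?_ ?_
  · push_cast; ring
  · push_cast; ring
  · push_cast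
    have : (4 * (Real.sqrt a : ℂ) ^ 3)⁻¹ = 2 * (8 * (Real.sqrt a : ℂ) ^ 3)⁻¹ := by
      rw [mul_inv, mul_inv]; ring
    rw [this]; ring

theorem J.sum {ι : Type*} (s : Finset ι) {F : ι → ℂ → ℂ} {z : ℂ} {a b c e : ι → ℂ}
    (h : ∀ i ∈ s, J (F i) z (a i) (b i) (c i) (e i)) :
    J (fun w => ∑ i ∈ s, F i w) z (∑ i ∈ s, a i) (∑ i ∈ s, b i) (∑ i ∈ s, c i)
      (∑ i ∈ s, e i) := by
  classical
  induction s using Finset.induction_on with
  | empty => simpa using J_const z 0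
  | insert i s hi ih =>
    simp only [Finset.sum_insert hi]
    exact (h i (Finset.mem_insert_self _ _)).add
      (ih fun j hj => h j (Finset.mem_insert_of_mem hj))

theorem J.smul {F : ℂ → ℂ} {z a b c e : ℂ} (k : ℂ) (h : J F z a b c e) :
    J (fun w => k * F w) z (k * a) (k * b) (k * c) (k * e) :=
  ((J_const z k).mul h).congr' rfl (by ring) (by ring) (by ring)

end Pool.Agent.Alling
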