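import Pool.Agent.Work.MP_ab1db7_an.Bdry
import Pool.Agent.Work.MP_ab1db7_an.Blaschke

/-! # MP_ab1db7_an, block E: limit functions along ultrafilters on `ℤ` -/

set_option autoImplicit false

open MeasureTheory Complex Set Filter Topology Metric

namespace Pool.Agent.Alling

theorem HolBdd.nonneg {F : ℂ → ℂ} {C : ℝ} (hF : HolBdd F C) : 0 ≤ C :=
  (norm_nonneg _).trans (hF.bdd 0 (by simp))

theorem HolBdd.comp_tau {F : ℂ → ℂ} {C : ℝ} (hF : HolBdd F C) (k : ℤ) :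
    HolBdd (fun z => F (tau k z)) C :=
  ⟨hF.diff.comp (tau_diff k) fun _ hz => tau_mem k hz, fun _ hz => hF.bdd _ (tau_mem k hz)⟩

/-- local Lipschitz estimate, uniform over all bounded analytic functions -/
theorem HolBdd.lip {H : ℂ → ℂ} {C : ℝ} (hH : HolBdd H C) {x y : ℂ} (hx : x ∈ ball (0 : ℂ) 1)
    (hy : y ∈ ball x (1 - ‖x‖)) : dist (H y) (H x) ≤ 2 * C / (1 - ‖x‖) * dist y x := by
  have hsub : ball x (1 - ‖x‖) ⊆ ball (0 : ℂ) 1 := by
    intro w hw
    rw [mem_ball, dist_eq_norm] at hw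
    rw [mem_ball_zero_iff]
    calc ‖w‖ = ‖(w - x) + x‖ := by rw [sub_add_cancel]
      _ ≤ ‖w - x‖ + ‖x‖ := norm_add_le _ _
      _ < 1 := by linarith
  refine Complex.dist_le_div_mul_dist_of_mapsTo_ball (hH.diff.mono hsub) ?_ hy
  intro w hw
  rw [mem_closedBall, dist_eq_norm]
  calc ‖H w - H x‖ ≤ ‖H w‖ + ‖H x‖ := norm_sub_le _ _
    _ ≤ C + C := add_le_add (hH.bdd w (hsub hw)) (hH.bdd x hx)
    _ = 2 * C := by ring

/-- pointwise limits of uniformly bounded analytic functions along an ultrafilter are analytic -/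
theorem holBdd_of_tendsto {ι : Type*} (U : Filter ι) [U.NeBot] {H : ι → ℂ → ℂ} {C : ℝ}
    (hH : ∀ i, HolBdd (H i) C) {G : ℂ → ℂ}
    (hG : ∀ z ∈ ball (0 : ℂ) 1, Tendsto (fun i => H i z) U (𝓝 (G z))) : HolBdd G C := by
  have hCn : 0 ≤ C := by
    obtain ⟨i, -⟩ := U.nonempty_of_mem univ_mem
    exact (hH i).nonneg
  have hbd : ∀ z ∈ ball (0 : ℂ) 1, ‖G z‖ ≤ C := fun z hz =>
    le_of_tendsto (hG z hz).norm (Eventually.of_forall fun i => (hH i).bdd z hz)
  refine ⟨?_, hbd⟩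
  have hlu : TendstoLocallyUniformlyOn H G U (ball 0 1) := by
    rw [Metric.tendstoLocallyUniformlyOn_iff]
    intro ε hε x hx
    have hx1 : 0 < 1 - ‖x‖ := by
      rw [mem_ball_zero_iff] at hx; linarith
    set K : ℝ := 2 * C / (1 - ‖x‖) with hK
    have hKn : 0 ≤ K := by positivity
    obtain ⟨δ, hδ, hδ1, hδ2⟩ : ∃ δ : ℝ, 0 < δ ∧ δ ≤ 1 - ‖x‖ ∧ K * δ ≤ ε / 3 := by
      refine ⟨min (1 - ‖x‖) (ε / 3 / (K + 1)), lt_min hx1 (by positivity), min_le_left _ _, ?_⟩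
      calc K * min (1 - ‖x‖) (ε / 3 / (K + 1)) ≤ K * (ε / 3 / (K + 1)) :=
            mul_le_mul_of_nonneg_left (min_le_right _ _) hKn
        _ ≤ (K + 1) * (ε / 3 / (K + 1)) := by
            apply mul_le_mul_of_nonneg_right (by linarith) (by positivity)
        _ = ε / 3 := by field_simp
    have hsub : ball x δ ⊆ ball (0 : ℂ) 1 := by
      intro w hw
      rw [mem_ball, dist_eq_norm] at hw
      rw [mem_ball_zero_iff]
      calc ‖w‖ = ‖(w - x) + x‖ := by rw [sub_add_cancel]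
        _ ≤ ‖w - x‖ + ‖x‖ := norm_add_le _ _
        _ < 1 := by linarith
    have hH1 : ∀ i, ∀ y ∈ ball x δ, dist (H i y) (H i x) ≤ ε / 3 := by
      intro i y hy
      have hy' : y ∈ ball x (1 - ‖x‖) := ball_subset_ball hδ1 hy
      refine ((hH i).lip hx hy').trans ?_
      refine le_trans ?_ hδ2
      exact mul_le_mul_of_nonneg_left (mem_ball.1 hy).le hKn
    refine ⟨ball x δ, mem_nhdsWithin_of_mem_nhds (ball_mem_nhds x hδ), ?_⟩
    have hev : ∀ᶠ i in U, dist (H i x) (G x) < ε / 3 :=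
      (hG x hx) (ball_mem_nhds _ (by positivity))
    filter_upwards [hev] with i hi y hy
    have hGy : dist (G y) (G x) ≤ ε / 3 := by
      refine le_of_tendsto ((hG y (hsub hy)).dist (hG x hx)) ?_
      exact Eventually.of_forall fun j => hH1 j y hy
    calc dist (G y) (H i y) ≤ dist (G y) (G x) + dist (G x) (H i x) + dist (H i x) (H i y) :=
          dist_triangle4 _ _ _ _
      _ < ε / 3 + ε / 3 + ε / 3 := by
          have h1 := hH1 i y hy
          rw [dist_comm (H i x), dist_comm (G x)]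
          linarith
      _ = ε := by ring
  exact hlu.differentiableOn (Eventually.of_forall fun i => (hH i).diff) isOpen_ball

/-- limits of point evaluations at `τ_k z` along `q`: analytic in `z`, continuous in `q` -/
theorem limit_fun {F : ℂ → ℂ} {C : ℝ} (hF : HolBdd F C) : ∃ G : Ultrafilter ℤ → ℂ → ℂ,
    (∀ q : Ultrafilter ℤ, ∀ z ∈ ball (0 : ℂ) 1,
      Tendsto (fun k : ℤ => F (tau k z)) (q : Filter ℤ) (𝓝 (G q z))) ∧
    (∀ q, HolBdd (G q) C) ∧ (∀ z ∈ ball (0 : ℂ) 1, Continuous fun q => G q z) ∧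
    (∀ (q : Ultrafilter ℤ) (n : ℤ), ∀ z ∈ ball (0 : ℂ) 1, G (shift n q) z = G q (tau n z)) := by
  classical
  have hC := hF.nonneg
  let Y := {w : ℂ // w ∈ closedBall (0 : ℂ) C}
  have : CompactSpace Y := isCompact_iff_compactSpace.1 (isCompact_closedBall (0 : ℂ) C)
  let g : ℂ → ℤ → Y := fun z k => if hz : z ∈ ball (0 : ℂ) 1 then
    ⟨F (tau k z), by rw [mem_closedBall_zero_iff]; exact hF.bdd _ (tau_mem k hz)⟩
    else ⟨0, by simp [hC]⟩
  let G : Ultrafilter ℤ → ℂ → ℂ := fun q z => ((Ultrafilter.extend (g z) q : Y) : ℂ)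
  have hG1 : ∀ q : Ultrafilter ℤ, ∀ z ∈ ball (0 : ℂ) 1,
      Tendsto (fun k : ℤ => F (tau k z)) (q : Filter ℤ) (𝓝 (G q z)) := by
    intro q z hz
    have h1 : Tendsto (g z) (q : Filter ℤ) (𝓝 (Ultrafilter.extend (g z) q)) :=
      (ultrafilter_extend_eq_iff (f := g z) (b := q)).1 rfl
    have h2 := (continuous_subtype_val.tendsto (Ultrafilter.extend (g z) q)).comp h1
    refine h2.congr fun k => ?_
    simp only [Function.comp, g, dif_pos hz]
  refine ⟨G, hG1, ?_, ?_, ?_⟩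
  · intro q
    exact holBdd_of_tendsto (q : Filter ℤ) (fun k => hF.comp_tau k) (hG1 q)
  · intro z _
    exact continuous_subtype_val.comp (continuous_ultrafilter_extend (g z))
  · intro q n z hz
    have h1 := hG1 (shift n q) z hz
    have h2 := hG1 q (tau n z) (tau_mem n hz)
    have h3 : Tendsto (fun k : ℤ => F (tau k z)) ((shift n q : Ultrafilter ℤ) : Filter ℤ)
        (𝓝 (G q (tau n z))) := by
      unfold shift
      rw [Ultrafilter.coe_map, tendsto_map'_iff]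
      refine h2.congr fun k => ?_
      simp only [Function.comp]
      rw [tau_tau k n hz]
    exact tendsto_nhds_unique h1 h3

/-- equicontinuity in the form needed for moving points -/
theorem limit_move {F : ℂ → ℂ} {C : ℝ} (hF : HolBdd F C) {ι : Type*} (U : Ultrafilter ι)
    (k : ι → ℤ) (w : ι → ℂ) {r : ℝ} (hr : r < 1) (hw : ∀ i, ‖w i‖ ≤ r) {w' : ℂ}
    (hlim : Tendsto w U (𝓝 w')) {a : ℂ} :
    Tendsto (fun i => F (tau (k i) (w i))) U (𝓝 a) ↔
      Tendsto (fun j : ℤ => F (tau j w')) (U.map k) (𝓝 a) := by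
  have hw' : ‖w'‖ ≤ r := le_of_tendsto hlim.norm (Eventually.of_forall hw)
  have hw'1 : w' ∈ ball (0 : ℂ) 1 := by rw [mem_ball_zero_iff]; linarith
  have hpos : 0 < 1 - ‖w'‖ := by linarith
  have hdist : Tendsto (fun i => dist (F (tau (k i) (w i))) (F (tau (k i) w'))) U (𝓝 0) := by
    have h1 : Tendsto (fun i => 2 * C / (1 - ‖w'‖) * dist (w i) w') U (𝓝 0) := by
      have := (tendsto_iff_dist_tendsto_zero.1 hlim).const_mul (2 * C / (1 - ‖w'‖))
      simpa using this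
    refine squeeze_zero' (Eventually.of_forall fun i => dist_nonneg) ?_ h1
    have h2 : ∀ᶠ i in (U : Filter ι), w i ∈ ball w' (1 - ‖w'‖) :=
      hlim (ball_mem_nhds _ hpos)
    filter_upwards [h2] with i hi
    exact (hF.comp_tau (k i)).lip hw'1 hi
  rw [Ultrafilter.coe_map, tendsto_map'_iff]
  constructor
  · intro h
    refine (tendsto_iff_of_dist hdist).1 h
  · intro h
    exact (tendsto_iff_of_dist hdist).2 h

/-- a nonprincipal ultrafilter on `ℤ` converges to `+∞` or to `-∞` -/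
theorem nonprincipal_cases (q : Ultrafilter ℤ) (hq : ∀ n : ℤ, ({n} : Set ℤ) ∉ q) :
    (q : Filter ℤ) ≤ atTop ∨ (q : Filter ℤ) ≤ atBot := by
  have hfin : ∀ s : Set ℤ, s.Finite → s ∉ q := by
    intro s hs hsq
    rw [← biUnion_of_singleton s, Ultrafilter.finite_biUnion_mem_iff hs] at hsq
    obtain ⟨n, -, hn⟩ := hsq
    exact hq n hn
  rcases Ultrafilter.mem_or_compl_mem q {k : ℤ | 0 ≤ k} with h | h
  · left
    rw [Filter.le_def]
    intro s hs
    rw [mem_atTop_sets] at hs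
    obtain ⟨N, hN⟩ := hs
    have h1 : (Ico 0 N : Set ℤ) ∉ q := hfin _ (finite_Ico 0 N)
    have h2 : (Ico 0 N : Set ℤ)ᶜ ∈ q := (Ultrafilter.compl_mem_iff_notMem).2 h1
    refine mem_of_superset (inter_mem h h2) ?_
    rintro k ⟨hk1, hk2⟩
    apply hN
    by_contra hcon
    exact hk2 ⟨hk1, not_le.1 hcon⟩
  · right
    rw [Filter.le_def]
    intro s hs
    rw [mem_atBot_sets] at hs
    obtain ⟨N, hN⟩ := hs
    have h1 : (Ioc N (-1) : Set ℤ) ∉ q := hfin _ (finite_Ioc N (-1))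
    have h2 : (Ioc N (-1) : Set ℤ)ᶜ ∈ q := (Ultrafilter.compl_mem_iff_notMem).2 h1
    refine mem_of_superset (inter_mem h h2) ?_
    rintro k ⟨hk1, hk2⟩
    apply hN
    by_contra hcon
    have hk0 : ¬ (0 ≤ k) := hk1
    exact hk2 ⟨not_le.1 hcon, by omega⟩

/-- the character `φ_{q,z}` for one nonprincipal `q` and one `z` -/
theorem exists_phi_one (q : Ultrafilter ℤ) (hq : ∀ n : ℤ, ({n} : Set ℤ) ∉ q) {z : ℂ}
    (hz : z ∈ ball (0 : ℂ) 1) : ∃ φ : M, ∀ (f : L0) (hf : f ∈ HinfSet),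
      Tendsto (fun k : ℤ => ext f (tau k z)) q (𝓝 (φ ⟨f, mem_A_of_Hinf hf⟩)) := by
  classical
  have hlim : ∀ f : L0, ∃ a : ℂ, f ∈ HinfSet →
      Tendsto (fun k : ℤ => ext f (tau k z)) q (𝓝 a) := by
    intro f
    by_cases hf : f ∈ HinfSet
    · obtain ⟨C, hC⟩ := hf.1
      obtain ⟨G, hG, -⟩ := limit_fun (ext_holBdd hf hC)
      exact ⟨G q z, fun _ => hG q z hz⟩
    · exact ⟨0, fun h => absurd h hf⟩
  choose ψ hψ using hlim
  have H1 : ψ 1 = 1 := by
    refine tendsto_nhds_unique (hψ 1 one_mem_Hinf) ?_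
    refine tendsto_const_nhds.congr fun k => ?_
    have := ext_algebraMap 1 (tau_mem k hz)
    rw [map_one] at this
    exact this.symm
  have H2 : ∀ f ∈ HinfSet, ∀ g ∈ HinfSet, ψ (f + g) = ψ f + ψ g := by
    intro f hf g hg
    refine tendsto_nhds_unique (hψ _ (Hinf_add hf hg)) ?_
    refine ((hψ f hf).add (hψ g hg)).congr fun k => ?_
    exact (ext_add hf hg (tau_mem k hz)).symm
  have H3 : ∀ f ∈ HinfSet, ∀ g ∈ HinfSet, ψ (f * g) = ψ f * ψ g := by
    intro f hf g hg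
    refine tendsto_nhds_unique (hψ _ (Hinf_mul hf hg)) ?_
    refine ((hψ f hf).mul (hψ g hg)).congr fun k => ?_
    exact (ext_mul hf hg (tau_mem k hz)).symm
  have H4 : ∀ c : ℂ, ∀ f ∈ HinfSet, ψ (c • f) = c * ψ f := by
    intro c f hf
    refine tendsto_nhds_unique (hψ _ (Hinf_smul hf c)) ?_
    refine ((hψ f hf).const_mul c).congr fun k => ?_
    rw [Algebra.smul_def, ext_mul (Hinf_algebraMap c) hf (tau_mem k hz),
      ext_algebraMap c (tau_mem k hz)]
  have H5 : ∀ f ∈ HinfSet, ∀ C : ℝ, BddBy f C → ‖ψ f‖ ≤ C := by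
    intro f hf C hC
    refine le_of_tendsto (hψ f hf).norm (Eventually.of_forall fun k => ?_)
    exact (ext_holBdd hf hC).bdd _ (tau_mem k hz)
  have H6 : ‖ψ zz‖ = 1 := by
    have h1 : Tendsto (fun k : ℤ => tau k z) q (𝓝 (ψ zz)) := by
      refine (hψ zz zz_mem).congr fun k => ?_
      exact ext_zz (tau_mem k hz)
    obtain ⟨ht, hb⟩ := tau_lim hz
    rcases nonprincipal_cases q hq with h | h
    · rw [tendsto_nhds_unique h1 (ht.mono_left h)]; simp
    · rw [tendsto_nhds_unique h1 (hb.mono_left h)]; simp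
  obtain ⟨φ, hφ⟩ := exists_char ψ H1 H2 H3 H4 H5 H6
  refine ⟨φ, fun f hf => ?_⟩
  rw [hφ f hf]
  exact hψ f hf

/-- the characters `φ_{q,z}` -/
theorem exists_Phi : ∃ Phi : Ultrafilter ℤ → ℂ → M,
    ∀ q : Ultrafilter ℤ, (∀ n : ℤ, ({n} : Set ℤ) ∉ q) → ∀ z ∈ ball (0 : ℂ) 1,
      ∀ (f : L0) (hf : f ∈ HinfSet),
        Tendsto (fun k : ℤ => ext f (tau k z)) q (𝓝 (Phi q z ⟨f, mem_A_of_Hinf hf⟩)) := by
  classical
  have hne : Nonempty M := by
    have hq : ∀ n : ℤ, ({n} : Set ℤ) ∉ (Filter.hyperfilter ℤ : Ultrafilter ℤ) := fun n =>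
      Filter.notMem_hyperfilter_of_finite (finite_singleton n)
    obtain ⟨φ, -⟩ := exists_phi_one (Filter.hyperfilter ℤ) hq (z := 0) (by simp)
    exact ⟨φ⟩
  have h : ∀ (q : Ultrafilter ℤ) (z : ℂ), ∃ φ : M, (∀ n : ℤ, ({n} : Set ℤ) ∉ q) →
      z ∈ ball (0 : ℂ) 1 → ∀ (f : L0) (hf : f ∈ HinfSet),
        Tendsto (fun k : ℤ => ext f (tau k z)) q (𝓝 (φ ⟨f, mem_A_of_Hinf hf⟩)) := by
    intro q z
    by_cases hc : (∀ n : ℤ, ({n} : Set ℤ) ∉ q) ∧ z ∈ ball (0 : ℂ) 1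
    · obtain ⟨φ, hφ⟩ := exists_phi_one q hc.1 hc.2
      exact ⟨φ, fun _ _ => hφ⟩
    · exact ⟨hne.some, fun h1 h2 => absurd ⟨h1, h2⟩ hc⟩
  choose Phi hPhi using h
  exact ⟨Phi, fun q hq z hz => hPhi q z hq hz⟩

end Pool.Agent.Alling
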