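import Pool.Agent.Work.MP_ab1db7_an.MainP

/-! # MP_ab1db7_an, `MainA`: analyticity in `z`, `t`-analyticity, nontriviality -/

set_option autoImplicit false

open MeasureTheory Complex Set Filter Topology Metric

namespace Pool.Agent.Alling

variable {E0 : Set (Ultrafilter ℤ)} {Phi : Ultrafilter ℤ → ℂ → M}

/-- openness in `q` -/
theorem Phi_open_q (D : Dat E0 Phi) {q0 : Ultrafilter ℤ} (hq0 : q0 ∈ E0) {z0 : ℂ}
    (hz0 : z0 ∈ ball (0 : ℂ) 1) {U : Set M} (hU : IsOpen U) (h : Phi q0 z0 ∈ U) :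
    ∃ B ∈ q0, ∀ q ∈ E0, B ∈ q → Phi q z0 ∈ U := by
  obtain ⟨s, hs, ε, hε, hsU⟩ := nhds_basis _ U hU h
  set B : Set ℤ := {k | ∀ f ∈ s, ∀ hf : f ∈ HinfSet,
    ‖ext f (tau k z0) - Phi q0 z0 ⟨f, mem_A_of_Hinf hf⟩‖ < ε / 2} with hB
  have hBq : B ∈ q0 := by
    have h1 : ∀ᶠ k in (q0 : Filter ℤ), ∀ f ∈ s, ∀ hf : f ∈ HinfSet,
        ‖ext f (tau k z0) - Phi q0 z0 ⟨f, mem_A_of_Hinf hf⟩‖ < ε / 2 := by
      rw [Filter.eventually_all_finset]
      intro f hf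
      have h2 := (D.phi q0 (D.npr q0 hq0) z0 hz0 f (hs f hf)) (ball_mem_nhds _ (half_pos hε))
      filter_upwards [h2] with k hk _
      rwa [mem_preimage, mem_ball, dist_eq_norm] at hk
    exact h1
  refine ⟨B, hBq, fun q hq hBq' => hsU _ fun f hf => ?_⟩
  have h3 := phi_dist_le D (D.npr q hq) hz0 (hs f hf) hBq'
    (b := Phi q0 z0 ⟨f, mem_A_of_Hinf (hs f hf)⟩) fun k hk => (hk f hf (hs f hf)).le
  linarith

theorem Phi_hol (D : Dat E0 Phi) {q : Ultrafilter ℤ} (hq : ∀ n : ℤ, ({n} : Set ℤ) ∉ q)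
    {f : L0} (hf : f ∈ HinfSet) {C : ℝ} (hC : BddBy f C) :
    HolBdd (fun z => Phi q z ⟨f, mem_A_of_Hinf hf⟩) C :=
  holBdd_of_tendsto (q : Filter ℤ) (fun k => (ext_holBdd hf hC).comp_tau k)
    fun z hz => D.phi q hq z hz f hf

/-- `φ_{q,z}(z)` does not depend on `z` -/
theorem Phi_zz (D : Dat E0 Phi) {q : Ultrafilter ℤ} (hq : ∀ n : ℤ, ({n} : Set ℤ) ∉ q) :
    ∃ e : ℂ, ∀ z ∈ ball (0 : ℂ) 1, Phi q z zA = e := by
  have h1 : ∀ z ∈ ball (0 : ℂ) 1, Tendsto (fun k : ℤ => tau k z) q (𝓝 (Phi q z zA)) := by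
    intro z hz
    exact (D.phi q hq z hz zz zz_mem).congr fun k => ext_zz (tau_mem k hz)
  rcases nonprincipal_cases q hq with h | h
  · exact ⟨1, fun z hz => tendsto_nhds_unique (h1 z hz) ((tau_lim hz).1.mono_left h)⟩
  · exact ⟨-1, fun z hz => tendsto_nhds_unique (h1 z hz) ((tau_lim hz).2.mono_left h)⟩

theorem phi_diff (D : Dat E0 Phi) {q : Ultrafilter ℤ} (hq : ∀ n : ℤ, ({n} : Set ℤ) ∉ q)
    (f : A) : DifferentiableOn ℂ (fun z => Phi q z f) (ball 0 1) := by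
  obtain ⟨e, he⟩ := Phi_zz D hq
  have h1 : ∀ j : ℕ, ∃ (n : ℕ) (h : L0) (hh : h ∈ HinfSet),
      ∀ φ : M, ‖φ f - (starRingEnd ℂ) (φ zA) ^ n * φ ⟨h, mem_A_of_Hinf hh⟩‖ ≤ 1 / ((j : ℝ) + 1) :=
    fun j => char_approx f (by positivity)
  choose n h hh h2 using h1
  have h3 : TendstoLocallyUniformlyOn
      (fun (j : ℕ) z => (starRingEnd ℂ) e ^ n j * Phi q z ⟨h j, mem_A_of_Hinf (hh j)⟩)
      (fun z => Phi q z f) atTop (ball 0 1) := by
    apply TendstoUniformlyOn.tendstoLocallyUniformlyOn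
    rw [Metric.tendstoUniformlyOn_iff]
    intro ε hε
    filter_upwards [(tendsto_one_div_add_atTop_nhds_zero_nat (𝕜 := ℝ)).eventually
      (gt_mem_nhds hε)] with j hj z hz
    rw [dist_eq_norm]
    have h4 := h2 j (Phi q z)
    rw [he z hz] at h4
    exact h4.trans_lt hj
  refine h3.differentiableOn (Eventually.of_forall fun j => ?_) isOpen_ball
  obtain ⟨C, hC⟩ := (hh j).1
  exact (Phi_hol D hq (hh j) hC).diff.const_mul _

/-- openness in `z` -/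
theorem Phi_open_z (D : Dat E0 Phi) {q : Ultrafilter ℤ} (hq : ∀ n : ℤ, ({n} : Set ℤ) ∉ q)
    {z0 : ℂ} (hz0 : z0 ∈ ball (0 : ℂ) 1) {U : Set M} (hU : IsOpen U) (h : Phi q z0 ∈ U) :
    ∀ᶠ z in 𝓝 z0, Phi q z ∈ U := by
  obtain ⟨s, hs, ε, hε, hsU⟩ := nhds_basis _ U hU h
  have h1 : ∀ᶠ z in 𝓝 z0, ∀ f ∈ s, ∀ hf : f ∈ HinfSet,
      ‖Phi q z ⟨f, mem_A_of_Hinf hf⟩ - Phi q z0 ⟨f, mem_A_of_Hinf hf⟩‖ < ε := by
    rw [Filter.eventually_all_finset]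
    intro f hf
    have hfH := hs f hf
    obtain ⟨C, hC⟩ := hfH.1
    have h2 : ContinuousAt (fun z => Phi q z ⟨f, mem_A_of_Hinf hfH⟩) z0 :=
      ((Phi_hol D hq hfH hC).diff.differentiableAt (isOpen_ball.mem_nhds hz0)).continuousAt
    filter_upwards [h2 (ball_mem_nhds _ hε)] with z hz _
    rwa [mem_preimage, mem_ball, dist_eq_norm] at hz
  filter_upwards [h1] with z hz
  exact hsU _ fun f hf => hz f hf (hs f hf)

theorem shift_npr {q : Ultrafilter ℤ} (hq : ∀ n : ℤ, ({n} : Set ℤ) ∉ q) (n : ℤ) :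
    ∀ j : ℤ, ({j} : Set ℤ) ∉ shift n q := by
  intro j hj
  have hj' : {k : ℤ | k + n ∈ ({j} : Set ℤ)} ∈ q := hj
  refine hq (j - n) (mem_of_superset hj' fun k hk => ?_)
  have hk' : k + n = j := hk
  rw [mem_singleton_iff]; omega

theorem phi_shift (D : Dat E0 Phi) {q : Ultrafilter ℤ} (hq : ∀ n : ℤ, ({n} : Set ℤ) ∉ q) (n : ℤ)
    {z : ℂ} (hz : z ∈ ball (0 : ℂ) 1) : Phi (shift n q) z = Phi q (tau n z) := by
  apply char_ext
  intro f hf
  have h1 := D.phi (shift n q) (shift_npr hq n) z hz f hf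
  have h2 := D.phi q hq (tau n z) (tau_mem n hz) f hf
  refine tendsto_nhds_unique h1 ?_
  unfold shift
  rw [Ultrafilter.coe_map, tendsto_map'_iff]
  refine h2.congr fun k => ?_
  simp only [Function.comp]
  rw [tau_tau k n hz]

theorem continuous_eval (f : A) : Continuous fun φ : M => φ f :=
  (continuous_apply f).comp continuous_induced_dom

/-- (c) `E` is `t`-analytic -/
theorem tanalytic (D : Dat E0 Phi)
    (dens : ∀ φ ∈ hull (Iset E0 Phi), ∀ U : Set M, IsOpen U → φ ∈ U →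
      ∃ q ∈ E0, ∃ z ∈ ball (0 : ℂ) 1, Phi q z ∈ U) : TAnalytic (hull (Iset E0 Phi)) := by
  intro f U hU hne hzero
  suffices hf : f ∈ Iset E0 Phi from fun φ hφ => hφ f hf
  obtain ⟨φ0, hφ0U, hφ0E⟩ := hne
  obtain ⟨q0, hq0, z0, hz0, hU0⟩ := dens φ0 hφ0E U hU hφ0U
  obtain ⟨B, hBq0, hBU⟩ := Phi_open_q D hq0 hz0 hU hU0
  have key : ∀ q ∈ E0, B ∈ q → ∀ z ∈ ball (0 : ℂ) 1, Phi q z f = 0 := by
    intro q hq hBq
    have hnp := D.npr q hq
    have h1 : ∀ᶠ z in 𝓝 z0, Phi q z f = 0 := by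
      filter_upwards [Phi_open_z D hnp hz0 hU (hBU q hq hBq), isOpen_ball.mem_nhds hz0]
        with z h2 h3
      exact hzero _ ⟨h2, Phi_mem_hull hq h3⟩
    have h2 : AnalyticOnNhd ℂ (fun z => Phi q z f) (ball 0 1) :=
      (phi_diff D hnp f).analyticOnNhd isOpen_ball
    have h3 := h2.eqOn_zero_of_preconnected_of_eventuallyEq_zero
      (convex_ball (0 : ℂ) 1).isPreconnected hz0 h1
    exact fun z hz => h3 hz
  intro q1 hq1 z1 hz1
  by_contra hne1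
  have hopen : IsOpen {ψ : M | ψ f ≠ 0} := isOpen_ne.preimage (continuous_eval f)
  obtain ⟨C, hCq1, hCU⟩ := Phi_open_q D hq1 hz1 hopen hne1
  obtain ⟨q, hq, n, hBq, hCq⟩ := D.trans B C ⟨q0, hq0, hBq0⟩ ⟨q1, hq1, hCq1⟩
  have h1 := hCU (shift n q) (D.inv q hq n) hCq
  apply h1
  rw [phi_shift D (D.npr q hq) n hz1]
  exact key q hq hBq _ (tau_mem n hz1)

/-- (d) `E` has two points -/
theorem nontriv (D : Dat E0 Phi) : (hull (Iset E0 Phi)).Nontrivial := by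
  obtain ⟨c, F, hB⟩ := exists_bl
  obtain ⟨q, hq⟩ := D.ne
  obtain ⟨z, hz, hfar⟩ := exists_far
  have h0 : (0 : ℂ) ∈ ball (0 : ℂ) 1 := by simp
  have hm : ∀ k : ℤ, (fun _ : ℤ => 1) k ≤ k.natAbs + 1 := fun k => by simp
  obtain ⟨g, hg, -, hgF⟩ := hB.exists_bd (m := fun _ => 1) hm
  refine ⟨Phi q 0, Phi_mem_hull hq h0, Phi q z, Phi_mem_hull hq hz, fun heq => ?_⟩
  have h1 : ‖Phi q 0 ⟨g, mem_A_of_Hinf hg⟩‖ ≤ 0 := by
    refine phi_le D (D.npr q hq) h0 hg (T := univ) univ_mem fun k _ => ?_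
    rw [hgF _ (tau_mem k h0)]
    simpa using hB.small (fun _ => 1) hm k 0 h0
  have h2 : c ≤ ‖Phi q z ⟨g, mem_A_of_Hinf hg⟩‖ := by
    refine phi_ge D (D.npr q hq) hz hg (T := univ) univ_mem fun k _ => ?_
    rw [hgF _ (tau_mem k hz)]
    refine hB.large (fun _ => 1) hm _ (tau_mem k hz) fun j => Or.inr ?_
    rw [dl_tau j k hz]
    have := hfar (j - k)
    norm_num
    linarith
  rw [heq] at h1
  have := hB.pos
  linarith

end Pool.Agent.Alling
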