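import Pool.Agent.Work.MP_ab1db7_an.MainP

/-! # MP_ab1db7_an, `MainB`: density of the points `φ_{q,z}` (the corona theorem is a hypothesis) -/

set_option autoImplicit false

open MeasureTheory Complex Set Filter Topology Metric

namespace Pool.Agent.Alling

variable {E0 : Set (Ultrafilter ℤ)} {Phi : Ultrafilter ℤ → ℂ → M}

/-- (b) the points `φ_{q,z}`, `q ∈ E₀`, are dense in `E` -/
theorem density_of_corona (hcor : CoronaStatement) (D : Dat E0 Phi) {φ : M}
    (hφ : φ ∈ hull (Iset E0 Phi)) {U : Set M} (hU : IsOpen U) (hφU : φ ∈ U) :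
    ∃ q ∈ E0, ∃ z ∈ ball (0 : ℂ) 1, Phi q z ∈ U := by
  classical
  obtain ⟨c, F, hB⟩ := exists_bl
  by_contra hcon
  push Not at hcon
  obtain ⟨s, hs, ε, hε, hsU⟩ := nhds_basis φ U hU hφU
  obtain ⟨V, hV, hVf⟩ := exists_ultrafilter_of_corona hcor φ
  set W : Set ℂ := {z | z ∈ ball (0 : ℂ) 1 ∧ ∀ f ∈ s, ∀ hf : f ∈ HinfSet,
    ‖ext f z - φ ⟨f, mem_A_of_Hinf hf⟩‖ < ε / 2} with hW
  have hWV : W ∈ V := by
    have h1 : ∀ᶠ z in (V : Filter ℂ), ∀ f ∈ s, ∀ hf : f ∈ HinfSet,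
        ‖ext f z - φ ⟨f, mem_A_of_Hinf hf⟩‖ < ε / 2 := by
      rw [Filter.eventually_all_finset]
      intro f hf
      have h2 := (hVf f (hs f hf)) (ball_mem_nhds _ (half_pos hε))
      filter_upwards [h2] with z hz _
      rwa [mem_preimage, mem_ball, dist_eq_norm] at hz
    filter_upwards [hV, h1] with z hz1 hz2
    exact ⟨hz1, hz2⟩
  set P : ℤ → ℕ → Prop := fun k N => ∀ z ∈ W, ((N : ℝ) + 1) ^ 2 * dl k z ≤ 1 with hP
  set m : ℤ → ℕ := fun k => Nat.findGreatest (P k) k.natAbs with hm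
  have hP0 : ∀ k, P k 0 := by
    intro k z _
    have := dl_le_one k z
    simpa using this
  have hmle : ∀ k, m k ≤ k.natAbs + 1 := fun k => (Nat.findGreatest_le _).trans (Nat.le_succ _)
  have hmspec : ∀ k, P k (m k) := fun k => Nat.findGreatest_spec (Nat.zero_le _) (hP0 k)
  have hinf : ∀ q ∈ E0, ∀ N : ℕ, {k | N ≤ m k} ∈ q := by
    intro q hq N
    by_contra hN
    have hnp := D.npr q hq
    have h1 : {k | N ≤ m k}ᶜ ∈ q := Ultrafilter.compl_mem_iff_notMem.2 hN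
    set T : Set ℤ := {k | N ≤ m k}ᶜ ∩ {k : ℤ | N ≤ k.natAbs} with hT
    have hTq : T ∈ q := inter_mem h1 (natAbs_mem hnp N)
    set δ : ℝ := 1 / ((N : ℝ) + 1) ^ 2 with hδ
    have hδ0 : 0 < δ := by positivity
    have hex : ∀ k : ℤ, ∃ w : ℂ, k ∈ T → w ∈ W ∧ δ < dl k w := by
      intro k
      by_cases hk : k ∈ T
      · have h2 : m k < N := not_le.1 hk.1
        have h3 : ¬ P k N := Nat.findGreatest_is_greatest h2 hk.2
        rw [hP] at h3
        push Not at h3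
        obtain ⟨w, hw, h4⟩ := h3
        refine ⟨w, fun _ => ⟨hw, ?_⟩⟩
        rw [hδ, div_lt_iff₀ (by positivity)]
        linarith
      · exact ⟨0, fun h => absurd h hk⟩
    choose w hw using hex
    set v : ℤ → ℂ := fun k => if k ∈ T then tau (-k) (w k) else 0 with hv
    have hvr : ∀ k, ‖v k‖ ≤ Real.sqrt (1 - δ) := by
      intro k
      by_cases hk : k ∈ T
      · simp only [hv, if_pos hk]
        exact norm_of_dl (hw k hk).2
      · simp only [hv, if_neg hk, norm_zero]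
        exact Real.sqrt_nonneg _
    have hr := sqrt_lt_one' hδ0
    obtain ⟨v', hv'1, hv'2⟩ := exists_lim q v hvr
    have hv'b : v' ∈ ball (0 : ℂ) 1 := by rw [mem_ball_zero_iff]; linarith
    refine hcon q hq v' hv'b (hsU _ fun f hf => ?_)
    have hfH := hs f hf
    obtain ⟨C, hC⟩ := hfH.1
    have h5 : Tendsto (fun k : ℤ => ext f (tau k (v k))) q
        (𝓝 (Phi q v' ⟨f, mem_A_of_Hinf hfH⟩)) := by
      refine (limit_move (ext_holBdd hfH hC) q id v hr hvr hv'2).2 ?_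
      rw [Ultrafilter.map_id]
      exact D.phi q hnp v' hv'b f hfH
    have h6 : ‖Phi q v' ⟨f, mem_A_of_Hinf hfH⟩ - φ ⟨f, mem_A_of_Hinf hfH⟩‖ ≤ ε / 2 := by
      refine le_of_tendsto (h5.sub_const _).norm (mem_of_superset hTq fun k hk => ?_)
      have h7 := hw k hk
      have h8 : tau k (v k) = w k := by
        simp only [hv, if_pos hk]
        rw [tau_tau k (-k) h7.1.1, add_neg_cancel, tau_zero]
      show ‖ext f (tau k (v k)) - φ ⟨f, mem_A_of_Hinf hfH⟩‖ ≤ ε / 2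
      rw [h8]
      exact (h7.1.2 f hf hfH).le
    linarith
  obtain ⟨g, hg, -, hgF⟩ := hB.exists_bd hmle
  have h1 : φ ⟨g, mem_A_of_Hinf hg⟩ = 0 := hφ _ (mem_Iset D hB hmle hinf hg hgF)
  have h2 : c ≤ ‖φ ⟨g, mem_A_of_Hinf hg⟩‖ := by
    refine ge_of_tendsto (hVf g hg).norm (mem_of_superset hWV fun z hz => ?_)
    show c ≤ ‖ext g z‖
    rw [hgF z hz.1]
    exact hB.large m hmle z hz.1 fun k => Or.inr (hmspec k z hz)
  rw [h1, norm_zero] at h2
  exact absurd hB.pos (not_lt.2 h2)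

end Pool.Agent.Alling
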