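import Pool.Agent.Work.MP_ab1db7_an.MainP

/-! # MP_ab1db7_an, `MainC`: points of a part which contains some `φ_{q,0}` in its closure -/

set_option autoImplicit false

open MeasureTheory Complex Set Filter Topology Metric

namespace Pool.Agent.Alling

variable {E0 : Set (Ultrafilter ℤ)} {Phi : Ultrafilter ℤ → ℂ → M}

/-- (e1), with the corona theorem as hypothesis -/
theorem e1_of_corona (hcor : CoronaStatement) (D : Dat E0 Phi) (x : M)
    (hx : hull (Iset E0 Phi) = closure (part x))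
    (q : Ultrafilter ℤ) (hq : q ∈ E0) (B : Set ℤ) (hB : B ∈ q) :
    ∃ p' : Ultrafilter ℤ, B ∈ p' ∧ (∀ n : ℤ, ({n} : Set ℤ) ∉ p') ∧ ∃ w' ∈ ball (0 : ℂ) 1,
      Phi p' w' ∈ part x := by
  classical
  obtain ⟨c, F, hF⟩ := exists_bl
  have h0 : (0 : ℂ) ∈ ball (0 : ℂ) 1 := by simp
  set m : ℤ → ℕ := fun k => if k ∈ B then 1 else 0 with hm
  have hm1 : ∀ k, m k ≤ k.natAbs + 1 := by
    intro k; simp only [hm]; split_ifs <;> omega
  obtain ⟨g, hg, -, hgF⟩ := hF.exists_bd hm1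
  have hPhi0 : ‖Phi q 0 ⟨g, mem_A_of_Hinf hg⟩‖ ≤ 0 := by
    refine phi_le D (D.npr q hq) h0 hg hB fun k hk => ?_
    rw [hgF _ (tau_mem k h0)]
    have h := hF.small m hm1 k 0 h0
    simpa only [hm, if_pos hk, pow_one, norm_zero] using h
  have hopen : IsOpen {ψ : M | ‖ψ ⟨g, mem_A_of_Hinf hg⟩‖ < c} :=
    isOpen_lt ((continuous_apply _).comp continuous_induced_dom).norm continuous_const
  have hcl : Phi q 0 ∈ closure (part x) := by
    rw [← hx]; exact Phi_mem_hull hq h0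
  obtain ⟨y, hyc, hyx⟩ := mem_closure_iff.1 hcl _ hopen (lt_of_le_of_lt hPhi0 hF.pos)
  have hyc' : ‖y ⟨g, mem_A_of_Hinf hg⟩‖ < c := hyc
  obtain ⟨V, hV, hVf⟩ := exists_ultrafilter_of_corona hcor y
  -- the set of points of the disc where `F_m` is small
  set T : Set ℂ := {z | z ∈ ball (0 : ℂ) 1 ∧ ‖F m z‖ < c} with hT
  have hTV : T ∈ V := by
    have h1 : ∀ᶠ z in (V : Filter ℂ), ‖ext g z‖ < c :=
      (hVf g hg).norm.eventually (gt_mem_nhds hyc')
    filter_upwards [hV, h1] with z hz1 hz2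
    exact ⟨hz1, by rwa [hgF z hz1] at hz2⟩
  have hex : ∀ z : ℂ, ∃ k : ℤ, z ∈ T → k ∈ B ∧ 1 / 4 < dl k z := by
    intro z
    by_cases hz : z ∈ T
    · by_contra hcon
      push Not at hcon
      have h2 : c ≤ ‖F m z‖ := by
        refine hF.large m hm1 z hz.1 fun k => ?_
        by_cases hk : k ∈ B
        · right
          have h3 := (hcon k).2 hk
          simp only [hm, if_pos hk]
          norm_num
          linarith
        · left
          simp only [hm, if_neg hk]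
      exact absurd hz.2 (not_lt.2 h2)
    · exact ⟨0, fun h => absurd h hz⟩
  choose κ hκ using hex
  set w : ℂ → ℂ := fun z => if z ∈ T then tau (-κ z) z else 0 with hw
  set r : ℝ := Real.sqrt (1 - 1 / 4) with hr
  have hr1 : r < 1 := sqrt_lt_one' (by norm_num)
  have hwr : ∀ z, ‖w z‖ ≤ r := by
    intro z
    by_cases hz : z ∈ T
    · simp only [hw, if_pos hz]
      exact norm_of_dl (hκ z hz).2
    · simp only [hw, if_neg hz, norm_zero]
      exact Real.sqrt_nonneg _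
  obtain ⟨w', hw'r, hw'⟩ := exists_lim V w hwr
  have hw'b : w' ∈ ball (0 : ℂ) 1 := by rw [mem_ball_zero_iff]; linarith
  set p' : Ultrafilter ℤ := V.map κ with hp'
  have hlim : ∀ (f : L0) (hf : f ∈ HinfSet),
      Tendsto (fun j : ℤ => ext f (tau j w')) (p' : Filter ℤ) (𝓝 (y ⟨f, mem_A_of_Hinf hf⟩)) := by
    intro f hf
    obtain ⟨C, hC⟩ := hf.1
    have h1 : Tendsto (fun z => ext f (tau (κ z) (w z))) V (𝓝 (y ⟨f, mem_A_of_Hinf hf⟩)) := by
      refine (hVf f hf).congr' ?_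
      filter_upwards [hTV] with z hz
      simp only [hw, if_pos hz]
      rw [tau_tau (κ z) (-κ z) hz.1, add_neg_cancel, tau_zero]
    exact (limit_move (ext_holBdd hf hC) V κ w hr1 hwr hw').1 h1
  have hnp : ∀ n : ℤ, ({n} : Set ℤ) ∉ p' := by
    intro n hn
    have h1 := hlim zz zz_mem
    have h2 : Tendsto (fun j : ℤ => ext zz (tau j w')) (p' : Filter ℤ) (𝓝 (tau n w')) := by
      refine tendsto_const_nhds.congr' ?_
      filter_upwards [hn] with j hj
      have hj' : j = n := hj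
      rw [hj', ext_zz (tau_mem n hw'b)]
    have h3 := tendsto_nhds_unique h1 h2
    have h4 := char_zz_norm y
    have h5 : y zA = tau n w' := h3
    have h6 := tau_mem n hw'b
    rw [mem_ball_zero_iff, ← h5, h4] at h6
    exact lt_irrefl _ h6
  refine ⟨p', ?_, hnp, w', hw'b, ?_⟩
  · rw [hp', Ultrafilter.mem_map]
    filter_upwards [hTV] with z hz
    exact (hκ z hz).1
  · have h1 : Phi p' w' = y := by
      apply char_ext
      intro f hf
      exact tendsto_nhds_unique (D.phi p' hnp w' hw'b f hf) (hlim f hf)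
    rw [h1]; exact hyx

/-- `(t + 1)² ≤ 4^t` -/
theorem sq_le_four_pow (t : ℕ) : ((t : ℝ) + 1) ^ 2 ≤ 4 ^ t := by
  have h : t + 1 ≤ 2 ^ t := Nat.lt_two_pow_self
  have h1 : ((t : ℝ) + 1) ≤ 2 ^ t := by exact_mod_cast h
  calc ((t : ℝ) + 1) ^ 2 ≤ (2 ^ t) ^ 2 := pow_le_pow_left₀ (by positivity) h1 2
    _ = 4 ^ t := by rw [← pow_mul, mul_comm, pow_mul]; norm_num

/-- (e2) -/
theorem e2 (D : Dat E0 Phi) (p : Ultrafilter ℤ) (hp : ∀ n : ℤ, ({n} : Set ℤ) ∉ p) (w : ℂ)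
    (hw : w ∈ ball (0 : ℂ) 1) (h : Phi p w ∈ hull (Iset E0 Phi)) : p ∈ E0 := by
  classical
  by_contra hpE
  obtain ⟨c, F, hF⟩ := exists_bl
  -- a basic neighbourhood of `p` which misses `E0`
  obtain ⟨A', hA'p, hA'E⟩ : ∃ A' ∈ p, ∀ q ∈ E0, A' ∉ q := by
    have h1 : E0ᶜ ∈ 𝓝 p := D.closed.isOpen_compl.mem_nhds hpE
    rw [(ultrafilterBasis_is_basis).mem_nhds_iff] at h1
    obtain ⟨t, ⟨A', rfl⟩, h2, h3⟩ := h1
    exact ⟨A', h2, fun q hq hA' => h3 hA' hq⟩
  have hw1 : ‖w‖ < 1 := by rwa [mem_ball_zero_iff] at hw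
  obtain ⟨C, hC, hdec⟩ := dl_decay (r := ‖w‖) hw1
  obtain ⟨L, hL⟩ : ∃ L : ℕ, C * (4 : ℝ)⁻¹ ^ L ≤ 1 := by
    have h1 : Tendsto (fun n : ℕ => C * (4 : ℝ)⁻¹ ^ n) atTop (𝓝 (C * 0)) :=
      (tendsto_pow_atTop_nhds_zero_of_lt_one (by norm_num) (by norm_num)).const_mul C
    rw [mul_zero] at h1
    exact (h1.eventually (ge_mem_nhds one_pos)).exists
  -- the distance to `A'`
  set dist' : ℤ → ℕ := fun j => sInf {d : ℕ | ∃ a ∈ A', (j - a).natAbs = d} with hdist
  have hdist_le : ∀ j, ∀ a ∈ A', dist' j ≤ (j - a).natAbs := fun j a ha => Nat.sInf_le ⟨a, ha, rfl⟩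
  have hA'ne : A'.Nonempty := Ultrafilter.nonempty_of_mem hA'p
  have hdist_at : ∀ j, ∃ a ∈ A', (j - a).natAbs = dist' j := by
    intro j
    obtain ⟨a, ha⟩ := hA'ne
    exact Nat.sInf_mem (s := {d : ℕ | ∃ a ∈ A', (j - a).natAbs = d}) ⟨_, a, ha, rfl⟩
  set m : ℤ → ℕ := fun j => min (dist' j) j.natAbs - L with hm
  have hm1 : ∀ k, m k ≤ k.natAbs + 1 := by
    intro k
    have : m k ≤ k.natAbs := (Nat.sub_le _ _).trans (min_le_right _ _)
    omega
  have hinf : ∀ q ∈ E0, ∀ N : ℕ, {k | N ≤ m k} ∈ q := by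
    intro q hq N
    have h1 : {k : ℤ | N + L ≤ k.natAbs} ∈ q := natAbs_mem (D.npr q hq) (N + L)
    have h2 : {k : ℤ | N + L ≤ dist' k} ∈ q := by
      by_contra hcon
      have h3 : {k : ℤ | N + L ≤ dist' k}ᶜ ∈ q := Ultrafilter.compl_mem_iff_notMem.2 hcon
      have h4 : (⋃ n ∈ Icc (-(N + L : ℤ)) (N + L : ℤ), {k : ℤ | k + n ∈ A'}) ∈ q := by
        refine mem_of_superset h3 fun k hk => ?_
        have hk' : ¬ (N + L ≤ dist' k) := hk
        obtain ⟨a, ha, h5⟩ := hdist_at k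
        rw [mem_iUnion₂]
        refine ⟨a - k, ?_, ?_⟩
        · rw [mem_Icc]; omega
        · show k + (a - k) ∈ A'
          rwa [add_sub_cancel]
      rw [Ultrafilter.finite_biUnion_mem_iff (finite_Icc _ _)] at h4
      obtain ⟨n, -, hn⟩ := h4
      exact hA'E (shift n q) (D.inv q hq n) hn
    refine mem_of_superset (inter_mem h1 h2) ?_
    rintro k ⟨hk1, hk2⟩
    have hk1' : N + L ≤ k.natAbs := hk1
    have hk2' : N + L ≤ dist' k := hk2
    show N ≤ min (dist' k) k.natAbs - L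
    have := le_min hk2' hk1'
    omega
  obtain ⟨g, hg, -, hgF⟩ := hF.exists_bd hm1
  have h1 : Phi p w ⟨g, mem_A_of_Hinf hg⟩ = 0 := h _ (mem_Iset D hF hm1 hinf hg hgF)
  have h2 : c ≤ ‖Phi p w ⟨g, mem_A_of_Hinf hg⟩‖ := by
    refine phi_ge D hp hw hg hA'p fun k hk => ?_
    rw [hgF _ (tau_mem k hw)]
    refine hF.large m hm1 _ (tau_mem k hw) fun j => ?_
    rw [dl_tau j k hw]
    by_cases hmj : m j = 0
    · exact Or.inl hmj
    right
    have h3 : dist' j ≤ (j - k).natAbs := hdist_le j k hk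
    have h4 : m j ≤ (j - k).natAbs - L :=
      (Nat.sub_le_sub_right (min_le_left _ _) L).trans (Nat.sub_le_sub_right h3 L)
    obtain ⟨t, ht⟩ : ∃ t : ℕ, (j - k).natAbs = L + t := ⟨(j - k).natAbs - L, by omega⟩
    have h5 : m j ≤ t := by omega
    have h6 := hdec (j - k) w le_rfl
    have h7 : ((m j : ℝ) + 1) ^ 2 ≤ 4 ^ t := by
      refine le_trans ?_ (sq_le_four_pow t)
      have : (m j : ℝ) ≤ t := by exact_mod_cast h5
      exact pow_le_pow_left₀ (by positivity) (by linarith) 2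
    have h8 : 0 < dl (j - k) w := dl_pos (j - k) hw
    calc ((m j : ℝ) + 1) ^ 2 * dl (j - k) w ≤ 4 ^ t * (C * (4 : ℝ)⁻¹ ^ (j - k).natAbs) :=
          mul_le_mul h7 h6 h8.le (by positivity)
      _ = C * (4 : ℝ)⁻¹ ^ L * (4 ^ t * (4 : ℝ)⁻¹ ^ t) := by rw [ht, pow_add]; ring
      _ = C * (4 : ℝ)⁻¹ ^ L := by
          rw [← mul_pow]; norm_num
      _ ≤ 1 := hL
  rw [h1, norm_zero] at h2
  exact absurd hF.pos (not_lt.2 h2)

end Pool.Agent.Alling
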