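import Pool.Agent.Work.MP_ab1db7_an.Bdry

/-! # MP_ab1db7_an, `MainD`: two points of the same part -/

set_option autoImplicit false
set_option linter.unusedVariables false

open MeasureTheory Complex Set Filter Topology Metric

namespace Pool.Agent.Alling

theorem moebius_id (w a : ℂ) : ‖1 - (starRingEnd ℂ) a * w‖ ^ 2 - ‖w - a‖ ^ 2 =
    (1 - ‖w‖ ^ 2) * (1 - ‖a‖ ^ 2) := by
  simp only [← Complex.normSq_eq_norm_sq, Complex.normSq_apply, Complex.sub_re, Complex.sub_im,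
    Complex.one_re, Complex.one_im, Complex.mul_re, Complex.mul_im, Complex.conj_re,
    Complex.conj_im]
  ring

theorem moebius_le {w a : ℂ} (hw : ‖w‖ ≤ 1) (ha : ‖a‖ ≤ 1) :
    ‖w - a‖ ≤ ‖1 - (starRingEnd ℂ) a * w‖ := by
  have h1 := moebius_id w a
  have h2 : 0 ≤ (1 - ‖w‖ ^ 2) * (1 - ‖a‖ ^ 2) := by
    apply mul_nonneg
    · have := norm_nonneg w; nlinarith
    · have := norm_nonneg a; nlinarith
  exact le_of_sq_le_sq (by linarith) (norm_nonneg _)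

theorem rho_le {x y : M} {h : A} (hh : BddBy (h : L0) 1) (hx : x h = 0) : ‖y h‖ ≤ rho y x := by
  refine le_csSup ⟨1, ?_⟩ ⟨h, hh, hx, rfl⟩
  rintro s ⟨f, hf, -, rfl⟩
  exact char_le y f hf

theorem rho_nonneg (x y : M) : 0 ≤ rho y x := by
  have h := rho_le (x := x) (y := y) (h := 0) (bddBy_zero zero_le_one) (map_zero x)
  rwa [map_zero, norm_zero] at h

/-- the Moebius transform of `g` which vanishes at `x` -/
theorem exists_moebius (x : M) (g : A) {t : ℝ} (ht : t < 1) (hg : BddBy (g : L0) t) :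
    ∃ h : A, BddBy (h : L0) 1 ∧ x h = 0 ∧
      ∀ y : M, y h * (1 - (starRingEnd ℂ) (x g) * y g) = y g - x g := by
  have ht0 : 0 ≤ t := bddBy_nonneg hg
  set a : ℂ := x g with ha
  have ha1 : ‖a‖ ≤ t := char_le x g hg
  have hg1 : BddBy (((starRingEnd ℂ) a • (g : A) : A) : L0) t := by
    have h1 := bddBy_smul hg ((starRingEnd ℂ) a)
    refine BddBy.mono h1 ?_
    rw [RCLike.norm_conj]
    nlinarith
  obtain ⟨u, hu, h1⟩ := inv_mem ((starRingEnd ℂ) a • g : A).2 hg1 ht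
  set uA : A := ⟨u, hu⟩ with huA
  have h1' : (1 - (starRingEnd ℂ) a • g) * uA = 1 := Subtype.ext h1
  set h : A := (g - algebraMap ℂ A a) * uA with hh
  have hy : ∀ y : M, y h * (1 - (starRingEnd ℂ) a * y g) = y g - a := by
    intro y
    have h2 := congrArg y h1'
    rw [map_mul, map_sub, map_one, map_smul, smul_eq_mul] at h2
    rw [hh, map_mul, map_sub, AlgHom.commutes]
    simp only [Algebra.algebraMap_self, RingHom.id_apply]
    calc (y g - a) * y uA * (1 - (starRingEnd ℂ) a * y g)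
        = (y g - a) * ((1 - (starRingEnd ℂ) a * y g) * y uA) := by ring
      _ = y g - a := by rw [h2, mul_one]
  refine ⟨h, ?_, ?_, hy⟩
  · have h2 : (h : L0) = ((g : L0) - algebraMap ℂ L0 a) * u := rfl
    have h3 : (1 - (starRingEnd ℂ) a • (g : L0)) * u = 1 := h1
    rw [h2]
    have hc : (algebraMap ℂ L0 a : 𝕋 → ℂ) =ᵐ[μ] fun _ => a := by
      rw [Algebra.algebraMap_eq_smul_one]
      filter_upwards [AEEqFun.coeFn_smul a (1 : L0), AEEqFun.coeFn_one (α := 𝕋) (μ := μ) (β := ℂ)]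
        with t h3 h4
      rw [h3]
      simp [h4]
    have h4 : ((1 - (starRingEnd ℂ) a • (g : L0)) * u : L0) =ᵐ[μ] fun _ => (1 : ℂ) := by
      rw [h3]; exact AEEqFun.coeFn_one
    unfold BddBy at hg ⊢
    filter_upwards [hg, hc, h4, AEEqFun.coeFn_mul ((g : L0) - algebraMap ℂ L0 a) u,
      AEEqFun.coeFn_sub (g : L0) (algebraMap ℂ L0 a),
      AEEqFun.coeFn_mul (1 - (starRingEnd ℂ) a • (g : L0)) u,
      AEEqFun.coeFn_sub (1 : L0) ((starRingEnd ℂ) a • (g : L0)),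
      AEEqFun.coeFn_smul ((starRingEnd ℂ) a) (g : L0),
      AEEqFun.coeFn_one (α := 𝕋) (μ := μ) (β := ℂ)]
      with s k1 k2 k3 k4 k5 k6 k7 k8 k9
    rw [k4, Pi.mul_apply, k5, Pi.sub_apply, k2, norm_mul]
    rw [k6, Pi.mul_apply, k7, Pi.sub_apply, k8, k9, Pi.smul_apply, smul_eq_mul, Pi.one_apply] at k3
    have h5 := moebius_le (w := (g : L0) s) (a := a) (k1.trans ht.le) (ha1.trans ht.le)
    have h6 := congrArg norm k3
    rw [norm_mul, norm_one] at h6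
    calc ‖(g : L0) s - a‖ * ‖u s‖ ≤ ‖1 - (starRingEnd ℂ) a * (g : L0) s‖ * ‖u s‖ :=
          mul_le_mul_of_nonneg_right h5 (norm_nonneg _)
      _ = 1 := h6
  · have h2 := hy x
    rw [← ha, sub_self] at h2
    rcases mul_eq_zero.1 h2 with h3 | h3
    · exact h3
    · exfalso
      have h4 : (starRingEnd ℂ) a * a = 1 := (sub_eq_zero.1 h3).symm
      have h5 := congrArg norm h4
      rw [norm_mul, RCLike.norm_conj, norm_one] at h5
      nlinarith [norm_nonneg a]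

theorem rho_key {x y : M} {g : A} {t : ℝ} (ht : t < 1) (hg : BddBy (g : L0) t) :
    (1 - rho y x ^ 2) * ‖1 - (starRingEnd ℂ) (x g) * y g‖ ^ 2 ≤
      (1 - ‖y g‖ ^ 2) * (1 - ‖x g‖ ^ 2) := by
  obtain ⟨h, h1, h2, h3⟩ := exists_moebius x g ht hg
  have h4 := rho_le (y := y) h1 h2
  have h5 := congrArg norm (h3 y)
  rw [norm_mul] at h5
  have h6 := moebius_id (y g) (x g)
  have h7 : ‖y g - x g‖ ≤ rho y x * ‖1 - (starRingEnd ℂ) (x g) * y g‖ := by
    rw [← h5]; exact mul_le_mul_of_nonneg_right h4 (norm_nonneg _)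
  have h8 : ‖y g - x g‖ ^ 2 ≤ (rho y x * ‖1 - (starRingEnd ℂ) (x g) * y g‖) ^ 2 :=
    pow_le_pow_left₀ (norm_nonneg _) h7 2
  rw [mul_pow] at h8
  linarith

theorem numeric_end {α v κ η ε t : ℝ} (hα0 : 0 ≤ α) (hα1 : α < 1) (hη0 : 0 < η) (hv0 : 0 ≤ v)
    (hv1 : v ≤ 1) (ht : t = 1 - ε) (hvt : t * t ≤ v)
    (h1 : κ ≤ 1 - α ^ 2) (h2 : η * (1 - α) ^ 2 ≤ (1 - v ^ 2) * (1 - α ^ 2))
    (hε2 : 16 * ε < η * κ) : False := by
  have h3 : 0 < 1 - α := by linarith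
  have h4 : η * (1 - α) ≤ (1 - v ^ 2) * (1 + α) := by
    have h : (η * (1 - α)) * (1 - α) ≤ ((1 - v ^ 2) * (1 + α)) * (1 - α) := by
      calc (η * (1 - α)) * (1 - α) = η * (1 - α) ^ 2 := by ring
        _ ≤ _ := h2
        _ = _ := by ring
    exact le_of_mul_le_mul_right h h3
  have h5 : κ ≤ 2 * (1 - α) := by nlinarith
  have h6 : 1 - v ^ 2 ≤ 4 * ε := by
    have h7 : (t * t) ^ 2 ≤ v ^ 2 := pow_le_pow_left₀ (mul_self_nonneg t) hvt 2
    have h9 : 1 - 2 * ε ≤ t * t := by rw [ht]; nlinarith [sq_nonneg ε]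
    have h8 : 1 - 4 * ε ≤ (t * t) ^ 2 := by nlinarith [sq_nonneg (t * t - 1)]
    linarith
  have h7 : 0 ≤ 1 - v ^ 2 := by nlinarith
  have h8 : η * κ ≤ η * (2 * (1 - α)) := mul_le_mul_of_nonneg_left h5 hη0.le
  have h9 : (1 - v ^ 2) * (1 + α) ≤ (1 - v ^ 2) * 2 :=
    mul_le_mul_of_nonneg_left (by linarith) h7
  linarith

/-- two points of the same part cannot be separated by functions in the unit ball of `A` -/
theorem part_contra {x y₁ y₂ : M} (h₁ : y₁ ∈ part x) (h₂ : y₂ ∈ part x) {r : ℝ} (hr : r < 1)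
    (hg : ∀ ε : ℝ, 0 < ε → ∃ g : A, BddBy (g : L0) 1 ∧ ‖y₁ g‖ ≤ r ∧ 1 - ε ≤ ‖y₂ g‖) : False := by
  have hρ1 : rho y₁ x < 1 := h₁
  have hρ2 : rho y₂ x < 1 := h₂
  have hρ10 := rho_nonneg x y₁
  have hρ20 := rho_nonneg x y₂
  set κ : ℝ := (1 - rho y₁ x ^ 2) * (1 - r) ^ 2 with hκ
  set η : ℝ := 1 - rho y₂ x ^ 2 with hη
  have hη0 : 0 < η := by rw [hη]; nlinarith
  have hκ1 : 0 < 1 - rho y₁ x ^ 2 := by nlinarith
  have hκ0 : 0 < κ := mul_pos hκ1 (by have : 0 < 1 - r := by linarith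
                                      positivity)
  obtain ⟨ε, hε, hε1, hε2⟩ : ∃ ε : ℝ, 0 < ε ∧ ε < 1 ∧ 16 * ε < η * κ := by
    refine ⟨min (1 / 2) (η * κ / 32), by positivity, ?_, ?_⟩
    · exact (min_le_left _ _).trans_lt (by norm_num)
    · have := min_le_right (1 / 2) (η * κ / 32)
      have : 0 < η * κ := by positivity
      linarith
  obtain ⟨g, hgb, hg1, hg2⟩ := hg ε hε
  set t : ℝ := 1 - ε with ht
  have ht0 : 0 < t := by rw [ht]; linarith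
  have ht1 : t < 1 := by rw [ht]; linarith
  set g' : A := (t : ℂ) • g with hg'
  have hg'b : BddBy (g' : L0) t := by
    have h := bddBy_smul hgb (t : ℂ)
    rw [Complex.norm_real, Real.norm_of_nonneg ht0.le, mul_one] at h
    exact h
  have hyg : ∀ y : M, ‖y g'‖ = t * ‖y g‖ := by
    intro y
    rw [hg', map_smul, smul_eq_mul, norm_mul, Complex.norm_real, Real.norm_of_nonneg ht0.le]
  have k1 := rho_key (x := x) (y := y₁) ht1 hg'b
  have k2 := rho_key (x := x) (y := y₂) ht1 hg'b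
  set a : ℂ := x g' with ha
  set u : ℂ := y₁ g' with hu
  set v : ℂ := y₂ g' with hv
  have hat : ‖a‖ ≤ t := char_le x g' hg'b
  have hut : ‖u‖ ≤ r := by
    rw [hu, hyg]
    have := norm_nonneg (y₁ g)
    nlinarith
  have hvt : t * t ≤ ‖v‖ := by
    rw [hv, hyg]
    exact mul_le_mul_of_nonneg_left hg2 ht0.le
  have hv1 : ‖v‖ ≤ 1 := (char_le y₂ g' hg'b).trans ht1.le
  have hr0 : 0 ≤ r := (norm_nonneg _).trans hut
  have ha0 := norm_nonneg a
  have hu0 := norm_nonneg u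
  have hv0 := norm_nonneg v
  have hlow : ∀ w : ℂ, 1 - ‖a‖ * ‖w‖ ≤ ‖1 - (starRingEnd ℂ) a * w‖ := by
    intro w
    have h := norm_sub_norm_le (1 : ℂ) ((starRingEnd ℂ) a * w)
    rwa [norm_mul, RCLike.norm_conj, norm_one] at h
  -- `1 - |a|² ≥ κ`
  have h1 : κ ≤ 1 - ‖a‖ ^ 2 := by
    have h3 : 1 - r ≤ ‖1 - (starRingEnd ℂ) a * u‖ := by
      refine le_trans ?_ (hlow u)
      nlinarith
    have h4 : (1 - r) ^ 2 ≤ ‖1 - (starRingEnd ℂ) a * u‖ ^ 2 :=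
      pow_le_pow_left₀ (by linarith) h3 2
    have h5 : κ ≤ (1 - ‖u‖ ^ 2) * (1 - ‖a‖ ^ 2) :=
      (mul_le_mul_of_nonneg_left h4 hκ1.le).trans k1
    have h6 : 0 ≤ 1 - ‖a‖ ^ 2 := by nlinarith
    nlinarith [mul_nonneg (sq_nonneg ‖u‖) h6]
  have h2 : η * (1 - ‖a‖) ^ 2 ≤ (1 - ‖v‖ ^ 2) * (1 - ‖a‖ ^ 2) := by
    have h3 : 1 - ‖a‖ ≤ ‖1 - (starRingEnd ℂ) a * v‖ := by
      refine le_trans ?_ (hlow v)
      nlinarith
    have h4 : (1 - ‖a‖) ^ 2 ≤ ‖1 - (starRingEnd ℂ) a * v‖ ^ 2 :=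
      pow_le_pow_left₀ (by linarith) h3 2
    exact (mul_le_mul_of_nonneg_left h4 hη0.le).trans k2
  exact numeric_end ha0 (by linarith) hη0 hv0 hv1 ht hvt h1 h2 hε2

/-- (e4) two points of the same part cannot be separated by functions in the unit ball of `H^∞` -/
theorem part_sep (x y1 y2 : M) (h1 : y1 ∈ part x) (h2 : y2 ∈ part x) {r : ℝ} (hr : r < 1)
    (hF : ∀ ε : ℝ, 0 < ε → ∃ (g : L0) (hg : g ∈ HinfSet), BddBy g 1 ∧
      ‖y1 ⟨g, mem_A_of_Hinf hg⟩‖ ≤ r ∧ 1 - ε ≤ ‖y2 ⟨g, mem_A_of_Hinf hg⟩‖) : False :=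
  part_contra h1 h2 hr fun ε hε => by
    obtain ⟨g, hg, h3, h4, h5⟩ := hF ε hε
    exact ⟨⟨g, mem_A_of_Hinf hg⟩, h3, h4, h5⟩

end Pool.Agent.Alling
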