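import Pool.Agent.Work.MP_ab1db7_an.Bdry
import Pool.Agent.Work.MP_ab1db7_an.Comb

/-! # MP_ab1db7_an: the data used in the final construction -/

set_option autoImplicit false

open MeasureTheory Complex Set Filter Topology Metric

namespace Pool.Agent.Alling

/-- the data `E₀`, `Φ` (from `exists_E0` and `exists_Phi`) -/
structure Dat (E0 : Set (Ultrafilter ℤ)) (Phi : Ultrafilter ℤ → ℂ → M) : Prop where
  closed : IsClosed E0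
  ne : E0.Nonempty
  npr : ∀ q ∈ E0, ∀ n : ℤ, ({n} : Set ℤ) ∉ q
  inv : ∀ q ∈ E0, ∀ n : ℤ, shift n q ∈ E0
  trans : ∀ B C : Set ℤ, (∃ q ∈ E0, B ∈ q) → (∃ q ∈ E0, C ∈ q) →
    ∃ q ∈ E0, ∃ n : ℤ, B ∈ q ∧ C ∈ shift n q
  far : ∀ p ∈ E0, ∃ B : Set ℤ, (∃ q ∈ E0, B ∈ q) ∧ ∀ n : ℤ, B ∉ shift n p
  phi : ∀ q : Ultrafilter ℤ, (∀ n : ℤ, ({n} : Set ℤ) ∉ q) → ∀ z ∈ ball (0 : ℂ) 1,
    ∀ (f : L0) (hf : f ∈ HinfSet),
      Tendsto (fun k : ℤ => ext f (tau k z)) (q : Filter ℤ) (𝓝 (Phi q z ⟨f, mem_A_of_Hinf hf⟩))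

/-- the ideal `I` -/
def Iset (E0 : Set (Ultrafilter ℤ)) (Phi : Ultrafilter ℤ → ℂ → M) : Set A :=
  {f | ∀ q ∈ E0, ∀ z ∈ ball (0 : ℂ) 1, Phi q z f = 0}

end Pool.Agent.Alling
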