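import Pool.Agent.Work.MP_ab1db7_an.MainF

/-! # MP_ab1db7_an: the final assembly -/

set_option autoImplicit false

open MeasureTheory Complex Set Filter Topology Metric

namespace Pool.Agent.Alling

variable {E0 : Set (Ultrafilter ℤ)} {Phi : Ultrafilter ℤ → ℂ → M}

/-- the last step: `E` is not the closure of a Gleason part -/
theorem not_part (D : Dat E0 Phi) (x : M) : hull (Iset E0 Phi) ≠ closure (part x) := by
  classical
  intro hx
  obtain ⟨q0, hq0⟩ := D.ne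
  obtain ⟨p, -, hpn, w, hw, hpw⟩ := e1 D x hx q0 hq0 univ univ_mem
  have hpE : Phi p w ∈ hull (Iset E0 Phi) := hx ▸ subset_closure hpw
  have hpE0 : p ∈ E0 := e2 D p hpn w hw hpE
  obtain ⟨B, ⟨q, hq, hBq⟩, hB⟩ := D.far p hpE0
  obtain ⟨p', hBp', hp'n, w', hw', hpw'⟩ := e1 D x hx q hq B hBq
  have hw1 : ‖w‖ < 1 := by simpa using hw
  refine part_sep x (Phi p w) (Phi p' w') hpw hpw' hw1 (fun ε hε => ?_)
  obtain ⟨c, F, hc, hF1, hF2, hF3, hF4⟩ := exists_blaschke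
  obtain ⟨J, hJ⟩ := hF4 w' hw' ε hε
  obtain ⟨C, hCdef⟩ : ∃ C : Set ℤ, C = {j | ∀ k ∈ B, (J : ℤ) ≤ |j - k|} := ⟨_, rfl⟩
  have hC : C ∈ p := by
    have h1 : (⋂ n ∈ Ioo (-(J : ℤ)) J, {j : ℤ | j + n ∈ B}ᶜ) ∈ (p : Filter ℤ) := by
      refine (biInter_mem (finite_Ioo _ _)).2 fun n _ => ?_
      refine Ultrafilter.compl_mem_iff_notMem.2 fun h => hB n ?_
      exact h
    refine mem_of_superset h1 fun j hj => ?_
    rw [hCdef]
    intro k hk
    by_contra hlt
    push Not at hlt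
    rw [abs_lt] at hlt
    have h2 := mem_iInter₂.1 hj (k - j) ⟨by linarith [hlt.2], by linarith [hlt.1]⟩
    apply h2
    have h3 : j + (k - j) = k := by ring
    show j + (k - j) ∈ B
    rwa [h3]
  obtain ⟨m, hm⟩ : ∃ m : ℤ → ℕ, ∀ j, m j = if j ∈ C then 1 else 0 := ⟨_, fun _ => rfl⟩
  have hm1 : ∀ j, m j ≤ 1 := fun j => by rw [hm]; split_ifs <;> norm_num
  have hmk : ∀ j, m j ≤ j.natAbs + 1 := fun j => (hm1 j).trans (Nat.le_add_left _ _)
  obtain ⟨g, hg, hgb, hgF⟩ := exists_bdry (hF1 m hmk)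
  refine ⟨g, hg, hgb, ?_, ?_⟩
  · refine le_of_tendsto (D.phi p hpn w hw g hg).norm ?_
    filter_upwards [hC] with k hk
    rw [hgF _ (tau_mem k hw)]
    have h1 := hF2 m hmk k w hw
    rw [hm, if_pos hk, pow_one] at h1
    exact h1
  · refine ge_of_tendsto (D.phi p' hp'n w' hw' g hg).norm ?_
    filter_upwards [hBp'] with k hk
    rw [hgF _ (tau_mem k hw')]
    refine hJ m k hm1 fun j hj => ?_
    have hjC : j ∈ C := by
      by_contra h
      rw [hm, if_neg h] at hj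
      exact zero_ne_one hj
    rw [hCdef] at hjC
    exact hjC k hk

theorem hull_closed (I : Set A) : HullKernelClosed (hull I) := by
  refine Subset.antisymm (fun φ hφ f hf => hf φ hφ) fun φ hφ f hf => hφ f fun ψ hψ => hψ f hf

/-- **Main theorem** -/
theorem main : ∃ E : Set M, HullKernelClosed E ∧ TAnalytic E ∧ E.Nontrivial ∧
    ∀ x : M, E ≠ closure (part x) := by
  obtain ⟨E0, h1, h2, h3, h4, h5, h6⟩ := exists_E0
  obtain ⟨Phi, h7⟩ := exists_Phi
  have D : Dat E0 Phi := ⟨h1, h2, h3, h4, h5, h6, h7⟩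
  exact ⟨hull (Iset E0 Phi), hull_closed _, tanalytic D (density D), nontriv D, not_part D⟩

end Pool.Agent.Alling
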