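import Pool.Agent.Work.MP_ab1db7_an.Corona
import Pool.Agent.Work.MP_ab1db7_an.MainA
import Pool.Agent.Work.MP_ab1db7_an.MainB
import Pool.Agent.Work.MP_ab1db7_an.MainC
import Pool.Agent.Work.MP_ab1db7_an.MainD

/-! # MP_ab1db7_an: the interface statements `density` and `e1` (corona theorem inserted) -/

set_option autoImplicit false

open MeasureTheory Complex Set Filter Topology Metric

namespace Pool.Agent.Alling

variable {E0 : Set (Ultrafilter ℤ)} {Phi : Ultrafilter ℤ → ℂ → M}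

theorem coronaStatement : CoronaStatement := fun f hf _ hδ hl => corona f hf hδ hl

theorem density (D : Dat E0 Phi) : ∀ φ ∈ hull (Iset E0 Phi), ∀ U : Set M, IsOpen U → φ ∈ U →
      ∃ q ∈ E0, ∃ z ∈ ball (0 : ℂ) 1, Phi q z ∈ U :=
  fun _ hφ _ hU hφU => density_of_corona coronaStatement D hφ hU hφU

/-- (e1) -/
theorem e1 (D : Dat E0 Phi) (x : M) (hx : hull (Iset E0 Phi) = closure (part x))
    (q : Ultrafilter ℤ) (hq : q ∈ E0) (B : Set ℤ) (hB : B ∈ q) :
    ∃ p' : Ultrafilter ℤ, B ∈ p' ∧ (∀ n : ℤ, ({n} : Set ℤ) ∉ p') ∧ ∃ w' ∈ ball (0 : ℂ) 1,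
      Phi p' w' ∈ part x :=
  e1_of_corona coronaStatement D x hx q hq B hB

end Pool.Agent.Alling
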