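import Pool.Agent.Work.MP_ab1db7_an.MainDefs
import Pool.Agent.Work.MP_ab1db7_an.Limit

/-! # MP_ab1db7_an, `MainP`: common lemmas for the assembly -/

set_option autoImplicit false

open MeasureTheory Complex Set Filter Topology Metric

namespace Pool.Agent.Alling

/-- the properties of the Blaschke products -/
structure Bl (c : ℝ) (F : (ℤ → ℕ) → ℂ → ℂ) : Prop where
  pos : 0 < c
  hol : ∀ m : ℤ → ℕ, (∀ k, m k ≤ k.natAbs + 1) → HolBdd (F m) 1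
  small : ∀ m : ℤ → ℕ, (∀ k, m k ≤ k.natAbs + 1) → ∀ (k : ℤ) (z : ℂ), z ∈ ball (0 : ℂ) 1 →
      ‖F m (tau k z)‖ ≤ ‖z‖ ^ m k
  large : ∀ m : ℤ → ℕ, (∀ k, m k ≤ k.natAbs + 1) → ∀ z ∈ ball (0 : ℂ) 1,
      (∀ k, m k = 0 ∨ ((m k : ℝ) + 1) ^ 2 * dl k z ≤ 1) → c ≤ ‖F m z‖
  near : ∀ z ∈ ball (0 : ℂ) 1, ∀ ε : ℝ, 0 < ε → ∃ J : ℕ, ∀ (m : ℤ → ℕ) (k : ℤ), (∀ j, m j ≤ 1) →
      (∀ j, m j = 1 → (J : ℤ) ≤ |j - k|) → 1 - ε ≤ ‖F m (tau k z)‖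

theorem exists_bl : ∃ (c : ℝ) (F : (ℤ → ℕ) → ℂ → ℂ), Bl c F := by
  obtain ⟨c, F, h1, h2, h3, h4, h5⟩ := exists_blaschke
  exact ⟨c, F, ⟨h1, h2, h3, h4, h5⟩⟩

variable {E0 : Set (Ultrafilter ℤ)} {Phi : Ultrafilter ℤ → ℂ → M} {c : ℝ}
  {F : (ℤ → ℕ) → ℂ → ℂ}

/-- (a) -/
theorem hullKernelClosed_hull : HullKernelClosed (hull (Iset E0 Phi)) := by
  apply Subset.antisymm
  · intro φ hφ f hf
    exact hf φ hφ
  · intro φ hφ f hf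
    exact hφ f fun ψ hψ => hψ f hf

theorem Phi_mem_hull {q : Ultrafilter ℤ} (hq : q ∈ E0) {z : ℂ} (hz : z ∈ ball (0 : ℂ) 1) :
    Phi q z ∈ hull (Iset E0 Phi) := fun _ hf => hf q hq z hz

/-- the boundary function of the Blaschke product -/
theorem Bl.exists_bd (hB : Bl c F) {m : ℤ → ℕ} (hm : ∀ k, m k ≤ k.natAbs + 1) :
    ∃ (g : L0) (_ : g ∈ HinfSet), BddBy g 1 ∧ ∀ z ∈ ball (0 : ℂ) 1, ext g z = F m z := by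
  obtain ⟨g, hg, h1, h2⟩ := exists_bdry (hB.hol m hm)
  exact ⟨g, hg, h1, h2⟩

theorem phi_le (D : Dat E0 Phi) {q : Ultrafilter ℤ} (hq : ∀ n : ℤ, ({n} : Set ℤ) ∉ q)
    {z : ℂ} (hz : z ∈ ball (0 : ℂ) 1) {f : L0} (hf : f ∈ HinfSet) {T : Set ℤ} (hT : T ∈ q)
    {a : ℝ} (h : ∀ k ∈ T, ‖ext f (tau k z)‖ ≤ a) : ‖Phi q z ⟨f, mem_A_of_Hinf hf⟩‖ ≤ a :=
  le_of_tendsto (D.phi q hq z hz f hf).norm (mem_of_superset hT h)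

theorem phi_ge (D : Dat E0 Phi) {q : Ultrafilter ℤ} (hq : ∀ n : ℤ, ({n} : Set ℤ) ∉ q)
    {z : ℂ} (hz : z ∈ ball (0 : ℂ) 1) {f : L0} (hf : f ∈ HinfSet) {T : Set ℤ} (hT : T ∈ q)
    {a : ℝ} (h : ∀ k ∈ T, a ≤ ‖ext f (tau k z)‖) : a ≤ ‖Phi q z ⟨f, mem_A_of_Hinf hf⟩‖ :=
  ge_of_tendsto (D.phi q hq z hz f hf).norm (mem_of_superset hT h)

theorem phi_dist_le (D : Dat E0 Phi) {q : Ultrafilter ℤ} (hq : ∀ n : ℤ, ({n} : Set ℤ) ∉ q)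
    {z : ℂ} (hz : z ∈ ball (0 : ℂ) 1) {f : L0} (hf : f ∈ HinfSet) {T : Set ℤ} (hT : T ∈ q)
    {a : ℝ} {b : ℂ} (h : ∀ k ∈ T, ‖ext f (tau k z) - b‖ ≤ a) :
    ‖Phi q z ⟨f, mem_A_of_Hinf hf⟩ - b‖ ≤ a :=
  le_of_tendsto ((D.phi q hq z hz f hf).sub_const b).norm (mem_of_superset hT h)

/-- if `m → ∞` along all `q ∈ E₀` then the boundary function of `F_m` is in `I` -/
theorem mem_Iset (D : Dat E0 Phi) (hB : Bl c F) {m : ℤ → ℕ} (hm : ∀ k, m k ≤ k.natAbs + 1)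
    (hinf : ∀ q ∈ E0, ∀ N : ℕ, {k | N ≤ m k} ∈ q) {g : L0} (hg : g ∈ HinfSet)
    (hgF : ∀ z ∈ ball (0 : ℂ) 1, ext g z = F m z) :
    (⟨g, mem_A_of_Hinf hg⟩ : A) ∈ Iset E0 Phi := by
  intro q hq z hz
  have hz1 : ‖z‖ < 1 := by rwa [mem_ball_zero_iff] at hz
  have h1 : ∀ N : ℕ, ‖Phi q z ⟨g, mem_A_of_Hinf hg⟩‖ ≤ ‖z‖ ^ N := by
    intro N
    refine phi_le D (D.npr q hq) hz hg (hinf q hq N) fun k hk => ?_
    rw [hgF _ (tau_mem k hz)]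
    refine (hB.small m hm k z hz).trans ?_
    exact pow_le_pow_of_le_one (norm_nonneg _) hz1.le hk
  have h2 : ‖Phi q z ⟨g, mem_A_of_Hinf hg⟩‖ ≤ 0 :=
    ge_of_tendsto' (tendsto_pow_atTop_nhds_zero_of_lt_one (norm_nonneg z) hz1) h1
  exact norm_le_zero_iff.1 h2

theorem finite_notMem {q : Ultrafilter ℤ} (hq : ∀ n : ℤ, ({n} : Set ℤ) ∉ q) {s : Set ℤ}
    (hs : s.Finite) : s ∉ q := by
  intro hsq
  rw [← biUnion_of_singleton s, Ultrafilter.finite_biUnion_mem_iff hs] at hsq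
  obtain ⟨n, -, hn⟩ := hsq
  exact hq n hn

theorem natAbs_mem {q : Ultrafilter ℤ} (hq : ∀ n : ℤ, ({n} : Set ℤ) ∉ q) (N : ℕ) :
    {k : ℤ | N ≤ k.natAbs} ∈ q := by
  by_contra h
  have h1 : {k : ℤ | N ≤ k.natAbs}ᶜ ∈ q := Ultrafilter.compl_mem_iff_notMem.2 h
  refine finite_notMem hq ?_ h1
  refine (finite_Icc (-(N : ℤ)) N).subset ?_
  intro k hk
  have hk' : ¬ (N ≤ k.natAbs) := hk
  rw [mem_Icc]
  omega

theorem exists_lim {ι : Type*} (U : Ultrafilter ι) (w : ι → ℂ) {r : ℝ} (hw : ∀ i, ‖w i‖ ≤ r) :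
    ∃ w' : ℂ, ‖w'‖ ≤ r ∧ Tendsto w U (𝓝 w') := by
  have h := (isCompact_closedBall (0 : ℂ) r).ultrafilter_le_nhds (U.map w) (by
    rw [le_principal_iff, Ultrafilter.mem_coe, Ultrafilter.mem_map]
    refine mem_of_superset univ_mem fun i _ => ?_
    rw [mem_preimage, mem_closedBall_zero_iff]
    exact hw i)
  obtain ⟨w', h1, h2⟩ := h
  exact ⟨w', mem_closedBall_zero_iff.1 h1, h2⟩

theorem norm_of_dl {k : ℤ} {w : ℂ} {δ : ℝ} (h : δ < dl k w) :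
    ‖tau (-k) w‖ ≤ Real.sqrt (1 - δ) := by
  unfold dl at h
  apply Real.le_sqrt_of_sq_le
  linarith

theorem sqrt_lt_one' {δ : ℝ} (h : 0 < δ) : Real.sqrt (1 - δ) < 1 := by
  rw [Real.sqrt_lt' one_pos]; linarith

end Pool.Agent.Alling
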