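import Pool.Agent.Work.MP_ab1db7_an.Jet2
import Pool.Agent.Work.MP_ab1db7_an.Defs2

/-! # MP_ab1db7_an: maximum principle and the sub-mean value inequality -/

set_option autoImplicit false

open MeasureTheory Complex Filter Topology Asymptotics Metric Set
open scoped ComplexConjugate

namespace Pool.Agent.Alling

theorem max_principle {w : ℂ → ℝ} (hc : ContinuousOn w (closedBall 0 1))
    (hj : ∀ z ∈ ball (0 : ℂ) 1, ∃ a b c e : ℂ, J (fun z => (w z : ℂ)) z a b c e ∧ 0 < e.re)
    {K : ℝ} (hK : ∀ z ∈ sphere (0 : ℂ) 1, w z ≤ K) : ∀ z ∈ closedBall (0 : ℂ) 1, w z ≤ K := by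
  obtain ⟨z0, hz0, hmax⟩ := (isCompact_closedBall (0 : ℂ) 1).exists_isMaxOn
    ⟨0, mem_closedBall_self zero_le_one⟩ hc
  intro z hz
  refine (hmax hz).trans ?_
  rcases (mem_closedBall.1 hz0).lt_or_eq with h | h
  swap
  · exact hK z0 h
  exfalso
  obtain ⟨a, b, c, e, hJ, he⟩ := hj z0 h
  have ha := hJ.value
  obtain ⟨d, g, hR⟩ := hJ
  have h1 := (isLittleO_iff.1 hR) (half_pos he)
  have h2 : ∀ᶠ t : ℂ in 𝓝 0, z0 + t ∈ ball (0 : ℂ) 1 := by
    have h3 : Tendsto (fun t : ℂ => z0 + t) (𝓝 0) (𝓝 z0) := by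
      have : Tendsto (fun t : ℂ => z0 + t) (𝓝 0) (𝓝 (z0 + 0)) :=
        tendsto_const_nhds.add tendsto_id
      simpa using this
    exact h3.eventually (isOpen_ball.mem_nhds h)
  obtain ⟨ε, hε, hball⟩ := Metric.eventually_nhds_iff.1 (h1.and h2)
  obtain ⟨s, hs0, hsε⟩ : ∃ s : ℝ, 0 < s ∧ s < ε := ⟨ε / 2, by positivity, by linarith⟩
  have key : ∀ u : ℂ, ‖u‖ = 1 → ((a : ℂ) + (b * (s * u) + c * conj (s * u)) +
      (d * (s * u) ^ 2 + e * ((s * u) * conj (s * u)) + g * (conj (s * u)) ^ 2)).re ≤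
        w z0 + e.re / 2 * s ^ 2 := by
    intro u hu
    have hnu : ‖(s : ℂ) * u‖ = s := by
      rw [norm_mul, hu, mul_one, Complex.norm_real, Real.norm_of_nonneg hs0.le]
    obtain ⟨h3, h4⟩ := hball (y := (s : ℂ) * u) (by rw [dist_zero_right, hnu]; exact hsε)
    have h5 : w (z0 + s * u) ≤ w z0 := hmax (ball_subset_closedBall h4)
    rw [hnu, norm_pow, Real.norm_of_nonneg hs0.le] at h3
    have h6 := (Complex.abs_re_le_norm _).trans h3
    rw [Complex.sub_re, Complex.ofReal_re] at h6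
    have h7 := (abs_le.1 h6).1
    linarith
  have k1 := key 1 (by simp)
  have k2 := key (-1) (by simp)
  have k3 := key I (by simp)
  have k4 := key (-I) (by simp)
  have ha' : a.re = w z0 := by rw [← ha, Complex.ofReal_re]
  have hsum : ((a : ℂ) + (b * (s * 1) + c * conj ((s : ℂ) * 1)) +
      (d * (s * 1) ^ 2 + e * (((s : ℂ) * 1) * conj ((s : ℂ) * 1)) + g * (conj ((s : ℂ) * 1)) ^ 2)).re +
      ((a : ℂ) + (b * (s * (-1)) + c * conj ((s : ℂ) * (-1))) +
      (d * (s * (-1)) ^ 2 + e * (((s : ℂ) * (-1)) * conj ((s : ℂ) * (-1))) +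
        g * (conj ((s : ℂ) * (-1))) ^ 2)).re +
      ((a : ℂ) + (b * (s * I) + c * conj ((s : ℂ) * I)) +
      (d * (s * I) ^ 2 + e * (((s : ℂ) * I) * conj ((s : ℂ) * I)) + g * (conj ((s : ℂ) * I)) ^ 2)).re +
      ((a : ℂ) + (b * (s * (-I)) + c * conj ((s : ℂ) * (-I))) +
      (d * (s * (-I)) ^ 2 + e * (((s : ℂ) * (-I)) * conj ((s : ℂ) * (-I))) +
        g * (conj ((s : ℂ) * (-I))) ^ 2)).re = 4 * a.re + 4 * e.re * s ^ 2 := by
    rw [← Complex.add_re, ← Complex.add_re, ← Complex.add_re]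
    have : ∀ x : ℂ, x = 4 * a + 4 * e * (s : ℂ) ^ 2 → x.re = 4 * a.re + 4 * e.re * s ^ 2 := by
      rintro x rfl
      have h4 : (4 * a + 4 * e * (s : ℂ) ^ 2) = ((4 : ℝ) : ℂ) * a + ((4 * s ^ 2 : ℝ) : ℂ) * e := by
        push_cast; ring
      rw [h4, Complex.add_re, Complex.re_ofReal_mul, Complex.re_ofReal_mul]
      ring
    apply this
    simp only [map_mul, map_neg, map_one, Complex.conj_ofReal, Complex.conj_I]
    have hI : I ^ 2 = -1 := Complex.I_sq
    linear_combination (2 * d * (s : ℂ) ^ 2 - 2 * e * (s : ℂ) ^ 2 + 2 * g * (s : ℂ) ^ 2) * hI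
  have hpos : 0 < e.re * s ^ 2 := by positivity
  rw [ha'] at hsum
  linarith

theorem int_fourier (n : ℤ) : ∫ t : 𝕋, (fourier n t : ℂ) ∂μ = if n = 0 then 1 else 0 := by
  have h := congrFun (fourierCoeff_fourier (T := 1) n) 0
  rw [fourierCoeff] at h
  simp only [neg_zero, fourier_zero, one_smul] at h
  rw [h, Pi.single_apply]
  by_cases hn : n = 0
  · simp [hn]
  · simp [hn, Ne.symm hn]

theorem fourier_one_pow (n : ℕ) (t : 𝕋) : (fourier 1 t : ℂ) ^ n = fourier (n : ℤ) t := by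
  induction n with
  | zero => simp
  | succ n ih =>
    rw [pow_succ, ih, ← fourier_add]
    push_cast
    rfl

theorem norm_fourier (n : ℤ) (t : 𝕋) : ‖(fourier n t : ℂ)‖ = 1 := by
  rw [fourier_apply, Circle.norm_coe]

theorem harm_ext {p : C(𝕋, ℂ)} (hp : p ∈ Submodule.span ℂ (range fun n : ℤ => (fourier n : C(𝕋, ℂ)))) :
    ∃ H : ℂ → ℂ, Continuous H ∧ (∀ t : 𝕋, H (fourier 1 t) = p t) ∧ H 0 = ∫ t, p t ∂μ ∧
      ∀ z, ∃ a b c, J H z a b c 0 := by
  induction hp using Submodule.span_induction with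
  | mem x hx =>
    obtain ⟨n, rfl⟩ := hx
    rcases Int.eq_nat_or_neg n with ⟨k, rfl | rfl⟩
    · refine ⟨fun z => z ^ k, continuous_id.pow k, fun t => fourier_one_pow k t, ?_, fun z =>
        ⟨_, _, _, J_analytic (by fun_prop)⟩⟩
      simp only [int_fourier]
      by_cases hk : k = 0 <;> simp [hk]
    · refine ⟨fun z => conj (z ^ k), Complex.continuous_conj.comp (continuous_id.pow k),
        fun t => ?_, ?_, fun z => ?_⟩
      · simp only [fourier_one_pow, fourier_neg]
      · simp only [int_fourier]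
        by_cases hk : k = 0 <;> simp [hk]
      · have h : J (fun z : ℂ => z ^ k) z _ _ 0 0 := J_analytic (by fun_prop)
        have h2 := h.conj
        rw [map_zero] at h2
        exact ⟨_, _, _, h2⟩
  | zero => exact ⟨fun _ => 0, continuous_const, fun t => rfl, by simp,
      fun z => ⟨_, _, _, J_const z 0⟩⟩
  | add x y hx hy ihx ihy =>
    obtain ⟨H1, c1, e1, i1, j1⟩ := ihx
    obtain ⟨H2, c2, e2, i2, j2⟩ := ihy
    refine ⟨fun z => H1 z + H2 z, c1.add c2, fun t => ?_, ?_, fun z => ?_⟩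
    · simp only [ContinuousMap.add_apply, e1, e2]
    · simp only [i1, i2, ContinuousMap.add_apply]
      rw [integral_add]
      · exact x.continuous.integrable_of_hasCompactSupport (HasCompactSupport.of_compactSpace _)
      · exact y.continuous.integrable_of_hasCompactSupport (HasCompactSupport.of_compactSpace _)
    · obtain ⟨a, b, c, h1⟩ := j1 z
      obtain ⟨a', b', c', h2⟩ := j2 z
      exact ⟨_, _, _, (h1.add h2).congr' rfl rfl rfl (by ring)⟩
  | smul k x hx ih =>
    obtain ⟨H1, c1, e1, i1, j1⟩ := ih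
    refine ⟨fun z => k * H1 z, continuous_const.mul c1, fun t => ?_, ?_, fun z => ?_⟩
    · simp only [ContinuousMap.smul_apply, smul_eq_mul, e1]
    · simp only [i1, ContinuousMap.smul_apply, smul_eq_mul]
      rw [integral_const_mul]
    · obtain ⟨a, b, c, h1⟩ := j1 z
      exact ⟨_, _, _, (h1.smul k).congr' rfl rfl rfl (by ring)⟩

theorem int_cont {E : Type*} [NormedAddCommGroup E] {f : 𝕋 → E} (hf : Continuous f) :
    Integrable f μ :=
  hf.integrable_of_hasCompactSupport (HasCompactSupport.of_compactSpace _)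

theorem circ_mem (t : 𝕋) : (fourier 1 t : ℂ) ∈ sphere (0 : ℂ) 1 := by
  rw [mem_sphere_zero_iff_norm]; exact norm_fourier 1 t

theorem cont_bdry {E : Type*} [TopologicalSpace E] {w : ℂ → E}
    (hc : ContinuousOn w (closedBall 0 1)) : Continuous fun t : 𝕋 => w (fourier 1 t) :=
  hc.comp_continuous (fourier 1).continuous fun t => sphere_subset_closedBall (circ_mem t)

/-- sub-mean value inequality -/
theorem sub_mean {w : ℂ → ℝ} (hc : ContinuousOn w (closedBall 0 1))
    (hj : ∀ z ∈ ball (0 : ℂ) 1, ∃ a b c e : ℂ, J (fun z => (w z : ℂ)) z a b c e ∧ 0 ≤ e.re) :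
    w 0 ≤ ∫ t : 𝕋, w (fourier 1 t) ∂μ := by
  refine le_of_forall_pos_le_add fun ε hε => ?_
  obtain ⟨η, hη, hη3⟩ : ∃ η : ℝ, 0 < η ∧ 3 * η ≤ ε := ⟨ε / 3, by positivity, by linarith⟩
  -- approximation by a trigonometric polynomial
  obtain ⟨φ, hφ⟩ : ∃ φ : C(𝕋, ℂ), ∀ t, φ t = (w (fourier 1 t) : ℂ) :=
    ⟨⟨fun t => (w (fourier 1 t) : ℂ), Complex.continuous_ofReal.comp (cont_bdry hc)⟩, fun t => rfl⟩
  have hφm : φ ∈ (Submodule.span ℂ (range fun n : ℤ => (fourier n : C(𝕋, ℂ)))).topologicalClosure := by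
    have := span_fourier_closure_eq_top (T := 1)
    rw [this]; exact Submodule.mem_top
  obtain ⟨p, hp, hpd⟩ := Metric.mem_closure_iff.1 hφm η hη
  obtain ⟨H, hHc, hHt, hH0, hHj⟩ := harm_ext hp
  have hclose : ∀ t : 𝕋, |w (fourier 1 t) - (H (fourier 1 t)).re| ≤ η := by
    intro t
    have h1 : ‖φ t - p t‖ ≤ η := by
      have := (φ - p).norm_coe_le_norm t
      rw [← dist_eq_norm] at this
      exact this.trans hpd.le
    rw [hφ, ← hHt] at h1
    have h2 := (Complex.abs_re_le_norm _).trans h1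
    simpa using h2
  -- compare
  have hmax := max_principle (w := fun z => w z - (H z).re + η * ‖z‖ ^ 2) (K := 2 * η) ?_ ?_ ?_ 0
    (mem_closedBall_self zero_le_one)
  · have h3 : w 0 ≤ (H 0).re + 2 * η := by simpa [sub_le_iff_le_add, add_comm] using hmax
    have h4 : (H 0).re ≤ (∫ t : 𝕋, w (fourier 1 t) ∂μ) + η := by
      rw [hH0]
      have h5 : (∫ t : 𝕋, p t ∂μ).re = ∫ t : 𝕋, (p t).re ∂μ := by
        have := integral_re (𝕜 := ℂ) (int_cont p.continuous)
        simpa using this.symm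
      rw [h5]
      have h6 : (∫ t : 𝕋, (p t).re ∂μ) ≤ ∫ t : 𝕋, (w (fourier 1 t) + η) ∂μ := by
        refine integral_mono (int_cont (Complex.continuous_re.comp p.continuous))
          (int_cont ((cont_bdry hc).add continuous_const)) fun t => ?_
        have := (abs_le.1 (hclose t)).1
        rw [hHt] at this
        dsimp only
        linarith
      rw [integral_add (int_cont (cont_bdry hc)) (int_cont continuous_const)] at h6
      simpa using h6
    linarith
  · exact (hc.sub (Complex.continuous_re.comp hHc).continuousOn).add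
      (continuous_const.mul (continuous_norm.pow 2)).continuousOn
  · intro z hz
    obtain ⟨a, b, c, e, hJ, he⟩ := hj z hz
    obtain ⟨a', b', c', hJ'⟩ := hHj z
    have hid : J (fun w : ℂ => w) z z (deriv (fun w : ℂ => w) z) 0 0 := J_analytic (by fun_prop)
    have hd : deriv (fun w : ℂ => w) z = 1 := by simp
    rw [hd] at hid
    have h1 := ((hJ.add ((hJ'.add hJ'.conj).smul (-(1 / 2)))).add ((hid.mul hid.conj).smul η))
    refine ⟨_, _, _, _, h1.congr (Eventually.of_forall fun u => ?_), ?_⟩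
    · have h2 : (((H u).re : ℝ) : ℂ) = (H u + conj (H u)) / 2 := by
        rw [Complex.add_conj]; push_cast; ring
      have h3 : ((‖u‖ ^ 2 : ℝ) : ℂ) = u * conj u := by
        rw [Complex.mul_conj, Complex.normSq_eq_norm_sq]
      push_cast
      push_cast at h3
      rw [h2, h3]
      ring
    · simp only [map_one, map_zero, Complex.add_re]
      have h4 : ((η : ℂ) * (z * 0 + 0 * (starRingEnd ℂ) z + 1 * 1 + 0 * 0)).re = η := by simp
      simp
      linarith
  · intro z hz
    have hz1 : ‖z‖ = 1 := by simpa using hz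
    obtain ⟨t, rfl⟩ : ∃ t : 𝕋, (fourier 1 t : ℂ) = z := by
      refine ⟨((Complex.arg z / (2 * Real.pi) : ℝ) : 𝕋), ?_⟩
      rw [fourier_coe_apply]
      have h5 : (2 * Real.pi * I * (1 : ℤ) * (Complex.arg z / (2 * Real.pi) : ℝ) / (1 : ℝ) : ℂ) =
          Complex.arg z * I := by
        push_cast
        have : (Real.pi : ℂ) ≠ 0 := by exact_mod_cast Real.pi_ne_zero
        field_simp
      rw [h5]
      have h6 := Complex.norm_mul_exp_arg_mul_I z
      rw [hz1] at h6
      simpa using h6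
    have h7 := (abs_le.1 (hclose t)).2
    have h8 : ‖(fourier 1 t : ℂ)‖ = 1 := norm_fourier 1 t
    rw [h8]
    linarith

end Pool.Agent.Alling
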